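import Pool.Agent.Lib.MP_36248f_gt.Model

open Set

namespace Pool.Agent.Lib.MP_36248f_gt

theorem hypa_key (v z : V) : 2 * v 3 * z 3 * B v z = (v 0 * z 3 - z 0 * v 3) ^ 2 +
    (v 1 * z 3 - z 1 * v 3) ^ 2 + B v v * z 3 ^ 2 + B z z * v 3 ^ 2 := by
  unfold B
  ring

theorem hypa_self (v : V) : B v v = v 2 * v 3 - v 0 ^ 2 - v 1 ^ 2 := by
  unfold B
  ring

theorem hypa_sign {c : V} (hc : 0 ≤ B c c) (hc' : 0 < c 2 + c 3) : 0 ≤ c 2 ∧ 0 ≤ c 3 := by
  rw [hypa_self] at hc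
  constructor <;> nlinarith [sq_nonneg (c 0), sq_nonneg (c 1)]

theorem hypa_zero {c : V} (hc : 0 ≤ B c c) (h3 : c 3 = 0) : c 0 = 0 ∧ c 1 = 0 := by
  rw [hypa_self, h3] at hc
  constructor <;> nlinarith [sq_nonneg (c 0), sq_nonneg (c 1)]

theorem hypa_two {v : V} (hv : v ∈ HH) : 0 < v 2 := by
  obtain ⟨h1, h3⟩ := hv
  rw [hypa_self] at h1
  refine (mul_pos_iff_of_pos_right h3).1 ?_
  nlinarith [sq_nonneg (v 0), sq_nonneg (v 1)]

theorem hypa_causal {a : V} (ha : a ∈ HH ∪ NN) : 0 ≤ B a a ∧ 0 < a 2 + a 3 := by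
  rcases ha with ha | ha
  · exact ⟨by rw [ha.1]; exact zero_le_one, add_pos (hypa_two ha) ha.2⟩
  · exact ⟨ha.1.ge, ha.2⟩

theorem hypa_perp {b d : V} (hb : b ∈ HH) (h : B d b = 0) : B d d ≤ 0 := by
  have h1 := hypa_key d b
  rw [h, hb.1] at h1
  by_contra h2
  nlinarith [sq_nonneg (d 0 * b 3 - b 0 * d 3), sq_nonneg (d 1 * b 3 - b 1 * d 3), sq_nonneg (d 3),
    mul_pos (not_le.1 h2) (pow_pos hb.2 2)]

theorem one_le_B {a b : V} (ha : a ∈ HH) (hb : b ∈ HH) : 1 ≤ B a b := by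
  have h1 := hypa_key a b
  rw [ha.1, hb.1] at h1
  by_contra h2
  nlinarith [sq_nonneg (a 0 * b 3 - b 0 * a 3), sq_nonneg (a 1 * b 3 - b 1 * a 3),
    sq_nonneg (a 3 - b 3), mul_pos (mul_pos ha.2 hb.2) (sub_pos.2 (not_le.1 h2))]

theorem eq_of_B_le_one {a b : V} (ha : a ∈ HH) (hb : b ∈ HH) (h : B a b ≤ 1) : a = b := by
  obtain ⟨x1, x3⟩ := ha
  obtain ⟨y1, y3⟩ := hb
  have h1 := hypa_key a b
  rw [x1, y1] at h1
  have h2 : (a 0 * b 3 - b 0 * a 3) ^ 2 + (a 1 * b 3 - b 1 * a 3) ^ 2 + (a 3 - b 3) ^ 2 ≤ 0 := by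
    nlinarith [mul_pos x3 y3]
  have e3 : a 3 = b 3 := by
    nlinarith [sq_nonneg (a 0 * b 3 - b 0 * a 3), sq_nonneg (a 1 * b 3 - b 1 * a 3),
      sq_nonneg (a 3 - b 3)]
  rw [e3] at h2
  have e0 : a 0 = b 0 := mul_right_cancel₀ y3.ne' (by
    nlinarith [sq_nonneg (a 0 * b 3 - b 0 * b 3), sq_nonneg (a 1 * b 3 - b 1 * b 3)])
  have e1 : a 1 = b 1 := mul_right_cancel₀ y3.ne' (by
    nlinarith [sq_nonneg (a 0 * b 3 - b 0 * b 3), sq_nonneg (a 1 * b 3 - b 1 * b 3)])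
  have e2 : a 2 = b 2 := mul_right_cancel₀ y3.ne' (by
    rw [hypa_self, e0, e1, e3] at x1
    rw [hypa_self] at y1
    linarith)
  funext i
  fin_cases i <;> assumption

theorem B_pos_causal {v c : V} (hv : v ∈ HH) (hc : 0 ≤ B c c) (hc' : 0 < c 2 + c 3) :
    0 < B v c := by
  rcases (hypa_sign hc hc').2.eq_or_lt with h3 | h3
  · obtain ⟨a0, a1⟩ := hypa_zero hc h3.symm
    have a2 : 0 < c 2 := by linarith
    unfold B
    rw [← h3, a0, a1]
    nlinarith [mul_pos hv.2 a2]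
  · have h1 := hypa_key v c
    rw [hv.1] at h1
    have h2 : 0 < v 3 * c 3 * B v c := by
      nlinarith [sq_nonneg (v 0 * c 3 - c 0 * v 3), sq_nonneg (v 1 * c 3 - c 1 * v 3),
        mul_nonneg hc (sq_nonneg (v 3)), pow_pos h3 2]
    exact (mul_pos_iff_of_pos_left (mul_pos hv.2 h3)).1 h2

theorem B_tri {a b c : V} (ha : a ∈ HH ∪ NN) (hb : b ∈ HH) (hc : c ∈ HH ∪ NN) :
    B a c ≤ 2 * B a b * B b c := by
  obtain ⟨a1, a2⟩ := hypa_causal ha
  obtain ⟨c1, c2⟩ := hypa_causal hc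
  have hα : 0 < B a b := B_symm b a ▸ B_pos_causal hb a1 a2
  have hγ : 0 < B b c := B_pos_causal hb c1 c2
  have h1 := hypa_perp (d := B b c • a + B a b • c - (2 * B a b * B b c) • b) hb (by
    rw [B_sub, B_add, B_smul, B_smul, B_smul, hb.1, B_symm c b]
    ring)
  simp only [B_sub, B_add, B_smul, B_sub', B_add', B_smul', hb.1, B_symm b a, B_symm c b,
    B_symm c a] at h1
  by_contra h2
  nlinarith [mul_pos (mul_pos hα hγ) (sub_pos.2 (not_le.1 h2)), mul_nonneg a1 (sq_nonneg (B b c)),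
    mul_nonneg c1 (sq_nonneg (B a b))]

theorem NN_nonneg {p q : V} (hp : p ∈ NN) (hq : q ∈ NN) : 0 ≤ B p q := by
  obtain ⟨p2, p3⟩ := hypa_sign hp.1.ge hp.2
  obtain ⟨q2, q3⟩ := hypa_sign hq.1.ge hq.2
  rcases p3.eq_or_lt with h3 | h3
  · obtain ⟨a0, a1⟩ := hypa_zero hp.1.ge h3.symm
    unfold B
    rw [← h3, a0, a1]
    nlinarith [mul_nonneg p2 q3]
  · rcases q3.eq_or_lt with h4 | h4
    · obtain ⟨a0, a1⟩ := hypa_zero hq.1.ge h4.symm
      unfold B
      rw [← h4, a0, a1]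
      nlinarith [mul_nonneg p3 q2]
    · have h1 := hypa_key p q
      rw [hp.1, hq.1] at h1
      have h2 : 0 ≤ p 3 * q 3 * B p q := by
        nlinarith [sq_nonneg (p 0 * q 3 - q 0 * p 3), sq_nonneg (p 1 * q 3 - q 1 * p 3)]
      exact (mul_nonneg_iff_of_pos_left (mul_pos h3 h4)).1 h2

theorem NN_prop {p q : V} (hp : p ∈ NN) (hq : q ∈ NN) (h : B p q = 0) :
    ∃ κ : ℝ, 0 < κ ∧ q = κ • p := by
  have aux : ∀ {p q : V}, p ∈ NN → B p q = 0 → p 3 = 0 → q 3 = 0 := by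
    intro p q hp h h3
    obtain ⟨a0, a1⟩ := hypa_zero hp.1.ge h3
    have a2 : 0 < p 2 := by linarith [hp.2]
    unfold B at h
    rw [h3, a0, a1] at h
    exact (mul_eq_zero.1 (by linarith : p 2 * q 3 = 0)).resolve_left a2.ne'
  by_cases h3 : p 3 = 0
  · have h4 := aux hp h h3
    obtain ⟨a0, a1⟩ := hypa_zero hp.1.ge h3
    obtain ⟨b0, b1⟩ := hypa_zero hq.1.ge h4
    have a2 : 0 < p 2 := by linarith [hp.2]
    have b2 : 0 < q 2 := by linarith [hq.2]
    refine ⟨q 2 / p 2, div_pos b2 a2, funext fun i => ?_⟩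
    fin_cases i
    · show q 0 = q 2 / p 2 * p 0
      rw [a0, b0, mul_zero]
    · show q 1 = q 2 / p 2 * p 1
      rw [a1, b1, mul_zero]
    · show q 2 = q 2 / p 2 * p 2
      rw [div_mul_cancel₀ _ a2.ne']
    · show q 3 = q 2 / p 2 * p 3
      rw [h3, h4, mul_zero]
  · have h4 : q 3 ≠ 0 := fun h4 => h3 (aux hq (B_symm p q ▸ h) h4)
    have p3 : 0 < p 3 := (hypa_sign hp.1.ge hp.2).2.lt_of_ne (Ne.symm h3)
    have q3 : 0 < q 3 := (hypa_sign hq.1.ge hq.2).2.lt_of_ne (Ne.symm h4)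
    have h1 := hypa_key p q
    rw [hp.1, hq.1, h] at h1
    have e0 : p 0 * q 3 - q 0 * p 3 = 0 := by
      nlinarith [sq_nonneg (p 0 * q 3 - q 0 * p 3), sq_nonneg (p 1 * q 3 - q 1 * p 3)]
    have e1 : p 1 * q 3 - q 1 * p 3 = 0 := by
      nlinarith [sq_nonneg (p 0 * q 3 - q 0 * p 3), sq_nonneg (p 1 * q 3 - q 1 * p 3)]
    have c1 := hp.1
    have c2 := hq.1
    rw [hypa_self] at c1 c2
    have e2 : p 2 * q 3 - q 2 * p 3 = 0 := by
      refine mul_left_cancel₀ (mul_pos p3 q3).ne' ?_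
      linear_combination q 3 ^ 2 * c1 - p 3 ^ 2 * c2 + (p 0 * q 3 + q 0 * p 3) * e0 +
        (p 1 * q 3 + q 1 * p 3) * e1
    refine ⟨q 3 / p 3, div_pos q3 p3, funext fun i => ?_⟩
    fin_cases i
    · show q 0 = q 3 / p 3 * p 0
      field_simp
      linarith
    · show q 1 = q 3 / p 3 * p 1
      field_simp
      linarith
    · show q 2 = q 3 / p 3 * p 2
      field_simp
      linarith
    · show q 3 = q 3 / p 3 * p 3
      rw [div_mul_cancel₀ _ h3]

theorem pinf_mem : pinf ∈ NN := by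
  constructor <;> simp [B, pinf]

theorem pt_mem (x y : ℝ) : pt x y ∈ NN := by
  constructor
  · simp [B, pt]
    ring
  · simp [pt]
    positivity

theorem B_nondeg {d : V} (h : ∀ v ∈ HH, B v d = 0) : d = 0 := by
  have h1 := h ![0, 0, 1, 1] ⟨by simp [B], by simp⟩
  have h2 := h ![0, 0, 2, 1 / 2] ⟨by simp [B], by simp⟩
  have h3 := h ![1, 0, 2, 1] ⟨by simp [B]; norm_num, by simp⟩
  have h4 := h ![0, 1, 2, 1] ⟨by simp [B]; norm_num, by simp⟩
  unfold B at h1 h2 h3 h4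
  simp only [Matrix.cons_val_zero, Matrix.cons_val_one, Matrix.cons_val] at h1 h2 h3 h4
  funext i
  fin_cases i
  · show d 0 = 0
    linarith
  · show d 1 = 0
    linarith
  · show d 2 = 0
    linarith
  · show d 3 = 0
    linarith

theorem smul_mem_HH {v : V} (h : 0 < B v v) (h3 : 0 < v 3) : (√(B v v))⁻¹ • v ∈ HH := by
  have hs : 0 < √(B v v) := Real.sqrt_pos.2 h
  refine ⟨?_, mul_pos (inv_pos.2 hs) h3⟩
  rw [B_smul, B_smul', ← mul_assoc, ← mul_inv, Real.mul_self_sqrt h.le, inv_mul_cancel₀ h.ne']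

/-- a segment between the two sides of a plane meets the plane -/
theorem exists_cross {a b m : V} (ha : a ∈ HH) (hb : b ∈ HH) (h1 : 0 ≤ B a m) (h2 : B b m ≤ 0) :
    ∃ α β : ℝ, 0 ≤ α ∧ 0 ≤ β ∧ α • a + β • b ∈ HH ∧ B (α • a + β • b) m = 0 := by
  rcases h1.eq_or_lt with h | h
  · refine ⟨1, 0, zero_le_one, le_rfl, ?_, ?_⟩
    · rwa [one_smul, zero_smul, add_zero]
    · rw [one_smul, zero_smul, add_zero, ← h]
  · have hs : 0 ≤ -B b m := by linarith
    have hy : 0 < B ((-B b m) • a + B a m • b) ((-B b m) • a + B a m • b) := by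
      simp only [B_add, B_smul, B_add', B_smul', ha.1, hb.1, B_symm b a]
      nlinarith [mul_nonneg (mul_nonneg hs h.le) (zero_le_one.trans (one_le_B ha hb)),
        sq_nonneg (B b m), pow_pos h 2]
    have h3 : 0 < ((-B b m) • a + B a m • b) 3 :=
      add_pos_of_nonneg_of_pos (mul_nonneg hs ha.2.le) (mul_pos h hb.2)
    have h4 := smul_mem_HH hy h3
    generalize hc : (√(B ((-B b m) • a + B a m • b) ((-B b m) • a + B a m • b)))⁻¹ = c at h4
    have hc0 : 0 ≤ c := by rw [← hc]; positivity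
    rw [smul_add, smul_smul, smul_smul] at h4
    refine ⟨c * -B b m, c * B a m, mul_nonneg hc0 hs, mul_nonneg hc0 h.le, h4, ?_⟩
    rw [B_add, B_smul, B_smul]
    ring

theorem hypa_cont : Continuous fun p : V × V => B p.1 p.2 := by
  unfold B
  fun_prop

theorem hypa_cont_right (a : V) : Continuous fun v => B a v :=
  hypa_cont.comp (continuous_const.prodMk continuous_id)

theorem isClosed_HH : IsClosed HH := by
  have e : HH = {v | B v v = 1} ∩ {v | 0 ≤ v 3} := by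
    ext v
    refine ⟨fun h => ⟨h.1, h.2.le⟩, fun h => ⟨h.1, lt_of_le_of_ne h.2 fun h3 => ?_⟩⟩
    have h1 : B v v = 1 := h.1
    rw [hypa_self, ← h3] at h1
    nlinarith [sq_nonneg (v 0), sq_nonneg (v 1)]
  rw [e]
  exact (isClosed_eq (hypa_cont.comp (continuous_id.prodMk continuous_id)) continuous_const).inter
    (isClosed_le continuous_const (continuous_apply 3))

theorem isPreconnected_HH : IsPreconnected HH := by
  have e : HH = range fun p : ℝ × ℝ × ℝ =>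
      (![p.1, p.2.1, (1 + p.1 ^ 2 + p.2.1 ^ 2) * Real.exp (-p.2.2), Real.exp p.2.2] : V) := by
    ext v
    constructor
    · rintro ⟨h1, h3⟩
      rw [hypa_self] at h1
      refine ⟨(v 0, v 1, Real.log (v 3)), funext fun i => ?_⟩
      fin_cases i
      · rfl
      · rfl
      · show (1 + v 0 ^ 2 + v 1 ^ 2) * Real.exp (-Real.log (v 3)) = v 2
        rw [Real.exp_neg, Real.exp_log h3]
        field_simp
        linarith
      · exact Real.exp_log h3
    · rintro ⟨⟨x, y, s⟩, rfl⟩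
      refine ⟨?_, Real.exp_pos s⟩
      rw [hypa_self]
      show (1 + x ^ 2 + y ^ 2) * Real.exp (-s) * Real.exp s - x ^ 2 - y ^ 2 = 1
      rw [mul_assoc, ← Real.exp_add, neg_add_cancel, Real.exp_zero]
      ring
  rw [e]
  refine isPreconnected_range (continuous_pi fun i => ?_)
  fin_cases i
  · show Continuous fun p : ℝ × ℝ × ℝ => p.1
    fun_prop
  · show Continuous fun p : ℝ × ℝ × ℝ => p.2.1
    fun_prop
  · show Continuous fun p : ℝ × ℝ × ℝ => (1 + p.1 ^ 2 + p.2.1 ^ 2) * Real.exp (-p.2.2)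
    fun_prop
  · show Continuous fun p : ℝ × ℝ × ℝ => Real.exp p.2.2
    fun_prop

theorem isCompact_ball {a : V} (ha : a ∈ HH) (ρ : ℝ) : IsCompact {v | v ∈ HH ∧ B a v ≤ ρ} := by
  have he : (![0, 0, 1, 1] : V) ∈ HH := ⟨by simp [B], by simp⟩
  obtain ⟨C, hC⟩ : ∃ C, C = 4 * B ![0, 0, 1, 1] a * ρ := ⟨_, rfl⟩
  refine (isCompact_Icc (a := fun _ => -C) (b := fun _ => C)).of_isClosed_subset
    (isClosed_HH.inter (isClosed_le (hypa_cont_right a) continuous_const)) ?_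
  rintro v ⟨hv, h⟩
  have h1 := B_tri (Or.inl he) ha (Or.inl hv)
  have h2 : B ![0, 0, 1, 1] v = (v 2 + v 3) / 2 := by simp [B, add_comm]
  have h3 := mul_le_mul_of_nonneg_left h (zero_le_one.trans (one_le_B he ha))
  have h4 : v 2 + v 3 ≤ C := by rw [hC]; linarith
  have v2 := hypa_two hv
  have v3 := hv.2
  have v1 := hv.1
  rw [hypa_self] at v1
  have h5 : v 2 * v 3 ≤ C ^ 2 := by nlinarith [mul_pos v2 v3]
  have hC0 : 0 ≤ C := by linarith
  have b0 := abs_le_of_sq_le_sq' (a := v 0) (by nlinarith [sq_nonneg (v 1)]) hC0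
  have b1 := abs_le_of_sq_le_sq' (a := v 1) (by nlinarith [sq_nonneg (v 0)]) hC0
  refine ⟨fun i => ?_, fun i => ?_⟩
  · fin_cases i
    · exact b0.1
    · exact b1.1
    · show -C ≤ v 2
      linarith
    · show -C ≤ v 3
      linarith
  · fin_cases i
    · exact b0.2
    · exact b1.2
    · show v 2 ≤ C
      linarith
    · show v 3 ≤ C
      linarith

theorem continuous_B : Continuous fun p : V × V => B p.1 p.2 := hypa_cont

theorem continuous_GV (g : GV) : Continuous g :=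
  g.toLinearMap.continuous_of_finiteDimensional

theorem near_of_B {a : V} (ha : a ∈ HH) {U : Set V} (hU : U ∈ nhds a) :
    ∃ δ : ℝ, 0 < δ ∧ ∀ v ∈ HH, B a v < 1 + δ → v ∈ U := by
  have hQ := isCompact_ball ha 2
  have haU : a ∈ interior U := mem_interior_iff_mem_nhds.2 hU
  rcases ({v | v ∈ HH ∧ B a v ≤ 2} \ interior U).eq_empty_or_nonempty with h | h
  · refine ⟨1, one_pos, fun y hy h1 => interior_subset ?_⟩
    by_contra h2
    exact (h ▸ (⟨⟨hy, by linarith⟩, h2⟩ : y ∈ {v | v ∈ HH ∧ B a v ≤ 2} \ interior U) :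
      y ∈ (∅ : Set V))
  · obtain ⟨y0, hy0, hmin⟩ := (hQ.diff isOpen_interior).exists_isMinOn h
      (hypa_cont_right a).continuousOn
    have h1 : 1 < B a y0 := by
      by_contra h1
      exact hy0.2 (eq_of_B_le_one ha hy0.1.1 (not_lt.1 h1) ▸ haU)
    refine ⟨min 1 (B a y0 - 1), lt_min one_pos (by linarith), fun y hy h2 => interior_subset ?_⟩
    by_contra h3
    have h4 : B a y0 ≤ B a y := hmin ⟨⟨hy, by linarith [min_le_left 1 (B a y0 - 1)]⟩, h3⟩
    linarith [min_le_right 1 (B a y0 - 1)]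

end Pool.Agent.Lib.MP_36248f_gt
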