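import Pool.Agent.Lib.MP_36248f_gt.Model
import Pool.Agent.Lib.MP_36248f_gt.HypA

open Set

namespace Pool.Agent.Lib.MP_36248f_gt

theorem hypb_id (a b : V) : 2 * a 3 * b 3 * B a b = (a 0 * b 3 - b 0 * a 3) ^ 2 +
    (a 1 * b 3 - b 1 * a 3) ^ 2 + B a a * b 3 ^ 2 + B b b * a 3 ^ 2 := by
  unfold B; ring

theorem hypb_mem {g : GV} (h1 : ∀ a b, B (g a) (g b) = B a b) (h2 : ∀ v ∈ HH, 0 < g v 3) :
    g ∈ OO := by
  refine ⟨h1, fun v => ⟨fun hv => ⟨(h1 v v).trans hv.1, h2 v hv⟩, fun hv => ?_⟩⟩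
  have h3 : B v v = 1 := (h1 v v).symm.trans hv.1
  refine ⟨h3, ?_⟩
  rcases lt_trichotomy (v 3) 0 with h | h | h
  · have h4 : -v ∈ HH := ⟨by rw [B_neg, B_neg', neg_neg, h3], by simpa using h⟩
    have h5 := h2 _ h4
    rw [map_neg, Pi.neg_apply] at h5
    linarith [hv.2]
  · unfold B at h3
    rw [h] at h3
    nlinarith [sq_nonneg (v 0), sq_nonneg (v 1)]
  · exact h

theorem R_mem (n : V) : R n ∈ OO := by
  by_cases h : B n n = -1
  · have h1 : ∀ a b, B (R n a) (R n b) = B a b := fun a b => by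
      rw [R_apply h, R_apply h, B_add, B_add', B_add', B_smul, B_smul, B_smul', B_smul', h,
        B_symm n b]
      ring
    refine hypb_mem h1 fun v hv => ?_
    have h2 : B v (R n v) = 1 + 2 * B v n ^ 2 := by
      rw [R_apply h, B_add', B_smul', hv.1]; ring
    have h3 := hypb_id v (R n v)
    rw [h1, hv.1] at h3
    have h4 : 0 < v 3 := hv.2
    have h5 : 0 < 2 * v 3 * R n v 3 * B v (R n v) := by rw [h3]; positivity
    have h6 : 0 < B v (R n v) := by rw [h2]; positivity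
    exact (mul_pos_iff_of_pos_left (by positivity)).1 ((mul_pos_iff_of_pos_right h6).1 h5)
  · rw [R, dif_neg h]
    exact one_mem _

theorem OO_NN {g : GV} (hg : g ∈ OO) {p : V} (hp : p ∈ NN) : g p ∈ NN := by
  refine ⟨(hg.1 p p).trans hp.1, ?_⟩
  have h0 : (![0, 0, 1, 1] : V) ∈ HH := ⟨by simp [B], by simp⟩
  have h1 := B_pos_causal (((inv_mem hg).2 _).1 h0) hp.1.ge hp.2
  rw [← hg.1] at h1
  have h2 : g (g⁻¹ ![0, 0, 1, 1]) = ![0, 0, 1, 1] := g.apply_symm_apply _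
  rw [h2] at h1
  simp [B] at h1
  linarith

theorem R_conj {g : GV} (hg : g ∈ OO) (n : V) : R (g n) = g * R n * g⁻¹ := by
  by_cases h : B n n = -1
  · have h' : B (g n) (g n) = -1 := (hg.1 n n).trans h
    ext1 v
    have h2 : g (g⁻¹ v) = v := g.apply_symm_apply _
    rw [LinearEquiv.mul_apply, LinearEquiv.mul_apply, R_apply h', R_apply h, map_add, map_smul,
      ← hg.1 (g⁻¹ v) n, h2]
  · have h' : ¬ B (g n) (g n) = -1 := fun e => h ((hg.1 n n).symm.trans e)
    rw [R, R, dif_neg h, dif_neg h', mul_one, mul_inv_cancel]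

theorem R_neg (n : V) : R (-n) = R n := by
  have e : B (-n) (-n) = B n n := by rw [B_neg, B_neg', neg_neg]
  by_cases h : B n n = -1
  · ext1 v
    rw [R_apply (e.trans h), R_apply h, B_neg', mul_neg, neg_smul_neg]
  · rw [R, R, dif_neg h, dif_neg fun e' => h (e.symm.trans e')]

theorem E_mem (m : GL (Fin 2) ℝ) : E m ∈ OO := by
  have hd : (m : Matrix (Fin 2) (Fin 2) ℝ).det ≠ 0 := m.det_ne_zero
  have hp : 0 < |(m : Matrix (Fin 2) (Fin 2) ℝ).det| := abs_pos.2 hd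
  have hs : |(m : Matrix (Fin 2) (Fin 2) ℝ).det| ^ 2 =
      (m 0 0 * m 1 1 - m 0 1 * m 1 0) ^ 2 := by rw [sq_abs, Matrix.det_fin_two]
  refine hypb_mem (fun a b => ?_) fun v hv => ?_
  · rw [E_apply, E_apply]
    simp only [B, El, LinearMap.coe_mk, AddHom.coe_mk, Matrix.cons_val]
    generalize |(m : Matrix (Fin 2) (Fin 2) ℝ).det| = d at hp hs
    field_simp
    linear_combination (-(a 2 * b 3 + a 3 * b 2) + 2 * a 0 * b 0) * hs
  · rw [E_apply]
    simp only [El, LinearMap.coe_mk, AddHom.coe_mk, Matrix.cons_val]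
    refine div_pos ?_ hp
    have h3 : 0 < v 3 := hv.2
    have h1 := hv.1
    unfold B at h1
    refine (mul_pos_iff_of_pos_left h3).1 ?_
    have e : v 3 * (m 1 0 ^ 2 * v 2 + 2 * m 1 0 * m 1 1 * v 0 + m 1 1 ^ 2 * v 3) =
        (m 1 0 * v 0 + m 1 1 * v 3) ^ 2 + m 1 0 ^ 2 * (1 + v 1 ^ 2) := by
      linear_combination m 1 0 ^ 2 * h1
    rw [e]
    by_cases h : m 1 0 = 0
    · have h4 : m 1 1 ≠ 0 := fun h4 => hd (by rw [Matrix.det_fin_two, h, h4]; ring)
      rw [h]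
      simp only [zero_mul, zero_add, ne_eq, OfNat.ofNat_ne_zero, not_false_eq_true, zero_pow,
        add_zero]
      positivity
    · positivity

theorem E_nT (m : GL (Fin 2) ℝ) : E m nT = nT := by
  rw [E_apply]
  ext i
  fin_cases i <;> simp [El, nT]

theorem hypb_nT : B nT nT = -1 := by simp [B, nT]

theorem B_nT (v : V) : B v nT = v 1 := by simp [B, nT]

theorem cj_apply (v : V) : cj v = ![v 0, -v 1, v 2, v 3] := by
  rw [cj, R_apply hypb_nT, B_nT]
  ext i
  fin_cases i <;> simp [nT]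
  ring

theorem IsAf.mem {g : GV} {e f s a b : ℝ} (h : IsAf g e f s a b) : g ∈ OO := by
  obtain ⟨he, hf, hs, hg⟩ := h
  refine hypb_mem (fun v w => ?_) fun v hv => ?_
  · rw [hg, hg]
    simp only [B, afv, Matrix.cons_val]
    field_simp
    rcases he with rfl | rfl <;> rcases hf with rfl | rfl <;> ring
  · rw [hg]
    exact div_pos hv.2 hs

theorem IsAf.mul {g g' : GV} {e f s a b e' f' s' a' b' : ℝ} (h : IsAf g e f s a b)
    (h' : IsAf g' e' f' s' a' b') :
    IsAf (g * g') (e * e') (f * f') (s * s') (e * s * a' + a) (f * s * b' + b) := by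
  obtain ⟨he, hf, hs, hg⟩ := h
  obtain ⟨he', hf', hs', hg'⟩ := h'
  refine ⟨?_, ?_, mul_pos hs hs', fun v => ?_⟩
  · rcases he with rfl | rfl <;> rcases he' with rfl | rfl <;> simp
  · rcases hf with rfl | rfl <;> rcases hf' with rfl | rfl <;> simp
  · rw [LinearEquiv.mul_apply, hg, hg']
    have h1 : e ^ 2 = 1 := by rcases he with rfl | rfl <;> simp
    have h2 : f ^ 2 = 1 := by rcases hf with rfl | rfl <;> simp
    ext i
    fin_cases i <;> simp [afv] <;> field_simp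
    · ring
    · ring
    · rcases he with rfl | rfl <;> rcases hf with rfl | rfl <;> ring

theorem IsAf.inv {g : GV} {e f s a b : ℝ} (h : IsAf g e f s a b) :
    IsAf g⁻¹ e f s⁻¹ (-(e * a / s)) (-(f * b / s)) := by
  obtain ⟨he, hf, hs, hg⟩ := h
  refine ⟨he, hf, inv_pos.2 hs, fun v => g.injective ?_⟩
  have h2 : g (g⁻¹ v) = v := g.apply_symm_apply _
  rw [h2, hg]
  ext i
  fin_cases i <;> simp [afv] <;> field_simp <;>
    rcases he with rfl | rfl <;> rcases hf with rfl | rfl <;> ring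

theorem IsAf.ext {g g' : GV} {e f s a b : ℝ} (h : IsAf g e f s a b) (h' : IsAf g' e f s a b) :
    g = g' := LinearEquiv.ext fun v => (h.2.2.2 v).trans (h'.2.2.2 v).symm

theorem isAf_tr (a b : ℝ) : IsAf (tr a b) 1 1 1 a b :=
  ⟨Or.inl rfl, Or.inl rfl, one_pos, fun _ => rfl⟩

theorem isAf_cj : IsAf cj 1 (-1) 1 0 0 := by
  refine ⟨Or.inl rfl, Or.inr rfl, one_pos, fun v => ?_⟩
  rw [cj_apply]
  ext i
  fin_cases i <;> simp [afv]

theorem isAf_Rx (a : ℝ) : IsAf (R ![1, 0, a, 0]) (-1) 1 1 a 0 := by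
  refine ⟨Or.inr rfl, Or.inl rfl, one_pos, fun v => ?_⟩
  rw [R_apply (by simp [B])]
  ext i
  fin_cases i <;> simp [afv, B] <;> ring

theorem isAf_Ry (b : ℝ) : IsAf (R ![0, 1, b, 0]) 1 (-1) 1 0 b := by
  refine ⟨Or.inl rfl, Or.inr rfl, one_pos, fun v => ?_⟩
  rw [R_apply (by simp [B])]
  ext i
  fin_cases i <;> simp [afv, B] <;> ring

theorem IsAf.pinf {g : GV} {e f s a b : ℝ} (h : IsAf g e f s a b) : g pinf = s • pinf := by
  rw [h.2.2.2]
  ext i
  fin_cases i <;> simp [afv, MP_36248f_gt.pinf]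

theorem IsAf.pt {g : GV} {e f s a b : ℝ} (h : IsAf g e f s a b) (x y : ℝ) :
    g (pt x y) = s⁻¹ • pt (e * s * x + a) (f * s * y + b) := by
  obtain ⟨he, hf, hs, hg⟩ := h
  rw [hg]
  ext i
  fin_cases i <;> simp [afv, MP_36248f_gt.pt] <;> field_simp
  rcases he with rfl | rfl <;> rcases hf with rfl | rfl <;> ring

theorem tr_mul (a b a' b' : ℝ) : tr a b * tr a' b' = tr (a + a') (b + b') := by
  have h := (isAf_tr a b).mul (isAf_tr a' b')
  simp only [mul_one, one_mul] at h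
  rw [add_comm a' a, add_comm b' b] at h
  exact h.ext (isAf_tr _ _)

theorem tr_zero : tr 0 0 = 1 := by
  ext1 v
  rw [tr_apply]
  ext i
  fin_cases i <;> simp [afv]

theorem tr_zpow (a b : ℝ) (n : ℤ) : tr a b ^ n = tr (n * a) (n * b) := by
  induction n using Int.induction_on with
  | zero => simp [tr_zero]
  | succ n ih =>
    rw [zpow_add_one, ih, tr_mul]
    push_cast
    congr 1 <;> ring
  | pred n ih =>
    rw [zpow_sub_one, ih, mul_inv_eq_iff_eq_mul, tr_mul]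
    push_cast
    congr 1 <;> ring

theorem B_tr {v : V} (hv : v ∈ HH) (a b : ℝ) :
    B v (tr a b v) = 1 + (a ^ 2 + b ^ 2) * v 3 ^ 2 / 2 := by
  have h := hv.1
  rw [tr_apply]
  simp only [B, afv, Matrix.cons_val] at h ⊢
  linear_combination h

end Pool.Agent.Lib.MP_36248f_gt
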