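import Pool.Agent.Lib.MP_36248f_gt.Ex
import Pool.Agent.Lib.MP_36248f_gt.Hyp

open Set

namespace Pool.Agent.Lib.MP_36248f_gt

theorem B_vec (a b c d a' b' c' d' : ℝ) :
    B ![a, b, c, d] ![a', b', c', d'] = (c * d' + d * c') / 2 - a * a' - b * b' := rfl

theorem B_vec' (v : V) (a b c d : ℝ) :
    B v ![a, b, c, d] = (v 2 * d + v 3 * c) / 2 - v 0 * a - v 1 * b := rfl

/-- `1 / r5` -/
noncomputable def ga : ℝ := 1 / r5
/-- `1 / r6` -/
noncomputable def gb : ℝ := 1 / r6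
/-- `y5 / r5` -/
noncomputable def gY5 : ℝ := y5 / r5
/-- `y6 / r6` -/
noncomputable def gY6 : ℝ := y6 / r6
/-- first coordinate of the fourth normal -/
noncomputable def gX4 : ℝ := (s3 - 1) / 4 + (s3 + 1) * (ga - 1) / 8 + om / 2
/-- second coordinate of the fourth normal -/
noncomputable def gY4 : ℝ := (s3 + 1) / 4 * gY5 + om * yS
/-- third and fourth coordinate of the fourth normal -/
noncomputable def gW4 : ℝ := (s3 + 1) * (1 + ga) / 4 + om

theorem numE : Num s3 (hM ^ 2) hM ga gb gY5 gY6 yS om := by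
  obtain ⟨Y5, Y6, A, o, N⟩ := spec.num
  have h5 : r5 ≠ 0 := by linarith [spec.r5_lo]
  have h6 : r6 ≠ 0 := by linarith [spec.r6_lo]
  have hh : hM ≠ 0 := by linarith [spec.h_lo]
  have e5 : gY5 = Y5 := by
    have h := N.e5
    unfold gY5 y5
    field_simp at h ⊢
    linear_combination -h
  have e6 : gY6 = Y6 := by
    have h := N.e6
    unfold gY6 y6
    field_simp at h ⊢
    linear_combination -h
  have eA : yS = A := by
    have h := N.eA
    have h1 : y5 = Y5 * r5 := by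
      rw [← e5, gY5]
      field_simp
    have h2 : Y5 ≠ 0 := by linarith [N.b5.1]
    unfold yS
    rw [h1]
    field_simp at h ⊢
    linear_combination -h
  have eo : om = o := by
    have h1 : 8 * (A ^ 2 - 3 / 4) ≠ 0 := by nlinarith [N.bA.1]
    unfold om
    rw [eA, ← N.eo, mul_div_cancel_right₀ _ h1, Real.sqrt_sq (by linarith [N.bo.1])]
  rw [e5, e6, eA, eo]
  exact N

theorem nm0 (t : Ty) : nm t 0 = ![1, 0, 1, 0] := by cases t <;> rfl
theorem nm1 (t : Ty) : nm t 1 = ![-1, 0, 0, 0] := by cases t <;> rfl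
theorem nm2 (t : Ty) : nm t 2 = ![0, 0, -1, 1] := by cases t <;> rfl
theorem nmS3 : nm .S 3 = ![0, 1, 1, 0] := rfl
theorem nmN3 : nm .N 3 = ![1 / 2, hN, 1, 1] := rfl
theorem nmM3 : nm .M 3 = ![0, hM, hM ^ 2 - 1, 1] := rfl
theorem nmM6 : nm .M 6 = ![1 / 2, gY6, gb, gb] := rfl

theorem n5_eq : n5 = ![(ga - 1) / 2, gY5, s3 + ga, ga] := by
  have h5 : r5 ≠ 0 := by linarith [spec.r5_lo]
  have h1 : (1 - r5) / 2 / r5 = (ga - 1) / 2 := by
    unfold ga
    field_simp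
  have h2 : (1 + s3 * r5) / r5 = s3 + ga := by
    unfold ga
    field_simp
    ring
  rw [n5, h1, h2]
  rfl

theorem nmM5 : nm .M 5 = ![(ga - 1) / 2, gY5, s3 + ga, ga] := n5_eq

theorem nmM4 : nm .M 4 = ![gX4, gY4, gW4, gW4] := by
  change ((s3 - 1) / 4) • ![1, 0, 1, 0] + ((s3 + 1) / 4) • (![0, 0, -1, 1] + n5) + om • eS = _
  funext i
  fin_cases i <;> simp [n5_eq, eS, gX4, gY4, gW4]
  · ring
  · linear_combination (1 / 4) * spec.s_sq
  · ring

theorem num4 : gW4 * gW4 - gX4 * gX4 - gY4 * gY4 = -1 ∧ gW4 / 2 - gX4 = 1 / 2 ∧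
    (gW4 * ga + gW4 * (s3 + ga)) / 2 - gX4 * ((ga - 1) / 2) - gY4 * gY5 = 0 ∧
    (4.185 ≤ gX4 ∧ gX4 ≤ 4.187) ∧ (8.443 ≤ gY4 ∧ gY4 ≤ 8.446) ∧ (9.371 ≤ gW4 ∧ gW4 ≤ 9.373) := by
  have N := numE
  have p1 := Imul N.bs N.ba (by norm_num) (by norm_num)
  have p2 := Imul N.bs N.b5 (by norm_num) (by norm_num)
  have p3 := Imul N.bo N.bA (by norm_num) (by norm_num)
  unfold gX4 gY4 gW4
  refine ⟨?_, by ring, ?_, ?_, ?_, ?_⟩
  · linear_combination ((s3 + 1) / 4) ^ 2 * N.q5 - (s3 + 1) / 8 * om * N.eA - 1 / 8 * N.eo +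
      (-1 / 16 * s3 * ga - 1 / 16 * ga - 1 / 4 * om) * N.s2
  · linear_combination (s3 + 1) / 4 * N.q5 - 1 / 4 * om * N.eA + (-1 / 8 * ga + 1 / 8) * N.s2
  all_goals
    constructor <;> linarith [p1.1, p1.2, p2.1, p2.2, p3.1, p3.2, N.bs.1, N.bs.2, N.ba.1, N.ba.2,
      N.b5.1, N.b5.2, N.bo.1, N.bo.2]

theorem hN_bd : 1.322875 ≤ hN ∧ hN ≤ 1.322876 := by
  have h : (2.64575 : ℝ) ≤ √7 ∧ √7 ≤ (2.645752 : ℝ) :=
    Isqrt ⟨le_rfl, le_rfl⟩ (by norm_num) (by norm_num) (by norm_num)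
  unfold hN
  constructor <;> linarith [h.1, h.2]

theorem par_bounds : (1.73205 < s3 ∧ s3 < 1.73206) ∧ (1.32287 < hN ∧ hN < 1.32288) ∧
    (1.16124 < y5 ∧ y5 < 1.16129) ∧ (1.01414 < y6 ∧ y6 < 1.01418) ∧
    (0.88374 < yS ∧ yS < 0.88379) ∧ (5.92 < om ∧ om < 5.94) := by
  have N := numE
  have h5 : r5 ≠ 0 := by linarith [spec.r5_lo]
  have h6 : r6 ≠ 0 := by linarith [spec.r6_lo]
  have b5 : 1.16125 ≤ y5 ∧ y5 ≤ 1.16128 :=
    Idiv (show y5 * ga = gY5 by unfold ga gY5; ring) N.ba N.b5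
      (by norm_num) (by norm_num) (by norm_num) (by norm_num) (by norm_num)
  have b6 : 1.014141 ≤ y6 ∧ y6 ≤ 1.014179 :=
    Idiv (show y6 * gb = gY6 by unfold gb gY6; ring) N.bb N.b6
      (by norm_num) (by norm_num) (by norm_num) (by norm_num) (by norm_num)
  refine ⟨⟨?_, ?_⟩, ⟨?_, ?_⟩, ⟨?_, ?_⟩, ⟨?_, ?_⟩, ⟨?_, ?_⟩, ?_, ?_⟩ <;>
    linarith [N.bs.1, N.bs.2, hN_bd.1, hN_bd.2, b5.1, b5.2, b6.1, b6.2, N.bA.1, N.bA.2, N.bo.1,
      N.bo.2]

theorem hN_sq : 4 * hN ^ 2 = 7 := by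
  have h : √7 ^ 2 = (7 : ℝ) := Real.sq_sqrt (by norm_num)
  unfold hN
  linear_combination h

theorem om_sq : 8 * om ^ 2 * (yS ^ 2 - 3 / 4) = s3 + 7 := by
  linear_combination numE.eo

/-- the meaning of a label -/
inductive Gr : ℕ → ℝ → Prop
  | far {b : ℝ} : 1 < b → Gr 0 b
  | diag {b : ℝ} : b = -1 → Gr 1 b
  | two {b : ℝ} : b = 0 → Gr 2 b
  | three {b : ℝ} : b = 1 / 2 → Gr 3 b
  | six {b : ℝ} : b = s3 / 2 → Gr 6 b
  | par {b : ℝ} : b = 1 → Gr 7 b

/-- labels, with `7` for the two parallel mirrors -/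
def lab (t : Ty) (i j : ℕ) : ℕ := if i + j = 1 then 7 else cox t i j

theorem gram0 (t : Ty) (i j : ℕ) (hi : i < ng t) (hj : j < ng t) :
    Gr (lab t i j) (B (nm t i) (nm t j)) := by
  have N := numE
  obtain ⟨q4, q41, q45, bX, bY, bW⟩ := num4
  have p1 := Imul N.bH bW (by norm_num) (by norm_num)
  have p2 := Imul N.bh bY (by norm_num) (by norm_num)
  have p3 := Imul bW N.bb (by norm_num) (by norm_num)
  have p4 := Imul bY N.b6 (by norm_num) (by norm_num)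
  have q7 := hN_sq
  cases t <;> simp only [ng] at hi hj <;> interval_cases i <;> interval_cases j <;>
    (first
      | refine Gr.two ?_
      | refine Gr.three ?_
      | refine Gr.far ?_
      | refine Gr.diag ?_
      | refine Gr.par ?_
      | refine Gr.six ?_) <;>
    simp only [nm0, nm1, nm2, nmS3, nmN3, nmM3, nmM4, nmM5, nmM6, B_vec] <;>
    first
    | ring1
    | linarith [N.bH.1, N.ba.1, N.bb.1, bX.1]
    | linarith [N.e5, N.e6, N.q5, N.q6, N.q56]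

theorem nm_unit (t : Ty) (i : Fin (ng t)) : B (nm t i) (nm t i) = -1 := by
  have h := gram0 t i i i.2 i.2
  have e : ∀ t : Ty, ∀ i : Fin (ng t), lab t i i = 1 := by
    intro t
    cases t <;> decide
  rw [e] at h
  cases h
  assumption

theorem gram (t : Ty) (i j : Fin (ng t)) (h : i ≠ j) :
    (cox t i j = 0 ∧ 1 ≤ B (nm t i) (nm t j)) ∨
      (2 ≤ cox t i j ∧ B (nm t i) (nm t j) = Real.cos (Real.pi / cox t i j)) := by
  have h0 := gram0 t i j i.2 j.2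
  have e : ∀ t : Ty, ∀ i j : Fin (ng t), i ≠ j → (lab t i j = 7 ∧ cox t i j = 0) ∨
      (lab t i j = cox t i j ∧ cox t i j ≠ 7 ∧ cox t i j ≠ 1) := by
    intro t
    cases t <;> decide
  rcases e t i j h with ⟨h1, h2⟩ | ⟨h1, h2, h3⟩
  · rw [h1] at h0
    cases h0 with
    | par h0 => exact Or.inl ⟨h2, h0.ge⟩
  rw [h1] at h0
  generalize cox t i j = m at *
  cases h0 with
  | far h0 => exact Or.inl ⟨rfl, h0.le⟩
  | diag h0 => exact absurd rfl h3
  | two h0 => exact Or.inr ⟨by norm_num, by simp [h0]⟩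
  | three h0 => exact Or.inr ⟨by norm_num, by simp [h0]⟩
  | six h0 => exact Or.inr ⟨by norm_num, by simp [h0, s3]⟩
  | par h0 => exact absurd rfl h2

theorem gram_strict (t : Ty) (i j : Fin (ng t)) (h : cox t i j = 0)
    (h' : ¬(i.1 ≤ 1 ∧ j.1 ≤ 1)) : 1 < B (nm t i) (nm t j) := by
  have h0 := gram0 t i j i.2 j.2
  rw [lab, if_neg (by omega), h] at h0
  cases h0
  assumption

theorem gram_nT (t : Ty) (i : Fin (ng t)) :
    (i.1 < 3 ∧ B nT (nm t i) = 0) ∨ (3 ≤ i.1 ∧ 1 ≤ B nT (nm t i)) := by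
  have N := numE
  obtain ⟨-, -, -, -, bY, -⟩ := num4
  obtain ⟨i, hi⟩ := i
  cases t <;> simp only [ng] at hi <;> interval_cases i <;> dsimp only <;>
    (first
      | refine Or.inl ⟨by decide, ?_⟩
      | refine Or.inr ⟨by decide, ?_⟩) <;>
    simp only [nm0, nm1, nm2, nmS3, nmN3, nmM3, nmM4, nmM5, nmM6, nT, B_vec] <;>
    linarith [N.bh.1, N.b5.1, N.b6.1, bY.1, hN_bd.1]

theorem gram_nU (t : Ty) (ht : t ≠ .S) (i : Fin (ng t)) :
    (i.1 ≠ 2 ∧ i.1 ≤ 3 ∧ B (nU t) (nm t i) = 0) ∨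
      ((i.1 = 2 ∨ 3 < i.1) ∧ 1 < B (nU t) (nm t i)) := by
  have N := numE
  obtain ⟨-, -, -, -, bY, bW⟩ := num4
  have p5 := Imul N.bh bW (by norm_num) (by norm_num)
  have p6 := Imul N.bh N.ba (by norm_num) (by norm_num)
  have p7 := Imul N.bh N.bb (by norm_num) (by norm_num)
  obtain ⟨i, hi⟩ := i
  cases t
  · exact absurd rfl ht
  all_goals
    simp only [ng] at hi
    interval_cases i <;> dsimp only <;>
      (first
        | refine Or.inl ⟨by decide, by decide, ?_⟩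
        | refine Or.inr ⟨by decide, ?_⟩) <;>
      simp only [nm0, nm1, nm2, nmN3, nmM3, nmM4, nmM5, nmM6, nU, MP_36248f_gt.ht, B_vec] <;>
      linarith [N.bh.1, N.b5.2, N.b6.2, bY.2, hN_bd.1, p5.1, p6.1, p7.1]

theorem nm_future (t : Ty) (i : Fin (ng t)) : 0 ≤ nm t i 2 + nm t i 3 := by
  have N := numE
  obtain ⟨-, -, -, -, -, bW⟩ := num4
  obtain ⟨i, hi⟩ := i
  cases t <;> simp only [ng] at hi <;> interval_cases i <;>
    simp only [nm0, nm1, nm2, nmS3, nmN3, nmM3, nmM4, nmM5, nmM6, Matrix.cons_val] <;>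
    linarith [N.bH.1, N.ba.1, N.bb.1, N.bs.1, bW.1]

theorem nm_future' (t : Ty) (i : Fin (ng t)) (h : i.1 ≠ 1) (h' : i.1 ≠ 2) :
    0 < nm t i 2 + nm t i 3 := by
  have N := numE
  obtain ⟨-, -, -, -, -, bW⟩ := num4
  obtain ⟨i, hi⟩ := i
  cases t <;> simp only [ng] at hi <;> interval_cases i <;>
    first
    | exact absurd rfl h
    | exact absurd rfl h'
    | (simp only [nm0, nmS3, nmN3, nmM3, nmM4, nmM5, nmM6, Matrix.cons_val]
       linarith [N.bH.1, N.ba.1, N.bb.1, N.bs.1, bW.1])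

theorem eS_orth : B eS (nm .M 0) = 0 ∧ B eS (nm .M 2) = 0 ∧ B eS (nm .M 5) = 0 ∧ B eS eS < 0 := by
  simp only [nm0, nm2, nmM5, eS, B_vec]
  exact ⟨by ring, by ring, by linarith [numE.eA], by nlinarith [numE.bA.1]⟩

theorem isAf_tau (t : Ty) : IsAf (tau t) (if t = .N then -1 else 1) (if t = .S then -1 else 1) 1
    (if t = .N then 1 / 2 else 0) (if t = .S then 0 else ht t) := by
  cases t
  · simpa [tau] using isAf_cj
  · simpa [tau, ht] using (isAf_tr 0 hN).mul (isAf_Rx (1 / 2))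
  · simpa [tau, ht] using isAf_tr 0 hM

theorem tau_nm (t : Ty) (i : Fin 3) : tau t (nm .S i) = nm t (up t i) := by
  have h7 := hN_sq
  rw [(isAf_tau t).2.2.2]
  cases t <;> fin_cases i <;> funext k <;> fin_cases k <;>
    simp [up, nm0, nm1, nm2, nmN3, nmM3, afv, ht] <;> linarith

theorem tau_nT (t : Ty) : tau t nT = -(if t = .S then nT else nU t) := by
  rw [(isAf_tau t).2.2.2]
  cases t <;> funext k <;> fin_cases k <;> simp [nT, nU, ht, afv]

theorem tau_mem (t : Ty) : tau t ∈ OO := by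
  cases t
  · exact isAf_cj.mem
  · exact mul_mem (isAf_tr _ _).mem (R_mem _)
  · exact (isAf_tr _ _).mem

theorem pos_mem (k : ℕ) : pos k ∈ OO := by
  induction k with
  | zero => exact one_mem _
  | succ k ih => exact mul_mem (mul_mem ih (tau_mem _)) (isAf_tr _ _).mem

theorem rp_mem_OO (a : Fin 120) : rp a ∈ OO := by
  refine Subgroup.list_prod_mem _ fun g hg => ?_
  obtain ⟨i, -, rfl⟩ := List.mem_map.1 hg
  exact R_mem _

theorem pf_rel : ∀ t : Ty, ∀ i j : Fin (ng t), ∀ x : Fin 120,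
    (fun x => pf t i (pf t j x))^[cox t i j] x = x := by
  intro t
  cases t <;> decide +kernel

theorem refl (t : Ty) : Refl Bm (MonoidHom.fst GV (Equiv.Perm (Fin 120))) (gen t)
    (fun i => nm t i) := by
  have symm : ∀ x y, Bm x y = Bm y x := fun x y => by rw [Bm_apply, Bm_apply, B_symm]
  have one : ∀ i : Fin (ng t), Bm (nm t i) (nm t i) = 1 := fun i => by
    rw [Bm_apply, nm_unit, neg_neg]
  have act : ∀ (i : Fin (ng t)) v, MonoidHom.fst GV (Equiv.Perm (Fin 120)) (gen t i) v =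
      v - (2 * Bm (nm t i) v) • nm t i := fun i v => by
    change R (nm t i) v = _
    rw [R_apply (nm_unit t i), Bm_apply, B_symm, mul_neg, neg_smul, sub_neg_eq_add]
  refine ⟨symm, one, fun i => Prod.ext (R_mul_self _) (Equiv.ext fun x => ?_), act, fun i j h => ?_⟩
  · exact pf_invol t (Fin.castLE (ng_le t) i) x
  rcases gram t i j h with ⟨-, h1⟩ | ⟨h1, h2⟩
  · exact Or.inl (by rw [Bm_apply]; linarith)
  have h3 : Bm (nm t i) (nm t j) = -Real.cos (Real.pi / cox t i j) := by rw [Bm_apply, h2]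
  refine Or.inr ⟨_, h1, h3, Prod.ext
    (refl_pow (a := fun i : Fin (ng t) => nm t i) symm one act h1 h3)
    (Equiv.ext fun x => ?_)⟩
  rw [Prod.pow_snd, Equiv.Perm.coe_pow]
  exact pf_rel t i j x

end Pool.Agent.Lib.MP_36248f_gt
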