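import Pool.Agent.Lib.MP_36248f_gt.Strips
import Pool.Agent.Lib.MP_36248f_gt.Gram

open Set

namespace Pool.Agent.Lib.MP_36248f_gt

/-- the full height of a strip: two tiles for the end pieces -/
noncomputable def hf : Ty → ℝ
  | .S => 1
  | .N => hN
  | .M => hM

/-- `η` is a height at which a horizontal line cuts the lower or the upper disc of the strip -/
def Strip.Cuts (c : Strip) (η : ℝ) : Prop :=
  (0 < c.f * c.d * (η - c.y) ∧ c.f * c.d * (η - c.y) < 1 / hf (ty c.i)) ∨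
    (hf (ty c.i) - 1 / hf (ty c.i) < c.f * c.d * (η - c.y) ∧
      c.f * c.d * (η - c.y) < hf (ty c.i))

/-- integral lower bound -/
def betaLo (a b c : ℤ) : ℤ :=
  a * 100000 + min (b * 132287) (b * 132288) + min (c * 212029) (c * 212031)

/-- integral upper bound -/
def betaHi (a b c : ℤ) : ℤ :=
  a * 100000 + max (b * 132287) (b * 132288) + max (c * 212029) (c * 212031)

/-- integral lower bound for the diameter of a disc -/
def betaR : Ty → ℤ
  | .S => 2500000
  | .N => 1889000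
  | .M => 1179000

/-- an interval that is excluded by a pair of strips -/
def betaIv (e : ℤ) (s : ℕ × ℕ × ℤ) : ℤ × ℤ :=
  match strips[s.1]?, strips[s.2.1]? with
  | some c, some c' =>
    let a := c'.q0 - e * c.q0 - s.2.2 * 252
    let b := c'.q1 - e * c.q1 - s.2.2 * 504
    let g := c'.q2 - e * c.q2 - s.2.2 * 756
    if c'.d = 1 ∧ c'.f = 1 then (betaHi a b g, betaLo a b g + betaR (ty c'.i))
    else if c'.d = 1 ∧ c'.f = -1 then (betaHi a b g - betaR (ty c'.i), betaLo a b g) else (0, 0)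
  | _, _ => (0, 0)

/-- the intervals of the list cover `[x, T]` -/
def betaChk (e T : ℤ) : ℤ → List (ℕ × ℕ × ℤ) → Bool
  | x, [] => decide (T < x)
  | x, s :: l => decide ((betaIv e s).1 < x) && betaChk e T (betaIv e s).2 l

theorem beta_mm {l u x : ℝ} (h1 : l ≤ x) (h2 : x ≤ u) (b : ℝ) :
    min (b * l) (b * u) ≤ b * x ∧ b * x ≤ max (b * l) (b * u) := by
  rcases le_total 0 b with hb | hb
  · exact ⟨(min_le_left _ _).trans (mul_le_mul_of_nonneg_left h1 hb),
      (mul_le_mul_of_nonneg_left h2 hb).trans (le_max_right _ _)⟩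
  · exact ⟨(min_le_right _ _).trans (mul_le_mul_of_nonpos_left h2 hb),
      (mul_le_mul_of_nonpos_left h1 hb).trans (le_max_left _ _)⟩

theorem beta_bd (a b c : ℤ) : (betaLo a b c : ℝ) ≤ 100000 * (a + b * hN + c * hM) ∧
    100000 * (a + b * hN + c * hM) ≤ (betaHi a b c : ℝ) := by
  have h1 := par_bounds.2.1
  have h2 := beta_mm (l := 132287) (u := 132288) (x := 100000 * hN) (by linarith [h1.1])
    (by linarith [h1.2]) b
  have h3 := beta_mm (l := 212029) (u := 212031) (x := 100000 * hM) (by linarith [spec.h_lo])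
    (by linarith [spec.h_hi]) c
  simp only [betaLo, betaHi]
  push_cast
  constructor <;> linarith [h2.1, h2.2, h3.1, h3.2]

theorem beta_r (t : Ty) : (betaR t : ℝ) ≤ 2500000 * (1 / hf t) := by
  have h1 := par_bounds.2.1
  have h2 := spec.h_lo
  have h3 := spec.h_hi
  cases t
  · simp [betaR, hf]
  · simp only [betaR, hf]
    rw [mul_one_div, le_div_iff₀ (by linarith [h1.1])]
    push_cast
    linarith [h1.2]
  · simp only [betaR, hf]
    rw [mul_one_div, le_div_iff₀ (by linarith)]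
    push_cast
    linarith

theorem beta_iv {e : ℤ} {β : ℝ}
    (h : ∀ c ∈ strips, ∀ c' ∈ strips, ∀ k : ℤ, ¬c'.Cuts (e * c.y + β + k * LL)) (s : ℕ × ℕ × ℤ)
    (h1 : ((betaIv e s).1 : ℝ) < 2500000 * β) : ((betaIv e s).2 : ℝ) ≤ 2500000 * β := by
  by_contra h2
  rw [not_le] at h2
  unfold betaIv at h1 h2
  split at h1
  · rename_i c c' hc hc'
    have h3 := h c (List.mem_of_getElem? hc) c' (List.mem_of_getElem? hc') s.2.2
    have h4 := beta_bd (c'.q0 - e * c.q0 - s.2.2 * 252) (c'.q1 - e * c.q1 - s.2.2 * 504)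
      (c'.q2 - e * c.q2 - s.2.2 * 756)
    have h5 := beta_r (ty c'.i)
    simp only [hc, hc'] at h1 h2
    generalize betaLo _ _ _ = lo at h1 h2 h4
    generalize betaHi _ _ _ = hi at h1 h2 h4
    split_ifs at h1 h2 with a b
    · refine h3 (Or.inl ?_)
      simp only [a.1, a.2, Strip.y, LL]
      push_cast at h1 h2 h4 ⊢
      constructor <;> linarith [h4.1, h4.2]
    · refine h3 (Or.inl ?_)
      simp only [b.1, b.2, Strip.y, LL]
      push_cast at h1 h2 h4 ⊢
      constructor <;> linarith [h4.1, h4.2]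
    · exact lt_asymm h1 h2
  · rename_i hn
    split at h2
    · rename_i c c' hc hc'
      exact hn c c' hc hc'
    · exact lt_asymm h1 h2

theorem beta_chk {e T : ℤ} {β : ℝ}
    (h : ∀ c ∈ strips, ∀ c' ∈ strips, ∀ k : ℤ, ¬c'.Cuts (e * c.y + β + k * LL))
    (l : List (ℕ × ℕ × ℤ)) (x : ℤ) (h1 : betaChk e T x l = true) (h2 : (x : ℝ) ≤ 2500000 * β) :
    (T : ℝ) < 2500000 * β := by
  induction l generalizing x with
  | nil =>
    have : T < x := of_decide_eq_true h1
    exact lt_of_lt_of_le (by exact_mod_cast this) h2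
  | cons s l ih =>
    rw [betaChk, Bool.and_eq_true, decide_eq_true_eq] at h1
    exact ih _ h1.2 (beta_iv h s (lt_of_lt_of_le (by exact_mod_cast h1.1) h2))

theorem beta_pos : betaChk 1 250989588 2500000
    [(50, 46, 0), (11, 8, 0), (2, 1, 0), (51, 46, 0), (4, 2, 0), (0, 81, -1), (11, 6, 0), (74,
    65, 0), (2, 81, -1), (73, 62, 0), (14, 6, 0), (52, 44, 0), (74, 62, 0), (16, 6, 0), (73, 60,
    0), (17, 6, 0), (78, 65, 0), (53, 41, 0), (12, 2, 0), (3, 76, -1), (54, 41, 0), (78, 62, 0),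
    (59, 44, 0), (40, 30, 0), (14, 0, 0), (60, 44, 0), (74, 55, 0), (24, 6, 0), (14, 81, -1),
    (52, 34, 0), (76, 55, 0), (26, 6, 0), (14, 79, -1), (54, 34, 0), (2, 62, -1), (30, 6, 0),
    (81, 58, 0), (50, 27, 0), (4, 62, -1), (24, 0, 0), (21, 81, -1), (52, 27, 0), (6, 62, -1),
    (26, 0, 0), (21, 79, -1), (54, 27, 0), (10, 62, -1), (30, 0, 0), (76, 41, 0), (52, 20, 0),
    (12, 62, -1), (24, 76, -1), (42, 11, 0), (60, 27, 0), (6, 55, -1), (26, 76, -1), (45, 11,
    0), (62, 27, 0), (10, 55, -1), (30, 76, -1), (76, 34, 0), (52, 13, 0), (12, 55, -1), (32,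
    76, -1), (2, 41, -1), (50, 6, 0), (24, 62, -1), (14, 53, -1), (4, 41, -1), (52, 6, 0), (26,
    62, -1), (36, 76, -1), (6, 41, -1), (54, 6, 0), (20, 55, -1), (38, 76, -1), (10, 41, -1),
    (50, 0, 0), (24, 55, -1), (53, 2, 0), (12, 41, -1), (52, 0, 0), (26, 55, -1), (44, 76, -1),
    (6, 34, -1), (54, 0, 0), (65, 11, 0), (46, 76, -1), (10, 34, -1), (50, 76, -1), (32, 55,
    -1), (61, 2, 0), (12, 34, -1), (68, 6, 0), (34, 55, -1), (23, 43, -1), (2, 20, -1), (58, 79,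
    -1), (25, 41, -1), (56, 76, -1), (37, 55, -1), (12, 30, -1), (28, 41, -1), (38, 55, -1),
    (56, 74, -1), (48, 62, -1), (64, 81, -1), (31, 41, -1), (40, 55, -1), (59, 74, -1), (2, 13,
    -1), (68, 81, -1), (11, 20, -1), (63, 76, -1), (45, 55, -1), (6, 16, -1), (0, 6, -1), (46,
    55, -1), (9, 17, -1), (48, 55, -1), (10, 16, -1), (72, 76, -1), (7, 12, -1), (65, 74, -1),
    (8, 13, -1), (11, 15, -1), (67, 74, -1), (46, 51, -1), (7, 8, -1), (2, 3, -1), (9, 11, -1),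
    (2, 2, -1)] = true := by
  decide +kernel

theorem beta_neg : betaChk (-1) 252168588 0
    [(72, 13, -1), (74, 11, -1), (38, 39, -1), (17, 62, -1), (5, 76, -1), (35, 41, -1), (78, 2,
    -1), (14, 62, -1), (70, 6, -1), (80, 81, -2), (34, 39, -1), (11, 62, -1), (79, 81, -2), (8,
    62, -1), (76, 0, -1), (30, 41, -1), (14, 58, -1), (6, 62, -1), (21, 46, -1), (26, 41, -1),
    (11, 58, -1), (70, 0, -1), (74, 81, -2), (26, 39, -1), (11, 55, -1), (70, 81, -2), (2, 62,
    -1), (76, 76, -2), (30, 34, -1), (0, 62, -1), (9, 53, -1), (28, 34, -1), (20, 39, -1), (5,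
    55, -1), (39, 19, -1), (4, 55, -1), (14, 44, -1), (23, 34, -1), (3, 55, -1), (11, 45, -1),
    (2, 55, -1), (28, 30, -1), (46, 6, -1), (0, 55, -1), (11, 43, -1), (31, 25, -1), (21, 32,
    -1), (26, 27, -1), (66, 65, -2), (54, 81, -2), (17, 34, -1), (26, 25, -1), (16, 34, -1),
    (77, 58, -2), (25, 25, -1), (14, 34, -1), (65, 62, -2), (2, 44, -1), (64, 62, -2), (54, 76,
    -2), (14, 32, -1), (63, 62, -2), (53, 76, -2), (64, 60, -2), (52, 76, -2), (14, 30, -1), (6,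
    34, -1), (60, 62, -2), (74, 53, -2), (14, 27, -1), (59, 62, -2), (8, 30, -1), (58, 62, -2),
    (39, 81, -2), (3, 34, -1), (56, 62, -2), (67, 51, -2), (58, 60, -2), (37, 81, -2), (68, 46,
    -2), (6, 27, -1), (52, 62, -2), (65, 46, -2), (5, 27, -1), (51, 62, -2), (2, 30, -1), (47,
    62, -2), (5, 25, -1), (46, 62, -2), (6, 20, -1), (54, 55, -2), (45, 62, -2), (5, 20, -1),
    (53, 55, -2), (10, 16, -1), (52, 55, -2), (42, 62, -2), (3, 20, -1), (51, 55, -2), (78, 30,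
    -2), (39, 62, -2), (11, 11, -1), (38, 62, -2), (6, 13, -1), (47, 53, -2), (37, 62, -2), (5,
    13, -1), (51, 51, -2), (8, 6, -1), (33, 65, -2), (35, 62, -2), (7, 6, -1), (4, 11, -1), (8,
    4, -1), (33, 62, -2), (5, 6, -1), (36, 58, -2), (24, 74, -2), (39, 53, -2), (31, 62, -2),
    (3, 6, -1), (12, 81, -2), (2, 6, -1), (25, 65, -2), (28, 62, -2), (0, 6, -1), (9, 81, -2),
    (46, 39, -2), (65, 20, -2), (5, 0, -1), (42, 41, -2), (2, 2, -1), (21, 62, -2), (3, 0, -1),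
    (76, 11, -2), (40, 39, -2), (19, 62, -2), (3, 81, -2)] = true := by
  decide +kernel

theorem beta_cover {e β : ℝ} (he : e = 1 ∨ e = -1)
    (h : ∀ c ∈ strips, ∀ c' ∈ strips, ∀ k : ℤ, ¬c'.Cuts (e * c.y + β + k * LL)) :
    e = 1 ∧ ∃ k : ℤ, β = k * LL := by
  have b1 := par_bounds.2.1
  have b2 := spec.h_lo
  have b3 := spec.h_hi
  have hL : 0 < LL := by
    unfold LL
    linarith [b1.1]
  have hU : 2500000 * LL ≤ 252168588 := by
    unfold LL
    linarith [b1.2]
  obtain ⟨γ, h0, h1, m, rfl⟩ : ∃ γ, 0 ≤ γ ∧ γ < LL ∧ ∃ m : ℤ, β = γ + m * LL :=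
    ⟨β - ⌊β / LL⌋ * LL, Int.sub_floor_div_mul_nonneg β hL, Int.sub_floor_div_mul_lt β hL,
      ⌊β / LL⌋, by ring⟩
  have h' : ∀ c ∈ strips, ∀ c' ∈ strips, ∀ k : ℤ, ¬c'.Cuts (e * c.y + γ + k * LL) := by
    intro c hc c' hc' k
    have := h c hc c' hc' (k - m)
    rwa [show e * c.y + (γ + m * LL) + (k - m : ℤ) * LL = e * c.y + γ + k * LL by
      push_cast; ring] at this
  rcases he with rfl | rfl
  · refine ⟨rfl, m, ?_⟩
    by_contra hne
    have h2 : 0 < γ := h0.lt_of_ne fun h2 => hne (by rw [← h2, zero_add])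
    have s0 : (⟨0, 0, 1, 1, 1, 0, 0, 0, 0⟩ : Strip) ∈ strips := List.mem_cons_self
    have s1 : (⟨1, 0, 1, -1, 1, 0, 0, 0, 0⟩ : Strip) ∈ strips :=
      List.mem_cons_of_mem _ List.mem_cons_self
    have h3 : 1 ≤ γ := by
      by_contra h3
      refine h' _ s0 _ s0 0 (Or.inl ?_)
      simp only [Strip.y, show hf (ty ((0 : Fin 7) : ℕ)) = 1 from rfl]
      push_cast
      constructor <;> linarith
    have h4 := beta_chk (e := 1) (by simpa using h') _ _ beta_pos (by push_cast; linarith)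
    have h5 := beta_r (ty ((1 : Fin 7) : ℕ))
    rw [show betaR (ty ((1 : Fin 7) : ℕ)) = 1179000 from rfl] at h5
    refine h' _ s0 _ s1 (-1) (Or.inl ?_)
    simp only [Strip.y]
    push_cast at h4 h5 ⊢
    constructor <;> linarith
  · have h4 := beta_chk (e := -1) (by simpa using h') _ _ beta_neg (by push_cast; linarith)
    push_cast at h4
    linarith

end Pool.Agent.Lib.MP_36248f_gt
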