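import Pool.Agent.Lib.MP_36248f_gt.Gram

open Set

namespace Pool.Agent.Lib.MP_36248f_gt

theorem chord {x a b : ℝ} (h1 : a ≤ x) (h2 : x ≤ b) : x ^ 2 ≤ (a + b) * x - a * b := by
  nlinarith [mul_nonneg (sub_nonneg.2 h1) (sub_nonneg.2 h2)]

theorem covM_aux {x y u : ℝ} (x0 : 0 ≤ x) (x1 : x ≤ 1 / 2) (y0 : 0 ≤ y) (y1 : y ≤ 2.1203)
    (h2 : 1 ≤ u) (h3 : 2 * 2.1202 * y ≤ u + 3.4957)
    (h4 : 2 * 4.185 * x + 2 * 8.443 * y ≤ 9.373 * u + 9.373)
    (h5 : 2 * 1.5196 * x + 2 * 4.6907 * y ≤ 4.0394 * u + 5.7715)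
    (h6 : x + 2 * 5.2003 * y ≤ 5.1278 * u + 5.1278) : 1 / 400 ≤ u - x ^ 2 - y ^ 2 := by
  rcases le_total y (33 / 40) with a | a
  · linarith [chord x0 x1, chord y0 a]
  rcases le_total y (19 / 20) with b | b
  · rcases le_total x (3 / 10) with c | c
    · linarith [chord x0 c, chord a b]
    rcases le_total x (3 / 8) with d | d
    · linarith [chord c d, chord a b]
    · linarith [chord d x1, chord a b]
  rcases le_total y (41 / 40) with a' | a'
  · rcases le_total x (11 / 40) with c | c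
    · linarith [chord x0 c, chord b a']
    rcases le_total x (19 / 40) with d | d
    · linarith [chord c d, chord b a']
    · linarith [chord d x1, chord b a']
  rcases le_total y (5 / 4) with b' | b'
  · rcases le_total x (7 / 40) with c | c
    · linarith [chord x0 c, chord a' b']
    · linarith [chord c x1, chord a' b']
  · linarith [chord x0 x1, chord b' y1]

theorem Ch_x {t : Ty} {v : V} (hv : v ∈ Ch t) : 0 ≤ v 0 ∧ v 0 ≤ v 3 / 2 ∧ v 3 ≤ v 2 := by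
  have h0 : 0 ≤ B v (nm t 0) := hv ⟨0, by cases t <;> decide⟩
  have h1 : 0 ≤ B v (nm t 1) := hv ⟨1, by cases t <;> decide⟩
  have h2 : 0 ≤ B v (nm t 2) := hv ⟨2, by cases t <;> decide⟩
  rw [nm0, B_vec'] at h0
  rw [nm1, B_vec'] at h1
  rw [nm2, B_vec'] at h2
  exact ⟨by linarith, by linarith, by linarith⟩

theorem ht_bd (t : Ty) : 1 / 2 ≤ ht t ∧ ht t ≤ 3 := by
  cases t <;> simp only [ht] <;> constructor <;>
    linarith [hN_bd.1, hN_bd.2, numE.bh.1, numE.bh.2]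

theorem cover_one (t : Ty) {v : V} (h3 : v 3 = 1) (hv : v ∈ Ch t) (y0 : 0 ≤ v 1)
    (y1 : v 1 ≤ ht t) : 1 / 400 ≤ v 2 - v 0 ^ 2 - v 1 ^ 2 := by
  obtain ⟨x0, x1, u1⟩ := Ch_x hv
  rw [h3] at x1 u1
  have u0 : 0 ≤ v 2 := by linarith
  have mx := fun {a b : ℝ} (h : a ≤ b) => mul_le_mul_of_nonneg_left h x0
  have my := fun {a b : ℝ} (h : a ≤ b) => mul_le_mul_of_nonneg_left h y0
  have mu := fun {a b : ℝ} (h : a ≤ b) => mul_le_mul_of_nonneg_left h u0
  cases t <;> simp only [ht] at y1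
  · linarith [chord x0 x1, chord y0 y1]
  · have h : 0 ≤ B v (nm .N 3) := hv ⟨3, by decide⟩
    rw [nmN3, B_vec', h3] at h
    have y2 : v 1 ≤ 1.3229 := by linarith [hN_bd.2]
    rcases le_total (v 1) 0.7 with y3 | y3
    · linarith [chord x0 x1, chord y0 y3]
    · linarith [chord x0 x1, chord y3 y2, my hN_bd.1]
  · have N := numE
    obtain ⟨-, -, -, bX, bY, bW⟩ := num4
    have a3 : 0 ≤ B v (nm .M 3) := hv ⟨3, by decide⟩
    have a4 : 0 ≤ B v (nm .M 4) := hv ⟨4, by decide⟩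
    have a5 : 0 ≤ B v (nm .M 5) := hv ⟨5, by decide⟩
    have a6 : 0 ≤ B v (nm .M 6) := hv ⟨6, by decide⟩
    rw [nmM3, B_vec', h3] at a3
    rw [nmM4, B_vec', h3] at a4
    rw [nmM5, B_vec', h3] at a5
    rw [nmM6, B_vec', h3] at a6
    refine covM_aux x0 x1 y0 (by linarith [N.bh.2]) u1 ?_ ?_ ?_ ?_
    · linarith [my N.bh.1, N.bH.2]
    · linarith [mx bX.1, my bY.1, mu bW.2, bW.2]
    · linarith [mx N.ba.1, my N.b5.1, mu N.ba.2, N.ba.2, N.bs.2]
    · linarith [my N.b6.1, mu N.bb.2, N.bb.2]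

/-- the discs cover the rectangle: points of the tile have height at least `1 / 25` -/
theorem disc_cover (t : Ty) {v : V} (hv : v ∈ PC t) : v 3 ^ 2 ≤ 625 * B v v := by
  obtain ⟨c, u, hc, hu, rfl⟩ : ∃ (c : ℝ) (u : V), 0 < c ∧ u 3 = 1 ∧ v = c • u :=
    ⟨v 3, (v 3)⁻¹ • v, hv.1, by simp [hv.1.ne'], by simp [smul_smul, hv.1.ne']⟩
  obtain ⟨-, h1, h2, h3⟩ := hv
  simp only [Pi.smul_apply, smul_eq_mul, hu] at h2 h3
  have h := cover_one t hu (fun i => by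
    have h0 := h1 i
    rw [B_smul] at h0
    exact nonneg_of_mul_nonneg_right h0 hc) (nonneg_of_mul_nonneg_right h2 hc)
    (le_of_mul_le_mul_left (by linarith) hc)
  simp only [B, Pi.smul_apply, smul_eq_mul, hu]
  nlinarith [mul_le_mul_of_nonneg_left h (sq_nonneg c), sq_nonneg c]

theorem P_box (t : Ty) {v : V} (hv : v ∈ P t) :
    0 ≤ v 0 ∧ v 0 ≤ v 3 / 2 ∧ 0 ≤ v 1 ∧ v 1 ≤ 3 * v 3 ∧ v 3 ≤ 25 := by
  obtain ⟨⟨h0, h3⟩, h1, y0, y1⟩ := hv
  have h := disc_cover t ⟨h3, h1, y0, y1⟩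
  rw [h0] at h
  exact ⟨(Ch_x h1).1, (Ch_x h1).2.1, y0,
    y1.trans (mul_le_mul_of_nonneg_right (ht_bd t).2 h3.le), by nlinarith⟩

/-- a point of height at least one lies outside every sphere of radius at most one -/
theorem B_sphere {v n : V} (hv : v ∈ HH) (h3 : v 3 ≤ 1) (hn : B n n = -1) (h1 : 1 ≤ n 3) :
    0 ≤ B v n := by
  have key : 2 * v 3 * n 3 * B v n = (v 0 * n 3 - n 0 * v 3) ^ 2 + (v 1 * n 3 - n 1 * v 3) ^ 2 +
      B v v * n 3 ^ 2 + B n n * v 3 ^ 2 := by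
    simp only [B]
    ring
  rw [hv.1, hn] at key
  have h0 := hv.2
  refine nonneg_of_mul_nonneg_right (a := 2 * v 3 * n 3) ?_ (by positivity)
  nlinarith [sq_nonneg (v 0 * n 3 - n 0 * v 3), sq_nonneg (v 1 * n 3 - n 1 * v 3)]

theorem high_mem (t : Ty) {v : V} (hv : v ∈ HH) (h3 : v 3 ≤ 1) (h0 : 0 ≤ v 0)
    (h0' : v 0 ≤ v 3 / 2) (h1 : 0 ≤ v 1) (h1' : v 1 ≤ ht t * v 3) : v ∈ P t := by
  refine ⟨hv, fun i => ?_, h1, h1'⟩
  have N := numE
  obtain ⟨-, -, -, -, -, bW⟩ := num4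
  have h := B_sphere hv h3 (nm_unit t i)
  obtain ⟨i, hi⟩ := i
  cases t <;> simp only [ng] at hi <;> simp only [ht] at h1' <;> interval_cases i <;>
    simp only [nm0, nm1, nm2, nmS3, nmN3, nmM3, nmM4, nmM5, nmM6] at h ⊢ <;>
    first
    | (rw [B_vec']; linarith)
    | exact h (by simp only [Matrix.cons_val]; linarith [N.ba.1, N.bb.1, bW.1])

theorem exists_inner (t : Ty) : ∃ o ∈ HH, (∀ i : Fin (ng t), 0 < B o (nm t i)) ∧ 0 < o 1 ∧
    o 1 < ht t * o 3 := by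
  refine ⟨![1 / 8, 1 / 8, 33 / 16, 1 / 2], ⟨by rw [B_vec]; norm_num, by simp⟩, fun i => ?_,
    by simp, ?_⟩
  · have N := numE
    obtain ⟨-, -, -, bX, bY, bW⟩ := num4
    obtain ⟨i, hi⟩ := i
    cases t <;> simp only [ng] at hi <;> interval_cases i <;>
      simp only [nm0, nm1, nm2, nmS3, nmN3, nmM3, nmM4, nmM5, nmM6, B_vec] <;>
      linarith [N.bH.1, N.bh.2, N.ba.1, N.bb.1, N.b5.2, N.b6.2, bX.2, bY.2, bW.1, N.bs.1,
        hN_bd.2]
  · simp only [Matrix.cons_val]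
    linarith [(ht_bd t).1]

theorem isClosed_P (t : Ty) : IsClosed (P t) := by
  have h : IsClosed (Ch t) := by
    simp only [Ch, ofPred_forall]
    exact isClosed_iInter fun i => isClosed_le continuous_const (by unfold B; fun_prop)
  exact isClosed_HH.inter (h.inter ((isClosed_le continuous_const (continuous_apply 1)).inter
    (isClosed_le (continuous_apply 1) (by fun_prop))))

theorem isCompact_thick (t : Ty) {ε : ℝ} (hε : 0 < ε) :
    IsCompact {v | v ∈ P t ∧ ε ≤ v 3} := by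
  have ho : (![0, 0, 1, 1] : V) ∈ HH := ⟨by rw [B_vec]; norm_num, by simp⟩
  refine (isCompact_ball ho (13 + 3000 / ε)).of_isClosed_subset
    ((isClosed_P t).inter (isClosed_le continuous_const (continuous_apply 3))) fun v hv => ?_
  obtain ⟨x0, x1, y0, y1, w1⟩ := P_box t hv.1
  have h1 : v 2 * v 3 - v 0 ^ 2 - v 1 ^ 2 = 1 := by
    have h := hv.1.1.1
    simp only [B] at h
    linarith
  have u0 : 0 ≤ v 2 := hv.1.1.2.le.trans (Ch_x hv.1.2.1).2.2
  have h2 : v 2 ≤ 6000 / ε := by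
    rw [le_div_iff₀ hε]
    nlinarith [mul_le_mul_of_nonneg_left hv.2 u0, chord x0 (show v 0 ≤ 13 by linarith),
      chord y0 (show v 1 ≤ 75 by linarith)]
  refine ⟨hv.1.1, ?_⟩
  rw [B_symm, B_vec']
  have h3 : 6000 / ε = 2 * (3000 / ε) := by ring
  linarith

end Pool.Agent.Lib.MP_36248f_gt
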