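import Pool.Agent.Lib.MP_36248f_gt.Defs

/-!
The action on the upper half space through Hermitian matrices.
-/

open Set Matrix ComplexConjugate

namespace Pool.Agent.Lib.MP_36248f_gt

/-- the Hermitian matrix of determinant one attached to a point -/
noncomputable def her (p : H3) : Matrix (Fin 2) (Fin 2) ℂ :=
  !![(p.1.1 * conj p.1.1 + (p.1.2 : ℂ) ^ 2) / p.1.2, p.1.1 / p.1.2; conj p.1.1 / p.1.2, 1 / p.1.2]

theorem ht_ne (p : H3) : (p.1.2 : ℂ) ≠ 0 := Complex.ofReal_ne_zero.2 p.2.ne'

theorem den_ne (g : SL2C) (p : H3) : (den g p : ℂ) ≠ 0 :=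
  Complex.ofReal_ne_zero.2 (den_pos g p).ne'

theorem den_coe (g : SL2C) (p : H3) : (den g p : ℂ) =
    (g 1 0 * p.1.1 + g 1 1) * (conj (g 1 0) * conj p.1.1 + conj (g 1 1)) +
      g 1 0 * conj (g 1 0) * (p.1.2 : ℂ) ^ 2 := by
  rw [← map_mul, ← map_add, Complex.mul_conj', Complex.mul_conj', den]
  push_cast
  ring

theorem det_entries (g : SL2C) : g 0 0 * g 1 1 - g 0 1 * g 1 0 = 1 := by
  have h := g.det_coe
  rwa [Matrix.det_fin_two] at h

theorem act_fst (g : SL2C) (p : H3) : (act g p).1.1 =
    ((g 0 0 * p.1.1 + g 0 1) * (conj (g 1 0) * conj p.1.1 + conj (g 1 1)) +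
      g 0 0 * conj (g 1 0) * (p.1.2 : ℂ) ^ 2) / (den g p : ℂ) := by
  simp only [act, map_add, map_mul]

theorem act_snd (g : SL2C) (p : H3) : (act g p).1.2 = p.1.2 / den g p := rfl

theorem her_aux {a b c d a' b' c' d' z z' t D : ℂ} (hd : D ≠ 0)
    (h1 : a * d - b * c = 1) (h2 : a' * d' - b' * c' = 1)
    (h3 : D = (c * z + d) * (c' * z' + d') + c * c' * t ^ 2) :
    !![(((a * z + b) * (c' * z' + d') + a * c' * t ^ 2) / D *
          (((a' * z' + b') * (c * z + d) + a' * c * t ^ 2) / D) + (t / D) ^ 2) / (t / D),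
        ((a * z + b) * (c' * z' + d') + a * c' * t ^ 2) / D / (t / D);
        ((a' * z' + b') * (c * z + d) + a' * c * t ^ 2) / D / (t / D), 1 / (t / D)] =
      !![a, b; c, d] * !![(z * z' + t ^ 2) / t, z / t; z' / t, 1 / t] * !![a', c'; b', d'] := by
  have e : ((a * z + b) * (c' * z' + d') + a * c' * t ^ 2) *
      ((a' * z' + b') * (c * z + d) + a' * c * t ^ 2) + t ^ 2 =
      D * ((a * z + b) * (a' * z' + b') + a * a' * t ^ 2) := by
    rw [h3]
    linear_combination (-t ^ 2 * (a' * d' - b' * c')) * h1 - t ^ 2 * h2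
  rw [Matrix.mul_fin_two, Matrix.mul_fin_two, div_mul_div_comm, div_pow, pow_two D, ← add_div, e,
    div_div_div_cancel_right₀ hd, div_div_div_cancel_right₀ hd, mul_div_mul_left _ _ hd,
    div_div_div_cancel_right₀ hd, one_div_div, h3]
  congr 1
  ext i j
  fin_cases i <;> fin_cases j <;> simp <;> ring

theorem her_act (g : SL2C) (p : H3) : her (act g p) = g.1 * her p * g.1ᴴ := by
  have h1 := det_entries g
  have h2 : conj (g 0 0) * conj (g 1 1) - conj (g 0 1) * conj (g 1 0) = 1 := by
    simpa using congrArg conj h1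
  have h4 : conj (act g p).1.1 =
      ((conj (g 0 0) * conj p.1.1 + conj (g 0 1)) * (g 1 0 * p.1.1 + g 1 1) +
        conj (g 0 0) * g 1 0 * (p.1.2 : ℂ) ^ 2) / (den g p : ℂ) := by
    rw [act_fst]
    simp
  have h5 : g.1ᴴ = !![conj (g 0 0), conj (g 1 0); conj (g 0 1), conj (g 1 1)] := by
    ext i j
    fin_cases i <;> fin_cases j <;> rfl
  rw [her, her, h4, act_fst, act_snd, Complex.ofReal_div,
    her_aux (den_ne g p) h1 h2 (den_coe g p), h5]
  congr 2
  exact (Matrix.eta_fin_two g.1).symm

theorem her_inj : Function.Injective her := by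
  intro p q h
  have h1 : (1 : ℂ) / p.1.2 = 1 / q.1.2 := congrFun (congrFun h 1) 1
  have h2 : p.1.1 / p.1.2 = q.1.1 / q.1.2 := congrFun (congrFun h 0) 1
  have h3 : (p.1.2 : ℂ) = q.1.2 := by simpa using h1
  rw [h3, div_left_inj' (ht_ne q)] at h2
  exact Subtype.ext (Prod.ext h2 (Complex.ofReal_injective h3))

theorem act_one (p : H3) : act 1 p = p := her_inj (by simp [her_act])

theorem act_neg (g : SL2C) (p : H3) : act (-g) p = act g p := her_inj (by simp [her_act])

theorem act_mul (g h : SL2C) (p : H3) : act (g * h) p = act g (act h p) :=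
  her_inj (by simp [her_act, Matrix.mul_assoc])

theorem act_inv_act (g : SL2C) (p : H3) : act g⁻¹ (act g p) = p := by
  rw [← act_mul, inv_mul_cancel, act_one]

theorem act_act_inv (g : SL2C) (p : H3) : act g (act g⁻¹ p) = p := by
  rw [← act_mul, mul_inv_cancel, act_one]

theorem continuous_act₂ : Continuous fun x : SL2C × H3 => act x.1 x.2 := by
  have he : ∀ i j, Continuous fun x : SL2C × H3 => x.1 i j := fun i j =>
    (continuous_apply_apply i j).comp (continuous_subtype_val.comp continuous_fst)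
  have h00 := he 0 0
  have h01 := he 0 1
  have h10 := he 1 0
  have h11 := he 1 1
  have hd : Continuous fun x : SL2C × H3 => den x.1 x.2 := by
    unfold den
    fun_prop
  refine Continuous.subtype_mk (Continuous.prodMk ?_ ?_) _
  · exact Continuous.div (by fun_prop) (by fun_prop) fun x => den_ne _ _
  · exact Continuous.div (by fun_prop) hd fun x => (den_pos _ _).ne'

theorem continuous_act (g : SL2C) : Continuous (act g) :=
  Continuous.comp (g := fun x : SL2C × H3 => act x.1 x.2) (f := fun p : H3 => (g, p))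
    continuous_act₂ (continuous_const.prodMk continuous_id)

/-- the action as a homeomorphism -/
noncomputable def actH (g : SL2C) : H3 ≃ₜ H3 where
  toFun := act g
  invFun := act g⁻¹
  left_inv := act_inv_act g
  right_inv := act_act_inv g
  continuous_toFun := continuous_act g
  continuous_invFun := continuous_act g⁻¹

/-- `2 cosh d - 2` for the hyperbolic distance `d` -/
noncomputable def dl (p q : H3) : ℝ :=
  (‖p.1.1 - q.1.1‖ ^ 2 + (p.1.2 - q.1.2) ^ 2) / (p.1.2 * q.1.2)

theorem dl_det (p q : H3) : (dl p q : ℂ) = -(her p - her q).det := by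
  have hp := ht_ne p
  have hq := ht_ne q
  rw [Matrix.det_fin_two, dl]
  push_cast
  rw [← Complex.mul_conj']
  simp only [her, Matrix.sub_apply, Matrix.of_apply, Matrix.cons_val', Matrix.cons_val_zero,
    Matrix.cons_val_one, Matrix.cons_val_fin_one, map_sub]
  field_simp
  ring

theorem dl_act (g : SL2C) (p q : H3) : dl (act g p) (act g q) = dl p q := by
  apply Complex.ofReal_injective
  rw [dl_det, dl_det, her_act, her_act, ← Matrix.sub_mul, ← Matrix.mul_sub, Matrix.det_mul,
    Matrix.det_mul, Matrix.det_conjTranspose, g.det_coe]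
  simp

theorem dl_nonneg (p q : H3) : 0 ≤ dl p q := by
  have := p.2
  have := q.2
  unfold dl
  positivity

theorem dl_eq_zero {p q : H3} (h : dl p q = 0) : p = q := by
  have h1 := mul_pos p.2 q.2
  rw [dl, div_eq_zero_iff, or_iff_left h1.ne',
    add_eq_zero_iff_of_nonneg (sq_nonneg _) (sq_nonneg _)] at h
  exact Subtype.ext (Prod.ext (sub_eq_zero.1 (norm_eq_zero.1 (pow_eq_zero_iff two_ne_zero |>.1 h.1)))
    (sub_eq_zero.1 (pow_eq_zero_iff two_ne_zero |>.1 h.2)))

theorem continuous_dl : Continuous fun x : H3 × H3 => dl x.1 x.2 := by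
  unfold dl
  exact Continuous.div (by fun_prop) (by fun_prop) fun x => (mul_pos x.1.2 x.2.2).ne'

end Pool.Agent.Lib.MP_36248f_gt
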