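import Pool.Agent.Lib.MP_36248f_gt.Hyp
import Pool.Agent.Lib.MP_36248f_gt.Dict

open Set

namespace Pool.Agent.Lib.MP_36248f_gt

/-- the Hermitian matrix of a vector -/
noncomputable def bridge_H (v : V) : Matrix (Fin 2) (Fin 2) ℂ :=
  !![v 2, v 0 + v 1 * Complex.I; v 0 - v 1 * Complex.I, v 3]

theorem bridge_inj : Function.Injective bridge_H := by
  intro v w h
  have h0 := congrFun (congrFun h 0) 0
  have h1 := congrFun (congrFun h 0) 1
  have h3 := congrFun (congrFun h 1) 1
  simp [bridge_H, Complex.ext_iff] at h0 h1 h3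
  ext i
  fin_cases i
  exacts [h1.1, h1.2, h0, h3]

theorem bridge_L (g : SL2C) (v : V) : bridge_H (L g v) = g.1 * bridge_H v * g.1.conjTranspose := by
  ext i j
  fin_cases i <;> fin_cases j <;> apply Complex.ext <;>
    simp [bridge_H, L_apply, Ll, Matrix.mul_apply, Fin.sum_univ_two] <;> ring

theorem bridge_det (v : V) : (bridge_H v).det = (B v v : ℝ) := by
  apply Complex.ext <;> simp [bridge_H, B, Matrix.det_fin_two] <;> ring

theorem bridge_iota (p : H3) : bridge_H (iota p) = her p := by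
  have h := ht_ne p
  have e := Complex.re_add_im p.1.1
  have e' : (starRingEnd ℂ) p.1.1 = p.1.1.re - p.1.1.im * Complex.I := by
    apply Complex.ext <;> simp
  have e'' : p.1.1 * (starRingEnd ℂ) p.1.1 = (p.1.1.re : ℂ) ^ 2 + (p.1.1.im : ℂ) ^ 2 := by
    rw [Complex.mul_conj, Complex.normSq_apply]
    push_cast
    ring
  ext i j
  fin_cases i <;> fin_cases j
  · simp [bridge_H, iota, her, e'']
  · simp only [bridge_H, iota, her]
    simp
    field_simp
    exact e
  · simp only [bridge_H, iota, her, e']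
    simp
    field_simp
  · simp [bridge_H, iota, her]

theorem iota_mem (p : H3) : iota p ∈ HH := by
  have h := p.2
  refine ⟨?_, ?_⟩
  · simp [B, iota]
    field_simp
    ring
  · simpa [iota] using h

theorem iota_act (g : SL2C) (p : H3) : iota (act g p) = L g (iota p) :=
  bridge_inj (by rw [bridge_L, bridge_iota, bridge_iota, her_act])

/-- the point of the upper half space attached to a point of the hyperboloid -/
noncomputable def bridge_inv (v : HH) : H3 :=
  ⟨((v.1 0 / v.1 3 : ℝ) + (v.1 1 / v.1 3 : ℝ) * Complex.I, 1 / v.1 3), one_div_pos.2 v.2.2⟩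

theorem bridge_right (v : HH) : iota (bridge_inv v) = v := by
  obtain ⟨v, h1, h2⟩ := v
  unfold B at h1
  ext i
  fin_cases i <;> simp only [iota, bridge_inv, Complex.add_re, Complex.add_im, Complex.mul_re,
    Complex.mul_im, Complex.ofReal_re, Complex.ofReal_im, Complex.I_re, Complex.I_im] <;> simp <;>
    field_simp
  linear_combination -h1

theorem exists_homeo : ∃ φ : H3 ≃ₜ HH, ∀ p, (φ p : V) = iota p := by
  refine ⟨⟨⟨fun p => ⟨iota p, iota_mem p⟩, bridge_inv, fun p => ?_,
    fun v => Subtype.ext (bridge_right v)⟩, ?_, ?_⟩, fun p => rfl⟩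
  · have h := ht_ne p
    refine Subtype.ext (Prod.ext ?_ ?_)
    · simp [bridge_inv, iota]
      field_simp
      exact Complex.re_add_im _
    · simp [bridge_inv, iota]
  · refine Continuous.subtype_mk (continuous_pi fun i => ?_) _
    have h : ∀ p : H3, p.1.2 ≠ 0 := fun p => p.2.ne'
    fin_cases i <;> exact Continuous.div (by fun_prop) (by fun_prop) h
  · have h : ∀ v : HH, v.1 3 ≠ 0 := fun v => v.2.2.ne'
    have hc : ∀ i, Continuous fun v : HH => v.1 i := fun i =>
      (continuous_apply i).comp continuous_subtype_val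
    have h0 : Continuous fun v : HH => v.1 0 / v.1 3 := (hc 0).div (hc 3) h
    have h1 : Continuous fun v : HH => v.1 1 / v.1 3 := (hc 1).div (hc 3) h
    have h2 : Continuous fun v : HH => 1 / v.1 3 := continuous_const.div (hc 3) h
    exact Continuous.subtype_mk (Continuous.prodMk ((Complex.continuous_ofReal.comp h0).add
      ((Complex.continuous_ofReal.comp h1).mul continuous_const)) h2) _

theorem bridge_B (g : SL2C) (v : V) : B (L g v) (L g v) = B v v := by
  apply Complex.ofReal_injective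
  rw [← bridge_det, ← bridge_det, bridge_L, Matrix.det_mul, Matrix.det_mul, Matrix.det_conjTranspose,
    g.det_coe]
  simp

theorem bridge_HH (g : SL2C) {v : V} (h : v ∈ HH) : L g v ∈ HH := by
  have e := bridge_right ⟨v, h⟩
  change _ = v at e
  rw [← e, ← iota_act]
  exact iota_mem _

theorem L_mem (g : SL2C) : L g ∈ OO := by
  refine ⟨fun a b => ?_, fun v => ⟨bridge_HH g, fun h => ?_⟩⟩
  · have h1 := bridge_B g (a + b)
    have h2 := bridge_B g a
    have h3 := bridge_B g b
    rw [map_add, B_add, B_add, B_add', B_add', B_add', B_add', B_symm b a,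
      B_symm (L g b) (L g a)] at h1
    linarith
  · have := bridge_HH g⁻¹ h
    rwa [← LinearEquiv.mul_apply, ← map_mul, inv_mul_cancel, map_one] at this

theorem L_eq_one {g : SL2C} : L g = 1 ↔ g = 1 ∨ g = -1 := by
  constructor
  · intro h
    have key : ∀ v, g.1 * bridge_H v * g.1.conjTranspose = bridge_H v := fun v => by
      rw [← bridge_L, h]
      rfl
    have h1 := congrFun (congrFun (key ![0, 0, 1, 0]) 1) 1
    have h2 := congrFun (congrFun (key ![0, 0, 0, 1]) 0) 0
    have h3 := congrFun (congrFun (key ![0, 0, 0, 1]) 1) 1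
    have h4 := congrFun (congrFun (key ![1, 0, 0, 0]) 0) 1
    simp [bridge_H, Matrix.mul_apply, Fin.sum_univ_two] at h1 h2 h3 h4
    have h5 := det_entries g
    rw [h2] at h4 h5
    simp only [zero_mul, zero_add, sub_zero] at h4 h5
    have h6 : g 0 0 = g 1 1 := by
      linear_combination g 1 1 * h4 - g 0 0 * h3
    rw [h6, mul_self_eq_one_iff] at h5
    refine h5.imp (fun e => ?_) fun e => ?_ <;> ext i j <;> fin_cases i <;> fin_cases j <;>
      simp [h1, h2, h6, e]
  · rintro (rfl | rfl)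
    · exact map_one L
    · ext1 v
      apply bridge_inj
      rw [bridge_L]
      simp

theorem R_cj_mem {n : V} (h : B n n = -1) : R n * cj ∈ L.range := by
  have h' := h
  unfold B at h'
  refine ⟨⟨!![Complex.I * (n 0 + n 1 * Complex.I), Complex.I * (-n 2);
    Complex.I * n 3, Complex.I * (-(n 0 - n 1 * Complex.I))], ?_⟩, ?_⟩
  · rw [Matrix.det_fin_two_of]
    apply Complex.ext <;> simp
    · linear_combination -h'
    · ring
  · ext1 v
    rw [LinearEquiv.mul_apply, R_apply h, cj_apply]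
    refine (L_apply _ _).trans ?_
    ext i
    fin_cases i <;> simp [Ll, B]
    · linear_combination -v 0 * h'
    · linear_combination v 1 * h'
    · linear_combination -v 2 * h'
    · linear_combination -v 3 * h'

theorem cj_conj_mem {g : GV} (h : g ∈ L.range) : cj * g * cj ∈ L.range := by
  obtain ⟨m, rfl⟩ := h
  refine ⟨Matrix.SpecialLinearGroup.map (starRingEnd ℂ) m, ?_⟩
  ext1 v
  rw [LinearEquiv.mul_apply, LinearEquiv.mul_apply, cj_apply, cj_apply, L_apply, L_apply]
  ext i
  fin_cases i <;> simp [Ll] <;> ring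

theorem tr_mem (a b : ℝ) : tr a b ∈ L.range := by
  refine ⟨⟨!![1, a + b * Complex.I; 0, 1], by simp [Matrix.det_fin_two_of]⟩, ?_⟩
  ext1 v
  rw [tr_apply]
  refine (L_apply _ _).trans ?_
  ext i
  fin_cases i <;> simp [Ll, afv]
  ring

theorem EZ_eq (m : Matrix.SpecialLinearGroup (Fin 2) ℤ) :
    EZ m = L (Matrix.SpecialLinearGroup.map (Int.castRingHom ℂ) m) := by
  have h := m.det_coe
  rw [Matrix.det_fin_two] at h
  have h' : (m 0 0 : ℝ) * m 1 1 - m 0 1 * m 1 0 = 1 := by exact_mod_cast h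
  ext1 v
  change El ((m.1).map (Int.cast : ℤ → ℝ)) v = _
  have hd : ((m.1).map (Int.cast : ℤ → ℝ)).det = 1 := by
    rw [Matrix.det_fin_two]
    exact h'
  rw [L_apply]
  ext i
  fin_cases i <;> simp [Ll, El, hd]
  · ring
  · linear_combination -v 1 * h'
  · ring
  · ring

theorem bridge_nT {n : V} (h : B n n = -1) (h1 : -1 < n 1) : ∃ g : SL2C, L g nT = -n := by
  obtain ⟨s, hs0, hs⟩ : ∃ s : ℝ, 0 < s ∧ s * s = 2 + 2 * n 1 :=
    ⟨√(2 + 2 * n 1), Real.sqrt_pos.2 (by linarith), Real.mul_self_sqrt (by linarith)⟩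
  have e1 : B nT nT = -1 := by simp [B, nT]
  have e2 : B n nT = n 1 := B_nT n
  have e3 : B nT n = n 1 := (B_symm _ _).trans e2
  have hm : B (s⁻¹ • (n - nT)) (s⁻¹ • (n - nT)) = -1 := by
    rw [B_smul, B_smul', B_sub, B_sub', B_sub', h, e1, e2, e3]
    field_simp
    linarith
  obtain ⟨g, hg⟩ := R_cj_mem hm
  refine ⟨g, ?_⟩
  have e4 : cj nT = -nT := by
    rw [cj_apply]
    ext i
    fin_cases i <;> simp [nT]
  have e5 : 2 * (s⁻¹ * (n 1 - -1)) * s⁻¹ = 1 := by
    field_simp
    linarith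
  rw [hg, LinearEquiv.mul_apply, e4, map_neg, R_apply hm, B_smul', B_sub', e1, e3, smul_smul, e5,
    one_smul, add_sub_cancel]

theorem exists_L_nT {n : V} (h : B n n = -1) : ∃ g : SL2C, L g nT = n ∨ L g nT = -n := by
  rcases lt_or_ge (-1) (n 1) with h1 | h1
  · obtain ⟨g, hg⟩ := bridge_nT h h1
    exact ⟨g, Or.inr hg⟩
  · obtain ⟨g, hg⟩ := bridge_nT (n := -n) (by rw [B_neg, B_neg', neg_neg, h]) (by
      rw [Pi.neg_apply]
      linarith)
    exact ⟨g, Or.inl (by rw [hg, neg_neg])⟩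

/-- orientation preserving isometries that fix infinity are the maps `z ↦ a z + b` -/
theorem stab_pinf {g : GV} (hg : g ∈ L.range) {κ : ℝ} (h : g pinf = κ • pinf) :
    ∃ a b : ℂ, ‖a‖ = κ ∧ 0 < κ ∧
      (∀ z : ℂ, g (pt z.re z.im) = κ⁻¹ • pt (a * z + b).re (a * z + b).im) ∧
      (a.im = 0 → ∃ e : ℝ, a.re = e * κ ∧ IsAf g e e κ b.re b.im) ∧
      (κ = 1 → a ≠ 1 → ∃ v ∈ HH, g v = v) := by
  obtain ⟨m, rfl⟩ := hg
  have h2 := congrFun h 2
  have h3 := congrFun h 3
  simp [L_apply, Ll, pinf] at h2 h3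
  have hc : m 1 0 = 0 := Complex.normSq_eq_zero.1 (by rw [Complex.normSq_apply]; exact h3)
  have hd := det_entries m
  rw [hc, mul_zero, sub_zero] at hd
  have hα : m 0 0 ≠ 0 := left_ne_zero_of_mul_eq_one hd
  have hn : Complex.normSq (m 0 0) = κ := by rw [Complex.normSq_apply]; exact h2
  have hκ : 0 < κ := hn ▸ Complex.normSq_pos.2 hα
  have hd' : m 1 1 = (m 0 0)⁻¹ := eq_inv_of_mul_eq_one_right hd
  have d1 : (m 1 1).re = (m 0 0).re / κ := by rw [hd', Complex.inv_re, hn]
  have d2 : (m 1 1).im = -(m 0 0).im / κ := by rw [hd', Complex.inv_im, hn]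
  have hna : ‖m 0 0 * m 0 0‖ = κ := by rw [norm_mul, ← sq, Complex.sq_norm, hn]
  have key : ∀ v : V, L m v =
      ![((m 0 0 * m 0 0).re * v 0 - (m 0 0 * m 0 0).im * v 1 + (m 0 0 * m 0 1).re * v 3) / κ,
        ((m 0 0 * m 0 0).im * v 0 + (m 0 0 * m 0 0).re * v 1 + (m 0 0 * m 0 1).im * v 3) / κ,
        κ * v 2 + (2 * ((m 0 0 * m 0 1).re *
          ((m 0 0 * m 0 0).re * v 0 - (m 0 0 * m 0 0).im * v 1) + (m 0 0 * m 0 1).im *
          ((m 0 0 * m 0 0).im * v 0 + (m 0 0 * m 0 0).re * v 1)) +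
          ((m 0 0 * m 0 1).re ^ 2 + (m 0 0 * m 0 1).im ^ 2) * v 3) / κ, v 3 / κ] := by
    intro v
    have h0 := hκ.ne'
    rw [L_apply]
    ext i
    fin_cases i <;> simp [Ll, hc, d1, d2] <;> field_simp
    · ring
    · ring
    · rw [← h2]
      ring
    · rw [← h2]
      ring
  have hq : (m 0 0 * m 0 0).re ^ 2 + (m 0 0 * m 0 0).im ^ 2 = κ ^ 2 := by
    rw [← hna, Complex.sq_norm, Complex.normSq_apply]
    ring
  generalize m 0 0 * m 0 0 = a at hna key hq
  generalize m 0 0 * m 0 1 = b at key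
  have hpt : ∀ z : ℂ, L m (pt z.re z.im) = κ⁻¹ • pt (a * z + b).re (a * z + b).im := by
    intro z
    have h0 := hκ.ne'
    rw [key]
    ext i
    fin_cases i <;> simp [pt] <;> field_simp
    · ring
    · linear_combination -(z.re ^ 2 + z.im ^ 2) * hq
  refine ⟨a, b, hna, hκ, hpt, fun ha => ⟨a.re / κ, by field_simp, ?_, ?_, hκ, fun v => ?_⟩,
    fun h1 ha => ⟨pt (b / (1 - a)).re (b / (1 - a)).im + pinf, ⟨?_, ?_⟩, ?_⟩⟩
  · rw [ha, zero_pow two_ne_zero, add_zero, sq_eq_sq_iff_eq_or_eq_neg] at hq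
    refine hq.imp (fun e => ?_) fun e => ?_ <;> rw [e] <;> field_simp
  · rw [ha, zero_pow two_ne_zero, add_zero, sq_eq_sq_iff_eq_or_eq_neg] at hq
    refine hq.imp (fun e => ?_) fun e => ?_ <;> rw [e] <;> field_simp
  · have h0 := hκ.ne'
    rw [key]
    ext i
    fin_cases i <;> simp [afv, ha] <;> field_simp
    ring
  · simp [B, pt, pinf]
    ring
  · simp [pt, pinf]
  · have e : a * (b / (1 - a)) + b = b / (1 - a) := by
      have := sub_ne_zero.2 ha.symm
      field_simp
      ring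
    rw [map_add, hpt, h, e, h1, inv_one, one_smul, one_smul]

end Pool.Agent.Lib.MP_36248f_gt
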