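import Pool.Agent.Lib.MP_36248f_gt.NonCross
import Pool.Agent.Lib.MP_36248f_gt.Beta

open Set

namespace Pool.Agent.Lib.MP_36248f_gt

theorem comm_OO {g : GV} (hg : g ∈ CL) : g ∈ OO := by
  obtain ⟨⟨x, rfl⟩, -⟩ := hg
  exact L_mem x

theorem comm_hM : 2 < hM := by linarith [spec.h_lo]

theorem comm_hN : 1 < hN := by linarith [par_bounds.2.1.1]

theorem comm_tr (k : ℤ) : tr (k * (4 / 25)) (k * -LL) ∈ Gam :=
  tr_zpow _ _ k ▸ zpow_mem longitude_mem k

theorem comm_gen (t : Ty) (i : Fin (ng t)) : gen t i ∈ WW t := Subgroup.subset_closure ⟨i, rfl⟩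

theorem comm_R (t : Ty) (i : Fin (ng t)) (v : V) :
    (gen t i).1 v = v + (2 * B v (nm t i)) • nm t i := R_apply (nm_unit t i) v

/-- a horizontal line whose rational points avoid a disc avoids the disc -/
theorem comm_line {H : GV} {e f s a b : ℝ} (h : IsAf H e f s a b) {m : V} (h3 : 0 < m 3)
    (hr : ∀ r : ℚ, 0 ≤ B (H pinf) m * B (H (pt r 0)) m) (x : ℝ) : 0 ≤ B (pt x b) m := by
  have hs := h.2.2.1
  have h1 : ∀ r : ℝ, 0 ≤ B (pt (e * s * r + a) b) m := fun r => by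
    refine Rat.denseRange_cast.induction_on r (isClosed_le continuous_const ?_) fun r => ?_
    · simp only [B, pt, Matrix.cons_val]
      fun_prop
    · have h2 := hr r
      have h4 : B pinf m = m 3 / 2 := by simp [B, pinf]
      rw [h.pinf, h.pt, B_smul, B_smul, h4, mul_zero, zero_add] at h2
      exact nonneg_of_mul_nonneg_right (nonneg_of_mul_nonneg_right h2 (by positivity))
        (by positivity)
  convert h1 (e * (x - a) / s) using 3
  rcases h.1 with rfl | rfl <;> field_simp <;> ring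

theorem comm_S : ((gen .S ⟨2, by decide⟩ * gen .S ⟨3, by decide⟩).1 nT = ![0, 1, 0, 2]) := by
  rw [Prod.fst_mul, LinearEquiv.mul_apply, comm_R, comm_R]
  ext i
  fin_cases i <;> simp [B, nm, nT]
  all_goals norm_num

/-- the two discs of a strip -/
theorem comm_disc (t : Ty) {η : ℝ}
    (h : (0 < η ∧ η < 1 / hf t) ∨ (hf t - 1 / hf t < η ∧ η < hf t)) :
    ∃ w ∈ WW t, ∃ n, (n = nT ∨ (t ≠ .S ∧ n = nU t)) ∧ 0 < w.1 n 3 ∧
      ∃ x, B (pt x η) (w.1 n) < 0 := by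
  have low : ∀ t : Ty, t ≠ .S → 0 < ht t → 0 < η → η < 1 / ht t → ∃ w ∈ WW t, ∃ n,
      (n = nT ∨ (t ≠ .S ∧ n = nU t)) ∧ 0 < w.1 n 3 ∧ ∃ x, B (pt x η) (w.1 n) < 0 := by
    intro t h0 h1 h2 h3
    have e : (gen t ⟨2, by linarith [three_le_ng t]⟩).1 (nU t) = ![0, 1, 0, 2 * ht t] := by
      rw [comm_R]
      ext i
      fin_cases i <;> simp [B, nm, nU]
    refine ⟨_, comm_gen t ⟨2, by linarith [three_le_ng t]⟩, _, Or.inr ⟨h0, rfl⟩,
      by rw [e]; simpa using h1, 0, ?_⟩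
    rw [lt_div_iff₀ h1] at h3
    simp [e, B, pt]
    nlinarith
  have h1 := comm_hM
  have h2 := comm_hN
  cases t
  · refine ⟨_, mul_mem (comm_gen .S ⟨2, by decide⟩) (comm_gen .S ⟨3, by decide⟩), _, Or.inl rfl,
      by rw [comm_S]; simp, 0, ?_⟩
    simp [hf] at h
    rw [comm_S]
    simp [B, pt]
    nlinarith [h.1, h.2]
  · rcases h with h | h
    · exact low _ (by decide) (by simp only [ht]; linarith) h.1 h.2
    refine ⟨_, comm_gen .N ⟨3, by decide⟩, _, Or.inl rfl, by simp [comm_R, B, nm, nT]; linarith,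
      1 / 2, ?_⟩
    have h3 : (hN - η) * hN < 1 := (lt_div_iff₀ (by linarith)).1 (sub_lt_comm.1 h.1)
    have h4 : η < hN := h.2
    simp [comm_R, B, nm, nT, pt]
    nlinarith [hN_sq, mul_pos (sub_pos.2 h4) (sub_pos.2 h3)]
  · rcases h with h | h
    · exact low _ (by decide) (by simp only [ht]; linarith) h.1 h.2
    refine ⟨_, comm_gen .M ⟨3, by decide⟩, _, Or.inl rfl, by simp [comm_R, B, nm, nT]; linarith,
      0, ?_⟩
    have h3 : (hM - η) * hM < 1 := (lt_div_iff₀ (by linarith)).1 (sub_lt_comm.1 h.1)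
    have h4 : η < hM := h.2
    simp [comm_R, B, nm, nT, pt]
    nlinarith [mul_pos (sub_pos.2 h4) (sub_pos.2 h3)]

theorem comm_rp (t : Ty) (a : Fin 120) : ∃ w ∈ WW t, w.1 = rp a := by
  obtain ⟨p, hp, -⟩ := rp_mem t a
  exact ⟨_, Subgroup.closure_mono (image_subset_range _ _) hp, rfl⟩

/-- a similarity in `CL` does not send the wall of a strip to a line that cuts a disc -/
theorem not_cuts {g : GV} (hg : g ∈ CL) {e s a b : ℝ} (h : IsAf g e e s a b) {c c' : Strip}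
    (hc : c ∈ strips) (hc' : c' ∈ strips) (k k' : ℤ) :
    ¬c'.Cuts (e * s * (c.y + k * LL) + b + k' * LL) := by
  intro hcut
  obtain ⟨γ, hγ, A⟩ := strips_ok c hc
  obtain ⟨γ', hγ', A'⟩ := strips_ok c' hc'
  obtain ⟨u, hu, hu1⟩ := comm_rp (ty c.i) c.a
  obtain ⟨u', hu', hu1'⟩ := comm_rp (ty c'.i) c'.a
  obtain ⟨w, hw, n, hn, h3, x, hx⟩ := comm_disc (ty c'.i) hcut
  have hm : (γ' * pos c'.i * (u' * w).1) n ∈ WN := by
    rcases hn with rfl | ⟨h1, rfl⟩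
    · exact W_nT_mem _ hγ' (mul_mem hu' hw)
    · exact W_nU_mem _ h1 hγ' (mul_mem hu' hw)
  have H := A'.inv.mul (((isAf_tr _ _).mul h).mul ((isAf_tr (((-k : ℤ) : ℝ) * (4 / 25))
    (((-k : ℤ) : ℝ) * -LL)).mul A) (g := tr (((-k' : ℤ) : ℝ) * (4 / 25)) (((-k' : ℤ) : ℝ) * -LL) * g))
  refine hx.not_ge (le_of_le_of_eq (comm_line H h3 (fun r => ?_) x) ?_)
  · have h1 := (non_cross (mul_mem (Gam_le_CL (comm_tr (-k'))) hg) (mul_mem (comm_tr (-k)) hγ) c.i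
      hu r r hm).1
    have h2 : ∀ v, B ((γ' * pos c'.i * rp c'.a)⁻¹ v) (w.1 n) =
        B v ((γ' * pos c'.i * (u' * w).1) n) := fun v => by
      rw [← A'.mem.1]
      simp [hu1']
    simpa only [LinearEquiv.mul_apply, h2, hu1] using h1
  · congr 2
    push_cast
    simp only [one_div, inv_inv, div_inv_eq_mul]
    ring

theorem CL_af {g : GV} (hg : g ∈ CL) : ∃ γ ∈ Gam, ∃ e s a b : ℝ, IsAf (γ * g) e e s a b := by
  obtain ⟨n, hn, h1, -⟩ := hg.2 _ tr_one_mem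
  rw [← zpow_natCast, tr_zpow, mul_zero] at h1
  obtain ⟨γ, hγ, κ, -, -, -, h2, -⟩ := para (comm_OO hg) (by simpa using hn.ne') h1
  have h3 := mul_mem (Gam_le_CL (inv_mem hγ)) hg
  obtain ⟨a, b, -, hκ, h4, h5, -⟩ := stab_pinf h3.1 (κ := κ) (by simp [h2])
  have h6 : a.im = 0 := by
    by_contra h6
    obtain ⟨r, hr⟩ := exists_rat_lt (-b.im / a.im)
    obtain ⟨r', hr'⟩ := exists_rat_gt (-b.im / a.im)
    have h7 := (non_cross h3 (one_mem _) 0 (one_mem _) r r'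
      (W_nT_mem 0 (one_mem _) (one_mem _))).2
    have h8 : ∀ r : ℝ, B ((γ⁻¹ * g) (pt r 0)) nT = κ⁻¹ * a.im * (r - -b.im / a.im) := fun r => by
      rw [show pt r 0 = pt (r : ℂ).re (r : ℂ).im by simp, h4, B_smul, B_nT]
      simp [pt]
      field_simp
      ring
    simp only [pos, mul_one, Prod.fst_one, LinearEquiv.coe_one, id, h8] at h7
    nlinarith [mul_pos (mul_self_pos.2 (mul_ne_zero (inv_pos.2 hκ).ne' h6))
      (mul_pos (sub_pos.2 hr) (sub_pos.2 hr'))]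
  obtain ⟨e, -, h7⟩ := h5 h6
  exact ⟨_, inv_mem hγ, _, _, _, _, h7⟩

theorem comm_lt {g : GV} (hg : g ∈ CL) {e s a b : ℝ} (h : IsAf g e e s a b) : 1 ≤ s := by
  by_contra hs
  have hL : 0 < LL := by
    have := comm_hM
    have := comm_hN
    unfold LL
    positivity
  have hp : ∀ n : ℕ, ∃ e a b, IsAf (g ^ n) e e (s ^ n) a b := fun n => by
    induction n with
    | zero => exact ⟨1, 0, 0, by simpa [tr_zero] using isAf_tr 0 0⟩
    | succ n ih =>
      obtain ⟨e', a', b', h'⟩ := ih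
      exact ⟨_, _, _, pow_succ g n ▸ pow_succ s n ▸ h'.mul h⟩
  obtain ⟨n, hn⟩ := exists_pow_lt_of_lt_one (inv_pos.2 hL) (not_le.1 hs)
  obtain ⟨e', a', b', h'⟩ := hp n
  have h1 : 0 < s ^ n * LL := mul_pos h'.2.2.1 hL
  have h2 : s ^ n * LL < 1 := by rwa [← lt_div_iff₀ hL, one_div]
  obtain ⟨k, hk⟩ : ∃ k : ℤ, (k : ℝ) = e' * (⌊-b' / (s ^ n * LL)⌋ + 1) := by
    rcases h'.1 with rfl | rfl
    · exact ⟨⌊-b' / (s ^ n * LL)⌋ + 1, by simp⟩
    · exact ⟨-(⌊-b' / (s ^ n * LL)⌋ + 1), by simp⟩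
  have h3 := (div_lt_iff₀ h1).1 (Int.lt_floor_add_one (-b' / (s ^ n * LL)))
  have h4 := (le_div_iff₀ h1).1 (Int.floor_le (-b' / (s ^ n * LL)))
  refine not_cuts (pow_mem hg n) h' (c := ⟨0, 0, 1, 1, 1, 0, 0, 0, 0⟩)
    (c' := ⟨0, 0, 1, 1, 1, 0, 0, 0, 0⟩) List.mem_cons_self List.mem_cons_self k 0 (Or.inl ?_)
  simp only [Strip.y, hk, Fin.val_zero, ty, hf]
  rcases h'.1 with rfl | rfl <;> constructor <;> push_cast <;> linarith

theorem CL_scale {g : GV} (hg : g ∈ CL) {e s a b : ℝ} (h : IsAf g e e s a b) : s = 1 :=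
  ((one_le_inv₀ h.2.2.1).1 (comm_lt (inv_mem hg) h.inv)).antisymm (comm_lt hg h)

theorem comm_int (n : ℤ) : tr n 0 ∈ Gam := by
  simpa [tr_zpow] using zpow_mem tr_one_mem n

theorem CL_tr {a : ℝ} (h : tr a 0 ∈ CL) : ∃ n : ℤ, a = n := by
  have hw := mul_mem (comm_gen .S ⟨2, by decide⟩) (comm_gen .S ⟨3, by decide⟩)
  have h1 := mul_mem (Gam_le_CL (comm_int (-⌊a⌋))) h
  rw [tr_mul, add_zero] at h1
  have h2 := (non_cross h1 (one_mem _) 0 hw (-1) 0 (W_nT_mem 0 (one_mem _) hw)).1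
  simp only [pos, mul_one, one_mul, comm_S] at h2
  have h3 := Int.floor_le a
  have h4 := Int.lt_floor_add_one a
  refine ⟨⌊a⌋, h3.antisymm' ?_⟩
  by_contra h5
  push_cast at h2
  generalize hx : -(⌊a⌋ : ℝ) + a = x at h2
  have h6 : 0 < x := by linarith
  have h7 : 0 < 1 - x := by linarith
  simp [comm_R, B, nm, pinf, pt, tr_apply, afv] at h2
  nlinarith [mul_pos (mul_pos (mul_pos h6 h6) h6) h7]

theorem CL_le : CL ≤ Gam := by
  intro g hg
  obtain ⟨γ, hγ, e, s, a, b, h⟩ := CL_af hg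
  have h1 := mul_mem (Gam_le_CL hγ) hg
  obtain rfl := CL_scale h1 h
  obtain ⟨rfl, k, rfl⟩ := beta_cover (β := b) h.1 fun c hc c' hc' k => by
    simpa using not_cuts h1 h hc hc' 0 k
  have h2 : tr (k * (4 / 25)) (k * -LL) * (γ * g) = tr (a + k * (4 / 25)) 0 :=
    ((isAf_tr _ _).mul h).ext (by simpa using isAf_tr (a + k * (4 / 25)) 0)
  obtain ⟨n, hn⟩ := CL_tr (h2 ▸ mul_mem (Gam_le_CL (comm_tr k)) h1)
  have h3 := comm_int n
  rw [← hn, ← h2] at h3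
  exact (Subgroup.mul_mem_cancel_left _ hγ).1 ((Subgroup.mul_mem_cancel_left _ (comm_tr k)).1 h3)

end Pool.Agent.Lib.MP_36248f_gt
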