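import Pool.Agent.Lib.MP_36248f_gt.Cover

open Set

namespace Pool.Agent.Lib.MP_36248f_gt

theorem PC_pos {t : Ty} {x : V} (hx : x ∈ PC t) : 0 < B x x := by
  nlinarith [disc_cover t hx, pow_pos hx.1 2]

theorem smul_PC {t : Ty} {x : V} (hx : x ∈ PC t) {c : ℝ} (hc : 0 < c) : c • x ∈ PC t := by
  obtain ⟨h1, h2, h3, h4⟩ := hx
  refine ⟨mul_pos hc h1, fun i => ?_, mul_nonneg hc.le h3, ?_⟩
  · rw [B_smul]
    exact mul_nonneg hc.le (h2 i)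
  · simp only [Pi.smul_apply, smul_eq_mul]
    nlinarith [mul_le_mul_of_nonneg_left h4 hc.le]

theorem nrm_P {t : Ty} {x : V} (hx : x ∈ PC t) : (√(B x x))⁻¹ • x ∈ P t :=
  ⟨smul_mem_HH (PC_pos hx) hx.1,
    (smul_PC hx (inv_pos.2 (Real.sqrt_pos.2 (PC_pos hx)))).2⟩

theorem place_OO {γ : GV} (hγ : γ ∈ Gam) (i : ℕ) (a : Fin 120) : γ * pos i * rp a ∈ OO :=
  mul_mem (mul_mem (Gam_le_OO hγ) (pos_mem i)) (rp_mem_OO a)

theorem cone_cover {v : V} (hv : v ∈ CC) :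
    ∃ γ ∈ Gam, ∃ (i : Fin 7) (a : Fin 120), ∃ x ∈ PC (ty i), v = (γ * pos i * rp a) x := by
  obtain ⟨γ, hγ, i, a, x, hx, e⟩ := cover (smul_mem_HH hv.1 hv.2)
  have hs := Real.sqrt_pos.2 hv.1
  refine ⟨γ, hγ, i, a, √(B v v) • x, smul_PC ⟨hx.1.2, hx.2⟩ hs, ?_⟩
  rw [map_smul, ← e, smul_inv_smul₀ hs.ne']

theorem cone_lf {v : V} (hv : v ∈ CC) : ∃ U ∈ nhds v,
    {q : GV × Fin 7 × Fin 120 | q.1 ∈ Gam ∧
      ∃ x ∈ PC (ty q.2.1), (q.1 * pos q.2.1 * rp q.2.2) x ∈ U}.Finite := by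
  have hq : Continuous fun v : V => B v v := continuous_B.comp (continuous_id.prodMk continuous_id)
  have ho : IsOpen CC :=
    (isOpen_lt continuous_const hq).inter (isOpen_lt continuous_const (continuous_apply 3))
  obtain ⟨U, hU, h1, h2⟩ := local_compact_nhds (ho.mem_nhds hv)
  have hc : ContinuousOn (fun v : V => (√(B v v))⁻¹ • v) U :=
    (hq.sqrt.continuousOn.inv₀ fun x hx => (Real.sqrt_pos.2 (h1 hx).1).ne').smul continuousOn_id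
  refine ⟨U, hU, (tiles_lf (h2.image_of_continuousOn hc) ?_).subset ?_⟩
  · rintro _ ⟨x, hx, rfl⟩
    exact smul_mem_HH (h1 hx).1 (h1 hx).2
  · rintro q ⟨hγ, x, hx, h⟩
    exact ⟨hγ, _, nrm_P hx, _, h, by simp only [(place_OO hγ _ _).1, map_smul]⟩

theorem near_gp {i : ℕ} {a b : Fin 120} {x : V} (h : Near (ty i) x a b) :
    ∃ γ ∈ Gp i, (γ * pos i * rp a) x = (pos i * rp b) x := by
  induction h with
  | refl => exact ⟨1, one_mem _, by simp⟩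
  | @tail b c _ h ih =>
    obtain ⟨γ, hγ, e⟩ := ih
    obtain ⟨k, h0, rfl⟩ := h
    refine ⟨_, mul_mem (conj_mem_Gp (inv_mem (rp_R (ty i) b k))) hγ, ?_⟩
    have h1 : (R (nm (ty i) k))⁻¹ x = x := by
      rw [inv_eq_of_mul_eq_one_right (R_mul_self _), R_apply (nm_unit _ k), h0]
      simp
    rw [mul_assoc _ γ, mul_assoc _ (γ * _), LinearEquiv.mul_apply, e]
    simpa [mul_assoc] using h1

theorem up_gp {i j : ℕ} {a b : Fin 120} {x x' : V} (h : Up i a x j b x') :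
    ∃ γ ∈ Gp i, (γ * pos i * rp a) x = (pos j * rp b) x' := by
  obtain ⟨rfl, -, -, m, hm, e⟩ := h
  refine ⟨_, conj_mem_Gp (mul_mem (inv_mem (EZ_mem_top (ty i) hm)) (rp_up (ty i) a)), ?_⟩
  have e' : (EZ m)⁻¹ (rp (ph (ty i) a) ((tau (ty i))⁻¹ x)) = tr (nu i) 0 (rp b x') := by
    rw [e]
    simp
  simpa [mul_assoc, pos] using e'

theorem up_of {i j : Fin 7} (h : j.1 = i.1 + 1) {a b : Fin 120} {x x' : V} (hx : x ∈ P (ty i))
    (hx' : x' ∈ P (ty j)) {γ : GV} (hγ : γ ∈ Gam)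
    (e : (γ * pos i * rp a) x = (pos j * rp b) x') : Up i a x j b x' := by
  obtain ⟨p, hp, p0⟩ := rp_mem (ty i) a
  obtain ⟨q, hq, q0⟩ := rp_mem (ty j) b
  obtain ⟨p', hp', p0'⟩ := rp_mem_up (ty i) a
  rcases DD_ok.inj (DD_Gam ▸ hγ) (k := i) (j := j) (closure_le_W _ _ hp) (closure_le_W _ _ hq)
    ((DD_tile i).symm ▸ hx) ((DD_tile j).symm ▸ hx') e with h1 | ⟨ed, e1, e2, h2, h3, h4⟩
  · omega
  obtain ⟨⟨j', i'⟩, ha⟩ := ed
  obtain rfl : j' = j := e1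
  obtain rfl : i' = i := e2
  have t1 : DD.T ⟨(j', i'), ha⟩ = nT := T_dn h
  have t2 : DD.T (DD.rev ⟨(j', i'), ha⟩) = nV (ty i') := T_up (e := ⟨(i', j'), ha.symm⟩) h
  rw [t1] at h2 h4
  rw [t2] at h3 h4
  obtain ⟨u, hu, u0, h5⟩ := h4 _ ((Wv_up i').ge hp') _ ((Wv_dn j').ge hq)
    ((Equiv.Perm.inv_eq_iff_eq.2 p0'.symm).trans (Equiv.Perm.inv_eq_iff_eq.2 p0.symm).symm) rfl
  obtain ⟨m, hm, h6⟩ := lam_bot ((Wv_dn j').le hu) u0
  obtain ⟨k, hk⟩ := nu_eq i'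
  obtain ⟨m', hm', h7⟩ := nu_norm k (inv_mem hm)
  refine ⟨h, by rwa [BL_swap, B_nT] at h2, ?_, m', hm', ?_⟩
  · rw [← B_nT ((tau _)⁻¹ x), ← OO_adj (tau_mem _), tau_nT, B_neg', neg_eq_zero, ← BL_swap]
    exact h3
  · rw [← h7, ← hk, map_inv, ← h6]
    have h8 : rp b x' = u.1 ((tr (nu i') 0)⁻¹ (rp (ph (ty i') a) ((tau (ty i'))⁻¹ x))) := by
      simpa [DD, h, pos] using h5.symm
    simp [h8]

theorem ident_P {i j : Fin 7} {a b : Fin 120} {x x' : V} (hx : x ∈ P (ty i)) (hx' : x' ∈ P (ty j))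
    {γ : GV} (hγ : γ ∈ Gam) (e : (γ * pos i * rp a) x = (pos j * rp b) x') :
    (i = j ∧ x = x' ∧ Near (ty i) x a b) ∨ Up i a x j b x' ∨ Up j b x' i a x := by
  obtain ⟨p, hp, p0⟩ := rp_WW (ty i) a
  obtain ⟨q, hq, q0⟩ := rp_WW (ty j) b
  by_cases hij : i = j
  · subst hij
    obtain ⟨h1, v, hv, h2, -⟩ := DD_ok.inj_self (DD_Gam ▸ hγ) (k := i) hp hq
      ((DD_tile i).symm ▸ hx) ((DD_tile i).symm ▸ hx') e
    have h3 : v.2 a = b :=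
      (congrArg v.2 (Equiv.Perm.inv_eq_iff_eq.2 p0.symm)).symm.trans
        (h2.trans (Equiv.Perm.inv_eq_iff_eq.2 q0.symm))
    have h4 := near_of_closure (inv_mem ((Wv_pt i x).le hv)) b
    rw [← h3] at h4 ⊢
    exact Or.inl ⟨rfl, h1.symm, by simpa using h4⟩
  rcases DD_ok.inj (DD_Gam ▸ hγ) (k := i) (j := j) hp hq
    ((DD_tile i).symm ▸ hx) ((DD_tile j).symm ▸ hx') e with h1 | ⟨ed, e1, e2, -⟩
  · exact absurd h1.symm hij
  obtain ⟨⟨j', i'⟩, ha⟩ := ed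
  obtain rfl : j' = j := e1
  obtain rfl : i' = i := e2
  rcases ha with h | h
  · refine Or.inr (Or.inr (up_of h hx' hx (inv_mem hγ) ?_))
    rw [mul_assoc, LinearEquiv.mul_apply, ← e]
    simp
  · exact Or.inr (Or.inl (up_of h hx hx' hγ e))

theorem Up.of_smul {i j : ℕ} {a b : Fin 120} {x x' : V} {c : ℝ} (hc : c ≠ 0)
    (h : Up i a (c • x) j b (c • x')) : Up i a x j b x' := by
  obtain ⟨h1, h2, h3, m, hm, e⟩ := h
  simp only [map_smul, Pi.smul_apply, smul_eq_mul, mul_eq_zero, hc, false_or] at h2 h3 e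
  exact ⟨h1, h2, h3, m, hm, smul_right_injective V hc e⟩

theorem cone_ident {i j : Fin 7} {a b : Fin 120} {x x' : V} (hx : x ∈ PC (ty i))
    (hx' : x' ∈ PC (ty j)) :
    (∃ γ ∈ Gam, (γ * pos i * rp a) x = (pos j * rp b) x') ↔
      (i = j ∧ x = x' ∧ Near (ty i) x a b) ∨ Up i a x j b x' ∨ Up j b x' i a x := by
  constructor
  · rintro ⟨γ, hγ, e⟩
    have h1 : B x' x' = B x x := by
      rw [← (place_OO hγ i a).1 x, e, (mul_mem (pos_mem j) (rp_mem_OO b)).1]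
    have h2 := nrm_P hx'
    rw [h1] at h2
    have hc : (√(B x x))⁻¹ ≠ 0 := (inv_pos.2 (Real.sqrt_pos.2 (PC_pos hx))).ne'
    refine (ident_P (a := a) (b := b) (nrm_P hx) h2 hγ (by rw [map_smul, map_smul, e])).imp
      (fun h => ⟨h.1, smul_right_injective V hc h.2.1, Relation.ReflTransGen.mono ?_ _ _ h.2.2⟩)
      (Or.imp (Up.of_smul hc) (Up.of_smul hc))
    rintro a b ⟨k, h0, h3⟩
    rw [B_smul] at h0
    exact ⟨k, (mul_eq_zero.1 h0).resolve_left hc, h3⟩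
  · rintro (⟨rfl, rfl, h⟩ | h | h)
    · obtain ⟨γ, hγ, e⟩ := near_gp h
      exact ⟨γ, Gp_le_Gam i hγ, e⟩
    · obtain ⟨γ, hγ, e⟩ := up_gp h
      exact ⟨γ, Gp_le_Gam i hγ, e⟩
    · obtain ⟨γ, hγ, e⟩ := up_gp h
      refine ⟨γ⁻¹, inv_mem (Gp_le_Gam j hγ), ?_⟩
      rw [mul_assoc, LinearEquiv.mul_apply, ← e]
      simp

theorem cone_wall {a b : Fin 120} {x x' : V} (h1 : x 1 = 0) (h1' : x' 1 = 0) (h3 : 0 < x 3)
    (h3' : 0 < x' 3) (hx : ∀ i : Fin 3, 0 ≤ B x (nm .S i)) (hx' : ∀ i : Fin 3, 0 ≤ B x' (nm .S i))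
    {m : Matrix.SpecialLinearGroup (Fin 2) ℤ} (hm : m ∈ LamZ) (h : rp a x = EZ m (rp b x')) :
    x = x' ∧ Relation.ReflTransGen
      (fun a b => ∃ i : Fin 3, B x (nm .S i) = 0 ∧ b = pf .S i a) a b := by
  have top : ∀ y : V, y 1 = 0 → 0 < y 3 → 0 < B y (nm .S 3) := fun y e h => by
    simpa [B, nm, e] using h
  have ch : ∀ y : V, y 1 = 0 → 0 < y 3 → (∀ i : Fin 3, 0 ≤ B y (nm .S i)) → y ∈ Ch .S := by
    intro y e h hy i
    by_cases hi : i.1 < 3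
    · exact hy ⟨i, hi⟩
    · have h4 : i.1 < 4 := i.2
      rw [show i.1 = 3 by omega]
      exact (top y e h).le
  obtain ⟨p, hp, p0⟩ := rp_WW .S a
  obtain ⟨q, hq, q0⟩ := rp_WW .S b
  obtain ⟨r, hr, r0⟩ := mem_Lam.1 (EZ_mem_bot .S hm)
  have e : (((rp b, q)⁻¹ * (EZ m, r)⁻¹ * (rp a, p) : GV × Equiv.Perm (Fin 120))).1 x = x' := by
    simp [h]
  obtain ⟨h4, h5⟩ := chamber_W (mul_mem (mul_mem (inv_mem hq) (inv_mem hr)) hp) (ch x h1 h3 hx)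
    (by rw [e]; exact ch x' h1' h3' hx')
  have h6 := near_of_closure (inv_mem h5) b
  have h7 : p⁻¹ 0 = a := Equiv.Perm.inv_eq_iff_eq.2 p0.symm
  simp only [mul_inv_rev, inv_inv, Prod.snd_mul, Prod.snd_inv, Equiv.Perm.mul_apply, q0, r0,
    h7] at h6
  refine ⟨h4.symm.trans e, Relation.ReflTransGen.mono ?_ _ _ h6⟩
  rintro a b ⟨i, h0, rfl⟩
  have hi : i.1 < 3 := by
    by_contra hi
    have h4 : i.1 < 4 := i.2
    rw [show i.1 = 3 by omega] at h0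
    exact (top x h1 h3).ne' h0
  exact ⟨⟨i, hi⟩, h0, rfl⟩

end Pool.Agent.Lib.MP_36248f_gt
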