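import Pool.Agent.Lib.MP_36248f_gt.Ping

open Set

namespace Pool.Agent.Lib.MP_36248f_gt

/-- tiles are locally finite -/
theorem tiles_lf {K : Set V} (hK : IsCompact K) (h1 : K ⊆ HH) :
    {q : GV × Fin 7 × Fin 120 | q.1 ∈ Gam ∧
      ∃ x ∈ P (ty q.2.1), (q.1 * pos q.2.1 * rp q.2.2) x ∈ K}.Finite := by
  have h : ∀ c : Fin 7 × Fin 120, {γ | γ ∈ Gam ∧
      ∃ x ∈ P (ty c.1), (γ * pos c.1 * rp c.2) x ∈ K}.Finite := fun c => by
    obtain ⟨p, hp, -⟩ := rp_WW (ty c.1) c.2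
    have h2 := DD_ok.lf (k := c.1) hp hK h1
    rwa [DD_Gam, DD_tile] at h2
  refine (finite_iUnion fun c => (h c).image fun γ => (γ, c)).subset fun q hq => ?_
  exact mem_iUnion.2 ⟨q.2, q.1, hq, rfl⟩

theorem walls_lf {K : Set V} (hK : IsCompact K) (h1 : K ⊆ HH) :
    {m | m ∈ WN ∧ ∃ v ∈ K, B v m = 0}.Finite := by
  refine (DD_ok.lf_wall hK h1).subset ?_
  rintro m ⟨hm, v, hv, h⟩
  obtain ⟨γ, hγ, i, j, ha, rfl⟩ := WN_iff.1 hm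
  exact ⟨⟨γ, DD_Gam ▸ hγ, ⟨(i, j), ha⟩, by rw [DD_n]⟩, v, hv, by rwa [BL_swap]⟩

/-- near a point of a wall the two sides lie in the two regions -/
theorem near_wall {i j : Fin 7} (hj : adj i j) {z : V} (hz : z ∈ HH) (h : B z (mw i j) = 0) :
    ∃ U ∈ nhds z, ∀ v ∈ U, v ∈ HH → 0 ≤ B v (mw i j) → v ∈ Om i := by
  have hc : ∀ m, Continuous fun v => B v m := fun m =>
    continuous_B.comp (continuous_id.prodMk continuous_const)
  have hF := (walls_lf (isCompact_ball hz 2) fun _ h => h.1).subset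
    (sep_subset _ fun m => 0 < B z m)
  refine ⟨{v | B v z < 2} ∩ ⋂ m ∈ _, {v | 0 < B v m}, Filter.inter_mem
    ((isOpen_lt (hc z) continuous_const).mem_nhds (by simp [hz.1]))
    ((Filter.biInter_mem hF).2 fun m hm => (isOpen_lt continuous_const (hc m)).mem_nhds hm.2),
    fun v hU hv h0 => ⟨hv, fun a ha j' hj' => ?_⟩⟩
  by_contra hlt
  rcases ((wall_sub_Om hj hz h).2 a ha j' hj').eq_or_lt with h1 | h1
  · obtain ⟨rfl, m, hm, rfl⟩ := wall_disj hj' hj ha hz h1.ge h.le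
    rw [(wall_gp hj hm).2.2] at hlt
    exact hlt h0
  · obtain ⟨c, hcH, h2, h3⟩ := lorB.cross (m := a (mw i j')) hz hv
      (by rw [BL_swap]; exact not_le.1 hlt) (by rw [BL_swap]; exact h1.le)
    rw [BL_swap] at h2
    rw [BL_apply, BL_swap] at h3
    exact hlt (le_of_lt (mem_iInter₂.1 hU.2 _ ⟨⟨WN_iff.2 ⟨a, Gp_le_Gam i ha, i, j', hj', rfl⟩,
      c, ⟨hcH, h3.trans (le_of_lt hU.1)⟩, h2⟩, h1⟩))

theorem cover {v : V} (hv : v ∈ HH) :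
    ∃ γ ∈ Gam, ∃ (i : Fin 7) (a : Fin 120), ∃ x ∈ P (ty i), v = (γ * pos i * rp a) x := by
  obtain ⟨γ, hγ, k, w, hw, y, hy, e⟩ := DD_ok.cover hv
  obtain ⟨δ, hδ, e'⟩ := WW_eq (i := k) hw
  refine ⟨γ⁻¹ * δ, mul_mem (inv_mem (DD_Gam ▸ hγ)) (Gp_le_Gam k hδ), k, w.2⁻¹ 0, y,
    DD_tile k ▸ hy, ?_⟩
  rw [mul_assoc γ⁻¹, mul_assoc γ⁻¹, ← e', LinearEquiv.mul_apply, LinearEquiv.coe_inv,
    LinearEquiv.eq_symm_apply]
  exact e

theorem cover_Om {v : V} (hv : v ∈ HH) : ∃ γ ∈ Gam, ∃ i : Fin 7, γ v ∈ Om i := by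
  obtain ⟨γ, hγ, i, a, x, hx, rfl⟩ := cover hv
  exact ⟨γ⁻¹, inv_mem hγ, i, Om_iff.2 ⟨1, one_mem _, a, x, hx, by simp⟩⟩

/-- the action is free as soon as the vertex groups act freely on the flags -/
theorem free_of (hf : ∀ (t : Ty) (x : V), x ∈ HH → x ∈ Ch t →
    ∀ w ∈ Subgroup.closure (gen t '' {i | B x (nm t i) = 0}), ∀ a, w.2 a = a → w = 1)
    {γ : GV} (hγ : γ ∈ Gam) {v : V} (hv : v ∈ HH) (h : γ v = v) : γ = 1 := by
  refine DD_ok.free (fun k x hx w hw a ha => ?_) (DD_Gam ▸ hγ) hv h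
  rw [DD_tile] at hx
  rw [hf _ x hx.1 hx.2.1 w ((Wv_pt k x).le hw) a ha]
  rfl

end Pool.Agent.Lib.MP_36248f_gt
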