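import Pool.Agent.Lib.MP_36248f_gt.Ex

set_option autoImplicit false

/-! One shared copy of some automatically generated unfolding lemmas. -/

theorem Pool.Agent.Lib.MP_36248f_gt.nm_eq1Shared : type_of% @Pool.Agent.Lib.MP_36248f_gt.nm.eq_1 :=
  @Pool.Agent.Lib.MP_36248f_gt.nm.eq_1

theorem Pool.Agent.Lib.MP_36248f_gt.nm_eq2Shared : type_of% @Pool.Agent.Lib.MP_36248f_gt.nm.eq_2 :=
  @Pool.Agent.Lib.MP_36248f_gt.nm.eq_2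

theorem Pool.Agent.Lib.MP_36248f_gt.nm_eq3Shared : type_of% @Pool.Agent.Lib.MP_36248f_gt.nm.eq_3 :=
  @Pool.Agent.Lib.MP_36248f_gt.nm.eq_3

theorem Pool.Agent.Lib.MP_36248f_gt.nm_eq4Shared : type_of% @Pool.Agent.Lib.MP_36248f_gt.nm.eq_4 :=
  @Pool.Agent.Lib.MP_36248f_gt.nm.eq_4

theorem Pool.Agent.Lib.MP_36248f_gt.nm_eq5Shared : type_of% @Pool.Agent.Lib.MP_36248f_gt.nm.eq_5 :=
  @Pool.Agent.Lib.MP_36248f_gt.nm.eq_5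

theorem Pool.Agent.Lib.MP_36248f_gt.nm_eq6Shared : type_of% @Pool.Agent.Lib.MP_36248f_gt.nm.eq_6 :=
  @Pool.Agent.Lib.MP_36248f_gt.nm.eq_6

theorem Pool.Agent.Lib.MP_36248f_gt.nm_eq7Shared : type_of% @Pool.Agent.Lib.MP_36248f_gt.nm.eq_7 :=
  @Pool.Agent.Lib.MP_36248f_gt.nm.eq_7

theorem Pool.Agent.Lib.MP_36248f_gt.nm_eq8Shared : type_of% @Pool.Agent.Lib.MP_36248f_gt.nm.eq_8 :=
  @Pool.Agent.Lib.MP_36248f_gt.nm.eq_8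

theorem Pool.Agent.Lib.MP_36248f_gt.nm_eq9Shared : type_of% @Pool.Agent.Lib.MP_36248f_gt.nm.eq_9 :=
  @Pool.Agent.Lib.MP_36248f_gt.nm.eq_9

theorem Pool.Agent.Lib.MP_36248f_gt.nu_eq1Shared : type_of% @Pool.Agent.Lib.MP_36248f_gt.nu.eq_1 :=
  @Pool.Agent.Lib.MP_36248f_gt.nu.eq_1

theorem Pool.Agent.Lib.MP_36248f_gt.nu_eq2Shared : type_of% @Pool.Agent.Lib.MP_36248f_gt.nu.eq_2 :=
  @Pool.Agent.Lib.MP_36248f_gt.nu.eq_2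

theorem Pool.Agent.Lib.MP_36248f_gt.nu_eq3Shared : type_of% @Pool.Agent.Lib.MP_36248f_gt.nu.eq_3 :=
  @Pool.Agent.Lib.MP_36248f_gt.nu.eq_3

theorem Pool.Agent.Lib.MP_36248f_gt.pos_eq1Shared : type_of% @Pool.Agent.Lib.MP_36248f_gt.pos.eq_1 :=
  @Pool.Agent.Lib.MP_36248f_gt.pos.eq_1

theorem Pool.Agent.Lib.MP_36248f_gt.pos_eq2Shared : type_of% @Pool.Agent.Lib.MP_36248f_gt.pos.eq_2 :=
  @Pool.Agent.Lib.MP_36248f_gt.pos.eq_2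

theorem Pool.Agent.Lib.MP_36248f_gt.pos_eqdefShared : type_of% @Pool.Agent.Lib.MP_36248f_gt.pos.eq_def :=
  @Pool.Agent.Lib.MP_36248f_gt.pos.eq_def

theorem Pool.Agent.Lib.MP_36248f_gt.ty_eq1Shared : type_of% @Pool.Agent.Lib.MP_36248f_gt.ty.eq_1 :=
  @Pool.Agent.Lib.MP_36248f_gt.ty.eq_1

theorem Pool.Agent.Lib.MP_36248f_gt.ty_eq2Shared : type_of% @Pool.Agent.Lib.MP_36248f_gt.ty.eq_2 :=
  @Pool.Agent.Lib.MP_36248f_gt.ty.eq_2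

theorem Pool.Agent.Lib.MP_36248f_gt.ty_eq3Shared : type_of% @Pool.Agent.Lib.MP_36248f_gt.ty.eq_3 :=
  @Pool.Agent.Lib.MP_36248f_gt.ty.eq_3

theorem Pool.Agent.Lib.MP_36248f_gt.ty_eq4Shared : type_of% @Pool.Agent.Lib.MP_36248f_gt.ty.eq_4 :=
  @Pool.Agent.Lib.MP_36248f_gt.ty.eq_4

theorem Pool.Agent.Lib.MP_36248f_gt.ty_eq5Shared : type_of% @Pool.Agent.Lib.MP_36248f_gt.ty.eq_5 :=
  @Pool.Agent.Lib.MP_36248f_gt.ty.eq_5
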