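import Pool.Agent.Lib.MP_36248f_gt.Flags
import Pool.Agent.Lib.MP_36248f_gt.ExEq

open Set

namespace Pool.Agent.Lib.MP_36248f_gt

abbrev WallQ : Type := ℤ × ℤ × ℤ × ℤ

def wallMul (a b : WallQ) : WallQ :=
  (a.1 * b.1 + a.2.1 * b.2.2.1, a.1 * b.2.1 + a.2.1 * b.2.2.2,
    a.2.2.1 * b.1 + a.2.2.2 * b.2.2.1, a.2.2.1 * b.2.1 + a.2.2.2 * b.2.2.2)

def wallDet (a : WallQ) : ℤ := a.1 * a.2.2.2 - a.2.1 * a.2.2.1

def wallInv (a : WallQ) : WallQ :=
  (wallDet a * a.2.2.2, -(wallDet a * a.2.1), -(wallDet a * a.2.2.1), wallDet a * a.1)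

def wallF (i : Fin 3) : WallQ := ![(-1, 1, 0, 1), (-1, 0, 0, 1), (0, 1, 1, 0)] i

def wallW : List (Fin 3) → WallQ
  | [] => (1, 0, 0, 1)
  | i :: l => wallMul (wallF i) (wallW l)

def wallRep (a : Fin 120) : WallQ := wallW (word a)

def wallIn (q : WallQ) : Prop :=
  wallDet q = 1 ∧ q.2.2.1 % 25 = 0 ∧ ((q.1 - 1) % 5 = 0 ∨ (q.1 + 1) % 5 = 0)

instance : DecidablePred wallIn := fun _ => inferInstanceAs (Decidable (_ ∧ _ ∧ (_ ∨ _)))

def wallStep (x : Fin 120) (i : Fin 3) : WallQ :=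
  wallMul (wallMul (wallRep x) (wallF i)) (wallInv (wallRep (pf .S i x)))

theorem wall_c1 : ∀ x i, wallIn (wallStep x i) ∧
    wallMul (wallStep x i) (wallRep (pf .S i x)) = wallMul (wallRep x) (wallF i) := by
  decide +kernel

theorem wall_c2 : ∀ x, wallIn (wallRep x) → x = 0 := by decide +kernel

theorem wall_c3 : ∀ x, wallDet (wallRep x) ^ 2 = 1 := by decide +kernel

theorem wall_c4 : ∀ t : Ty, ph t 0 = 0 ∧ ∀ (j : Fin 3) (x : Fin 120),
    ph t (pf t (up t j) x) = pf .S j (ph t x) := by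
  intro t; cases t <;> decide +kernel

theorem wall_c5 : ∀ (t : Ty) (j : Fin 3), up t j < ng t := by
  intro t; cases t <;> decide

theorem wall_pf (t : Ty) (j : Fin 3) : pf t j = pf .S j := by
  cases t <;> fin_cases j <;> rfl

theorem wall_nm (t : Ty) (j : Fin 3) : nm t j = nm .S j := by
  cases t <;> fin_cases j <;> rfl

def wallM (q : WallQ) : Matrix (Fin 2) (Fin 2) ℤ := !![q.1, q.2.1; q.2.2.1, q.2.2.2]

theorem wallM_mul (a b : WallQ) : wallM (wallMul a b) = wallM a * wallM b := by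
  simp [wallM, wallMul]

theorem wall_exists {q : WallQ} (h : wallIn q) :
    ∃ m ∈ LamZ, (m : Matrix (Fin 2) (Fin 2) ℤ) = wallM q :=
  ⟨⟨wallM q, by rw [← h.1]; simp [wallM, wallDet]⟩,
    ⟨Int.dvd_of_emod_eq_zero h.2.1, h.2.2.imp Int.dvd_of_emod_eq_zero Int.dvd_of_emod_eq_zero⟩, rfl⟩

theorem wall_in {q : WallQ} {m : Matrix.SpecialLinearGroup (Fin 2) ℤ} (hm : m ∈ LamZ)
    (h : (m : Matrix (Fin 2) (Fin 2) ℤ) = wallM q) : wallIn q := by
  have h1 := m.det_coe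
  have h2 : (25 : ℤ) ∣ (m : Matrix (Fin 2) (Fin 2) ℤ) 1 0 := hm.1
  have h3 : (5 : ℤ) ∣ (m : Matrix (Fin 2) (Fin 2) ℤ) 0 0 - 1 ∨
    (5 : ℤ) ∣ (m : Matrix (Fin 2) (Fin 2) ℤ) 0 0 + 1 := hm.2
  rw [h] at h1 h2 h3
  exact ⟨by simpa [wallM, wallDet] using h1, Int.emod_eq_zero_of_dvd h2,
    h3.imp Int.emod_eq_zero_of_dvd Int.emod_eq_zero_of_dvd⟩

/-- `g` is given by the real matrix `M` -/
def WallR (g : GV) (M : Matrix (Fin 2) (Fin 2) ℝ) : Prop := ∀ v, g v = El M v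

/-- `g` is given by the integral matrix `M` -/
def WallZ (g : GV) (M : Matrix (Fin 2) (Fin 2) ℤ) : Prop := WallR g (M.map (algebraMap ℤ ℝ))

theorem WallR.mul {g g' : GV} {M M' : Matrix (Fin 2) (Fin 2) ℝ} (h : WallR g M)
    (h' : WallR g' M') : WallR (g * g') (M * M') := fun v => by
  rw [El_mul, LinearEquiv.mul_apply, h, h']
  rfl

theorem WallR.ext {g g' : GV} {M : Matrix (Fin 2) (Fin 2) ℝ} (h : WallR g M) (h' : WallR g' M) :
    g = g' := LinearEquiv.ext fun v => (h v).trans (h' v).symm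

theorem WallZ.mul {g g' : GV} {M M' : Matrix (Fin 2) (Fin 2) ℤ} (h : WallZ g M)
    (h' : WallZ g' M') : WallZ (g * g') (M * M') := by
  rw [WallZ, Matrix.map_mul]
  exact WallR.mul h h'

theorem wallZ_EZ (m : Matrix.SpecialLinearGroup (Fin 2) ℤ) : WallZ (EZ m) m := fun _ => rfl

theorem wallZ_one : WallZ 1 1 := map_one EZ ▸ wallZ_EZ 1

theorem wallR_tr (s : ℝ) : WallR (tr s 0) !![1, s; 0, 1] := fun v => by
  ext i
  fin_cases i <;> simp [tr_apply, afv, El]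
  ring

theorem wallZ_R (i : Fin 3) : WallZ (R (nm .S i)) (wallM (wallF i)) := fun v => by
  rw [R_apply (nm_unit .S ⟨i, by have := i.2; simp only [ng]; omega⟩)]
  ext k
  fin_cases i <;> fin_cases k <;> simp [nm, B, El, wallM, wallF, Matrix.det_fin_two] <;> ring

theorem wallZ_rp (a : Fin 120) : WallZ (rp a) (wallM (wallRep a)) := by
  rw [rp, wallRep]
  induction word a with
  | nil =>
    have : wallM (wallW []) = 1 := by simp [wallM, wallW, Matrix.one_fin_two]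
    exact this ▸ wallZ_one
  | cons i l ih =>
    rw [wallW, wallM_mul]
    exact (wallZ_R i).mul ih

theorem wall_step (x : Fin 120) (i : Fin 3) : ∃ m ∈ LamZ,
    wallM (wallRep x) * wallM (wallF i) = m * wallM (wallRep (pf .S i x)) ∧
      rp x * R (nm .S i) = EZ m * rp (pf .S i x) := by
  obtain ⟨m, hm, e⟩ := wall_exists (wall_c1 x i).1
  have h1 : wallM (wallRep x) * wallM (wallF i) = m * wallM (wallRep (pf .S i x)) := by
    rw [e, ← wallM_mul, ← wallM_mul, (wall_c1 x i).2]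
  exact ⟨m, hm, h1, WallR.ext ((wallZ_rp x).mul (wallZ_R i))
    (by rw [h1]; exact (wallZ_EZ m).mul (wallZ_rp _))⟩

theorem wall_pf_pf (t : Ty) (i : Fin (ng t)) (x : Fin 120) : pm t i (pf t i x) = x :=
  pf_invol t (Fin.castLE (ng_le t) i) x

theorem wall_gen_inv (t : Ty) (i : Fin (ng t)) : (gen t i)⁻¹ = gen t i := by
  refine inv_eq_of_mul_eq_one_right (Prod.ext (R_mul_self _) (Equiv.ext fun x => ?_))
  exact wall_pf_pf t i x

/-- generator `i` of the piece is generator `j` of the standard wall -/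
def WallG (t : Ty) (c : GV) (φ : Fin 120 → Fin 120) (i : Fin (ng t)) (j : Fin 3) : Prop :=
  R (nm t i) = c * R (nm .S j) * c⁻¹ ∧ ∀ x, φ (pf t i x) = pf .S j (φ x)

theorem wall_fwd {t : Ty} {c : GV} {φ : Fin 120 → Fin 120} (h0 : φ 0 = 0) {I : Set (Fin (ng t))}
    (hI : ∀ i ∈ I, ∃ j, WallG t c φ i j) {w : GV × Equiv.Perm (Fin 120)}
    (hw : w ∈ Subgroup.closure (gen t '' I)) :
    ∀ a, w.2 a = 0 → ∃ m ∈ LamZ, w.1 = c * (EZ m * rp (φ a)) * c⁻¹ := by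
  have key : ∀ (x : GV × Equiv.Perm (Fin 120)) (i : Fin (ng t)), i ∈ I →
      (∀ a, x.2 a = 0 → ∃ m ∈ LamZ, x.1 = c * (EZ m * rp (φ a)) * c⁻¹) →
      ∀ a, (x * gen t i).2 a = 0 →
        ∃ m ∈ LamZ, (x * gen t i).1 = c * (EZ m * rp (φ a)) * c⁻¹ := fun x i hi ih a ha => by
    obtain ⟨j, h1, h2⟩ := hI i hi
    obtain ⟨m, hm, e⟩ := ih (pf t i a) ha
    obtain ⟨m', hm', -, e'⟩ := wall_step (φ (pf t i a)) j
    rw [← h2, show pf t i (pf t i a) = a from wall_pf_pf t i a] at e'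
    refine ⟨m * m', mul_mem hm hm', ?_⟩
    change x.1 * R (nm t i) = _
    rw [e, h1, map_mul, mul_assoc (EZ m), ← e']
    group
  induction hw using Subgroup.closure_induction_right with
  | one =>
    intro a ha
    obtain rfl : a = 0 := ha
    exact ⟨1, one_mem _, by simp [h0, rp_zero]⟩
  | mul_right x _ y hy ih =>
    obtain ⟨i, hi, rfl⟩ := hy
    exact key x i hi ih
  | mul_inv_cancel x _ y hy ih =>
    obtain ⟨i, hi, rfl⟩ := hy
    rw [wall_gen_inv]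
    exact key x i hi ih

theorem wall_bwd {t : Ty} {c : GV} {φ : Fin 120 → Fin 120} (h0 : φ 0 = 0)
    (hI : ∀ j, ∃ i, WallG t c φ i j) (m : Matrix.SpecialLinearGroup (Fin 2) ℤ) :
    ∃ p a, (c * EZ m * c⁻¹, p) ∈ WW t ∧ p a = 0 ∧ ∃ m' ∈ LamZ,
      (m : Matrix (Fin 2) (Fin 2) ℤ) = m' * wallM (wallRep (φ a)) := by
  let Q : Matrix (Fin 2) (Fin 2) ℤ → Prop := fun M => ∃ g, WallZ g M ∧ ∃ p a,
    (c * g * c⁻¹, p) ∈ WW t ∧ p a = 0 ∧ ∃ m' ∈ LamZ, M = m' * wallM (wallRep (φ a))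
  have key : ∀ M j, Q M → Q (M * wallM (wallF j)) := by
    rintro M j ⟨g, hg, p, a, hw, ha, m', hm', e⟩
    obtain ⟨i, h1, h2⟩ := hI j
    obtain ⟨m'', hm'', e', -⟩ := wall_step (φ a) j
    refine ⟨_, hg.mul (wallZ_R j), p * pm t i, pf t i a, ?_, ?_, m' * m'', mul_mem hm' hm'', ?_⟩
    · have h3 := mul_mem hw (Subgroup.subset_closure (mem_range_self (f := gen t) i))
      rw [gen, Prod.mk_mul_mk, h1] at h3
      rwa [show c * (g * R (nm .S j)) * c⁻¹ = c * g * c⁻¹ * (c * R (nm .S j) * c⁻¹) by group]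
    · rw [Equiv.Perm.mul_apply, wall_pf_pf, ha]
    · rw [e, mul_assoc, e', h2, Matrix.SpecialLinearGroup.coe_mul, mul_assoc]
  have key2 : ∀ (M N : Matrix (Fin 2) (Fin 2) ℤ) j k, N = wallM (wallF j) * wallM (wallF k) →
      Q M → Q (M * N) := fun M N j k e h => by
    rw [e, ← mul_assoc]
    exact key _ k (key _ j h)
  have h1 : Q m := by
    have hm : m ∈ Subgroup.closure {ModularGroup.S, ModularGroup.T} := by
      simp [SpecialLinearGroup.SL2Z_generators]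
    induction hm using Subgroup.closure_induction_right with
    | one =>
      refine ⟨1, wallZ_one, 1, 0, by rw [mul_one, mul_inv_cancel]; exact one_mem _, rfl, 1, one_mem _, ?_⟩
      rw [h0]
      decide +kernel
    | mul_right x _ y hy ih =>
      rcases hy with rfl | rfl
      · exact key2 _ _ 1 2 (by decide +kernel) ih
      · exact key2 _ _ 0 1 (by decide +kernel) ih
    | mul_inv_cancel x _ y hy ih =>
      rcases hy with rfl | rfl
      · exact key2 _ _ 2 1 (by decide +kernel) ih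
      · exact key2 _ _ 1 0 (by decide +kernel) ih
  obtain ⟨g, hg, h2⟩ := h1
  rwa [WallR.ext hg (wallZ_EZ m)] at h2

theorem wall_mem_Lam {t : Ty} {c : GV} {φ : Fin 120 → Fin 120} (h0 : φ 0 = 0)
    (hφ : Function.Injective φ) (hI : ∀ j, ∃ i, WallG t c φ i j)
    {m : Matrix.SpecialLinearGroup (Fin 2) ℤ} (hm : m ∈ LamZ) : c * EZ m * c⁻¹ ∈ Lam t := by
  obtain ⟨p, a, hw, ha, m', hm', e⟩ := wall_bwd h0 hI m
  have h1 : φ a = 0 := wall_c2 _ (wall_in (mul_mem (inv_mem hm') hm) (by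
    rw [Matrix.SpecialLinearGroup.coe_mul, e, ← mul_assoc, ← Matrix.SpecialLinearGroup.coe_mul,
      inv_mul_cancel, Matrix.SpecialLinearGroup.coe_one, one_mul]))
  obtain rfl : a = 0 := hφ (h1.trans h0.symm)
  exact mem_Lam.2 ⟨p, hw, ha⟩

theorem wallG_bot {t : Ty} {i : Fin (ng t)} {j : Fin 3} (h : i.1 = j.1) : WallG t 1 id i j := by
  refine ⟨?_, fun x => ?_⟩
  · rw [h, wall_nm, one_mul, inv_one, mul_one]
  · rw [h, wall_pf, id, id]

theorem wallG_top {t : Ty} {i : Fin (ng t)} {j : Fin 3} (h : i.1 = up t j) :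
    WallG t (tau t) (ph t) i j := by
  refine ⟨?_, fun x => ?_⟩
  · rw [h, ← tau_nm, R_conj (tau_mem t)]
  · rw [h, (wall_c4 t).2]

theorem wallG_bot' (t : Ty) (j : Fin 3) : ∃ i, WallG t 1 id i j :=
  ⟨⟨j, j.2.trans (three_le_ng t)⟩, wallG_bot rfl⟩

/-- the wall reflection group with its action on the flags, read on integral matrices -/
theorem lam_bot {t : Ty} {w : GV × Equiv.Perm (Fin 120)}
    (hw : w ∈ Subgroup.closure (gen t '' {i | i.1 < 3})) (h : w.2 0 = 0) :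
    ∃ m ∈ LamZ, w.1 = EZ m := by
  obtain ⟨m, hm, e⟩ := wall_fwd (c := 1) (φ := id) rfl
    (fun i hi => ⟨⟨i.1, hi⟩, wallG_bot rfl⟩) hw 0 h
  exact ⟨m, hm, by simpa [rp_zero] using e⟩

theorem lam_top {t : Ty} {w : GV × Equiv.Perm (Fin 120)}
    (hw : w ∈ Subgroup.closure (gen t '' {i | ∃ j, i.1 = up t j})) (h : w.2 0 = 0) :
    ∃ m ∈ LamZ, w.1 = tau t * EZ m * (tau t)⁻¹ := by
  obtain ⟨m, hm, e⟩ := wall_fwd (wall_c4 t).1 (fun i hi => hi.imp fun _ => wallG_top) hw 0 h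
  exact ⟨m, hm, by simpa [(wall_c4 t).1, rp_zero] using e⟩

theorem EZ_mem_bot (t : Ty) {m : Matrix.SpecialLinearGroup (Fin 2) ℤ} (hm : m ∈ LamZ) :
    EZ m ∈ Lam t := by
  simpa using wall_mem_Lam rfl Function.injective_id (wallG_bot' t) hm

theorem EZ_mem_top (t : Ty) {m : Matrix.SpecialLinearGroup (Fin 2) ℤ} (hm : m ∈ LamZ) :
    tau t * EZ m * (tau t)⁻¹ ∈ Lam t :=
  wall_mem_Lam (wall_c4 t).1 (ph_bij t).1 (fun j => ⟨⟨_, wall_c5 t j⟩, wallG_top rfl⟩) hm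

theorem nu_norm (j : ℤ) {m : Matrix.SpecialLinearGroup (Fin 2) ℤ} (hm : m ∈ LamZ) :
    ∃ m' ∈ LamZ, tr (j / 5) 0 * EZ m * (tr (j / 5) 0)⁻¹ = EZ m' := by
  obtain ⟨⟨c, hc⟩, ha⟩ := hm
  have hd := m.det_coe
  rw [Matrix.det_fin_two, hc] at hd
  obtain ⟨e, he⟩ : (5 : ℤ) ∣ m 1 1 - m 0 0 := by
    rcases ha with ⟨a, ha⟩ | ⟨a, ha⟩
    · exact ⟨-a * m 1 1 + 5 * m 0 1 * c - a, by linear_combination hd - (m 1 1 + 1) * ha⟩
    · exact ⟨a * m 1 1 - 5 * m 0 1 * c - a, by linear_combination (m 1 1 - 1) * ha - hd⟩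
  refine ⟨⟨!![m 0 0 + 5 * j * c, m 0 1 + j * e - j ^ 2 * c; 25 * c, m 1 1 - 5 * j * c], ?_⟩,
    ⟨⟨c, rfl⟩, ?_⟩, ?_⟩
  · rw [Matrix.det_fin_two_of]
    linear_combination hd + 5 * j * c * he
  · refine ha.imp (fun ⟨a, ha⟩ => ⟨a + j * c, ?_⟩) fun ⟨a, ha⟩ => ⟨a + j * c, ?_⟩
    · change m 0 0 + 5 * j * c - 1 = _
      linear_combination ha
    · change m 0 0 + 5 * j * c + 1 = _
      linear_combination ha
  · rw [mul_inv_eq_iff_eq_mul]
    refine ((wallR_tr _).mul (wallZ_EZ m)).ext ?_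
    refine (congrArg (WallR _) ?_).mp (WallR.mul (wallZ_EZ _) (wallR_tr _))
    have h1 : ((m 1 0 : ℤ) : ℝ) = 25 * c := by exact_mod_cast hc
    have h2 : ((m 1 1 : ℤ) : ℝ) = m 0 0 + 5 * e := by exact_mod_cast eq_add_of_sub_eq' he
    ext a b
    fin_cases a <;> fin_cases b <;> simp [Matrix.mul_apply, Fin.sum_univ_two, h1, h2] <;> ring

theorem nu_eq (k : ℕ) : ∃ j : ℤ, nu k = j / 5 := by
  unfold nu
  split
  exacts [⟨-2, by norm_num⟩, ⟨-1, by norm_num⟩, ⟨0, by norm_num⟩]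

/-- the group of wall `k` lies in the groups of both pieces -/
theorem wall_mem (k : ℕ) {m : Matrix.SpecialLinearGroup (Fin 2) ℤ} (hm : m ∈ LamZ) :
    pos (k + 1) * EZ m * (pos (k + 1))⁻¹ ∈ Gp k ∧
      pos (k + 1) * EZ m * (pos (k + 1))⁻¹ ∈ Gp (k + 1) := by
  obtain ⟨j, hj⟩ := nu_eq k
  obtain ⟨m', hm', e⟩ := nu_norm j hm
  refine ⟨mem_Gp.2 ?_, mem_Gp.2 ?_⟩
  · have h1 := EZ_mem_top (ty k) hm'
    rw [← e, ← hj] at h1
    rw [pos]
    refine (congrArg (· ∈ Lam (ty k)) ?_).mp h1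
    group
  · refine (congrArg (· ∈ Lam (ty (k + 1))) ?_).mp (EZ_mem_bot _ hm)
    group

/-- every integral matrix is a wall placement up to the wall group -/
theorem EZ_eq_rp (m : Matrix.SpecialLinearGroup (Fin 2) ℤ) :
    ∃ m' ∈ LamZ, ∃ a, EZ m = EZ m' * rp a := by
  obtain ⟨p, a, -, -, m', hm', e⟩ := wall_bwd rfl (wallG_bot' .S) m
  exact ⟨m', hm', a, WallR.ext (wallZ_EZ m) (by rw [e]; exact (wallZ_EZ m').mul (wallZ_rp a))⟩

theorem wallZ_tr (n : ℤ) : WallZ (tr n 0) !![1, n; 0, 1] := by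
  have : (!![1, n; 0, 1] : Matrix (Fin 2) (Fin 2) ℤ).map (algebraMap ℤ ℝ) = !![1, (n : ℝ); 0, 1] := by
    ext i j
    fin_cases i <;> fin_cases j <;> simp
  rw [WallZ, this]
  exact wallR_tr n

theorem EZ_T (n : ℤ) : EZ (ModularGroup.T ^ n) = tr n 0 :=
  WallR.ext (wallZ_EZ _) (by rw [ModularGroup.coe_T_zpow]; exact wallZ_tr n)

theorem conj_T_mem (m : Matrix.SpecialLinearGroup (Fin 2) ℤ) :
    m * ModularGroup.T ^ (25 : ℤ) * m⁻¹ ∈ LamZ := by
  have hd := m.det_coe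
  rw [Matrix.det_fin_two] at hd
  refine ⟨⟨-m 1 0 ^ 2, ?_⟩, Or.inl ⟨-5 * m 0 0 * m 1 0, ?_⟩⟩ <;>
    rw [Matrix.SpecialLinearGroup.coe_mul, Matrix.SpecialLinearGroup.coe_mul,
      ModularGroup.coe_T_zpow] <;>
    simp [Matrix.SpecialLinearGroup.SL2_inv_expl, Matrix.mul_apply, Fin.sum_univ_two]
  · ring
  · linear_combination hd

theorem rp_tr_mem (a : Fin 120) : ∃ m ∈ LamZ, rp a * tr 25 0 * (rp a)⁻¹ = EZ m := by
  have h1 := wall_c3 a
  have h2 := wallZ_rp a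
  generalize wallRep a = q at h1 h2
  obtain ⟨p, q, r, s⟩ := q
  generalize hδ : wallDet (p, q, r, s) = δ at h1
  replace hδ : p * s - q * r = δ := hδ
  obtain ⟨m, hm, e⟩ := wall_exists (q := (1 - 25 * δ * p * r, 25 * δ * p ^ 2, -(25 * δ * r ^ 2),
    1 + 25 * δ * p * r)) ⟨by simp only [wallDet]; ring, Int.emod_eq_zero_of_dvd
      ⟨-(δ * r ^ 2), by ring⟩, Or.inl (Int.emod_eq_zero_of_dvd ⟨-(5 * δ * p * r), by ring⟩)⟩
  refine ⟨m, hm, mul_inv_eq_iff_eq_mul.2 ?_⟩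
  have h3 := h2.mul (wallZ_tr 25)
  have h4 := (wallZ_EZ m).mul h2
  rw [show ((25 : ℤ) : ℝ) = 25 by norm_num] at h3
  refine WallR.ext h3 ?_
  have h5 : wallM (p, q, r, s) * !![1, 25; 0, 1] =
      (m : Matrix (Fin 2) (Fin 2) ℤ) * wallM (p, q, r, s) := by
    rw [e]
    ext i j
    fin_cases i <;> fin_cases j <;> simp [wallM, Matrix.mul_apply, Fin.sum_univ_two]
    · ring
    · linear_combination -25 * δ * p * hδ - 25 * p * h1
    · ring
    · linear_combination -25 * δ * r * hδ - 25 * r * h1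
  rwa [h5]

theorem tr_one_mem : tr 1 0 ∈ Gam := by
  refine Gp_le_Gam 0 (mem_Gp.2 ?_)
  have h1 := EZ_mem_bot .S (m := ModularGroup.T ^ (1 : ℤ))
    ⟨by simp [ModularGroup.coe_T], Or.inl (by simp [ModularGroup.coe_T])⟩
  rw [EZ_T] at h1
  simpa [pos, ty] using h1

end Pool.Agent.Lib.MP_36248f_gt
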