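import Pool.Agent.Lib.MP_36248f_gt.Strips
import Pool.Agent.Lib.MP_36248f_gt.WallGp

open Set

namespace Pool.Agent.Lib.MP_36248f_gt

/-- integral matrices as quadruples -/
abbrev CuspM : Type := ℤ × ℤ × ℤ × ℤ

def cuspMul (m n : CuspM) : CuspM :=
  (m.1 * n.1 + m.2.1 * n.2.2.1, m.1 * n.2.1 + m.2.1 * n.2.2.2,
    m.2.2.1 * n.1 + m.2.2.2 * n.2.2.1, m.2.2.1 * n.2.1 + m.2.2.2 * n.2.2.2)

def cuspAdj (m : CuspM) : CuspM := (m.2.2.2, -m.2.1, -m.2.2.1, m.1)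

def cuspDet (m : CuspM) : ℤ := m.1 * m.2.2.2 - m.2.1 * m.2.2.1

def cuspSm (k : ℤ) (m : CuspM) : CuspM := (k * m.1, k * m.2.1, k * m.2.2.1, k * m.2.2.2)

def cuspDiv (m : CuspM) (k : ℤ) : CuspM := (m.1 / k, m.2.1 / k, m.2.2.1 / k, m.2.2.2 / k)

/-- the action of an integral matrix -/
noncomputable def cuspE (m : CuspM) : V →ₗ[ℝ] V := El !![m.1, m.2.1; m.2.2.1, m.2.2.2]

theorem cuspE_mul (m n : CuspM) (v : V) : cuspE (cuspMul m n) v = cuspE m (cuspE n v) := by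
  have h : (!![(cuspMul m n).1, (cuspMul m n).2.1; (cuspMul m n).2.2.1, (cuspMul m n).2.2.2] :
      Matrix (Fin 2) (Fin 2) ℝ) =
      !![(m.1 : ℝ), m.2.1; m.2.2.1, m.2.2.2] * !![(n.1 : ℝ), n.2.1; n.2.2.1, n.2.2.2] := by
    rw [Matrix.mul_fin_two]
    simp only [cuspMul, Int.cast_add, Int.cast_mul]
  rw [cuspE, h, El_mul]
  rfl

theorem cuspE_apply (m : CuspM) (v : V) : cuspE m v =
    ![((m.1 : ℝ) * m.2.2.1 * v 2 + (m.1 * m.2.2.2 + m.2.1 * m.2.2.1) * v 0 +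
        m.2.1 * m.2.2.2 * v 3) / |(m.1 : ℝ) * m.2.2.2 - m.2.1 * m.2.2.1|, v 1,
      ((m.1 : ℝ) ^ 2 * v 2 + 2 * m.1 * m.2.1 * v 0 + m.2.1 ^ 2 * v 3) /
        |(m.1 : ℝ) * m.2.2.2 - m.2.1 * m.2.2.1|,
      ((m.2.2.1 : ℝ) ^ 2 * v 2 + 2 * m.2.2.1 * m.2.2.2 * v 0 + m.2.2.2 ^ 2 * v 3) /
        |(m.1 : ℝ) * m.2.2.2 - m.2.1 * m.2.2.1|] := by
  rw [← Matrix.det_fin_two_of]
  rfl

theorem cuspE_sm {k : ℤ} (hk : k ≠ 0) (m : CuspM) (v : V) : cuspE (cuspSm k m) v = cuspE m v := by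
  have h : (k : ℝ) ≠ 0 := by exact_mod_cast hk
  have h2 : (k : ℝ) ^ 2 ≠ 0 := pow_ne_zero 2 h
  have e : |(k : ℝ) * m.1 * (k * m.2.2.2) - k * m.2.1 * (k * m.2.2.1)| =
      (k : ℝ) ^ 2 * |(m.1 : ℝ) * m.2.2.2 - m.2.1 * m.2.2.1| := by
    rw [← abs_of_nonneg (sq_nonneg (k : ℝ)), ← abs_mul]
    exact congrArg _ (by ring)
  rw [cuspE_apply, cuspE_apply]
  simp only [cuspSm, Int.cast_mul, e]
  have k1 : ∀ a b D : ℝ, a = (k : ℝ) ^ 2 * b → a / ((k : ℝ) ^ 2 * D) = b / D := by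
    rintro a b D rfl
    exact mul_div_mul_left _ _ h2
  ext i
  fin_cases i
  · exact k1 _ _ _ (by ring)
  · rfl
  · exact k1 _ _ _ (by ring)
  · exact k1 _ _ _ (by ring)

theorem cuspE_af {ε p q r : ℤ} (hε : ε = 1 ∨ ε = -1) (hp : 0 < p) (hr : 0 < r) (v : V) :
    cuspE (ε * p, q, 0, r) v = afv ε 1 (p / r) (q / r) 0 v := by
  have hp' : (0 : ℝ) < p := by exact_mod_cast hp
  have hr' : (0 : ℝ) < r := by exact_mod_cast hr
  have e : |((ε * p : ℤ) : ℝ) * r - q * (0 : ℤ)| = p * r := by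
    rcases hε with rfl | rfl
    · rw [abs_of_pos] <;> push_cast <;> nlinarith [mul_pos hp' hr']
    · rw [abs_of_neg] <;> push_cast <;> nlinarith [mul_pos hp' hr']
  rw [cuspE_apply]
  simp only [e]
  rcases hε with rfl | rfl <;> ext i <;> fin_cases i <;> simp [afv] <;> field_simp

def cuspF (i : Fin 3) : CuspM :=
  if i = 0 then (-1, 1, 0, 1) else if i = 1 then (-1, 0, 0, 1) else (0, 1, 1, 0)

theorem cusp_R (i : Fin 3) (v : V) : R (nm .S i) v = cuspE (cuspF i) v := by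
  fin_cases i
  · rw [R_apply (by simp [nm, B]), cuspE_apply]
    ext j
    fin_cases j <;> simp [nm, B, cuspF] <;> ring
  · rw [R_apply (by simp [nm, B]), cuspE_apply]
    ext j
    fin_cases j <;> simp [nm, B, cuspF] <;> ring
  · rw [R_apply (by simp [nm, B]), cuspE_apply]
    ext j
    fin_cases j <;> simp [nm, B, cuspF] <;> ring

def cuspW (l : List (Fin 3)) : CuspM := l.foldr (fun i m => cuspMul (cuspF i) m) (1, 0, 0, 1)

theorem cusp_W (l : List (Fin 3)) (v : V) :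
    (l.map fun i : Fin 3 => R (nm .S i)).prod v = cuspE (cuspW l) v := by
  induction l with
  | nil =>
    rw [cuspW, List.foldr_nil, cuspE_apply]
    ext j
    fin_cases j <;> simp
  | cons i l ih =>
    rw [List.map_cons, List.prod_cons, LinearEquiv.mul_apply, ih, cusp_R]
    exact (cuspE_mul _ _ _).symm

theorem cusp_rp (a : Fin 120) (v : V) : rp a v = cuspE (cuspW (word a)) v := by
  rw [← cusp_W, rp]
  generalize word a = l
  have h : ∀ l : List (Fin 3), (List.flatMap (fun i : Fin 3 => [i.1]) l) = List.map Fin.val l := by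
    intro l
    induction l with
    | nil => rfl
    | cons i l ih => rw [List.flatMap_cons, ih]; rfl
  change (List.map (fun i => R (nm .S i)) (List.flatMap (fun i : Fin 3 => [i.1]) l)).prod v = _
  rw [h, List.map_map]
  rfl

theorem cusp_EZ {m : CuspM} (h : cuspDet m = 1) (h1 : m.2.2.1 % 25 = 0)
    (h2 : m.1 % 5 = 1 ∨ m.1 % 5 = 4) : ∃ g ∈ LamZ, ∀ v, EZ g v = cuspE m v := by
  refine ⟨⟨!![m.1, m.2.1; m.2.2.1, m.2.2.2], by rw [Matrix.det_fin_two_of]; exact h⟩, ⟨?_, ?_⟩,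
    fun v => ?_⟩
  · show (25 : ℤ) ∣ m.2.2.1
    omega
  · show (5 : ℤ) ∣ m.1 - 1 ∨ (5 : ℤ) ∣ m.1 + 1
    omega
  · refine (E_apply _ v).trans (congrArg (fun M => El M v) ?_)
    ext i j
    fin_cases i <;> fin_cases j <;> rfl

def cuspNu (k : ℕ) : ℤ := if k = 2 then -2 else if k = 4 then -1 else 0

theorem cusp_nu (k : ℕ) : nu k = cuspNu k / 5 := by
  unfold nu cuspNu
  split <;> simp_all

theorem cusp_tr (k : ℕ) (v : V) : (tr (nu k) 0)⁻¹ v = cuspE (1 * 5, -cuspNu k, 0, 5) v := by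
  rw [cuspE_af (Or.inl rfl) (by norm_num) (by norm_num), ((isAf_tr (nu k) 0).inv).2.2.2, cusp_nu]
  simp [neg_div]

def cuspTe : Ty → ℤ
  | .N => -1
  | _ => 1

def cuspTf : Ty → ℤ
  | .S => -1
  | _ => 1

def cuspT1 : Ty → ℤ
  | .N => 1
  | _ => 0

def cuspT2 : Ty → ℤ
  | .M => 1
  | _ => 0

theorem cusp_tau (t : Ty) : IsAf (tau t) (cuspTe t) (cuspTf t) 1 (cuspT1 t / 2)
    (cuspT1 t * hN + cuspT2 t * hM) := by
  cases t
  · simpa [tau, cuspTe, cuspTf, cuspT1, cuspT2] using isAf_cj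
  · simpa [tau, cuspTe, cuspTf, cuspT1, cuspT2] using (isAf_tr 0 hN).mul (isAf_Rx (1 / 2))
  · simpa [tau, cuspTe, cuspTf, cuspT1, cuspT2] using isAf_tr 0 hM

theorem cusp_lam (i : Fin 7) {g : GV} (hg : g ∈ Lam (ty i)) : pos i * g * (pos i)⁻¹ ∈ Gam :=
  Gp_le_Gam i (mem_Gp.2 (by simpa [mul_assoc] using hg))

theorem cusp_transfer {G G' T U : GV} {e f s x y e' f' s' x' y' a b c d z a' b' c' d' z' : ℝ}
    (h : IsAf G e f s x y) (hT : IsAf T a b c d z) (hU : IsAf U a' b' c' d' z')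
    (hG : G * T = G' * U) (h1 : e * a = e' * a') (h2 : f * b = f' * b') (h3 : s * c = s' * c')
    (h4 : e * s * d + x = e' * s' * d' + x') (h5 : f * s * z + y = f' * s' * z' + y') :
    IsAf G' e' f' s' x' y' := by
  have k := (h.mul hT).mul hU.inv
  have ha : a' * a' = 1 := by rcases hU.1 with rfl | rfl <;> norm_num
  have hb : b' * b' = 1 := by rcases hU.2.1 with rfl | rfl <;> norm_num
  have hc : c' ≠ 0 := hU.2.2.1.ne'
  have e1 : e' * a' * a' = e' := by rw [mul_assoc, ha, mul_one]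
  have e2 : f' * b' * b' = f' := by rw [mul_assoc, hb, mul_one]
  have e3 : s' * c' * c'⁻¹ = s' := mul_inv_cancel_right₀ hc s'
  have e4 : e' * a' * (s' * c') * -(a' * d' / c') + (e' * s' * d' + x') = x' := by
    field_simp
    linear_combination (-(e' * s' * d')) * ha
  have e5 : f' * b' * (s' * c') * -(b' * z' / c') + (f' * s' * z' + y') = y' := by
    field_simp
    linear_combination (-(f' * s' * z')) * hb
  rwa [hG, mul_inv_cancel_right, h1, h2, h3, h4, h5, e1, e2, e3, e4, e5] at k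

/-- the matrix of the tile `c` seen from the next piece -/
def cuspP (c : Strip) : CuspM :=
  cuspMul (1 * 5, -cuspNu c.i, 0, 5) (cuspW (word (ph (ty c.i) c.a)))

/-- the similarity between the two triangles on the wall -/
def cuspU (c c' : Strip) : CuspM :=
  (c.e * c'.e * cuspTe (ty c.i) * (50 * c'.d),
    c'.e * c'.d * (25 * c.e * cuspT1 (ty c.i) + c.d * c.x - c.d * c'.x), 0, 50 * c.d)

def cuspK (c c' : Strip) : ℤ := 250 * (if c.d = c'.d then c.d else 5)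

def cuspL (c c' : Strip) : CuspM :=
  cuspDiv (cuspMul (cuspMul (cuspP c) (cuspAdj (cuspU c c'))) (cuspAdj (cuspW (word c'.a))))
    (cuspK c c')

def cuspK' (c c' : Strip) : ℤ := cuspDet (cuspU c c') * cuspDet (cuspW (word c'.a))

/-- the upper wall of `c` is glued to the lower wall of `c'` -/
def CuspLink (c c' : Strip) : Prop :=
  c'.i.1 = c.i.1 + 1 ∧ (c.e = 1 ∨ c.e = -1) ∧ (c'.e = 1 ∨ c'.e = -1) ∧ 0 < c.d ∧ 0 < c'.d ∧
    c.f * cuspTf (ty c.i) = c'.f ∧ c'.q0 = c.q0 ∧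
    c.d * c'.q1 = c.d * c.q1 + 25 * c.f * cuspT1 (ty c.i) ∧
    c.d * c'.q2 = c.d * c.q2 + 25 * c.f * cuspT2 (ty c.i) ∧
    cuspDet (cuspL c c') = 1 ∧ (cuspL c c').2.2.1 % 25 = 0 ∧
    ((cuspL c c').1 % 5 = 1 ∨ (cuspL c c').1 % 5 = 4) ∧ cuspK c c' ≠ 0 ∧ cuspK' c c' ≠ 0 ∧
    cuspSm (cuspK' c c') (cuspP c) =
      cuspSm (cuspK c c') (cuspMul (cuspMul (cuspL c c') (cuspW (word c'.a))) (cuspU c c'))

instance (c c' : Strip) : Decidable (CuspLink c c') := by unfold CuspLink; infer_instance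

theorem cusp_link {c c' : Strip} (h : CuspLink c c') : c.Ok ↔ c'.Ok := by
  obtain ⟨hi, he, he', hd, hd', hf, q0, q1, q2, l1, l2, l3, k1, k2, hm⟩ := h
  obtain ⟨g, hg, hgv⟩ := cusp_EZ l1 l2 l3
  have d0 : (0 : ℝ) < c.d := by exact_mod_cast hd
  have d0' : (0 : ℝ) < c'.d := by exact_mod_cast hd'
  have hε : c.e * c'.e * cuspTe (ty c.i) = 1 ∨ c.e * c'.e * cuspTe (ty c.i) = -1 := by
    have ht : cuspTe (ty c.i) = 1 ∨ cuspTe (ty c.i) = -1 := by cases ty c.i <;> simp [cuspTe]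
    rcases he with h1 | h1 <;> rcases he' with h2 | h2 <;> rcases ht with h3 | h3 <;>
      simp [h1, h2, h3]
  obtain ⟨U, hU⟩ : ∃ U : GV, U = (EZ g * rp c'.a)⁻¹ * ((tr (nu c.i) 0)⁻¹ * rp (ph (ty c.i) c.a)) :=
    ⟨_, rfl⟩
  have hUa : IsAf U (c.e * c'.e * cuspTe (ty c.i) : ℤ) 1 ((50 * c'.d : ℤ) / (50 * c.d : ℤ))
      ((c'.e * c'.d * (25 * c.e * cuspT1 (ty c.i) + c.d * c.x - c.d * c'.x) : ℤ) /
        (50 * c.d : ℤ)) 0 := by
    refine ⟨by exact_mod_cast hε, Or.inl rfl, by push_cast; positivity, fun v => ?_⟩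
    rw [← cuspE_af hε (by omega) (by omega), hU, LinearEquiv.mul_apply]
    refine (EZ g * rp c'.a).symm_apply_eq.2 ?_
    rw [LinearEquiv.mul_apply, LinearEquiv.mul_apply, cusp_tr, cusp_rp, cusp_rp, hgv,
      ← cuspE_mul, ← cuspE_mul, ← cuspE_mul, ← cuspE_sm k2, ← cuspE_sm k1 (cuspMul _ (_, _, 0, _))]
    exact congrArg (fun m => cuspE m v) hm
  have hT := cusp_tau (ty c.i)
  have h1 := cusp_lam c.i (rp_up (ty c.i) c.a)
  have h2 : pos c'.i * EZ g * (pos c'.i)⁻¹ ∈ Gam := by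
    refine Gp_le_Gam c.i ?_
    rw [hi]
    exact (wall_mem c.i hg).1
  obtain ⟨γ, hγ, hG⟩ : ∃ γ ∈ Gam, pos c.i * rp c.a * tau (ty c.i) = γ * pos c'.i * rp c'.a * U := by
    refine ⟨_, Gam.mul_mem (Gam.inv_mem h1) h2, ?_⟩
    rw [hU, hi, pos]
    group
  have he2 : (c.e : ℝ) * c.e = 1 := by rcases he with h1 | h1 <;> simp [h1]
  have he2' : (c'.e : ℝ) * c'.e = 1 := by rcases he' with h1 | h1 <;> simp [h1]
  have p1 : (c.e : ℝ) * cuspTe (ty c.i) = c'.e * (c.e * c'.e * cuspTe (ty c.i) : ℤ) := by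
    push_cast
    linear_combination (-(c.e : ℝ) * cuspTe (ty c.i)) * he2'
  have p2 : (c.f : ℝ) * cuspTf (ty c.i) = c'.f * 1 := by
    rw [mul_one]
    exact_mod_cast hf
  have p3 : 1 / (c.d : ℝ) * 1 = 1 / (c'.d : ℝ) * ((50 * c'.d : ℤ) / (50 * c.d : ℤ)) := by
    push_cast
    field_simp
  have p4 : (c.e : ℝ) * (1 / c.d) * (cuspT1 (ty c.i) / 2) + c.x / 50 = c'.e * (1 / c'.d) *
      ((c'.e * c'.d * (25 * c.e * cuspT1 (ty c.i) + c.d * c.x - c.d * c'.x) : ℤ) /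
        (50 * c.d : ℤ)) + c'.x / 50 := by
    push_cast
    field_simp
    linear_combination (-(2 : ℝ) * (25 * c.e * cuspT1 (ty c.i) + c.d * c.x - c.d * c'.x)) * he2'
  have p5 : (c.f : ℝ) * (1 / c.d) * (cuspT1 (ty c.i) * hN + cuspT2 (ty c.i) * hM) + c.y =
      c'.f * (1 / c'.d) * 0 + c'.y := by
    have a1 : (c.d : ℝ) * c'.q1 = c.d * c.q1 + 25 * c.f * cuspT1 (ty c.i) := by exact_mod_cast q1
    have a2 : (c.d : ℝ) * c'.q2 = c.d * c.q2 + 25 * c.f * cuspT2 (ty c.i) := by exact_mod_cast q2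
    rw [Strip.y, Strip.y, q0, mul_zero, zero_add]
    field_simp
    linear_combination (-hN) * a1 - hM * a2
  constructor
  · rintro ⟨γ0, h0, hA⟩
    refine ⟨γ0 * γ, Gam.mul_mem h0 hγ, cusp_transfer hA hT hUa ?_ p1 p2 p3 p4 p5⟩
    simp only [mul_assoc] at hG ⊢
    rw [hG]
  · rintro ⟨γ0, h0, hA⟩
    refine ⟨γ0 * γ⁻¹, Gam.mul_mem h0 (Gam.inv_mem hγ),
      cusp_transfer hA hUa hT ?_ p1.symm p2.symm p3.symm p4.symm p5.symm⟩
    simp only [mul_assoc] at hG ⊢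
    rw [hG, inv_mul_cancel_left]

theorem cusp_refl (i : Fin 7) (a : Fin 120) (j : Fin (ng (ty i))) {γ : GV} (hγ : γ ∈ Gam) :
    ∃ γ' ∈ Gam, γ * pos i * rp a * R (nm (ty i) j) = γ' * pos i * rp (pf (ty i) j a) := by
  refine ⟨_, Gam.mul_mem hγ (cusp_lam i (rp_R (ty i) a j)), ?_⟩
  group

/-- `c'` is the mirror image of `c` in the upper face -/
def CuspMir (c c' : Strip) : Prop :=
  c'.i = c.i ∧ ty c.i = .S ∧ c'.a = pf .S 3 c.a ∧ c'.e = c.e ∧ c'.f = -c.f ∧ c'.d = c.d ∧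
    0 < c.d ∧ c'.x = c.x ∧ c.d * c'.q0 = c.d * c.q0 + 25 * c.f ∧ c'.q1 = c.q1 ∧ c'.q2 = c.q2

instance (c c' : Strip) : Decidable (CuspMir c c') := by unfold CuspMir; infer_instance

theorem cusp_mir {c c' : Strip} (h : CuspMir c c') : c.Ok → c'.Ok := by
  obtain ⟨hi, ht, ha, he, hf, hd, hd0, hx, q0, q1, q2⟩ := h
  rintro ⟨γ, hγ, hA⟩
  have d0 : (0 : ℝ) < c.d := by exact_mod_cast hd0
  obtain ⟨γ', hγ', hG⟩ := cusp_refl c.i c.a ⟨3, three_le_ng _⟩ hγ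
  have e1 : nm (ty c.i) 3 = ![0, 1, 1, 0] := by rw [ht]; rfl
  have e2 : pf (ty c.i) 3 c.a = c'.a := by rw [ht, ha]
  have k := hA.mul (isAf_Ry 1)
  simp only [e1, e2] at hG
  have p5 : (c.f : ℝ) * (1 / c.d) * 1 + c.y = c'.y := by
    have a1 : (c.d : ℝ) * c'.q0 = c.d * c.q0 + 25 * c.f := by exact_mod_cast q0
    rw [Strip.y, Strip.y, q1, q2]
    field_simp
    linear_combination -a1
  rw [hG, p5] at k
  refine ⟨γ', hγ', ?_⟩
  rw [hi, he, hf, hd, hx]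
  simpa using k

def cuspChain : Strip → List Strip → Bool
  | _, [] => true
  | c, c' :: l => decide (CuspLink c c' ∨ CuspLink c' c ∨ CuspMir c c') && cuspChain c' l

theorem cusp_chain (l : List Strip) : ∀ c : Strip, cuspChain c l = true → c.Ok → ∀ c' ∈ l, c'.Ok := by
  induction l with
  | nil => intro _ _ _ _ h; cases h
  | cons c' l ih =>
    intro c h hc
    rw [cuspChain, Bool.and_eq_true, decide_eq_true_iff] at h
    have h1 : c'.Ok := h.1.elim (fun k => (cusp_link k).1 hc)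
      fun k => k.elim (fun k => (cusp_link k).2 hc) fun k => cusp_mir k hc
    intro c'' h2
    rcases List.mem_cons.1 h2 with rfl | h2
    · exact h1
    · exact ih c' h.2 h1 c'' h2

theorem cusp_first : Strip.Ok ⟨0, 0, 1, 1, 1, 0, 0, 0, 0⟩ := by
  refine ⟨1, Gam.one_mem, ?_⟩
  have h := isAf_tr 0 0
  rw [tr_zero] at h
  simpa [rp_zero, pos, Strip.y] using h

theorem cusp_check : cuspChain ⟨0, 0, 1, 1, 1, 0, 0, 0, 0⟩
    (strips.tail ++ [⟨0, 1, -1, 1, 1, 58, -252, -504, -756⟩]) = true := by decide +kernel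

theorem strips_ok : ∀ c ∈ strips, c.Ok := by
  intro c hc
  have h : strips = ⟨0, 0, 1, 1, 1, 0, 0, 0, 0⟩ :: strips.tail := rfl
  rw [h] at hc
  rcases List.mem_cons.1 hc with rfl | hc
  · exact cusp_first
  · exact cusp_chain _ _ cusp_check cusp_first c (List.mem_append_left _ hc)

theorem longitude_mem : tr (4 / 25) (-LL) ∈ Gam := by
  obtain ⟨γ, hγ, hA⟩ := cusp_chain _ _ cusp_check cusp_first _
    (List.mem_append_right _ (List.mem_singleton_self _))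
  have e1 : rp 1 = R ![1, 0, 1, 0] := mul_one _
  have k := hA.mul (isAf_Rx 1)
  have e2 : γ * pos ((0 : Fin 7) : ℕ) * rp 1 * R ![1, 0, 1, 0] = γ := by
    rw [e1, mul_assoc, R_mul_self, mul_one]
    exact mul_one _
  simp only [e2] at k
  have e3 : Strip.y ⟨0, 1, -1, 1, 1, 58, -252, -504, -756⟩ = -LL := by
    rw [Strip.y, LL]
    push_cast
    ring
  rw [e3] at k
  norm_num at k
  rwa [← k.ext (isAf_tr _ _)]

/-- the tile is equivalent to one whose ideal vertex is at infinity -/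
def CuspQ (i : Fin 7) (a : Fin 120) : Prop := ∃ γ ∈ Gam, ∃ e f s x y : ℝ,
  IsAf (γ * pos i * rp a) e f s x y ∧ (s = 1 ∨ s = 1 / 25)

theorem cusp_step {i : Fin 7} {a : Fin 120} (h : CuspQ i a) (j : ℕ) (hj : j < 2) :
    CuspQ i (pf .S j a) := by
  obtain ⟨γ, hγ, e, f, s, x, y, hA, hs⟩ := h
  obtain ⟨γ', hγ', hG⟩ := cusp_refl i a ⟨j, by have := three_le_ng (ty i); omega⟩ hγ
  have e2 : pf (ty i) j a = pf .S j a := by interval_cases j <;> cases ty i <;> rfl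
  have e1 : ∃ b : ℝ, R (nm (ty i) j) = R ![1, 0, b, 0] := by
    interval_cases j
    · exact ⟨1, by cases ty i <;> rfl⟩
    · refine ⟨0, ?_⟩
      have e3 : nm (ty i) 1 = -![1, 0, 0, 0] := by
        have : nm (ty i) 1 = ![-1, 0, 0, 0] := by cases ty i <;> rfl
        rw [this]
        simp
      rw [e3, R_neg]
  obtain ⟨b, hb⟩ := e1
  have k := hA.mul (isAf_Rx b)
  simp only [hb, e2] at hG
  rw [hG] at k
  exact ⟨γ', hγ', _, _, _, _, _, k, by rwa [mul_one]⟩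

def cuspOrb : ℕ → Fin 120 → List (Fin 120)
  | 0, _ => []
  | n + 1, a => a :: cuspOrb n (pf .S (n % 2) a)

theorem cusp_orb {i : Fin 7} (n : ℕ) : ∀ a, ∀ b ∈ cuspOrb n a, CuspQ i a ↔ CuspQ i b := by
  induction n with
  | zero => intro _ _ h; cases h
  | succ n ih =>
    intro a b hb
    rcases List.mem_cons.1 hb with rfl | hb
    · rfl
    · have hn : n % 2 < 2 := Nat.mod_lt _ two_pos
      refine Iff.trans ⟨fun h => cusp_step h _ hn, fun h => ?_⟩ (ih _ b hb)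
      have h2 := cusp_step h _ hn
      rwa [pf_invol .S ⟨n % 2, by omega⟩ a] at h2

def cuspBase (l : ℕ) : Fin 120 := ((List.finRange 120).find? fun a => cusp a = l).getD 0

theorem cusp_base : ∀ a : Fin 120, cuspBase (cusp a) ∈ cuspOrb 50 a := by decide +kernel

theorem cusp_all : ∀ i : Fin 7, ∀ l : Fin 12, ∃ c ∈ strips,
    c.i = i ∧ cusp c.a = l ∧ (c.d = 1 ∨ c.d = 25) := by decide +kernel

theorem cusp_lt : ∀ a : Fin 120, cusp a < 12 := by decide +kernel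

/-- every tile is equivalent to one whose ideal vertex is at infinity -/
theorem cusp_af (i : Fin 7) (a : Fin 120) : ∃ γ ∈ Gam, ∃ e f s x y : ℝ,
    IsAf (γ * pos i * rp a) e f s x y ∧ (s = 1 ∨ s = 1 / 25) := by
  obtain ⟨c, hc, rfl, h1, h2⟩ := cusp_all i ⟨cusp a, cusp_lt a⟩
  obtain ⟨γ, hγ, hA⟩ := strips_ok c hc
  have h3 : CuspQ c.i c.a := ⟨γ, hγ, _, _, _, _, _, hA, by rcases h2 with h | h <;> simp [h]⟩
  have h4 := (cusp_orb 50 _ _ (cusp_base c.a)).1 h3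
  rw [h1] at h4
  exact (cusp_orb 50 _ _ (cusp_base a)).2 h4

end Pool.Agent.Lib.MP_36248f_gt
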