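import Mathlib

/-!
Hyperbolic knot complements: definitions.
-/

open Set

namespace Pool.Agent.Lib.MP_36248f_gt

/-- the unit sphere of four-dimensional Euclidean space -/
abbrev S3 : Type := Metric.sphere (0 : EuclideanSpace ℝ (Fin 4)) 1

/-- the short great circle arc from `u` to `v` -/
def arc (u v : S3) : Set S3 :=
  {x | ∃ s t : ℝ, 0 ≤ s ∧ 0 ≤ t ∧ (x : EuclideanSpace ℝ (Fin 4)) = s • u.1 + t • v.1}

/-- a polygonal knot: a simple closed curve that is a finite union of great circle arcs -/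
def IsKnot (K : Set S3) : Prop :=
  (∃ f : Circle → S3, Continuous f ∧ Function.Injective f ∧ range f = K) ∧
    ∃ A : Set (S3 × S3), A.Finite ∧ K = ⋃ e ∈ A, arc e.1 e.2

/-- the upper half space model of hyperbolic space, with points `(z, t)` -/
abbrev H3 : Type := {p : ℂ × ℝ // 0 < p.2}

abbrev SL2C : Type := Matrix.SpecialLinearGroup (Fin 2) ℂ

/-- the denominator `|c z + d| ^ 2 + |c| ^ 2 t ^ 2` -/
noncomputable def den (g : SL2C) (p : H3) : ℝ :=
  ‖g 1 0 * p.1.1 + g 1 1‖ ^ 2 + ‖g 1 0‖ ^ 2 * p.1.2 ^ 2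

theorem den_pos (g : SL2C) (p : H3) : 0 < den g p := by
  have ht := p.2
  by_cases hc : g 1 0 = 0
  · have hd : g 1 1 ≠ 0 := by
      intro hd
      have h := g.det_coe
      rw [Matrix.det_fin_two, hc, hd] at h
      simp at h
    simp only [den, hc, zero_mul, zero_add, norm_zero]
    positivity
  · unfold den
    positivity

/-- the action of `SL(2, ℂ)` on the upper half space by isometries -/
noncomputable def act (g : SL2C) (p : H3) : H3 :=
  ⟨(((g 0 0 * p.1.1 + g 0 1) * (starRingEnd ℂ) (g 1 0 * p.1.1 + g 1 1) +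
      g 0 0 * (starRingEnd ℂ) (g 1 0) * (p.1.2 : ℂ) ^ 2) / (den g p : ℂ), p.1.2 / den g p),
    div_pos p.2 (den_pos g p)⟩

/-- the hyperbolic volume `∫ dx dy dt / t ^ 3` -/
noncomputable def vol (D : Set H3) : ENNReal :=
  ∫⁻ p in (Subtype.val '' D : Set (ℂ × ℝ)), ENNReal.ofReal (1 / p.2 ^ 3)

/-- totally geodesic planes: the images of the vertical plane over the real line -/
def IsPlane (P : Set H3) : Prop := ∃ g : SL2C, P = act g '' {p | p.1.1.im = 0}

/-- `π` identifies the quotient of hyperbolic space by `Γ` with the complement of `K`; the image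
of `Γ` in `PSL(2, ℂ)` is discrete, torsion free and of finite covolume -/
structure IsHyp (K : Set S3) (Γ : Subgroup SL2C) (π : H3 → S3) : Prop where
  neg : -1 ∈ Γ
  disc : DiscreteTopology Γ
  tf : ∀ γ ∈ Γ, ∀ n : ℕ, 0 < n → γ ^ n = 1 → γ = 1 ∨ γ = -1
  fin : ∃ D : Set H3, MeasurableSet D ∧ vol D < ⊤ ∧ ∀ p, ∃ γ ∈ Γ, act γ p ∈ D
  cont : Continuous π
  opn : IsOpenMap π
  range_eq : range π = Kᶜ
  fib : ∀ p q, π p = π q ↔ ∃ γ ∈ Γ, act γ p = q

end Pool.Agent.Lib.MP_36248f_gt
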