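import Pool.Agent.Lib.MP_36248f_gt.Num

/-!
The parameters of the middle tile.
-/

namespace Pool.Agent.Lib.MP_36248f_gt

/-- the equations and bounds for `s = √3`, the height `h` and the radii `r5`, `r6` -/
structure Spec (s h r5 r6 : ℝ) : Prop where
  s_sq : s ^ 2 = 3
  s_pos : 0 < s
  h_lo : 2.12029 < h
  h_hi : h < 2.12031
  r5_lo : 0.24756 < r5
  r5_hi : r5 < 0.24757
  r6_lo : 0.19501 < r6
  r6_hi : r6 < 0.19502
  e5 : (3 - 3 * h ^ 2) * r5 ^ 2 - (2 + 2 * s) * h ^ 2 * r5 + h ^ 4 - 3 * h ^ 2 = 0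
  e6 : (1 - 3 * h ^ 2) * r6 ^ 2 - 2 * h ^ 2 * r6 + h ^ 4 - 4 * h ^ 2 = 0
  e56 : (s + h ^ 2) * r5 * r6 + s * h ^ 2 * r5 + 4 * h ^ 2 - h ^ 4 = 0
  num : ∃ Y5 Y6 A om, Num s (h ^ 2) h (1 / r5) (1 / r6) Y5 Y6 A om

theorem exists_spec : ∃ p : ℝ × ℝ × ℝ, Spec (√3) p.1 p.2.1 p.2.2 := by
  have N := num
  have ha : 0 < ca := by linarith [N.ba.1]
  have hb : 0 < cb := by linarith [N.bb.1]
  have e5 : 4 * cH * cY5 ^ 2 = (cH * ca + √3) ^ 2 := by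
    rw [← N.e5, ← N.h2]
    ring
  have e6 : 4 * cH * cY6 ^ 2 = (cH * cb - 1) ^ 2 := by
    rw [← N.e6, ← N.h2]
    ring
  refine ⟨(ch0, 1 / ca, 1 / cb), N.s2, by positivity, by linarith [N.bh.1], by linarith [N.bh.2],
    ?_, ?_, ?_, ?_, ?_, ?_, ?_, cY5, cY6, cA, com, ?_⟩
  · rw [lt_div_iff₀ ha]
    linarith [N.ba.2]
  · rw [div_lt_iff₀ ha]
    linarith [N.ba.1]
  · rw [lt_div_iff₀ hb]
    linarith [N.bb.2]
  · rw [div_lt_iff₀ hb]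
    linarith [N.bb.1]
  · rw [show ch0 ^ 4 = cH ^ 2 by rw [← N.h2]; ring, N.h2]
    field_simp
    linear_combination -4 * cH * N.q5 - e5 - N.s2
  · rw [show ch0 ^ 4 = cH ^ 2 by rw [← N.h2]; ring, N.h2]
    field_simp
    linear_combination -4 * cH * N.q6 - e6
  · rw [show ch0 ^ 4 = cH ^ 2 by rw [← N.h2]; ring, N.h2]
    field_simp
    linear_combination -N.eb
  · simpa only [one_div_one_div, N.h2] using N

end Pool.Agent.Lib.MP_36248f_gt
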