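import Mathlib

/-!
Chambers of linear reflection groups.
-/

set_option autoImplicit false

namespace Pool.Agent.Lib.MP_36248f_gt

open Real

section Tits

variable {G V ι : Type} [Group G] [AddCommGroup V] [Module ℝ V]

/-- Involutions `s i` of a group that act through `ρ` as the reflections in the vectors `a i`,
with Coxeter angles between the mirrors. -/
structure Refl (B : V →ₗ[ℝ] V →ₗ[ℝ] ℝ) (ρ : G →* V ≃ₗ[ℝ] V) (s : ι → G) (a : ι → V) : Prop where
  symm : ∀ x y, B x y = B y x
  one : ∀ i, B (a i) (a i) = 1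
  sq : ∀ i, s i * s i = 1
  act : ∀ i v, ρ (s i) v = v - (2 * B (a i) v) • a i
  cox : ∀ i j, i ≠ j → B (a i) (a j) ≤ -1 ∨
    ∃ m : ℕ, 2 ≤ m ∧ B (a i) (a j) = -cos (π / m) ∧ (s i * s j) ^ m = 1

/-- The value of a word. -/
def wd (s : ι → G) (l : List ι) : G := (l.map s).prod

/-- The letter put in front at step `k`. -/
def lt2 (i j : ι) (k : ℕ) : ι := if Even k then j else i

/-- The alternating word of length `k` that ends with `j`. -/
def alt (i j : ι) : ℕ → List ι
  | 0 => []
  | k + 1 => lt2 i j k :: alt i j k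

/-- The recurrence of `sin (k t) / sin t` for `c = cos t`. -/
def ch (c : ℝ) : ℕ → ℝ
  | 0 => 0
  | 1 => 1
  | k + 2 => 2 * c * ch c (k + 1) - ch c k

theorem wd_nil (s : ι → G) : wd s [] = 1 := rfl

theorem wd_cons (s : ι → G) (i : ι) (l : List ι) : wd s (i :: l) = s i * wd s l := by
  simp [wd]

theorem wd_append (s : ι → G) (l l' : List ι) : wd s (l ++ l') = wd s l * wd s l' := by
  simp [wd]

theorem wd_one (s : ι → G) (i : ι) : wd s [i] = s i := by
  simp [wd]

theorem lt2_add_two (i j : ι) (k : ℕ) : lt2 i j (k + 2) = lt2 i j k := by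
  simp [lt2, Nat.even_add]

theorem lt2_cases (i j : ι) (k : ℕ) :
    (lt2 i j k = j ∧ lt2 i j (k + 1) = i) ∨ (lt2 i j k = i ∧ lt2 i j (k + 1) = j) := by
  by_cases h : Even k <;> simp [lt2, Nat.even_add_one, h]

theorem alt_length (i j : ι) (k : ℕ) : (alt i j k).length = k := by
  induction k with
  | zero => rfl
  | succ k ih => simp [alt, ih]

theorem alt_mem (i j : ι) (k : ℕ) : ∀ t ∈ alt i j k, t = i ∨ t = j := by
  induction k with
  | zero => simp [alt]
  | succ k ih =>
    intro t ht
    rcases List.mem_cons.1 ht with rfl | ht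
    · rcases lt2_cases i j k with h | h
      · exact Or.inr h.1
      · exact Or.inl h.1
    · exact ih t ht

theorem alt_suffix (i j : ι) (m d : ℕ) : ∃ u, alt i j (m + d) = u ++ alt i j m := by
  induction d with
  | zero => exact ⟨[], rfl⟩
  | succ d ih =>
    obtain ⟨u, hu⟩ := ih
    exact ⟨lt2 i j (m + d) :: u, by rw [← add_assoc, alt, hu]; rfl⟩

theorem alt_braid {s : ι → G} (hs : ∀ i, s i * s i = 1) (i j : ι) (k : ℕ) :
    wd s (alt i j (k + 1)) * s i =
      (s (lt2 i j k) * s (lt2 i j (k + 1))) ^ (k + 1) * wd s (alt i j k) := by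
  induction k with
  | zero => simp [alt, lt2, wd]
  | succ k ih =>
    rw [alt, wd_cons, mul_assoc, ih, lt2_add_two, alt, wd_cons]
    generalize s (lt2 i j (k + 1)) = y
    have hx := hs (lt2 i j k)
    generalize s (lt2 i j k) = x at hx
    have h1 : y * (x * y) ^ (k + 1) = (y * x) ^ (k + 1) * y := by
      rw [← mul_pow_mul]
    rw [← mul_assoc, h1, pow_succ (y * x) (k + 1)]
    simp only [mul_assoc]
    rw [← mul_assoc x x, hx, one_mul]

theorem ch_big {c : ℝ} (hc : 1 ≤ c) (k : ℕ) : 0 ≤ ch c k ∧ ch c k ≤ ch c (k + 1) := by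
  induction k with
  | zero => simp [ch]
  | succ k ih =>
    refine ⟨ih.1.trans ih.2, ?_⟩
    rw [ch]
    nlinarith [ih.1, ih.2]

theorem ch_cos (t : ℝ) (k : ℕ) : ch (cos t) k * sin t = sin (k * t) := by
  induction k using Nat.twoStepInduction with
  | zero => simp [ch]
  | one => simp [ch]
  | more k h0 h1 =>
    have e1 : ((k + 2 : ℕ) : ℝ) * t = ((k + 1 : ℕ) : ℝ) * t + t := by push_cast; ring
    have e2 : (k : ℝ) * t = ((k + 1 : ℕ) : ℝ) * t - t := by push_cast; ring
    rw [ch, sub_mul, h0, mul_assoc, h1, e1, e2, sin_add, sin_sub]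
    ring

theorem sin_pi_div_pos {m : ℕ} (hm : 2 ≤ m) : 0 < sin (π / m) := by
  have h2 : (2 : ℝ) ≤ m := by exact_mod_cast hm
  refine sin_pos_of_pos_of_lt_pi (by positivity) ?_
  rw [div_lt_iff₀ (by linarith)]
  nlinarith [pi_pos]

theorem ch_cos_nonneg {m k : ℕ} (hm : 2 ≤ m) (hk : k ≤ m) : 0 ≤ ch (cos (π / m)) k := by
  have h2 : (2 : ℝ) ≤ m := by exact_mod_cast hm
  have hk' : (k : ℝ) ≤ m := by exact_mod_cast hk
  have h1 := ch_cos (π / m) k
  have h3 : 0 ≤ sin (k * (π / m)) := by
    refine sin_nonneg_of_nonneg_of_le_pi (by positivity) ?_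
    rw [← mul_div_assoc, div_le_iff₀ (by linarith)]
    nlinarith [pi_pos]
  rw [← h1] at h3
  exact nonneg_of_mul_nonneg_left h3 (sin_pi_div_pos hm)

variable {B : V →ₗ[ℝ] V →ₗ[ℝ] ℝ} {ρ : G →* V ≃ₗ[ℝ] V} {s : ι → G} {a : ι → V}

theorem alt_act (symm : ∀ x y, B x y = B y x) (one : ∀ i, B (a i) (a i) = 1)
    (act : ∀ i v, ρ (s i) v = v - (2 * B (a i) v) • a i) (i j : ι) (k : ℕ) :
    ρ (wd s (alt i j k)) (a i) = ch (-B (a i) (a j)) (k + 1) • a (lt2 i j (k + 1)) +
      ch (-B (a i) (a j)) k • a (lt2 i j k) := by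
  induction k with
  | zero => simp [alt, wd, ch, lt2]
  | succ k ih =>
    have h1 : B (a (lt2 i j k)) (a (lt2 i j (k + 1))) = B (a i) (a j) := by
      rcases lt2_cases i j k with h | h
      · rw [h.1, h.2, symm]
      · rw [h.1, h.2]
    rw [alt, wd_cons, map_mul, LinearEquiv.mul_apply, ih, act, lt2_add_two, ch]
    simp only [map_add, map_smul, smul_eq_mul, h1, one]
    module

/-- A word in two letters that cannot be shortened by appending `i` is alternating. -/
theorem eq_alt (hs : ∀ i, s i * s i = 1) (i j : ι) (r : List ι) (hr : ∀ t ∈ r, t = i ∨ t = j)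
    (h : ∀ r' : List ι, (∀ t ∈ r', t = i ∨ t = j) → wd s r' = wd s r * s i →
      r.length ≤ r'.length) : r = alt i j r.length := by
  induction r with
  | nil => rfl
  | cons t r ih =>
    have h0 : r = alt i j r.length := by
      refine ih (fun u hu => hr u (List.mem_cons_of_mem _ hu)) fun r' h1 h2 => ?_
      have h3 := h (t :: r') (fun u hu => by
        rcases List.mem_cons.1 hu with rfl | hu
        · exact hr _ List.mem_cons_self
        · exact h1 u hu) (by rw [wd_cons, wd_cons, h2, mul_assoc])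
      simpa using h3
    rw [List.length_cons, alt, ← h0]
    by_contra hne
    have h4 : t ≠ lt2 i j r.length := fun e => hne (by rw [← e])
    have h5 : t = lt2 i j (r.length + 1) := by
      rcases lt2_cases i j r.length with e | e <;> rcases hr t List.mem_cons_self with e' | e'
      · rw [e.2, e']
      · exact absurd (e'.trans e.1.symm) h4
      · exact absurd (e'.trans e.1.symm) h4
      · rw [e.2, e']
    cases hk : r.length with
    | zero =>
      have h6 : r = [] := List.length_eq_zero_iff.1 hk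
      subst h6
      have h7 : t = i := by simpa [lt2] using h5
      have h8 := h [] (by simp) (by rw [h7, wd_one, hs, wd_nil])
      simp at h8
    | succ k =>
      rw [hk] at h0 h5
      rw [lt2_add_two] at h5
      have h8 := h (alt i j k ++ [i]) (fun u hu => by
        rcases List.mem_append.1 hu with hu | hu
        · exact alt_mem i j k u hu
        · exact Or.inl (by simpa using hu)) (by
          rw [wd_append, wd_one, wd_cons, h0, alt, wd_cons, ← h5, ← mul_assoc (s t), hs, one_mul])
      simp [alt_length, hk] at h8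

theorem Refl.rank_two (H : Refl B ρ s a) {i j : ι} (hij : i ≠ j) (r : List ι)
    (hr : ∀ t ∈ r, t = i ∨ t = j)
    (h : ∀ r' : List ι, (∀ t ∈ r', t = i ∨ t = j) → wd s r' = wd s r * s i →
      r.length ≤ r'.length) :
    ∃ α β : ℝ, 0 ≤ α ∧ 0 ≤ β ∧ ρ (wd s r) (a i) = α • a i + β • a j := by
  have h0 := eq_alt H.sq i j r hr h
  have h1 : 0 ≤ ch (-B (a i) (a j)) r.length ∧ 0 ≤ ch (-B (a i) (a j)) (r.length + 1) := by
    rcases H.cox i j hij with hc | ⟨m, hm, hc, hp⟩
    · exact ⟨(ch_big (by linarith) _).1, (ch_big (by linarith) _).1⟩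
    · have hlt : r.length < m := by
        by_contra hge
        obtain ⟨d, hd⟩ := Nat.exists_eq_add_of_le (not_lt.1 hge)
        obtain ⟨k, rfl⟩ : ∃ k, m = k + 1 := ⟨m - 1, by omega⟩
        obtain ⟨u, hu⟩ := alt_suffix i j (k + 1) d
        rw [← hd, ← h0] at hu
        have h2 : (s (lt2 i j k) * s (lt2 i j (k + 1))) ^ (k + 1) = 1 := by
          rcases lt2_cases i j k with e | e
          · rw [e.1, e.2, ← inv_eq_one, ← inv_pow, mul_inv_rev,
              inv_eq_of_mul_eq_one_right (H.sq i), inv_eq_of_mul_eq_one_right (H.sq j), hp]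
          · rw [e.1, e.2, hp]
        have h3 := h (u ++ alt i j k) (fun t ht => by
          rcases List.mem_append.1 ht with ht | ht
          · exact hr t (hu ▸ List.mem_append_left _ ht)
          · exact alt_mem i j k t ht) (by
            rw [hu, wd_append, wd_append, mul_assoc, alt_braid H.sq, h2, one_mul])
        rw [hu] at h3
        simp [alt_length] at h3
      rw [hc, neg_neg]
      exact ⟨ch_cos_nonneg hm hlt.le, ch_cos_nonneg hm hlt⟩
  rw [h0, alt_act H.symm H.one H.act]
  rcases lt2_cases i j r.length with e | e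
  · exact ⟨_, _, h1.2, h1.1, by rw [e.1, e.2]⟩
  · exact ⟨_, _, h1.1, h1.2, by rw [e.1, e.2, add_comm]⟩

/-- If appending `i` does not shorten the word, the root `w a_i` is on the side of the `a j`. -/
theorem Refl.pos (H : Refl B ρ s a) {x : V} (hx : ∀ j, B (a j) x ≤ 0) (n : ℕ) :
    ∀ (l : List ι) (i : ι), l.length = n →
      (∀ l' : List ι, wd s l' = wd s l * s i → l.length ≤ l'.length) →
      B (ρ (wd s l) (a i)) x ≤ 0 := by
  classical
  induction n using Nat.strong_induction_on with
  | _ n ih =>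
    intro l i hn hl
    rcases List.eq_nil_or_concat l with rfl | ⟨l0, j, rfl⟩
    · simpa [wd_nil] using hx i
    rw [List.concat_eq_append] at hn hl ⊢
    have hij : i ≠ j := by
      rintro rfl
      have h1 := hl l0 (by rw [wd_append, wd_one, mul_assoc, H.sq, mul_one])
      simp at h1
    have hex : ∃ k, ∃ u r : List ι, u.length = k ∧ (∀ t ∈ r, t = i ∨ t = j) ∧
        wd s u * wd s r = wd s (l0 ++ [j]) ∧ u.length + r.length ≤ n :=
      ⟨l0.length, l0, [j], rfl, by simp, by rw [wd_append], by simpa using hn.le⟩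
    obtain ⟨u, r, hu, hr, hw, hlen⟩ := Nat.find_spec hex
    have hmin : ∀ u' r' : List ι, (∀ t ∈ r', t = i ∨ t = j) →
        wd s u' * wd s r' = wd s (l0 ++ [j]) → u'.length + r'.length ≤ n →
        u.length ≤ u'.length := fun u' r' h1 h2 h3 =>
      hu ▸ Nat.find_min' hex ⟨u', r', rfl, h1, h2, h3⟩
    have hlt : u.length < n := by
      have h1 := hmin l0 [j] (by simp) (by rw [wd_append]) (by simpa using hn.le)
      simp at hn
      omega
    have key : ∀ t, t = i ∨ t = j → B (ρ (wd s u) (a t)) x ≤ 0 := fun t ht => by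
      refine ih _ hlt u t rfl fun l' hl' => ?_
      by_contra hc
      have h1 := hmin l' (t :: r) (fun v hv => by
        rcases List.mem_cons.1 hv with rfl | hv
        · exact ht
        · exact hr v hv) (by
          rw [hl', wd_cons, ← hw, mul_assoc, ← mul_assoc (s t), H.sq, one_mul])
        (by simp only [List.length_cons]; omega)
      omega
    obtain ⟨α, β, hα, hβ, he⟩ := H.rank_two hij r hr fun r' _ h2 => by
      have h3 := hl (u ++ r') (by rw [wd_append, h2, ← hw, mul_assoc])
      rw [hn, List.length_append] at h3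
      omega
    rw [← hw, map_mul, LinearEquiv.mul_apply, he]
    simp only [map_add, map_smul, LinearMap.add_apply, LinearMap.smul_apply, smul_eq_mul]
    exact add_nonpos (mul_nonpos_of_nonneg_of_nonpos hα (key i (Or.inl rfl)))
      (mul_nonpos_of_nonneg_of_nonpos hβ (key j (Or.inr rfl)))

theorem Refl.inv_wd (H : Refl B ρ s a) (l : List ι) (x y : V) :
    B (ρ (wd s l) x) (ρ (wd s l) y) = B x y := by
  induction l with
  | nil => simp [wd_nil]
  | cons t l ih =>
    rw [wd_cons, map_mul, LinearEquiv.mul_apply, LinearEquiv.mul_apply, H.act, H.act, ← ih]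
    simp only [map_sub, map_smul, LinearMap.sub_apply, LinearMap.smul_apply, smul_eq_mul, H.one]
    rw [H.symm (ρ (wd s l) x) (a t)]
    ring

theorem exists_wd (hs : ∀ i, s i * s i = 1) {w : G} (hw : w ∈ Subgroup.closure (Set.range s)) :
    ∃ l : List ι, wd s l = w := by
  induction hw using Subgroup.closure_induction_left with
  | one => exact ⟨[], rfl⟩
  | mul_left x hx y _ ih =>
    obtain ⟨i, rfl⟩ := hx
    obtain ⟨l, rfl⟩ := ih
    exact ⟨i :: l, wd_cons s i l⟩
  | inv_mul_cancel x hx y _ ih =>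
    obtain ⟨i, rfl⟩ := hx
    obtain ⟨l, rfl⟩ := ih
    exact ⟨i :: l, by rw [wd_cons, inv_eq_of_mul_eq_one_right (hs i)]⟩

theorem wd_mem (s : ι → G) (l : List ι) : wd s l ∈ Subgroup.closure (Set.range s) := by
  induction l with
  | nil => exact one_mem _
  | cons t l ih => exact wd_cons s t l ▸ mul_mem (Subgroup.subset_closure ⟨t, rfl⟩) ih

theorem Refl.inv (H : Refl B ρ s a) {w : G} (hw : w ∈ Subgroup.closure (Set.range s)) (x y : V) :
    B (ρ w x) (ρ w y) = B x y := by
  obtain ⟨l, rfl⟩ := exists_wd H.sq hw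
  exact H.inv_wd l x y

/-- Two points of the chamber in one orbit are equal, and the element that moves one to the other
is a product of reflections in mirrors through the point. -/
theorem Refl.chamber (H : Refl B ρ s a) {w : G} (hw : w ∈ Subgroup.closure (Set.range s)) {x : V}
    (hx : ∀ j, B (a j) x ≤ 0) (hwx : ∀ j, B (a j) (ρ w x) ≤ 0) :
    ρ w x = x ∧ w ∈ Subgroup.closure (s '' {j | B (a j) x = 0}) := by
  classical
  have main : ∀ n : ℕ, ∀ l : List ι, l.length = n → (∀ j, B (a j) (ρ (wd s l) x) ≤ 0) →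
      ρ (wd s l) x = x ∧ wd s l ∈ Subgroup.closure (s '' {j | B (a j) x = 0}) := by
    intro n
    induction n using Nat.strong_induction_on with
    | _ n ih =>
      intro l hn hl
      by_cases hred : ∃ l' : List ι, wd s l' = wd s l ∧ l'.length < n
      · obtain ⟨l', h1, h2⟩ := hred
        rw [← h1] at hl ⊢
        exact ih _ h2 l' rfl hl
      rcases List.eq_nil_or_concat l with rfl | ⟨l0, j, rfl⟩
      · exact ⟨by simp [wd_nil], one_mem _⟩
      rw [List.concat_eq_append] at hn hl hred ⊢
      rw [wd_append, wd_one] at hl hred ⊢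
      have hn' : l0.length + 1 = n := by simpa using hn
      have h1 := H.pos hl _ l0 j rfl fun l' h' => by
        by_contra hc
        exact hred ⟨l', h', by omega⟩
      rw [map_mul, LinearEquiv.mul_apply, H.inv_wd, H.act] at h1
      simp only [map_sub, map_smul, smul_eq_mul, H.one] at h1
      have h2 : B (a j) x = 0 := by linarith [hx j]
      have h3 : ρ (wd s l0 * s j) x = ρ (wd s l0) x := by
        rw [map_mul, LinearEquiv.mul_apply, H.act, h2]
        simp
      rw [h3] at hl ⊢
      obtain ⟨h4, h5⟩ := ih _ (by omega) l0 rfl hl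
      exact ⟨h4, mul_mem h5 (Subgroup.subset_closure ⟨j, h2, rfl⟩)⟩
  obtain ⟨l, rfl⟩ := exists_wd H.sq hw
  exact main _ l rfl hwx

/-- A mirror does not cut the chamber. -/
theorem Refl.sign (H : Refl B ρ s a) {w : G} (hw : w ∈ Subgroup.closure (Set.range s)) (i : ι) :
    (∀ x, (∀ j, B (a j) x ≤ 0) → B (ρ w (a i)) x ≤ 0) ∨
      ∀ x, (∀ j, B (a j) x ≤ 0) → 0 ≤ B (ρ w (a i)) x := by
  classical
  have hex : ∃ n, ∃ l : List ι, l.length = n ∧ (wd s l = w ∨ wd s l = w * s i) := by
    obtain ⟨l, hl⟩ := exists_wd H.sq hw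
    exact ⟨_, l, rfl, Or.inl hl⟩
  obtain ⟨l, hn, hl⟩ := Nat.find_spec hex
  have hmin : ∀ l' : List ι, wd s l' = w ∨ wd s l' = w * s i → l.length ≤ l'.length :=
    fun l' h => hn ▸ Nat.find_min' hex ⟨l', rfl, h⟩
  rcases hl with hl | hl
  · exact Or.inl fun x hx => hl ▸ H.pos hx _ l i rfl fun l' h => hmin l' (Or.inr (hl ▸ h))
  · refine Or.inr fun x hx => ?_
    have h1 := H.pos hx _ l i rfl fun l' h => hmin l' (Or.inl (by
      rw [h, hl, mul_assoc, H.sq, mul_one]))
    rw [hl, map_mul, LinearEquiv.mul_apply, H.act, H.one] at h1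
    simp only [map_sub, map_smul, LinearMap.sub_apply, LinearMap.smul_apply, smul_eq_mul] at h1
    linarith

/-- The product of two reflections at the angle `π / m` has order dividing `m`. -/
theorem refl_pow (symm : ∀ x y, B x y = B y x) (one : ∀ i, B (a i) (a i) = 1)
    (act : ∀ i v, ρ (s i) v = v - (2 * B (a i) v) • a i) {i j : ι} {m : ℕ} (hm : 2 ≤ m)
    (hc : B (a i) (a j) = -cos (π / m)) : ρ ((s i * s j) ^ m) = 1 := by
  have hm0 : (m : ℝ) ≠ 0 := by positivity
  have hs := sin_pi_div_pos hm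
  have halt : ∀ (i j : ι) (k : ℕ), wd s (alt i j (2 * k)) = (s i * s j) ^ k := by
    intro i j k
    induction k with
    | zero => simp [alt, wd]
    | succ k ih =>
      rw [Nat.mul_succ, alt, alt, wd_cons, wd_cons, ih, pow_succ', mul_assoc]
      simp [lt2]
  have c0 : ch (cos (π / m)) (2 * m) = 0 := by
    have h := ch_cos (π / m) (2 * m)
    have e : ((2 * m : ℕ) : ℝ) * (π / m) = 2 * π := by push_cast; field_simp
    rw [e, sin_two_pi] at h
    exact (mul_eq_zero.1 h).resolve_right hs.ne'
  have c1 : ch (cos (π / m)) (2 * m + 1) = 1 := by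
    have h := ch_cos (π / m) (2 * m + 1)
    have e : ((2 * m + 1 : ℕ) : ℝ) * (π / m) = π / m + 2 * π := by push_cast; field_simp; ring
    rw [e, sin_add_two_pi] at h
    exact mul_right_cancel₀ hs.ne' (h.trans (one_mul _).symm)
  have fix : ∀ i j : ι, B (a i) (a j) = -cos (π / m) → ρ ((s i * s j) ^ m) (a i) = a i := by
    intro i j hc
    rw [← halt, alt_act symm one act, hc, neg_neg, c0, c1]
    simp [lt2]
  have sq : ∀ i, ρ (s i) * ρ (s i) = 1 := fun i => by
    ext v
    rw [LinearEquiv.mul_apply, act, act]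
    simp only [map_sub, map_smul, smul_eq_mul, one, LinearEquiv.coe_one, id]
    module
  have f1 := fix i j hc
  have f2 : ρ ((s i * s j) ^ m) (a j) = a j := by
    have h := fix j i (by rw [symm, hc])
    have e : ρ ((s i * s j) ^ m) * ρ ((s j * s i) ^ m) = 1 := by
      rw [map_pow, map_pow, map_mul, map_mul, ← inv_eq_iff_mul_eq_one, ← inv_pow, mul_inv_rev,
        inv_eq_of_mul_eq_one_right (sq i), inv_eq_of_mul_eq_one_right (sq j)]
    conv_lhs => rw [← h]
    rw [← LinearEquiv.mul_apply, e]
    rfl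
  have perp : ∀ z, B (a i) z = 0 → B (a j) z = 0 → ∀ k : ℕ, ρ ((s i * s j) ^ k) z = z := by
    intro z h1 h2 k
    induction k with
    | zero => simp
    | succ k ih =>
      rw [pow_succ, map_mul, map_mul, LinearEquiv.mul_apply, LinearEquiv.mul_apply, act j, h2]
      simp only [mul_zero, zero_smul, sub_zero]
      rw [act i, h1]
      simpa using ih
  ext v
  have hd : 1 - cos (π / m) ^ 2 ≠ 0 := by
    rw [← sin_sq]
    positivity
  set c := cos (π / m)
  set α := (B (a i) v + c * B (a j) v) / (1 - c ^ 2) with hα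
  set β := (B (a j) v + c * B (a i) v) / (1 - c ^ 2) with hβ
  have hz := perp (v - α • a i - β • a j) (by
    simp only [map_sub, map_smul, smul_eq_mul, one, hc, hα, hβ]
    field_simp
    ring) (by
    simp only [map_sub, map_smul, smul_eq_mul, one, symm (a j) (a i), hc, hα, hβ]
    field_simp
    ring) m
  rw [map_sub, map_sub, map_smul, map_smul, f1, f2] at hz
  simpa using hz

end Tits

end Pool.Agent.Lib.MP_36248f_gt
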