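import Pool.Agent.Lib.MP_36248f_gt.Tab
import Pool.Agent.Lib.MP_36248f_gt.Par
import Pool.Agent.Lib.MP_36248f_gt.Tits

/-!
The example: tiles, reflection groups, positions and the group `Gam`.
-/

open Set

namespace Pool.Agent.Lib.MP_36248f_gt

noncomputable def s3 : ℝ := √3
noncomputable def hM : ℝ := exists_spec.choose.1
noncomputable def r5 : ℝ := exists_spec.choose.2.1
noncomputable def r6 : ℝ := exists_spec.choose.2.2
theorem spec : Spec s3 hM r5 r6 := exists_spec.choose_spec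
noncomputable def hN : ℝ := √7 / 2
noncomputable def y5 : ℝ := (hM ^ 2 + s3 * r5) / (2 * hM)
noncomputable def y6 : ℝ := (hM ^ 2 - r6) / (2 * hM)
noncomputable def yS : ℝ := (2 + s3 * r5 - (1 - r5) / 2) / (2 * y5)
noncomputable def om : ℝ := √((s3 + 7) / (8 * (yS ^ 2 - 3 / 4)))

/-- the normal direction of the plane with cocompact stabiliser, in the middle tile -/
noncomputable def eS : V := ![1 / 2, yS, 1, 1]
noncomputable def n5 : V := ![(1 - r5) / 2 / r5, y5 / r5, (1 + s3 * r5) / r5, 1 / r5]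

/-- unit normals of the mirrors -/
noncomputable def nm : Ty → ℕ → V
  | _, 0 => ![1, 0, 1, 0]
  | _, 1 => ![-1, 0, 0, 0]
  | _, 2 => ![0, 0, -1, 1]
  | .S, _ => ![0, 1, 1, 0]
  | .N, _ => ![1 / 2, hN, 1, 1]
  | .M, 3 => ![0, hM, hM ^ 2 - 1, 1]
  | .M, 4 => ((s3 - 1) / 4) • ![1, 0, 1, 0] + ((s3 + 1) / 4) • (![0, 0, -1, 1] + n5) + om • eS
  | .M, 5 => n5
  | .M, _ => ![1 / 2, y6 / r6, 1 / r6, 1 / r6]

/-- Coxeter labels; `0` means that the mirrors do not meet in hyperbolic space -/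
def cox : Ty → ℕ → ℕ → ℕ
  | .S, i, j => (([[1, 0, 3, 2], [0, 1, 2, 2], [3, 2, 1, 3], [2, 2, 3, 1]].getD i []).getD j 0)
  | .N, i, j => (([[1, 0, 3, 2], [0, 1, 2, 3], [3, 2, 1, 2], [2, 3, 2, 1]].getD i []).getD j 0)
  | .M, i, j => (([[1, 0, 3, 3, 3, 3, 0], [0, 1, 2, 2, 0, 0, 3], [3, 2, 1, 0, 2, 6, 2],
      [3, 2, 0, 1, 0, 2, 3], [3, 0, 2, 0, 1, 2, 0], [3, 0, 6, 2, 2, 1, 2],
      [0, 3, 2, 3, 0, 2, 1]].getD i []).getD j 0)

/-- the height of the tile in the `y` direction -/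
noncomputable def ht : Ty → ℝ
  | .S => 1 / 2
  | .N => hN
  | .M => hM

/-- the chamber of the mirrors, in the whole vector space -/
def Ch (t : Ty) : Set V := {v | ∀ i : Fin (ng t), 0 ≤ B v (nm t i)}

/-- the tile -/
def P (t : Ty) : Set V := {v | v ∈ HH ∧ v ∈ Ch t ∧ 0 ≤ v 1 ∧ v 1 ≤ ht t * v 3}

/-- generators: a reflection together with a permutation of the flags -/
noncomputable def gen (t : Ty) (i : Fin (ng t)) : GV × Equiv.Perm (Fin 120) := (R (nm t i), pm t i)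

/-- the reflection group with its action on the flags -/
noncomputable def WW (t : Ty) : Subgroup (GV × Equiv.Perm (Fin 120)) :=
  Subgroup.closure (range (gen t))

/-- the stabiliser of flag `0` -/
noncomputable def Lam (t : Ty) : Subgroup GV :=
  (WW t ⊓ (MulAction.stabilizer (Equiv.Perm (Fin 120)) (0 : Fin 120)).comap
    (MonoidHom.snd _ _)).map (MonoidHom.fst _ _)

/-- the placement of the tile with flag `a` -/
noncomputable def rp (a : Fin 120) : GV := ((word a).map fun i => R (nm .S i)).prod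

/-- the kinds of the seven pieces -/
def ty : ℕ → Ty
  | 0 => .S
  | 2 => .N
  | 4 => .N
  | 6 => .S
  | _ => .M

/-- the map from the standard wall to the upper wall -/
noncomputable def tau : Ty → GV
  | .S => cj
  | .N => tr 0 hN * R ![1, 0, 1 / 2, 0]
  | .M => tr 0 hM

/-- the twist at wall `k` is the translation by `nu k` -/
noncomputable def nu : ℕ → ℝ
  | 2 => -2 / 5
  | 4 => -1 / 5
  | _ => 0

/-- positions of the pieces -/
noncomputable def pos : ℕ → GV
  | 0 => 1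
  | k + 1 => pos k * tau (ty k) * tr (nu k) 0

/-- the group of piece `i` -/
noncomputable def Gp (i : ℕ) : Subgroup GV := (Lam (ty i)).map (MulAut.conj (pos i)).toMonoidHom

/-- the group of the knot -/
noncomputable def Gam : Subgroup GV := ⨆ i : Fin 7, Gp i

/-- the group of the standard wall -/
def LamZ : Subgroup (Matrix.SpecialLinearGroup (Fin 2) ℤ) where
  carrier := {m | (25 : ℤ) ∣ m 1 0 ∧ ((5 : ℤ) ∣ m 0 0 - 1 ∨ (5 : ℤ) ∣ m 0 0 + 1)}
  one_mem' := by simp
  mul_mem' := by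
    rintro m m' ⟨⟨c, hc⟩, h⟩ ⟨⟨c', hc'⟩, h'⟩
    simp only [mem_ofPred_eq, Matrix.SpecialLinearGroup.coe_mul, Matrix.mul_apply,
      Fin.sum_univ_two, hc, hc']
    refine ⟨⟨c * m' 0 0 + m 1 1 * c', by ring⟩, ?_⟩
    rcases h with ⟨a, ha⟩ | ⟨a, ha⟩ <;> rcases h' with ⟨a', ha'⟩ | ⟨a', ha'⟩
    · exact Or.inl ⟨a * m' 0 0 + a' + 5 * m 0 1 * c', by linear_combination m' 0 0 * ha + ha'⟩
    · exact Or.inr ⟨a * m' 0 0 + a' + 5 * m 0 1 * c', by linear_combination m' 0 0 * ha + ha'⟩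
    · exact Or.inr ⟨a * m' 0 0 - a' + 5 * m 0 1 * c', by linear_combination m' 0 0 * ha - ha'⟩
    · exact Or.inl ⟨a * m' 0 0 - a' + 5 * m 0 1 * c', by linear_combination m' 0 0 * ha - ha'⟩
  inv_mem' := by
    rintro m ⟨⟨c, hc⟩, h⟩
    have hd := m.det_coe
    rw [Matrix.det_fin_two, hc] at hd
    simp only [mem_ofPred_eq, Matrix.SpecialLinearGroup.SL2_inv_expl]
    refine ⟨⟨-c, by simp [hc]⟩, ?_⟩
    rcases h with ⟨a, ha⟩ | ⟨a, ha⟩
    · exact Or.inl ⟨-a * m 1 1 + 5 * m 0 1 * c, by simp; linear_combination hd - m 1 1 * ha⟩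
    · exact Or.inr ⟨a * m 1 1 - 5 * m 0 1 * c, by simp; linear_combination m 1 1 * ha - hd⟩

/-- the inward normal of piece `i` at the wall towards the neighbouring piece `j` -/
noncomputable def mw (i j : ℕ) : V := if j = i + 1 then -pos j nT else pos i nT

/-- neighbours in the chain -/
def adj (i j : Fin 7) : Prop := j.1 = i.1 + 1 ∨ i.1 = j.1 + 1

/-- the region of piece `i` -/
def Om (i : Fin 7) : Set V := {v | v ∈ HH ∧ ∀ a ∈ Gp i, ∀ j, adj i j → 0 ≤ B v (a (mw i j))}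

/-- normal of the half space `y ≤ ht t` -/
noncomputable def nU (t : Ty) : V := ![0, 1, 2 * ht t, 0]

/-- the open positive cone -/
def CC : Set V := {v | 0 < B v v ∧ 0 < v 3}

/-- the cone over the tile -/
def PC (t : Ty) : Set V := {v | 0 < v 3 ∧ v ∈ Ch t ∧ 0 ≤ v 1 ∧ v 1 ≤ ht t * v 3}

/-- flags joined by reflections in mirrors through `x` -/
def Near (t : Ty) (x : V) : Fin 120 → Fin 120 → Prop :=
  Relation.ReflTransGen fun a b => ∃ i : Fin (ng t), B x (nm t i) = 0 ∧ b = pf t i a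

/-- `x` on the upper wall of piece `i` is glued to `x'` on the lower wall of piece `j` -/
def Up (i : ℕ) (a : Fin 120) (x : V) (j : ℕ) (b : Fin 120) (x' : V) : Prop :=
  j = i + 1 ∧ x' 1 = 0 ∧ (tau (ty i))⁻¹ x 1 = 0 ∧ ∃ m ∈ LamZ,
    rp (ph (ty i) a) ((tau (ty i))⁻¹ x) = EZ m (tr (nu i) 0 (rp b x'))

/-- normals of all walls, with both signs -/
def WN : Set V :=
  {m | ∃ γ ∈ Gam, ∃ k : ℕ, 1 ≤ k ∧ k ≤ 6 ∧ (m = γ (pos k nT) ∨ m = -γ (pos k nT))}

/-- the length of the longitude in the `y` direction -/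
noncomputable def LL : ℝ := (252 + 504 * hN + 756 * hM) / 25

/-- the folding isometry of piece `k` -/
noncomputable def psi : ℕ → GV
  | 0 => 1
  | k + 1 => psi k * R (pos (k + 1) nT)

/-- the group of the knot in `SL(2, ℂ)` -/
noncomputable def GamC : Subgroup SL2C := Gam.comap L

end Pool.Agent.Lib.MP_36248f_gt
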