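import Pool.Agent.Lib.MP_36248f_gt.Comm

open Set

namespace Pool.Agent.Lib.MP_36248f_gt

theorem psl_center {z : SL2C} (hz : z ∈ Subgroup.center SL2C) : L z = 1 := by
  obtain ⟨r, hr, h⟩ := Matrix.SpecialLinearGroup.mem_center_iff.1 hz
  rw [Fintype.card_fin, sq_eq_one_iff] at hr
  refine L_eq_one.2 (hr.imp ?_ ?_) <;> rintro rfl <;> refine Subtype.ext ?_ <;> rw [← h] <;>
    simp [← Matrix.diagonal_neg]

theorem psl_mem {g : SL2C} : QuotientGroup.mk' (Subgroup.center SL2C) g ∈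
    GamC.map (QuotientGroup.mk' (Subgroup.center SL2C)) ↔ L g ∈ Gam := by
  refine ⟨?_, fun h => Subgroup.mem_map_of_mem _ h⟩
  rintro ⟨h, hh, e⟩
  obtain ⟨z, hz, rfl⟩ := (QuotientGroup.mk'_eq_mk' _).1 e
  rw [map_mul, psl_center hz, mul_one]
  exact hh

/-- the image in `PSL(2, ℂ)` -/
theorem norm_eq_comm :
    Subgroup.normalizer ((GamC.map (QuotientGroup.mk' (Subgroup.center SL2C)) :
      Subgroup (Matrix.ProjectiveSpecialLinearGroup (Fin 2) ℂ)) :
        Set (Matrix.ProjectiveSpecialLinearGroup (Fin 2) ℂ)) =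
    Subgroup.Commensurable.commensurator (GamC.map (QuotientGroup.mk' (Subgroup.center SL2C))) := by
  refine le_antisymm (fun x hx => ?_) (le_trans (fun x hx => ?_) Subgroup.le_normalizer)
  · rw [Subgroup.Commensurable.commensurator_mem_iff, Subgroup.conjAct_pointwise_smul_eq_self hx]
  · obtain ⟨g, rfl⟩ := QuotientGroup.mk'_surjective _ x
    obtain ⟨h1, h2⟩ := (Subgroup.Commensurable.commensurator_mem_iff _ _).1 hx
    refine psl_mem.2 (CL_le ⟨⟨g, rfl⟩, fun γ hγ => ?_⟩)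
    obtain ⟨c, rfl⟩ := Gam_le_range hγ
    obtain ⟨a, a0, -, ha, -⟩ := Subgroup.exists_pow_mem_of_relIndex_ne_zero h1 (psl_mem.2 hγ)
    obtain ⟨b, b0, -, hb, -⟩ := Subgroup.exists_pow_mem_of_relIndex_ne_zero h2
      (Subgroup.smul_mem_pointwise_smul _ _ _ (psl_mem.2 hγ))
    have ha' := Subgroup.mem_pointwise_smul_iff_inv_smul_mem.1 ha
    rw [← map_inv, ConjAct.toConjAct_smul, inv_inv, ← map_pow, ← map_inv, ← map_mul, ← map_mul,
      psl_mem] at ha'
    rw [SetLike.mem_coe, ConjAct.toConjAct_smul, ← map_inv, ← map_mul, ← map_mul, ← map_pow,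
      Subgroup.mem_toSubmonoid, psl_mem] at hb
    refine ⟨a * b, Nat.mul_pos a0 b0, ?_, ?_⟩
    · have := pow_mem hb a
      rwa [← map_pow, ← pow_mul, conj_pow, map_mul, map_mul, map_inv, map_pow, mul_comm b] at this
    · have := pow_mem ha' b
      rwa [map_mul, map_mul, map_inv, map_pow, ← inv_inv (L g), inv_inv (L g)⁻¹, conj_pow,
        ← pow_mul, inv_inv] at this

end Pool.Agent.Lib.MP_36248f_gt
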