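import Mathlib

/-!
The hyperboloid model: proper discontinuity and local finiteness.
-/

set_option autoImplicit false

namespace Pool.Agent.Lib.MP_36248f_gt

open Set

section Lor

variable {V : Type} [AddCommGroup V] [Module ℝ V] [TopologicalSpace V]

/-- `S` is one sheet of the hyperboloid of the form `B` of signature `(1, n)`. -/
structure Lor (B : V →ₗ[ℝ] V →ₗ[ℝ] ℝ) (S : Set V) : Prop where
  symm : ∀ x y, B x y = B y x
  cont : Continuous fun p : V × V => B p.1 p.2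
  one : ∀ x ∈ S, B x x = 1
  mem : ∀ x ∈ S, ∀ y, B y y = 1 → 0 < B y x → y ∈ S
  causal : ∀ v, 0 ≤ B v v → ∀ p ∈ S, ∀ z ∈ S, 0 < B v p → 0 < B v z
  eq : ∀ x ∈ S, ∀ y ∈ S, B x y ≤ 1 → x = y
  prop : ∀ Q, IsCompact Q → Q ⊆ S → ∀ R : ℝ, ∃ Q', IsCompact Q' ∧ Q' ⊆ S ∧
    ∀ x ∈ Q, ∀ y ∈ S, B x y ≤ R → y ∈ Q'

/-- `g` is an isometry of the sheet. -/
def Iso (B : V →ₗ[ℝ] V →ₗ[ℝ] ℝ) (S : Set V) (g : V ≃ₗ[ℝ] V) : Prop :=
  (∀ x y, B (g x) (g y) = B x y) ∧ ∀ x ∈ S, g x ∈ S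

variable {B : V →ₗ[ℝ] V →ₗ[ℝ] ℝ} {S : Set V}

theorem Lor.one_le (L : Lor B S) {x y : V} (hx : x ∈ S) (hy : y ∈ S) : 1 ≤ B x y := by
  by_contra h
  have e := L.eq x hx y hy (not_le.1 h).le
  subst e
  exact h (L.one x hx).ge

theorem Lor.cont_right (L : Lor B S) (x : V) : Continuous fun y => B x y :=
  L.cont.comp (continuous_const.prodMk continuous_id)

/-- The isometries form a group. -/
def isoG (L : Lor B S) : Subgroup (V ≃ₗ[ℝ] V) where
  carrier := {g | Iso B S g}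
  one_mem' := ⟨fun _ _ => rfl, fun _ h => h⟩
  mul_mem' := fun {g h} hg hh =>
    ⟨fun x y => (hg.1 _ _).trans (hh.1 x y), fun x hx => hg.2 _ (hh.2 x hx)⟩
  inv_mem' := fun {g} hg => by
    have h1 : ∀ x y, B (g⁻¹ x) y = B x (g y) := fun x y => by
      rw [← hg.1, ← LinearEquiv.mul_apply, mul_inv_cancel]
      rfl
    have h2 : ∀ x y, B (g⁻¹ x) (g⁻¹ y) = B x y := fun x y => by
      rw [h1, ← LinearEquiv.mul_apply, mul_inv_cancel]
      rfl
    refine ⟨h2, fun x hx => L.mem x hx _ (by rw [h2, L.one x hx]) ?_⟩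
    rw [h1]
    linarith [L.one_le hx (hg.2 x hx)]

/-- A map that preserves the form and keeps one point on the sheet is an isometry. -/
theorem Lor.iso_of (L : Lor B S) {g : V ≃ₗ[ℝ] V} (h : ∀ x y, B (g x) (g y) = B x y) {p : V}
    (hp : p ∈ S) (hg : g p ∈ S) : Iso B S g := by
  refine ⟨h, fun x hx => L.mem _ hg _ (by rw [h, L.one x hx]) ?_⟩
  rw [h]
  linarith [L.one_le hx hp]

/-- Reflections are isometries. -/
theorem Lor.iso_refl (L : Lor B S) {g : V ≃ₗ[ℝ] V} {n : V} (hn : B n n = -1)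
    (hg : ∀ v, g v = v + (2 * B n v) • n) : Iso B S g := by
  have h1 : ∀ x y, B (g x) (g y) = B x y := fun x y => by
    rw [hg, hg]
    simp only [map_add, map_smul, LinearMap.add_apply, LinearMap.smul_apply, smul_eq_mul, hn]
    rw [L.symm x n]
    ring
  refine ⟨h1, fun x hx => L.mem x hx _ (by rw [h1, L.one x hx]) ?_⟩
  rw [hg]
  simp only [map_add, map_smul, LinearMap.add_apply, LinearMap.smul_apply, smul_eq_mul, L.one x hx]
  nlinarith [sq_nonneg (B n x)]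

/-- Two planes that do not meet bound disjoint half spaces. -/
theorem Lor.apart (L : Lor B S) {n m p z : V} (hn : B n n = -1) (hm : B m m = -1)
    (h : 1 ≤ B n m) (hp : p ∈ S) (h1 : 0 < B n p) (h2 : 0 < B m p) (hz : z ∈ S)
    (h3 : B n z ≤ 0) : 0 < B m z := by
  have h4 := L.causal (n + m) (by
    simp only [map_add, LinearMap.add_apply, hn, hm, L.symm m n]
    linarith) p hp z hz (by
    simp only [map_add, LinearMap.add_apply]
    linarith)
  simp only [map_add, LinearMap.add_apply] at h4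
  linarith

/-- A plane that separates `x` from `p` meets the segment between them. -/
theorem Lor.cross (L : Lor B S) {m p x : V} (hp : p ∈ S) (hx : x ∈ S) (h1 : B m x < 0)
    (h2 : 0 ≤ B m p) : ∃ z ∈ S, B m z = 0 ∧ B p z ≤ B p x := by
  have hb := L.one_le hp hx
  set t := B m p / (B m p - B m x) with ht
  have hd : 0 < B m p - B m x := by linarith
  have t0 : 0 ≤ t := div_nonneg h2 hd.le
  have t1 : t ≤ 1 := (div_le_one hd).2 (by linarith)
  have hq : 1 ≤ B ((1 - t) • p + t • x) ((1 - t) • p + t • x) := by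
    simp only [map_add, map_smul, LinearMap.add_apply, LinearMap.smul_apply, smul_eq_mul,
      L.one p hp, L.one x hx, L.symm x p]
    nlinarith [mul_nonneg (mul_nonneg t0 (sub_nonneg.2 t1)) (sub_nonneg.2 hb)]
  have hpz : B p ((1 - t) • p + t • x) = 1 - t + t * B p x := by
    simp only [map_add, map_smul, smul_eq_mul, L.one p hp]
    ring
  have hmz : B m ((1 - t) • p + t • x) = 0 := by
    simp only [map_add, map_smul, smul_eq_mul, ht]
    field_simp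
    ring
  generalize (1 - t) • p + t • x = y at hq hpz hmz
  have hs : 1 ≤ √(B y y) := Real.one_le_sqrt.2 hq
  have hc0 : 0 < (√(B y y))⁻¹ := by positivity
  have hc1 : (√(B y y))⁻¹ ≤ 1 := inv_le_one_of_one_le₀ hs
  have hy1 : 1 ≤ B p y := by nlinarith [mul_nonneg t0 (sub_nonneg.2 hb)]
  have hy2 : B p y ≤ B p x := by nlinarith [mul_nonneg (sub_nonneg.2 t1) (sub_nonneg.2 hb)]
  refine ⟨(√(B y y))⁻¹ • y, L.mem p hp _ ?_ ?_, by simp [hmz], ?_⟩
  · simp only [map_smul, LinearMap.smul_apply, smul_eq_mul]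
    have h5 := Real.mul_self_sqrt (show 0 ≤ B y y by linarith)
    field_simp
    nlinarith
  · rw [L.symm]
    simp only [map_smul, smul_eq_mul]
    positivity
  · simp only [map_smul, smul_eq_mul]
    nlinarith

/-- Small balls lie in a given neighbourhood. -/
theorem Lor.ball (L : Lor B S) {p : V} (hp : p ∈ S) {U : Set V} (hU : IsOpen U) (hpU : p ∈ U) :
    ∃ ε : ℝ, 0 < ε ∧ ∀ y ∈ S, B p y < 1 + ε → y ∈ U := by
  obtain ⟨Q, hQ, hQS, hQ2⟩ := L.prop {p} isCompact_singleton (by simpa using hp) 2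
  rcases (Q \ U).eq_empty_or_nonempty with h | h
  · refine ⟨1, one_pos, fun y hy h1 => ?_⟩
    by_contra h2
    exact (h ▸ (⟨hQ2 p rfl y hy (by linarith), h2⟩ : y ∈ Q \ U) : y ∈ (∅ : Set V))
  · obtain ⟨y0, hy0, hmin⟩ := (hQ.diff hU).exists_isMinOn h (L.cont_right p).continuousOn
    have h1 : 1 < B p y0 := by
      by_contra h1
      exact hy0.2 (L.eq p hp y0 (hQS hy0.1) (not_lt.1 h1) ▸ hpU)
    refine ⟨min 1 (B p y0 - 1), lt_min one_pos (by linarith), fun y hy h2 => ?_⟩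
    by_contra h3
    have h4 : B p y0 ≤ B p y :=
      hmin ⟨hQ2 p rfl y hy (by linarith [min_le_left 1 (B p y0 - 1)]), h3⟩
    linarith [min_le_right 1 (B p y0 - 1)]

variable {G : Type} [Group G] {ρ : G →* V ≃ₗ[ℝ] V} {Γ : Subgroup G}

omit [TopologicalSpace V] in
theorem rho_inv_apply (ρ : G →* V ≃ₗ[ℝ] V) (g : G) (x : V) : ρ g⁻¹ (ρ g x) = x := by
  rw [← LinearEquiv.mul_apply, ← map_mul, inv_mul_cancel, map_one]
  rfl

omit [TopologicalSpace V] in
theorem rho_apply_inv (ρ : G →* V ≃ₗ[ℝ] V) (g : G) (x : V) : ρ g (ρ g⁻¹ x) = x := by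
  rw [← LinearEquiv.mul_apply, ← map_mul, mul_inv_cancel, map_one]
  rfl

omit [TopologicalSpace V] in
theorem rho_mul_apply (ρ : G →* V ≃ₗ[ℝ] V) (g h : G) (x : V) : ρ (g * h) x = ρ g (ρ h x) := by
  rw [map_mul]
  rfl

/-- Proper discontinuity. -/
def PD (S : Set V) (ρ : G →* V ≃ₗ[ℝ] V) (Γ : Subgroup G) : Prop :=
  ∀ Q Q' : Set V, IsCompact Q → Q ⊆ S → IsCompact Q' → Q' ⊆ S →
    {γ | γ ∈ Γ ∧ ∃ x ∈ Q, ρ γ x ∈ Q'}.Finite

/-- A point that every nontrivial element moves out of a neighbourhood gives proper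
discontinuity. -/
theorem Lor.pd (L : Lor B S) (hΓ : ∀ γ ∈ Γ, Iso B S (ρ γ)) {p : V} (hp : p ∈ S) {U : Set V}
    (hU : IsOpen U) (hpU : p ∈ U) (h : ∀ γ ∈ Γ, ρ γ p ∈ U → γ = 1) : PD S ρ Γ := by
  intro Q Q' hQ hQS hQ' hQS'
  obtain ⟨ε, hε, hb⟩ := L.ball hp hU hpU
  obtain ⟨R, hR⟩ := (hQ.image (L.cont_right p)).bddAbove
  obtain ⟨K, hK, hKS, hK2⟩ := L.prop Q' hQ' hQS' R
  have loc : ∀ q ∈ K, ∃ N ∈ nhds q, ∀ y ∈ N, ∀ y' ∈ N, B y y' < 1 + ε := fun q hq => by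
    have h1 : {z : V × V | B z.1 z.2 < 1 + ε} ∈ nhds (q, q) :=
      (isOpen_lt L.cont continuous_const).mem_nhds (by simp [L.one q (hKS hq), hε])
    obtain ⟨N, hN, N', hN', h2⟩ := mem_nhds_prod_iff.1 h1
    exact ⟨N ∩ N', Filter.inter_mem hN hN', fun y hy y' hy' =>
      h2 (mk_mem_prod hy.1 hy'.2 : (y, y') ∈ N ×ˢ N')⟩
  choose! N hN hN2 using loc
  obtain ⟨t, ht, hcov⟩ := hK.elim_nhds_subcover N hN
  refine (t.finite_toSet.biUnion (t := fun q => {γ | γ ∈ Γ ∧ ρ γ p ∈ N q}) fun q hq => ?_).subset ?_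
  · refine Set.Subsingleton.finite fun γ hγ γ' hγ' => ?_
    have h1 := hN2 q (ht q hq) _ hγ.2 _ hγ'.2
    have hm := mul_mem (inv_mem hγ.1) hγ'.1
    rw [← (hΓ _ (inv_mem hγ.1)).1, rho_inv_apply, ← rho_mul_apply] at h1
    exact inv_mul_eq_one.1 (h _ hm (hb _ ((hΓ _ hm).2 p hp) h1))
  · rintro γ ⟨hγ, x, hx, hx'⟩
    have h1 : ρ γ p ∈ K := hK2 _ hx' _ ((hΓ γ hγ).2 p hp) (by
      rw [(hΓ γ hγ).1, L.symm]
      exact hR ⟨x, hx, rfl⟩)
    obtain ⟨q, hq, h2⟩ := mem_iUnion₂.1 (hcov h1)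
    exact mem_iUnion₂.2 ⟨q, hq, hγ, h2⟩

/-- Outside compact sets the points of `Z` are moved little by elements without fixed point. -/
def Thin (B : V →ₗ[ℝ] V →ₗ[ℝ] ℝ) (S : Set V) (ρ : G →* V ≃ₗ[ℝ] V) (Γ : Subgroup G) (Z : Set V) :
    Prop :=
  ∀ ε : ℝ, 0 < ε → ∃ K, IsCompact K ∧ K ⊆ S ∧ ∀ z ∈ Z, z ∈ K ∨
    ∃ u ∈ Γ, (∀ y ∈ S, ρ u y ≠ y) ∧ B z (ρ u z) < 1 + ε

/-- The translates of a thin set are locally finite. -/
theorem Lor.lf (L : Lor B S) (hΓ : ∀ γ ∈ Γ, Iso B S (ρ γ))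
    (hc : ∀ γ ∈ Γ, Continuous (ρ γ)) (pd : PD S ρ Γ) {Z : Set V} (hZ : Thin B S ρ Γ Z) {Q : Set V}
    (hQ : IsCompact Q) (hQS : Q ⊆ S) : {γ | γ ∈ Γ ∧ ∃ z ∈ Z, ρ γ z ∈ Q}.Finite := by
  obtain ⟨Q', hQ', hQS', hQ2⟩ := L.prop Q hQ hQS 2
  have hF := pd Q Q' hQ hQS hQ' hQS'
  have each : ∀ v ∈ Γ, ∃ ε : ℝ, 0 < ε ∧
      ((∀ y ∈ S, ρ v y ≠ y) → ∀ y ∈ Q, 1 + ε ≤ B y (ρ v y)) := fun v hv => by
    rcases Q.eq_empty_or_nonempty with h | h
    · exact ⟨1, one_pos, fun _ y hy => by simp [h] at hy⟩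
    by_cases hf : ∀ y ∈ S, ρ v y ≠ y
    swap
    · exact ⟨1, one_pos, fun h => absurd h hf⟩
    obtain ⟨y0, hy0, hmin⟩ := hQ.exists_isMinOn h (f := fun y => B y (ρ v y))
      (L.cont.comp (continuous_id.prodMk (hc v hv))).continuousOn
    have h1 : 1 < B y0 (ρ v y0) := by
      by_contra h1
      exact hf y0 (hQS hy0) (L.eq _ (hQS hy0) _ ((hΓ v hv).2 _ (hQS hy0)) (not_lt.1 h1)).symm
    exact ⟨B y0 (ρ v y0) - 1, by linarith, fun _ y hy => by
      have h2 : B y0 (ρ v y0) ≤ B y (ρ v y) := hmin hy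
      linarith⟩
  choose! e he0 he using each
  obtain ⟨ε, hε, hε1, hεe⟩ : ∃ ε : ℝ, 0 < ε ∧ ε ≤ 1 ∧
      ∀ v ∈ {γ | γ ∈ Γ ∧ ∃ x ∈ Q, ρ γ x ∈ Q'}, ε ≤ e v := by
    rcases {γ | γ ∈ Γ ∧ ∃ x ∈ Q, ρ γ x ∈ Q'}.eq_empty_or_nonempty with h | h
    · exact ⟨1, one_pos, le_rfl, fun v hv => by simp [h] at hv⟩
    · obtain ⟨v0, hv0, h1⟩ := Set.exists_min_image _ e hF h
      exact ⟨min 1 (e v0), lt_min one_pos (he0 v0 hv0.1), min_le_left _ _, fun v hv =>
        (min_le_right _ _).trans (h1 v hv)⟩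
  obtain ⟨K, hK, hKS, hK2⟩ := hZ ε hε
  refine (pd K Q hK hKS hQ hQS).subset ?_
  rintro γ ⟨hγ, z, hz, hzQ⟩
  rcases hK2 z hz with h | ⟨u, hu, hf, hm⟩
  · exact ⟨hγ, z, h, hzQ⟩
  exfalso
  have hv : γ * u * γ⁻¹ ∈ Γ := mul_mem (mul_mem hγ hu) (inv_mem hγ)
  have h1 : B (ρ γ z) (ρ (γ * u * γ⁻¹) (ρ γ z)) < 1 + ε := by
    rw [rho_mul_apply, rho_mul_apply, rho_inv_apply, (hΓ γ hγ).1]
    exact hm
  have h2 := hεe _ ⟨hv, _, hzQ, hQ2 _ hzQ _ ((hΓ _ hv).2 _ (hQS hzQ)) (by linarith)⟩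
  have h3 := he _ hv (fun y hy h => hf _ ((hΓ _ (inv_mem hγ)).2 y hy) (by
    rw [rho_mul_apply, rho_mul_apply] at h
    have h4 := congrArg (ρ γ⁻¹) h
    rwa [rho_inv_apply] at h4)) _ hzQ
  linarith

end Lor

/-- The hyperboloid of the determinant of Hermitian matrices. -/
theorem lor_coord {B : (Fin 4 → ℝ) →ₗ[ℝ] (Fin 4 → ℝ) →ₗ[ℝ] ℝ} {S : Set (Fin 4 → ℝ)}
    (hB : ∀ p q, B p q = (p 2 * q 3 + p 3 * q 2) / 2 - p 0 * q 0 - p 1 * q 1)
    (hS : ∀ v, v ∈ S ↔ B v v = 1 ∧ 0 < v 3) : Lor B S := by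
  have key : ∀ v z : Fin 4 → ℝ, 2 * v 3 * z 3 * B v z = (v 0 * z 3 - z 0 * v 3) ^ 2 +
      (v 1 * z 3 - z 1 * v 3) ^ 2 + B v v * z 3 ^ 2 + B z z * v 3 ^ 2 := fun v z => by
    simp only [hB]
    ring
  have hcont : Continuous fun p : (Fin 4 → ℝ) × (Fin 4 → ℝ) => B p.1 p.2 := by
    simp only [hB]
    fun_prop
  have symm : ∀ x y, B x y = B y x := fun x y => by
    rw [hB, hB]
    ring
  have sgn : ∀ v, 0 ≤ B v v → v 3 ≠ 0 → ∀ z ∈ S, 0 < v 3 * B v z := fun v hv h3 z hz => by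
    obtain ⟨z1, z3⟩ := (hS z).1 hz
    have h1 := key v z
    rw [z1] at h1
    have h2 : 0 < z 3 * (v 3 * B v z) := by
      nlinarith [sq_nonneg (v 0 * z 3 - z 0 * v 3), sq_nonneg (v 1 * z 3 - z 1 * v 3),
        mul_nonneg hv (sq_nonneg (z 3)), sq_pos_of_ne_zero h3]
    exact (mul_pos_iff_of_pos_left z3).1 h2
  have causal : ∀ v, 0 ≤ B v v → ∀ p ∈ S, ∀ z ∈ S, 0 < B v p → 0 < B v z := by
    intro v hv p hp z hz h
    by_cases h3 : v 3 = 0
    · rw [hB, h3] at hv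
      have a0 : v 0 = 0 := by nlinarith [sq_nonneg (v 0), sq_nonneg (v 1)]
      have a1 : v 1 = 0 := by nlinarith [sq_nonneg (v 0), sq_nonneg (v 1)]
      rw [hB, h3, a0, a1] at h ⊢
      have a2 : 0 < v 2 := (mul_pos_iff_of_pos_right ((hS p).1 hp).2).1 (by linarith)
      nlinarith [mul_pos a2 ((hS z).1 hz).2]
    · exact (mul_pos_iff_of_pos_left ((mul_pos_iff_of_pos_right h).1 (sgn v hv h3 p hp))).1
        (sgn v hv h3 z hz)
  refine ⟨symm, hcont, fun x hx => ((hS x).1 hx).1, fun x hx y hy h => ?_, causal,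
    fun x hx y hy h => ?_, fun Q hQ hQS R => ?_⟩
  · have h3 : y 3 ≠ 0 := fun h3 => by
      rw [hB, h3] at hy
      nlinarith [sq_nonneg (y 0), sq_nonneg (y 1)]
    exact (hS y).2 ⟨hy, (mul_pos_iff_of_pos_right h).1 (sgn y (by rw [hy]; norm_num) h3 x hx)⟩
  · obtain ⟨x1, x3⟩ := (hS x).1 hx
    obtain ⟨y1, y3⟩ := (hS y).1 hy
    have h1 := key x y
    rw [x1, y1] at h1
    have h2 : (x 0 * y 3 - y 0 * x 3) ^ 2 + (x 1 * y 3 - y 1 * x 3) ^ 2 + (x 3 - y 3) ^ 2 ≤ 0 := by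
      nlinarith [mul_pos x3 y3]
    have e3 : x 3 = y 3 := by
      nlinarith [sq_nonneg (x 0 * y 3 - y 0 * x 3), sq_nonneg (x 1 * y 3 - y 1 * x 3),
        sq_nonneg (x 3 - y 3)]
    rw [e3] at h2
    have e0 : x 0 = y 0 := mul_right_cancel₀ y3.ne' (by
      nlinarith [sq_nonneg (x 0 * y 3 - y 0 * y 3), sq_nonneg (x 1 * y 3 - y 1 * y 3)])
    have e1 : x 1 = y 1 := mul_right_cancel₀ y3.ne' (by
      nlinarith [sq_nonneg (x 0 * y 3 - y 0 * y 3), sq_nonneg (x 1 * y 3 - y 1 * y 3)])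
    have e2 : x 2 = y 2 := mul_right_cancel₀ y3.ne' (by
      rw [hB, e0, e1, e3] at x1
      rw [hB] at y1
      linarith)
    funext i
    fin_cases i <;> assumption
  · set e : Fin 4 → ℝ := ![0, 0, 1, 1] with he
    have be : ∀ y, B e y = (y 2 + y 3) / 2 := fun y => by
      simp [hB, he, add_comm]
    have ee : B e e = 1 := by simp [hB, he]
    have eS : e ∈ S := (hS e).2 ⟨ee, by simp [he]⟩
    obtain ⟨b, hb⟩ := (hQ.image (hcont.comp (continuous_const.prodMk continuous_id) :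
      Continuous fun y => B e y)).bddAbove
    refine ⟨{y | B y y = 1 ∧ 0 ≤ y 3 ∧ B e y ≤ 2 * |b| * |R|}, ?_, fun y hy => ?_,
      fun x hx y hy h => ⟨((hS y).1 hy).1, ((hS y).1 hy).2.le, ?_⟩⟩
    · refine Metric.isCompact_of_isClosed_isBounded ?_ ?_
      · have c1 : Continuous fun y => B y y := hcont.comp (continuous_id.prodMk continuous_id)
        have c2 : Continuous fun y => B e y := hcont.comp (continuous_const.prodMk continuous_id)
        exact (isClosed_eq c1 continuous_const).inter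
          ((isClosed_le continuous_const (continuous_apply 3)).inter
            (isClosed_le c2 continuous_const))
      · refine (Metric.isBounded_closedBall (x := 0) (r := 2 * (2 * |b| * |R|))).subset ?_
        rintro y ⟨y1, y3, yb⟩
        generalize hC : 2 * |b| * |R| = C at yb
        have hC0 : 0 ≤ C := by rw [← hC]; positivity
        rw [hB] at y1
        rw [be] at yb
        have y2 : 0 ≤ y 2 := by
          by_contra h
          nlinarith [sq_nonneg (y 0), sq_nonneg (y 1), mul_nonneg y3 (neg_pos.2 (not_le.1 h)).le]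
        have hq : y 2 * y 3 ≤ C ^ 2 := by nlinarith [sq_nonneg (y 2 - y 3)]
        rw [mem_closedBall_zero_iff, pi_norm_le_iff_of_nonneg (by positivity)]
        intro i
        rw [Real.norm_eq_abs]
        fin_cases i
        · exact abs_le_of_sq_le_sq' (by simp only [Fin.zero_eta]; nlinarith [sq_nonneg (y 1)])
            (by positivity) |> abs_le.2
        · exact abs_le_of_sq_le_sq' (by simp only [Fin.mk_one]; nlinarith [sq_nonneg (y 0)])
            (by positivity) |> abs_le.2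
        · exact abs_le.2 ⟨by change _ ≤ y 2; linarith, by change y 2 ≤ _; linarith⟩
        · exact abs_le.2 ⟨by change _ ≤ y 3; linarith, by change y 3 ≤ _; linarith⟩
    · refine (hS y).2 ⟨hy.1, lt_of_le_of_ne hy.2.1 fun h3 => ?_⟩
      have y1 := hy.1
      rw [hB, ← h3] at y1
      nlinarith [sq_nonneg (y 0), sq_nonneg (y 1)]
    · have xS := hQS hx
      have x1 := ((hS x).1 xS).1
      have h0 : 0 < B e x := causal e (by rw [ee]; norm_num) e eS x xS (by rw [ee]; norm_num)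
      have h1 := causal ((2 * B e x) • x - e) (by
        simp only [map_sub, map_smul, LinearMap.sub_apply, LinearMap.smul_apply, smul_eq_mul, x1,
          ee, symm x e]
        nlinarith) x xS y hy (by
        simp only [map_sub, map_smul, LinearMap.sub_apply, LinearMap.smul_apply, smul_eq_mul, x1]
        linarith)
      simp only [map_sub, map_smul, LinearMap.sub_apply, LinearMap.smul_apply, smul_eq_mul] at h1
      have h2 : B e x ≤ |b| := (hb ⟨x, hx, rfl⟩).trans (le_abs_self b)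
      have h3 : B x y ≤ |R| := h.trans (le_abs_self R)
      nlinarith [mul_le_mul_of_nonneg_left h3 h0.le, mul_le_mul_of_nonneg_right h2 (abs_nonneg R)]

end Pool.Agent.Lib.MP_36248f_gt
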