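import Pool.Agent.Lib.MP_36248f_gt.Ping
import Pool.Agent.Lib.MP_36248f_gt.Lor

/-!
The closed totally geodesic surface over the triangle with angles `π/3, π/3, π/6`.
-/

namespace Pool.Agent.Lib.MP_36248f_gt

open Set

section Tri

variable {V : Type} [AddCommGroup V] [Module ℝ V] [TopologicalSpace V]
  {B : V →ₗ[ℝ] V →ₗ[ℝ] ℝ} {S : Set V}

theorem Lor.surf_unit (L : Lor B S) {v p : V} (hv : 0 < B v v) (hp : p ∈ S) (h : 0 < B v p) :
    (√(B v v))⁻¹ • v ∈ S := by
  have h1 : 0 < √(B v v) := Real.sqrt_pos.2 hv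
  refine L.mem p hp _ ?_ ?_
  · simp only [map_smul, LinearMap.smul_apply, smul_eq_mul]
    have h5 := Real.mul_self_sqrt hv.le
    field_simp
    nlinarith
  · simp only [map_smul, LinearMap.smul_apply, smul_eq_mul]
    positivity

/-- A nonzero vector perpendicular to a point of the sheet is spacelike. -/
theorem Lor.surf_space (L : Lor B S) {o e : V} (ho : o ∈ S) (h : B e o = 0) (e0 : e ≠ 0) :
    B e e < 0 := by
  by_contra hn
  have h1 : B (o + e) (o + e) = 1 + B e e := by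
    simp only [map_add, LinearMap.add_apply, L.one o ho, L.symm o e, h]
    ring
  have h2 : B (o + e) o = 1 := by simp [L.one o ho, h]
  have h3 : 1 ≤ √(B (o + e) (o + e)) := Real.one_le_sqrt.2 (by linarith)
  have h4 : B o ((√(B (o + e) (o + e)))⁻¹ • (o + e)) = (√(B (o + e) (o + e)))⁻¹ := by
    rw [map_smul, L.symm o, h2, smul_eq_mul, mul_one]
  have h5 := L.eq o ho _ (L.surf_unit (v := o + e) (by linarith) ho (by linarith))
    (h4.trans_le (inv_le_one_of_one_le₀ h3))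
  rw [← h5, L.one o ho] at h4
  rw [← h4, one_smul] at h5
  exact e0 (by simpa using h5)

/-- The common perpendicular of three mirrors with these angles; the triangle is bounded. -/
theorem Lor.surf_tri (L : Lor B S) (h4 : Module.finrank ℝ V = 4) {a b c p : V} (ha : B a a = -1)
    (hb : B b b = -1) (hc : B c c = -1) (hab : B a b = 1 / 2) (hac : B a c = 1 / 2)
    (hbc : B b c = √3 / 2) (hp : p ∈ S) (pa : 0 < B a p) (pb : 0 < B b p) (pc : 0 < B c p) :
    ∃ e, B e e < 0 ∧ B a e = 0 ∧ B b e = 0 ∧ B c e = 0 ∧ ∃ R : ℝ, ∀ x ∈ S, B e x = 0 →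
      0 ≤ B a x → 0 ≤ B b x → 0 ≤ B c x → B p x ≤ R := by
  have : Module.Finite ℝ V := Module.finite_of_finrank_pos (by omega)
  have s1 : 1.7 < √3 := Real.lt_sqrt_of_sq_lt (by norm_num)
  obtain ⟨e, he, e0⟩ : ∃ e, e ∈ LinearMap.ker (LinearMap.pi ![B a, B b, B c] :
      V →ₗ[ℝ] Fin 3 → ℝ) ∧ e ≠ 0 :=
    Submodule.exists_mem_ne_zero_of_ne_bot (LinearMap.ker_ne_bot_of_finrank_lt (by simp [h4]))
  have ae : B a e = 0 := congrFun he 0
  have be : B b e = 0 := congrFun he 1
  have ce : B c e = 0 := congrFun he 2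
  have neg : B e e < 0 := L.surf_space (L.surf_unit (v := a + b + c) (by
    simp only [map_add, LinearMap.add_apply, ha, hb, hc, hab, hac, hbc, L.symm b a, L.symm c a,
      L.symm c b]
    linarith) hp (by
    simp only [map_add, LinearMap.add_apply]
    linarith)) (by rw [L.symm]; simp [ae, be, ce]) e0
  let f : (Fin 4 → ℝ) →ₗ[ℝ] V := Fintype.linearCombination ℝ ![a, b, c, e]
  have ff : ∀ x t, B x (f t) = t 0 * B x a + t 1 * B x b + t 2 * B x c + t 3 * B x e :=
    fun x t => by simp [f, Fintype.linearCombination_apply, Fin.sum_univ_four]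
  have fa : ∀ t, B a (f t) = -t 0 + t 1 / 2 + t 2 / 2 := fun t => by
    rw [ff, ha, hab, hac, ae]
    ring
  have fb : ∀ t, B b (f t) = t 0 / 2 - t 1 + √3 / 2 * t 2 := fun t => by
    rw [ff, hb, L.symm b a, hab, hbc, be]
    ring
  have fc : ∀ t, B c (f t) = t 0 / 2 + √3 / 2 * t 1 - t 2 := fun t => by
    rw [ff, hc, L.symm c a, L.symm c b, hac, hbc, ce]
    ring
  have fe : ∀ t, B e (f t) = 0 → t 3 = 0 := fun t h => by
    rw [ff, L.symm e a, L.symm e b, L.symm e c, ae, be, ce] at h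
    simpa [neg.ne] using h
  have inj : Function.Injective f := by
    refine (injective_iff_map_eq_zero f).2 fun t ht => ?_
    have h1 := fa t
    have h2 := fb t
    have h3 := fc t
    have t3 := fe t (by simp [ht])
    rw [ht, map_zero] at h1 h2 h3
    have h5 : t 1 + t 2 = 0 := (mul_eq_zero.1 (show (√3 - 1) * (t 1 + t 2) = 0 by
      linarith)).resolve_left (by linarith)
    have h6 : t 1 - t 2 = 0 := (mul_eq_zero.1 (show (√3 + 2) * (t 1 - t 2) = 0 by
      linarith)).resolve_left (by linarith)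
    have t0 : t 0 = 0 := by linarith
    have t1 : t 1 = 0 := by linarith
    have t2 : t 2 = 0 := by linarith
    funext i
    fin_cases i <;> assumption
  have sur : Function.Surjective f :=
    (LinearMap.injective_iff_surjective_of_finrank_eq_finrank (by simp [h4])).1 inj
  refine ⟨e, neg, ae, be, ce, 20 * (B a p + B b p + B c p), fun x hx h0 h1 h2 h3 => ?_⟩
  obtain ⟨t, rfl⟩ := sur x
  have h5 := L.one _ hx
  have t3 := fe t h0
  rw [ff, t3, L.symm _ a, L.symm _ b, L.symm _ c] at h5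
  rw [ff, t3, L.symm _ a, L.symm _ b, L.symm _ c]
  have ea := fa t
  have eb := fb t
  have ec := fc t
  generalize B a (f t) = x at *
  generalize B b (f t) = y at *
  generalize B c (f t) = z at *
  have k1 : (√3 - 1) * (t 1 + t 2) = 2 * (x + y + z) := by linarith
  have k2 : (√3 + 2) * (t 1 - t 2) = 2 * (z - y) := by linarith
  have s2 : √3 < 1.8 := (Real.sqrt_lt' (by norm_num)).2 (by norm_num)
  have k3 : 2.5 * (x + y + z) ≤ t 1 + t 2 := by
    by_contra h
    nlinarith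
  have k4 : t 1 + t 2 ≤ 3 * (x + y + z) := by
    by_contra h
    nlinarith
  have k5 : t 1 - t 2 ≤ x + y + z := by
    by_contra h
    nlinarith
  have k6 : t 2 - t 1 ≤ x + y + z := by
    by_contra h
    nlinarith
  have k7 : x + y + z ≤ 2 := by
    by_contra h
    nlinarith [mul_nonneg h1 (show 0 ≤ t 0 - (x + y + z) / 4 by linarith),
      mul_nonneg h2 (show 0 ≤ t 1 - (x + y + z) / 4 by linarith),
      mul_nonneg h3 (show 0 ≤ t 2 - (x + y + z) / 4 by linarith)]
  nlinarith [mul_nonneg pa.le (show 0 ≤ 20 - t 0 by linarith),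
    mul_nonneg pb.le (show 0 ≤ 20 - t 1 by linarith),
    mul_nonneg pc.le (show 0 ≤ 20 - t 2 by linarith)]

end Tri

/-- The stabiliser of the plane acts cocompactly. -/
theorem surf_lin : ∃ e, B e e < 0 ∧ ∃ C, IsCompact C ∧ C ⊆ HH ∧ (∀ x ∈ C, B e x = 0) ∧
    ∀ x ∈ HH, B e x = 0 → ∃ γ ∈ Gam, γ e = e ∧ γ x ∈ C := by
  have eB : ∀ x y, (-Bm) x y = B x y := fun x y => by simp [Bm_apply]
  have Lo : Lor (-Bm) HH := lor_coord (fun p q => eB p q) fun v => by rw [eB]; rfl
  obtain ⟨o, ho, h1, -⟩ := exists_inner .M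
  let n : Fin 3 → Fin (ng .M) := ![⟨0, by decide⟩, ⟨2, by decide⟩, ⟨5, by decide⟩]
  have gr : ∀ i j, n i ≠ n j → cox .M (n i) (n j) ≠ 0 →
      B (nm .M (n i)) (nm .M (n j)) = Real.cos (Real.pi / cox .M (n i) (n j)) := fun i j h h' =>
    ((gram .M _ _ h).resolve_left fun h => h' h.1).2
  obtain ⟨e, neg, ae, be, ce, ρ, hρ⟩ := Lo.surf_tri (by simp) (a := nm .M (n 0))
    (b := nm .M (n 1)) (c := nm .M (n 2)) (p := o) (by rw [eB, nm_unit]) (by rw [eB, nm_unit])
    (by rw [eB, nm_unit])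
    (by rw [eB, gr 0 1 (by decide) (by decide), ← Real.cos_pi_div_three]; rfl)
    (by rw [eB, gr 0 2 (by decide) (by decide), ← Real.cos_pi_div_three]; rfl)
    (by rw [eB, gr 1 2 (by decide) (by decide), ← Real.cos_pi_div_six]; rfl) ho
    (by rw [eB, B_symm]; exact h1 _) (by rw [eB, B_symm]; exact h1 _)
    (by rw [eB, B_symm]; exact h1 _)
  simp only [eB] at neg ae be ce hρ
  let Δ := Subgroup.closure (range fun i => gen .M (n i))
  have le : Δ ≤ WW .M := Subgroup.closure_mono (range_comp_subset_range n (gen .M))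
  have fix : ∀ w ∈ Δ, w.1 e = e := fun w hw => by
    induction hw using Subgroup.closure_induction with
    | mem x hx =>
      obtain ⟨i, rfl⟩ := hx
      have h2 : B (nm .M (n i)) e = 0 := by fin_cases i <;> assumption
      simp [gen, R_apply (nm_unit _ _), B_symm e, h2]
    | one => rfl
    | mul x y _ _ hx hy => rw [Prod.fst_mul, LinearEquiv.mul_apply, hy, hx]
    | inv x _ hx => exact (LinearEquiv.symm_apply_eq _).2 hx.symm
  have ex : ∀ f : Fin 120, ∃ r ∈ Δ, ∀ w ∈ Δ, w.2 0 = f → r.2 f = 0 := fun f => by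
    by_cases h : ∃ w ∈ Δ, w.2 0 = f
    · obtain ⟨w, hw, rfl⟩ := h
      exact ⟨w⁻¹, inv_mem hw, fun _ _ _ => by simp⟩
    · exact ⟨1, one_mem _, fun w hw h1 => absurd ⟨w, hw, h1⟩ h⟩
  choose r hr hr0 using ex
  have hi : ∀ w ∈ Δ, pos 1 * w.1 ∈ OO := fun w hw => mul_mem (pos_mem 1) (WW_mem_OO (le hw))
  refine ⟨pos 1 e, by rwa [(pos_mem 1).1],
    ⋃ f, (pos 1 * (r f).1) '' ({v | v ∈ HH ∧ B o v ≤ ρ} ∩ {x | B e x = 0}),
    isCompact_iUnion fun f => ((isCompact_ball ho ρ).inter_right (isClosed_eq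
      (continuous_B.comp (continuous_const.prodMk continuous_id)) continuous_const)).image
      (continuous_GV _), ?_, ?_, fun x hx h0 => ?_⟩
  · rintro _ ⟨_, ⟨f, rfl⟩, y, hy, rfl⟩
    exact ((hi _ (hr f)).2 y).1 hy.1.1
  · rintro _ ⟨_, ⟨f, rfl⟩, y, hy, rfl⟩
    rw [← fix _ (hr f)]
    exact ((hi _ (hr f)).1 e y).trans hy.2
  have hx' := ((inv_mem (pos_mem 1)).2 x).1 hx
  obtain ⟨_, ⟨w, hw, rfl⟩, h2⟩ := IsPD.descent (Γ := Δ.map (MonoidHom.fst _ _))
    (fun v hv ρ => (isPD_W .M v hv ρ).subset fun γ hγ => ⟨Subgroup.map_mono le hγ.1, hγ.2⟩)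
    (by rintro _ ⟨w, hw, rfl⟩; exact WW_mem_OO (le hw)) (fun i => nm_unit .M (n i))
    (fun i => ⟨_, Subgroup.subset_closure ⟨i, rfl⟩, rfl⟩) ho (fun i => h1 (n i)) hx'
  have h3 : B e (w.1 ((pos 1)⁻¹ x)) = 0 := by
    rw [← h0, ← (inv_mem (pos_mem 1)).1 (pos 1 e), ← (WW_mem_OO (le hw)).1 _ ((pos 1)⁻¹ x)]
    simp [fix w hw]
  have h4 := ((WW_mem_OO (le hw)).2 _).1 hx'
  have hm := mul_mem (hr (w.2 0)) hw
  refine ⟨pos 1 * (r (w.2 0) * w).1 * (pos 1)⁻¹, Gp_le_Gam 1 (mem_Gp.2 ?_), by simp [fix _ hw,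
    fix _ (hr _)], mem_iUnion.2 ⟨w.2 0, _, ⟨⟨h4, hρ _ h4 h3 (B_symm _ _ ▸ h2 0)
      (B_symm _ _ ▸ h2 1) (B_symm _ _ ▸ h2 2)⟩, h3⟩, rfl⟩⟩
  rw [Fin.val_one, ← mul_assoc, ← mul_assoc, inv_mul_cancel, one_mul, inv_mul_cancel_right]
  exact mem_Lam.2 ⟨_, le hm, hr0 _ w hw rfl⟩

section Plane

open ComplexConjugate Complex

theorem surf_plane_of (g : SL2C) {l u w c : ℂ} (hl : l ≠ 0) (ll : conj l = l)
    (hu : u = l * I * (g 0 0 * conj (g 0 1) - g 0 1 * conj (g 0 0)))
    (hc : c = l * I * (g 0 0 * conj (g 1 1) - g 0 1 * conj (g 1 0)))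
    (hw : w = l * I * (g 1 0 * conj (g 1 1) - g 1 1 * conj (g 1 0))) :
    IsPlane {p | w * her p 0 0 - conj c * her p 0 1 - c * her p 1 0 + u * her p 1 1 = 0} := by
  have key : ∀ p : H3, w * her (act g p) 0 0 - conj c * her (act g p) 0 1 - c * her (act g p) 1 0 +
      u * her (act g p) 1 1 = 0 ↔ p.1.1.im = 0 := fun p => by
    have h1 := det_entries g
    have h2 : conj (g 0 0) * conj (g 1 1) - conj (g 0 1) * conj (g 1 0) = 1 := by
      simpa using congrArg conj h1
    have h3 : w * her (act g p) 0 0 - conj c * her (act g p) 0 1 - c * her (act g p) 1 0 +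
        u * her (act g p) 1 1 = l * I * (her p 0 1 - her p 1 0) := by
      rw [her_act, hu, hc, hw]
      simp only [Matrix.mul_apply, Fin.sum_univ_two, Matrix.conjTranspose_apply, map_mul, map_sub,
        conj_conj, conj_I, ll, RCLike.star_def]
      linear_combination (l * I * (her p 0 1 - her p 1 0) *
        (conj (g 0 0) * conj (g 1 1) - conj (g 0 1) * conj (g 1 0))) * h1 +
        l * I * (her p 0 1 - her p 1 0) * h2
    rw [h3, mul_eq_zero, or_iff_right (mul_ne_zero hl I_ne_zero), sub_eq_zero, ← conj_eq_iff_im,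
      eq_comm]
    exact div_left_inj' (ht_ne p)
  refine ⟨g, Set.ext fun p => ⟨fun h => ⟨act g⁻¹ p, (key _).1 (by rwa [act_act_inv]),
    act_act_inv g p⟩, ?_⟩⟩
  rintro ⟨q, hq, rfl⟩
  exact (key q).2 hq

/-- Hemispheres and vertical half planes are planes. -/
theorem surf_isPlane {u w : ℝ} {c : ℂ} (h : u * w < ‖c‖ ^ 2) :
    IsPlane {p | w * her p 0 0 - conj c * her p 0 1 - c * her p 1 0 + u * her p 1 1 = 0} := by
  obtain ⟨r, hr, h1⟩ : ∃ r : ℝ, 0 < r ∧ (r : ℂ) ^ 2 = c * conj c - u * w :=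
    ⟨√(‖c‖ ^ 2 - u * w), Real.sqrt_pos.2 (by linarith), by
      rw [← ofReal_pow, Real.sq_sqrt (by linarith), mul_conj']
      push_cast
      rfl⟩
  have r0 : (r : ℂ) ≠ 0 := ofReal_ne_zero.2 hr.ne'
  by_cases hw : w = 0
  · obtain ⟨a, ha⟩ := IsAlgClosed.exists_pow_nat_eq (-I * c / r) two_pos
    have h2 : ‖c‖ = r := by
      have h3 : (r : ℂ) ^ 2 = (‖c‖ : ℂ) ^ 2 := by rw [h1, hw, mul_conj']; simp
      exact (pow_left_inj₀ (norm_nonneg c) hr.le two_ne_zero).1 (by exact_mod_cast h3.symm)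
    have h3 : a * conj a = 1 := by
      have h4 : ‖a‖ ^ 2 = 1 := by
        rw [← norm_pow, ha]
        simp [h2, abs_of_pos hr, hr.ne']
      rw [mul_conj']
      exact_mod_cast h4
    refine surf_plane_of ⟨!![a, u / (2 * r) * I * a; 0, conj a], by simp [h3]⟩ r0 (conj_ofReal r)
      ?_ ?_ (by simp [hw])
    · simp only [Matrix.of_apply, Matrix.cons_val', Matrix.cons_val_zero, Matrix.cons_val_one,
        Matrix.cons_val_fin_one, map_mul, map_div₀, conj_ofReal, conj_I, map_ofNat]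
      field_simp
      linear_combination (-2 * u) * h3 + (2 * u * a * conj a) * I_sq
    · simp only [Matrix.of_apply, Matrix.cons_val', Matrix.cons_val_zero, Matrix.cons_val_one,
        Matrix.cons_val_fin_one, conj_conj, map_zero, mul_zero, sub_zero, ← pow_two, ha]
      field_simp
      linear_combination c * I_sq
  have w0 : (w : ℂ) ≠ 0 := ofReal_ne_zero.2 hw
  obtain ⟨d, hd⟩ := IsAlgClosed.exists_pow_nat_eq (2 * r * w * I : ℂ) two_pos
  have d0 : d ≠ 0 := by
    rintro rfl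
    simp [r0, w0] at hd
  have d1 : conj d ≠ 0 := by simpa using d0
  refine surf_plane_of (l := d * conj d / (2 * w))
    ⟨!![(c + r) / d, I * (c - r) / d; w / d, I * w / d], by
      rw [Matrix.det_fin_two_of]
      field_simp
      rw [hd]
      ring⟩ (by simp [d0, w0]) (by simp [mul_comm, map_ofNat]) ?_ ?_ ?_
  all_goals
    simp only [Matrix.of_apply, Matrix.cons_val', Matrix.cons_val_zero, Matrix.cons_val_one,
      Matrix.cons_val_fin_one, map_mul, map_div₀, conj_ofReal, conj_I, map_add, map_sub]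
    field_simp
  · linear_combination 2 * h1 + (2 * (c * conj c - r ^ 2)) * I_sq
  · linear_combination (2 * c) * I_sq
  · linear_combination 2 * I_sq

/-- The closed surface in the upper half space. -/
theorem surf : ∃ P K : Set H3, IsPlane P ∧ IsCompact K ∧ K ⊆ P ∧
    ∀ p ∈ P, ∃ γ ∈ GamC, act γ '' P = P ∧ act γ p ∈ K := by
  obtain ⟨e, neg, C, hC, hCS, hCe, h⟩ := surf_lin
  refine ⟨{p | B e (iota p) = 0}, iota ⁻¹' C, ?_, ?_, fun p hp => hCe _ hp, fun p hp => ?_⟩
  · convert surf_isPlane (u := e 2) (w := e 3) (c := e 0 + e 1 * I) (by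
      rw [B] at neg
      rw [Complex.sq_norm, normSq_add_mul_I]
      linarith) using 1
    refine Set.ext fun p => ?_
    rw [mem_ofPred_eq, mem_ofPred_eq, ← ofReal_eq_zero, ← mul_right_inj' (two_ne_zero' ℂ), mul_zero]
    refine Eq.congr_left ?_
    have ht := ht_ne p
    rw [B, iota, her]
    simp only [Matrix.cons_val, Matrix.of_apply, Matrix.cons_val', Matrix.cons_val_fin_one,
      map_add, map_mul, conj_ofReal, conj_I]
    rw [← re_add_im p.1.1]
    simp only [map_add, map_mul, conj_ofReal, conj_I, add_re, add_im, mul_re, mul_im, ofReal_re,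
      ofReal_im, I_re, I_im]
    push_cast
    field_simp
    linear_combination (e 3 * p.1.1.im ^ 2 - 2 * e 1 * p.1.1.im) * I_sq
  · obtain ⟨φ, hφ⟩ := exists_homeo
    rw [← funext hφ]
    exact φ.isCompact_preimage.2 (isClosed_HH.isClosedEmbedding_subtypeVal.isCompact_preimage hC)
  · obtain ⟨γ, hγ, h1, h2⟩ := h _ (iota_mem p) hp
    obtain ⟨g, rfl⟩ := Gam_le_range hγ
    have h4 : ∀ q, B e (iota (act g q)) = B e (iota q) := fun q => by
      rw [iota_act, ← (L_mem g).1 e (iota q), h1]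
    refine ⟨g, hγ, Set.ext fun q => ⟨?_, fun hq => ⟨act g⁻¹ q, ?_, act_act_inv g q⟩⟩,
      mem_preimage.2 (iota_act g p ▸ h2)⟩
    · rintro ⟨q, hq, rfl⟩
      exact (h4 q).trans hq
    · exact (h4 _).symm.trans (by rwa [act_act_inv])

end Plane

end Pool.Agent.Lib.MP_36248f_gt
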