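import Pool.Agent.Lib.MP_36248f_gt.IsH
import Pool.Agent.Lib.MP_36248f_gt.Surf
import Pool.Agent.Lib.MP_36248f_gt.Psl

open Set

namespace Pool.Agent.Lib.MP_36248f_gt

theorem main : ∃ (K : Set S3) (Γ : Subgroup SL2C) (π : H3 → S3), IsKnot K ∧ IsHyp K Γ π ∧
    Subgroup.normalizer ((Γ.map (QuotientGroup.mk' (Subgroup.center SL2C)) :
      Subgroup (Matrix.ProjectiveSpecialLinearGroup (Fin 2) ℂ)) :
        Set (Matrix.ProjectiveSpecialLinearGroup (Fin 2) ℂ)) =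
      Subgroup.Commensurable.commensurator (Γ.map (QuotientGroup.mk' (Subgroup.center SL2C))) ∧
    ∃ P K' : Set H3, IsPlane P ∧ IsCompact K' ∧ K' ⊆ P ∧
      ∀ p ∈ P, ∃ γ ∈ Γ, act γ '' P = P ∧ act γ p ∈ K' := by
  obtain ⟨K, π, h1, h2⟩ := isHyp
  exact ⟨K, GamC, π, h1, h2, norm_eq_comm, surf⟩

end Pool.Agent.Lib.MP_36248f_gt
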