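import Pool.Agent.Lib.MP_36248f_gt.Gram
import Pool.Agent.Lib.MP_36248f_gt.Bridge

open Set

namespace Pool.Agent.Lib.MP_36248f_gt

theorem WW_mem_OO {t : Ty} {w : GV × Equiv.Perm (Fin 120)} (hw : w ∈ WW t) : w.1 ∈ OO := by
  have h : WW t ≤ OO.comap (MonoidHom.fst GV (Equiv.Perm (Fin 120))) := by
    rw [WW, Subgroup.closure_le]
    rintro _ ⟨i, rfl⟩
    exact R_mem _
  exact h hw

theorem mem_Lam {t : Ty} {g : GV} :
    g ∈ Lam t ↔ ∃ p : Equiv.Perm (Fin 120), (g, p) ∈ WW t ∧ p 0 = 0 := by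
  constructor
  · rintro ⟨⟨g', p⟩, ⟨h1, h2⟩, rfl⟩
    exact ⟨p, h1, h2⟩
  · rintro ⟨p, h1, h2⟩
    exact ⟨(g, p), ⟨h1, h2⟩, rfl⟩

theorem mem_Gp {i : ℕ} {g : GV} : g ∈ Gp i ↔ (pos i)⁻¹ * g * pos i ∈ Lam (ty i) := by
  constructor
  · rintro ⟨h, hh, rfl⟩
    have e : (pos i)⁻¹ * (MulAut.conj (pos i)).toMonoidHom h * pos i = h := by
      change (pos i)⁻¹ * (pos i * h * (pos i)⁻¹) * pos i = h
      group
    rw [e]; exact hh
  · intro h
    refine ⟨_, h, ?_⟩
    change pos i * ((pos i)⁻¹ * g * pos i) * (pos i)⁻¹ = g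
    group

theorem Gp_le_Gam (i : Fin 7) : Gp i ≤ Gam := le_iSup (fun i : Fin 7 => Gp i) i

theorem Gam_le_OO : Gam ≤ OO := by
  refine iSup_le fun i g hg => ?_
  obtain ⟨p, hp, -⟩ := mem_Lam.1 (mem_Gp.1 hg)
  have h := OO.mul_mem (OO.mul_mem (pos_mem i) (WW_mem_OO hp)) (OO.inv_mem (pos_mem i))
  have e : pos i * ((pos i)⁻¹ * g * pos i) * (pos i)⁻¹ = g := by group
  exact e ▸ h

theorem three_le_ng (t : Ty) : 3 < ng t := by cases t <;> decide

theorem Flags_word (t : Ty) (f : Fin 3 → ℕ) (hf : ∀ j, f j < ng t) (J : Set (Fin (ng t)))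
    (hJ : ∀ j, (⟨f j, hf j⟩ : Fin (ng t)) ∈ J) (l : List (Fin 3)) :
    ∃ p : Equiv.Perm (Fin 120), ((l.map fun i => R (nm t (f i))).prod, p) ∈
      Subgroup.closure (gen t '' J) ∧ ∀ a, p a = l.foldr (fun i x => pf t (f i) x) a := by
  induction l with
  | nil => exact ⟨1, Subgroup.one_mem _, fun _ => rfl⟩
  | cons i l ih =>
    obtain ⟨p, hp, hp'⟩ := ih
    refine ⟨pm t ⟨f i, hf i⟩ * p, ?_, fun a => ?_⟩
    · rw [List.map_cons, List.prod_cons]
      have hg : gen t ⟨f i, hf i⟩ ∈ Subgroup.closure (gen t '' J) :=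
        Subgroup.subset_closure ⟨_, hJ i, rfl⟩
      exact Subgroup.mul_mem _ hg hp
    · rw [List.foldr_cons, ← hp', Equiv.Perm.mul_apply]; rfl

theorem Flags_coe (l : List (Fin 3)) :
    (do let a ← l; pure (a : ℕ) : List ℕ) = l.map fun i : Fin 3 => (i : ℕ) := by
  induction l with
  | nil => rfl
  | cons i l ih => rw [List.map_cons, ← ih]; rfl

theorem Flags_rp (a : Fin 120) : rp a = ((word a).map fun i : Fin 3 => R (nm .S i)).prod := by
  rw [rp, Flags_coe, List.map_map]; rfl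

theorem Flags_nm (t : Ty) (i : Fin 3) : nm t i = nm .S i := by
  cases t <;> fin_cases i <;> rfl

theorem Flags_low : ∀ t : Ty, ∀ a : Fin 120,
    (word a).foldr (fun (i : Fin 3) x => pf t i x) a = 0 := by
  intro t; cases t <;> decide +kernel

theorem Flags_up : ∀ t : Ty, ∀ a : Fin 120,
    (word (ph t a)).foldr (fun (i : Fin 3) x => pf t (up t i) x) a = 0 := by
  intro t; cases t <;> decide +kernel

theorem Flags_up_lt (t : Ty) (j : Fin 3) : up t j < ng t := by
  cases t <;> fin_cases j <;> decide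

/-- the placement of flag `a` lies in the lower wall group and has flag `a` -/
theorem rp_mem (t : Ty) (a : Fin 120) : ∃ p : Equiv.Perm (Fin 120),
    (rp a, p) ∈ Subgroup.closure (gen t '' {i | i.1 < 3}) ∧ p a = 0 := by
  obtain ⟨p, hp, hp'⟩ := Flags_word t (fun j => j) (fun j => j.2.trans (three_le_ng t))
    {i | i.1 < 3} (fun j => j.2) (word a)
  refine ⟨p, ?_, (hp' a).trans (Flags_low t a)⟩
  simp only [Flags_nm] at hp
  rw [Flags_rp]
  exact hp

theorem Flags_conj (t : Ty) (l : List (Fin 3)) :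
    tau t * (l.map fun i : Fin 3 => R (nm .S i)).prod * (tau t)⁻¹ =
      (l.map fun i : Fin 3 => R (nm t (up t i))).prod := by
  induction l with
  | nil => simp
  | cons i l ih =>
    rw [List.map_cons, List.prod_cons, List.map_cons, List.prod_cons, ← ih, ← tau_nm,
      R_conj (tau_mem t)]
    group

/-- the same for the upper wall group -/
theorem rp_mem_up (t : Ty) (a : Fin 120) : ∃ p : Equiv.Perm (Fin 120),
    (tau t * rp (ph t a) * (tau t)⁻¹, p) ∈
      Subgroup.closure (gen t '' {i | ∃ j, i.1 = up t j}) ∧ p a = 0 := by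
  obtain ⟨p, hp, hp'⟩ := Flags_word t (up t) (Flags_up_lt t)
    {i | ∃ j, i.1 = up t j} (fun j => ⟨j, rfl⟩) (word (ph t a))
  refine ⟨p, ?_, (hp' a).trans (Flags_up t a)⟩
  rw [Flags_rp, Flags_conj]
  exact hp

theorem rp_zero : rp 0 = 1 := rfl

theorem Flags_R_nT (i : Fin 3) : R (nm .S i) nT = nT := by
  have h := nm_unit .S ⟨i, i.2.trans (three_le_ng .S)⟩
  rcases gram_nT .S ⟨i, i.2.trans (three_le_ng .S)⟩ with h' | h'
  · rw [R_apply h, h'.2]; simp
  · exact absurd i.2 (not_lt.2 h'.1)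

theorem rp_nT (a : Fin 120) : rp a nT = nT := by
  rw [Flags_rp]
  induction word a with
  | nil => rfl
  | cons i l ih => rw [List.map_cons, List.prod_cons, LinearEquiv.mul_apply, ih, Flags_R_nT]

theorem rp_one (a : Fin 120) (v : V) : rp a v 1 = v 1 := by
  rw [← B_nT (rp a v), ← B_nT v, ← (rp_mem_OO a).1 v nT, rp_nT]

theorem Flags_inj : ∀ t : Ty, ∀ x y : Fin 120, ph t x = ph t y → x = y := by
  intro t; cases t <;> decide +kernel

theorem ph_bij (t : Ty) : Function.Bijective (ph t) :=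
  Finite.injective_iff_bijective.1 fun x y h => Flags_inj t x y h

theorem Flags_le (t : Ty) (J : Set (Fin (ng t))) : Subgroup.closure (gen t '' J) ≤ WW t :=
  Subgroup.closure_mono (image_subset_range _ _)

theorem eq_lam_rp {t : Ty} {w : GV × Equiv.Perm (Fin 120)} (hw : w ∈ WW t) {a : Fin 120}
    (h : w.2 a = 0) : w.1 * (rp a)⁻¹ ∈ Lam t := by
  obtain ⟨p, hp, hp'⟩ := rp_mem t a
  refine mem_Lam.2 ⟨w.2 * p⁻¹, (WW t).mul_mem hw ((WW t).inv_mem (Flags_le t _ hp)), ?_⟩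
  have e : p⁻¹ 0 = a := by rw [← hp']; simp
  rw [Equiv.Perm.mul_apply, e, h]

theorem Flags_invol (t : Ty) (i : Fin (ng t)) (a : Fin 120) : pf t i (pf t i a) = a :=
  pf_invol t (Fin.castLE (ng_le t) i) a

theorem rp_R (t : Ty) (a : Fin 120) (i : Fin (ng t)) :
    rp a * R (nm t i) * (rp (pf t i a))⁻¹ ∈ Lam t := by
  obtain ⟨p, hp, hp'⟩ := rp_mem t a
  have hw : (rp a, p) * gen t i ∈ WW t :=
    (WW t).mul_mem (Flags_le t _ hp) (Subgroup.subset_closure ⟨i, rfl⟩)
  refine eq_lam_rp hw ?_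
  change p (pf t i (pf t i a)) = 0
  rw [Flags_invol, hp']

theorem rp_up (t : Ty) (a : Fin 120) :
    tau t * rp (ph t a) * (tau t)⁻¹ * (rp a)⁻¹ ∈ Lam t := by
  obtain ⟨p, hp, hp'⟩ := rp_mem_up t a
  exact eq_lam_rp (Flags_le t _ hp) hp'

theorem Flags_symm {t : Ty} {x : V} {a b : Fin 120} (h : Near t x a b) : Near t x b a := by
  induction h with
  | refl => exact Relation.ReflTransGen.refl
  | tail _ hs ih =>
    obtain ⟨i, hi, rfl⟩ := hs
    exact Relation.ReflTransGen.head ⟨i, hi, (Flags_invol t i _).symm⟩ ih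

/-- an element of the group generated by the mirrors in `J` joins flags by steps in `J` -/
theorem near_of_closure {t : Ty} {x : V} {w : GV × Equiv.Perm (Fin 120)}
    (hw : w ∈ Subgroup.closure (gen t '' {i | B x (nm t i) = 0})) (a : Fin 120) :
    Near t x (w.2 a) a := by
  induction hw using Subgroup.closure_induction generalizing a with
  | mem w hw =>
    obtain ⟨i, hi, rfl⟩ := hw
    exact Relation.ReflTransGen.single ⟨i, hi, (Flags_invol t i a).symm⟩
  | one => exact Relation.ReflTransGen.refl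
  | mul w w' _ _ ih ih' => exact Relation.ReflTransGen.trans (ih (w'.2 a)) (ih' a)
  | inv w _ ih =>
    have h := ih (w.2⁻¹ a)
    have e : w.2 (w.2⁻¹ a) = a := by simp
    rw [e] at h
    exact Flags_symm h

/-- the parity of a flag -/
def Flags_par (a : Fin 120) : Bool := (word a).length % 2 == 1

theorem Flags_flip : ∀ t : Ty, ∀ i : Fin 7, i.1 < ng t → ∀ a : Fin 120,
    Flags_par (pf t i a) = !Flags_par a := by
  intro t; cases t <;> decide +kernel

theorem Flags_cj : cj * cj = 1 := R_mul_self _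

theorem Flags_cj_inv : cj⁻¹ = cj := inv_eq_of_mul_eq_one_right Flags_cj

theorem Flags_m1 {g h : GV} (hg : g * cj ∈ L.range) (hh : h ∈ L.range) :
    g * h * cj ∈ L.range := by
  have e : g * h * cj = g * cj * (cj * h * cj) := by
    rw [← mul_assoc, ← mul_assoc, mul_assoc g cj cj, Flags_cj, mul_one]
  rw [e]; exact L.range.mul_mem hg (cj_conj_mem hh)

theorem Flags_m2 {g h : GV} (hg : g * cj ∈ L.range) (hh : h * cj ∈ L.range) :
    g * h ∈ L.range := by
  have h1 := Flags_m1 hg hh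
  rwa [mul_assoc, mul_assoc, Flags_cj, mul_one] at h1

theorem Flags_m3 {g : GV} (hg : g * cj ∈ L.range) : g⁻¹ * cj ∈ L.range := by
  have h1 := cj_conj_mem (L.range.inv_mem hg)
  rwa [mul_inv_rev, Flags_cj_inv, ← mul_assoc, Flags_cj, one_mul] at h1

theorem Flags_or {t : Ty} {w : GV × Equiv.Perm (Fin 120)} (hw : w ∈ WW t) :
    (w.1 ∈ L.range ∧ ∀ a, Flags_par (w.2 a) = Flags_par a) ∨
      (w.1 * cj ∈ L.range ∧ ∀ a, Flags_par (w.2 a) = !Flags_par a) := by
  induction hw using Subgroup.closure_induction with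
  | mem w hw =>
    obtain ⟨i, rfl⟩ := hw
    exact Or.inr ⟨R_cj_mem (nm_unit t i), fun a => Flags_flip t (Fin.castLE (ng_le t) i) i.2 a⟩
  | one => exact Or.inl ⟨L.range.one_mem, fun _ => rfl⟩
  | mul w w' _ _ ih ih' =>
    have e : ∀ a, (w * w').2 a = w.2 (w'.2 a) := fun _ => rfl
    rcases ih with ⟨h1, h2⟩ | ⟨h1, h2⟩ <;> rcases ih' with ⟨h3, h4⟩ | ⟨h3, h4⟩
    · exact Or.inl ⟨L.range.mul_mem h1 h3, fun a => by rw [e, h2, h4]⟩
    · refine Or.inr ⟨?_, fun a => by rw [e, h2, h4]⟩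
      rw [Prod.fst_mul, mul_assoc]
      exact L.range.mul_mem h1 h3
    · exact Or.inr ⟨Flags_m1 h1 h3, fun a => by rw [e, h2, h4]⟩
    · exact Or.inl ⟨Flags_m2 h1 h3, fun a => by rw [e, h2, h4, Bool.not_not]⟩
  | inv w _ ih =>
    have e : ∀ a, w.2 (w⁻¹.2 a) = a := fun a => by simp
    rcases ih with ⟨h1, h2⟩ | ⟨h1, h2⟩
    · exact Or.inl ⟨L.range.inv_mem h1, fun a => by rw [← h2, e]⟩
    · refine Or.inr ⟨Flags_m3 h1, fun a => ?_⟩
      have h := h2 (w⁻¹.2 a)
      rw [e] at h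
      rw [h, Bool.not_not]

theorem Lam_le_range (t : Ty) : Lam t ≤ L.range := by
  intro g hg
  obtain ⟨p, hp, hp'⟩ := mem_Lam.1 hg
  rcases Flags_or hp with h | h
  · exact h.1
  · have h2 := h.2 0
    change Flags_par (p 0) = _ at h2
    rw [hp'] at h2
    simp at h2

theorem Flags_tau (t : Ty) : tau t ∈ L.range ∨ tau t * cj ∈ L.range := by
  cases t
  · right
    change cj * cj ∈ _
    rw [Flags_cj]; exact L.range.one_mem
  · right
    change tr 0 hN * R ![1, 0, 1 / 2, 0] * cj ∈ _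
    rw [mul_assoc]
    exact L.range.mul_mem (tr_mem _ _) (R_cj_mem (by simp [B]))
  · exact Or.inl (tr_mem _ _)

theorem Flags_pos (k : ℕ) : pos k ∈ L.range ∨ pos k * cj ∈ L.range := by
  induction k with
  | zero => exact Or.inl L.range.one_mem
  | succ k ih =>
    change pos k * tau (ty k) * tr (nu k) 0 ∈ _ ∨ pos k * tau (ty k) * tr (nu k) 0 * cj ∈ _
    rcases ih with h | h <;> rcases Flags_tau (ty k) with h' | h'
    · exact Or.inl (L.range.mul_mem (L.range.mul_mem h h') (tr_mem _ _))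
    · refine Or.inr (Flags_m1 ?_ (tr_mem _ _))
      rw [mul_assoc]; exact L.range.mul_mem h h'
    · exact Or.inr (Flags_m1 (Flags_m1 h h') (tr_mem _ _))
    · exact Or.inl (L.range.mul_mem (Flags_m2 h h') (tr_mem _ _))

theorem Gam_le_range : Gam ≤ L.range := by
  refine iSup_le fun i g hg => ?_
  have h := Lam_le_range _ (mem_Gp.1 hg)
  have e : pos i * ((pos i)⁻¹ * g * pos i) * (pos i)⁻¹ = g := by group
  rw [← e]
  rcases Flags_pos i with h' | h'
  · exact L.range.mul_mem (L.range.mul_mem h' h) (L.range.inv_mem h')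
  · exact Flags_m2 (Flags_m1 h' h) (Flags_m3 h')

end Pool.Agent.Lib.MP_36248f_gt
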