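import Pool.Agent.Lib.MP_36248f_gt.Defs

open Set

namespace Pool.Agent.Lib.MP_36248f_gt

open Polynomial in
/-- the minimal polynomial of the square of the height -/
noncomputable def fH : ℤ[X] :=
  16 * X ^ 16 - 576 * X ^ 15 + 9296 * X ^ 14 - 89096 * X ^ 13 + 566236 * X ^ 12 -
    2523856 * X ^ 11 + 8142493 * X ^ 10 - 19358078 * X ^ 9 + 34181003 * X ^ 8 -
    44619582 * X ^ 7 + 41972761 * X ^ 6 - 26812746 * X ^ 5 + 10455006 * X ^ 4 -
    2096730 * X ^ 3 + 182772 * X ^ 2 - 6696 * X + 81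

/-- the value of a list of coefficients -/
def irrEv {K : Type} [CommRing K] (α : K) : List ℕ → K
  | [] => 0
  | c :: l => c + α * irrEv α l

/-- sum modulo `271` -/
def irrAdd : List ℕ → List ℕ → List ℕ
  | [], b => b
  | a, [] => a
  | x :: a, y :: b => (x + y) % 271 :: irrAdd a b

/-- scalar multiple modulo `271` -/
def irrSmul (k : ℕ) (l : List ℕ) : List ℕ := l.map fun x => k * x % 271

/-- the sixteenth power of the root -/
def irrRed : List ℕ :=
  [249, 12, 162, 51, 248, 102, 101, 100, 65, 102, 83, 19, 179, 13, 232, 36]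

/-- multiplication by the root -/
def irrMulX (l : List ℕ) : List ℕ :=
  match (0 :: l).drop 16 with
  | [c] => irrAdd ((0 :: l).take 16) (irrSmul c irrRed)
  | _ => 0 :: l

/-- product -/
def irrMul (a b : List ℕ) : List ℕ := a.foldr (fun x acc => irrAdd (irrSmul x b) (irrMulX acc)) []

/-- square -/
def irrSq (a : List ℕ) : List ℕ := irrMul a a

/-- square and multiply -/
def irrSm (x y : List ℕ) : List ℕ := irrMul (irrSq y) x

/-- the power with exponent `271` -/
def irrFr (x : List ℕ) : List ℕ :=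
  irrSm x (irrSm x (irrSm x (irrSm x (irrSq (irrSq (irrSq (irrSq x)))))))

/-- the iterated Frobenius images of the root -/
def irrR : ℕ → List ℕ
  | 0 =>
    [0, 1]
  | 1 =>
    [85, 178, 151, 150, 34, 7, 179, 158, 62, 135, 145, 91, 209, 171, 213, 98]
  | 2 =>
    [232, 264, 0, 132, 151, 245, 49, 258, 7, 59, 17, 144, 26, 201, 121, 150]
  | 3 =>
    [52, 201, 232, 173, 195, 31, 117, 39, 224, 67, 105, 209, 78, 199, 157, 17]
  | 4 =>
    [159, 116, 142, 28, 215, 87, 269, 199, 214, 143, 171, 69, 164, 62, 125, 255]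
  | 5 =>
    [78, 64, 109, 144, 94, 267, 142, 136, 160, 228, 197, 48, 167, 198, 61, 179]
  | 6 =>
    [230, 3, 168, 197, 162, 169, 175, 76, 184, 244, 117, 213, 106, 108, 223, 184]
  | 7 =>
    [171, 127, 90, 13, 235, 171, 103, 188, 220, 224, 232, 79, 185, 179, 8, 65]
  | _ =>
    [146, 203, 238, 71, 150, 245, 150, 94, 167, 88, 169, 248, 5, 140, 84, 199]

/-- the inverses -/
def irrU : ℕ → List ℕ
  | 5 =>
    [207, 1, 257, 84, 223, 136, 256, 177, 165, 241, 99, 89, 24, 11, 70, 206]
  | 6 =>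
    [17, 195, 204, 144, 213, 192, 122, 233, 61, 9, 193, 256, 143, 94, 166, 64]
  | 7 =>
    [151, 263, 250, 43, 245, 141, 166, 34, 141, 201, 168, 211, 102, 69, 4, 256]
  | _ =>
    [244, 164, 209, 229, 16, 29, 241, 158, 171, 19, 163, 105, 187, 233, 103, 132]

theorem irr_fr_chk : ∀ k < 8, irrFr (irrR k) = irrR (k + 1) := by decide +kernel

theorem irr_u_chk : ∀ k < 4, irrMul (irrU (k + 5)) (irrAdd (irrR (k + 5)) [0, 270]) =
    [1, 0, 0, 0, 0, 0, 0, 0, 0, 0, 0, 0, 0, 0, 0, 0] := by decide +kernel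

section

variable {K : Type} [CommRing K] {α : K}

theorem irr_mod (hp : (271 : K) = 0) (n : ℕ) : ((n % 271 : ℕ) : K) = n := by
  conv_rhs => rw [← Nat.mod_add_div n 271]
  push_cast
  rw [hp, zero_mul, add_zero]

theorem irr_add (hp : (271 : K) = 0) (a b : List ℕ) :
    irrEv α (irrAdd a b) = irrEv α a + irrEv α b := by
  induction a generalizing b with
  | nil => simp [irrAdd, irrEv]
  | cons x a ih =>
    cases b with
    | nil => simp [irrAdd, irrEv]
    | cons y b =>
      rw [irrAdd, irrEv, irrEv, irrEv, ih, irr_mod hp, Nat.cast_add]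
      ring

theorem irr_smul (hp : (271 : K) = 0) (k : ℕ) (l : List ℕ) :
    irrEv α (irrSmul k l) = k * irrEv α l := by
  induction l with
  | nil => simp [irrSmul, irrEv]
  | cons x l ih =>
    rw [irrSmul, List.map_cons, irrEv, irrEv, ← irrSmul, ih, irr_mod hp, Nat.cast_mul]
    ring

theorem irr_split (n : ℕ) (l : List ℕ) :
    irrEv α l = irrEv α (l.take n) + α ^ n * irrEv α (l.drop n) := by
  induction n generalizing l with
  | zero => simp [irrEv]
  | succ n ih =>
    cases l with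
    | nil => simp [irrEv]
    | cons x l =>
      rw [List.take_succ_cons, List.drop_succ_cons, irrEv, irrEv, ih l]
      ring

theorem irr_mulX (hp : (271 : K) = 0) (hr : α ^ 16 = irrEv α irrRed) (l : List ℕ) :
    irrEv α (irrMulX l) = α * irrEv α l := by
  have h0 : irrEv α (0 :: l) = α * irrEv α l := by rw [irrEv, Nat.cast_zero, zero_add]
  unfold irrMulX
  split
  · rename_i c hc
    rw [irr_add hp, irr_smul hp, ← h0, irr_split 16 (0 :: l), hc, ← hr, irrEv, irrEv]
    ring
  · exact h0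

theorem irr_mul (hp : (271 : K) = 0) (hr : α ^ 16 = irrEv α irrRed) (a b : List ℕ) :
    irrEv α (irrMul a b) = irrEv α a * irrEv α b := by
  induction a with
  | nil => simp [irrMul, irrEv]
  | cons x a ih =>
    rw [irrMul, List.foldr_cons, ← irrMul, irr_add hp, irr_smul hp, irr_mulX hp hr, ih, irrEv]
    ring

theorem irr_fr (hp : (271 : K) = 0) (hr : α ^ 16 = irrEv α irrRed) (x : List ℕ) :
    irrEv α (irrFr x) = irrEv α x ^ 271 := by
  simp only [irrFr, irrSm, irrSq, irr_mul hp hr]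
  ring

theorem irr_pow (hp : (271 : K) = 0) (hr : α ^ 16 = irrEv α irrRed) {k : ℕ} (hk : k ≤ 8) :
    α ^ 271 ^ k = irrEv α (irrR k) := by
  induction k with
  | zero => simp [irrR, irrEv]
  | succ k ih => rw [← irr_fr_chk k (by omega), irr_fr hp hr, ← ih (by omega), pow_succ, pow_mul]

theorem irr_ne [Nontrivial K] (hp : (271 : K) = 0) (hr : α ^ 16 = irrEv α irrRed) {e : ℕ}
    (h5 : 5 ≤ e) (h8 : e ≤ 8) : α ^ 271 ^ e ≠ α := by
  intro h
  obtain ⟨k, rfl⟩ : ∃ k, e = k + 5 := ⟨e - 5, by omega⟩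
  have h1 := congrArg (irrEv α) (irr_u_chk k (by omega))
  have h2 : irrEv α [0, 270] = -α := by
    simp only [irrEv]
    push_cast
    linear_combination α * hp
  rw [irr_mul hp hr, irr_add hp, ← irr_pow hp hr h8, h, h2, add_neg_cancel, mul_zero] at h1
  simp [irrEv] at h1

theorem irr_red (hp : (271 : K) = 0) (h : fH.eval₂ (Int.castRingHom K) α = 0) :
    α ^ 16 = irrEv α irrRed := by
  simp only [fH, Polynomial.eval₂_add, Polynomial.eval₂_sub, Polynomial.eval₂_mul,
    Polynomial.eval₂_pow, Polynomial.eval₂_X, Polynomial.eval₂_ofNat] at h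
  simp only [irrRed, irrEv]
  push_cast
  linear_combination 17 * h + (
    (-6) * α ^ 0 + (420) * α ^ 1 + (-11466) * α ^ 2 + (131529) * α ^ 3 + (-655850) * α ^ 4 +
    (1681980) * α ^ 5 + (-2632978) * α ^ 6 + (2799014) * α ^ 7 + (-2144196) * α ^ 8 + (1214344)
    * α ^ 9 + (-510784) * α ^ 10 + (158323) * α ^ 11 + (-35521) * α ^ 12 + (5589) * α ^ 13 +
    (-584) * α ^ 14 + (36) * α ^ 15 - α ^ 16) * hp

end

theorem irr_deg : fH.natDegree = 16 := by
  unfold fH
  compute_degree!

theorem irr_c16 : fH.coeff 16 = 16 := by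
  simp [fH, Polynomial.coeff_X]

theorem irr_c0 : fH.coeff 0 = 81 := by
  simp [fH]

theorem irr_prim : fH.IsPrimitive := by
  intro r hr
  rw [Polynomial.C_dvd_iff_dvd_coeff] at hr
  have h1 := hr 16
  have h2 := hr 0
  rw [irr_c16] at h1
  rw [irr_c0] at h2
  have h3 : r ∣ 81 - 5 * 16 := dvd_sub h2 (h1.mul_left 5)
  exact isUnit_of_dvd_one h3

instance irr_fact : Fact (Nat.Prime 271) := ⟨by norm_num⟩

theorem irr_deg_mod : (fH.map (Int.castRingHom (ZMod 271))).natDegree = 16 := by
  rw [Polynomial.natDegree_map_of_leadingCoeff_ne_zero, irr_deg]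
  rw [Polynomial.leadingCoeff, irr_deg, irr_c16]
  decide

open Polynomial in
theorem irr_mod_irr : Irreducible (fH.map (Int.castRingHom (ZMod 271))) := by
  have h0 : fH.map (Int.castRingHom (ZMod 271)) ≠ 0 := fun h => by
    have := irr_deg_mod
    rw [h, natDegree_zero] at this
    omega
  rw [irreducible_iff_lt_natDegree_lt h0
    (not_isUnit_of_natDegree_pos _ (by rw [irr_deg_mod]; omega)), irr_deg_mod]
  intro q hq hd hdvd
  rw [Finset.mem_Ioc] at hd
  obtain ⟨g, hg, hgq⟩ := exists_irreducible_of_natDegree_pos hd.1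
  have h1 : g.natDegree ≤ 8 := (natDegree_le_of_dvd hgq hq.ne_zero).trans hd.2
  have h2 := hg.natDegree_pos
  obtain ⟨e, h5, h8, he⟩ : ∃ e, 5 ≤ e ∧ e ≤ 8 ∧ g.natDegree ∣ e := by
    generalize g.natDegree = n at h1 h2
    interval_cases n
    · exact ⟨8, by omega, by omega, by decide⟩
    · exact ⟨8, by omega, by omega, by decide⟩
    · exact ⟨6, by omega, by omega, by decide⟩
    · exact ⟨8, by omega, by omega, by decide⟩
    · exact ⟨5, by omega, by omega, by decide⟩
    · exact ⟨6, by omega, by omega, by decide⟩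
    · exact ⟨7, by omega, by omega, by decide⟩
    · exact ⟨8, by omega, by omega, by decide⟩
  have : Fact (Irreducible g) := ⟨hg⟩
  have hp : (271 : AdjoinRoot g) = 0 := by
    have h3 : (271 : ZMod 271) = 0 := by decide
    rw [← map_ofNat (AdjoinRoot.of g) 271, h3, map_zero]
  have hroot : ∀ u : (ZMod 271)[X], g ∣ u →
      u.eval₂ (AdjoinRoot.of g) (AdjoinRoot.root g) = 0 := by
    rintro _ ⟨u, rfl⟩
    rw [eval₂_mul, AdjoinRoot.eval₂_root, zero_mul]
  have h4 := hroot _ (hgq.trans hdvd)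
  rw [eval₂_map, RingHom.eq_intCast' ((AdjoinRoot.of g).comp _)] at h4
  have h6 := hroot _ (hg.natDegree_dvd_iff_dvd_X_pow_card_pow_sub_X.1 he)
  rw [eval₂_sub, eval₂_pow, eval₂_X, Nat.card_zmod, sub_eq_zero] at h6
  exact irr_ne hp (irr_red hp h4) h5 h8 h6

open Polynomial in
theorem irr_int : Irreducible fH := by
  have h0 : fH ≠ 0 := fun h => by
    have := irr_deg
    rw [h, natDegree_zero] at this
    omega
  have key : ∀ a b : ℤ[X], fH = a * b → IsUnit (a.map (Int.castRingHom (ZMod 271))) →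
      IsUnit a := by
    intro a b hab hu
    have ha : a ≠ 0 := left_ne_zero_of_mul (hab ▸ h0)
    have hb : b ≠ 0 := right_ne_zero_of_mul (hab ▸ h0)
    have h1 : a.natDegree + b.natDegree = 16 := by rw [← natDegree_mul ha hb, ← hab, irr_deg]
    have h2 : 16 ≤ b.natDegree := by
      have h3 := irr_deg_mod
      rw [hab, Polynomial.map_mul] at h3
      have h4 := natDegree_mul_le (p := a.map (Int.castRingHom (ZMod 271)))
        (q := b.map (Int.castRingHom (ZMod 271)))
      have h5 := natDegree_eq_zero_of_isUnit hu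
      have h6 := natDegree_map_le (f := Int.castRingHom (ZMod 271)) (p := b)
      omega
    have h7 := eq_C_of_natDegree_eq_zero (p := a) (by omega)
    rw [h7]
    exact isUnit_C.2 (irr_prim _ (h7 ▸ ⟨b, hab⟩))
  refine ⟨not_isUnit_of_natDegree_pos _ (by rw [irr_deg]; omega), fun a b hab => ?_⟩
  rcases irr_mod_irr.isUnit_or_isUnit (a := a.map _) (b := b.map _)
    (by rw [hab, Polynomial.map_mul]) with hu | hu
  · exact Or.inl (key a b hab hu)
  · exact Or.inr (key b a (hab.trans (mul_comm a b)) hu)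

theorem fH_irreducible : Irreducible (fH.map (Int.castRingHom ℚ)) :=
  (Polynomial.IsPrimitive.Int.irreducible_iff_irreducible_map_cast irr_prim).1 irr_int

end Pool.Agent.Lib.MP_36248f_gt
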