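import Pool.Agent.Lib.MP_36248f_gt.Gram
import Pool.Agent.Lib.MP_36248f_gt.Irr

open Set

namespace Pool.Agent.Lib.MP_36248f_gt

/-- the graph of a field automorphism that changes the sign of the height -/
structure IsRel (Rel : ℝ → ℝ → Prop) : Prop where
  rat : ∀ q : ℚ, Rel q q
  add : ∀ {x y x' y'}, Rel x y → Rel x' y' → Rel (x + x') (y + y')
  mul : ∀ {x y x' y'}, Rel x y → Rel x' y' → Rel (x * x') (y * y')
  inv : ∀ {x y}, Rel x y → Rel x⁻¹ y⁻¹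
  func : ∀ {x y y'}, Rel x y → Rel x y' → y = y'
  s3 : Rel s3 s3
  r5 : Rel r5 r5
  r6 : Rel r6 r6
  hN : Rel hN hN
  om : Rel om om
  hM : Rel hM (-hM)

theorem galois_quad {s h a b : ℝ} (H : Spec s h a b) :
    (-12 + (12 - 8 * s) * h ^ 2 + (-13 + 4 * s) * h ^ 4 + h ^ 6) * a ^ 2 +
      (16 * s * h ^ 2 + (8 - 28 * s) * h ^ 4 + (-2 + 6 * s) * h ^ 6) * a +
      (16 * h ^ 2 - 56 * h ^ 4 + 25 * h ^ 6 - 3 * h ^ 8) = 0 := by
  have h0 : h ^ 2 ≠ 0 := by have := H.h_lo; positivity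
  apply mul_left_cancel₀ h0
  linear_combination (s + h ^ 2) ^ 2 * a ^ 2 * H.e6 - ((1 - 3 * h ^ 2) * ((s + h ^ 2) * a * b +
    h ^ 2 * (h ^ 2 - 4 - s * a)) - 2 * h ^ 2 * (s + h ^ 2) * a) * H.e56 +
    (4 * h ^ 2 * a ^ 2 - 4 * h ^ 4 * a ^ 2 + 3 * h ^ 6 * a ^ 2) * H.s_sq

theorem galois_r5 {s h a b : ℝ} (H : Spec s h a b) :
    a * (-24 + 24 * s - 124 * s * h ^ 2 + (-32 + 84 * s) * (h ^ 2) ^ 2 +
      (8 - 16 * s) * (h ^ 2) ^ 3) = -12 + (168 + 24 * s) * h ^ 2 + (-192 - 20 * s) * (h ^ 2) ^ 2 +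
      (68 + 4 * s) * (h ^ 2) ^ 3 - 8 * (h ^ 2) ^ 4 := by
  have h0 : h ^ 2 ≠ 0 := by have := H.h_lo; positivity
  apply mul_left_cancel₀ h0
  linear_combination (3 - 3 * h ^ 2) * galois_quad H -
    (-12 + (12 - 8 * s) * h ^ 2 + (-13 + 4 * s) * h ^ 4 + h ^ 6) * H.e5 +
    (16 * h ^ 4 * a - 8 * h ^ 6 * a) * H.s_sq

theorem spec_g {s h a b : ℝ} (H : Spec s h a b) :
    4 * (h ^ 2) ^ 8 + (-72 + 4 * s) * (h ^ 2) ^ 7 + (520 - 50 * s) * (h ^ 2) ^ 6 +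
      (-1927 + 230 * s) * (h ^ 2) ^ 5 + (3921 - 470 * s) * (h ^ 2) ^ 4 +
      (-4429 + 342 * s) * (h ^ 2) ^ 3 + (2682 + 100 * s) * (h ^ 2) ^ 2 +
      (-372 + 36 * s) * h ^ 2 + 9 = 0 := by
  have h0 : a * h ^ 2 ≠ 0 := by have := H.h_lo; have := H.r5_lo; positivity
  have k : (-12 + (168 + 24 * s) * h ^ 2 + (-192 - 20 * s) * h ^ 4 + (68 + 4 * s) * h ^ 6 -
      8 * h ^ 8) * a = h ^ 2 * (-32 + 16 * s + (136 + 12 * s) * h ^ 2 + (-64 - 4 * s) * h ^ 4 +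
      8 * h ^ 6) := by
    apply mul_left_cancel₀ h0
    linear_combination (h ^ 4 - 3 * h ^ 2) * galois_quad H -
      (16 * h ^ 2 - 56 * h ^ 4 + 25 * h ^ 6 - 3 * h ^ 8) * H.e5
  linear_combination (-(-12 + (168 + 24 * s) * h ^ 2 + (-192 - 20 * s) * h ^ 4 +
    (68 + 4 * s) * h ^ 6 - 8 * h ^ 8) / 16) * galois_r5 H + (-24 + 24 * s - 124 * s * h ^ 2 +
    (-32 + 84 * s) * h ^ 4 + (8 - 16 * s) * h ^ 6) / 16 * k + (24 * h ^ 2 - 142 * h ^ 4 +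
    45 * h ^ 6 + 41 * h ^ 8 - 23 * h ^ 10 + 3 * h ^ 12) * H.s_sq

theorem spec_r5 {s h a b : ℝ} (H : Spec s h a b) :
    a * (-24 + 24 * s - 124 * s * h ^ 2 + (-32 + 84 * s) * (h ^ 2) ^ 2 +
      (8 - 16 * s) * (h ^ 2) ^ 3) = -12 + (168 + 24 * s) * h ^ 2 + (-192 - 20 * s) * (h ^ 2) ^ 2 +
      (68 + 4 * s) * (h ^ 2) ^ 3 - 8 * (h ^ 2) ^ 4 := galois_r5 H

/-- graphs of field maps defined on subfields of the reals -/
structure GalGr {K : Type} [Field K] (G : Subring (ℝ × K)) : Prop where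
  func : ∀ u ∈ G, u.1 = 0 → u.2 = 0
  inv : ∀ u ∈ G, u⁻¹ ∈ G

theorem GalGr.ne {K : Type} [Field K] {G : Subring (ℝ × K)} (h : GalGr G) {u : ℝ × K}
    (hu : u ∈ G) (h0 : u.1 ≠ 0) : u.2 ≠ 0 := fun k => by
  have := h.func _ (G.sub_mem (G.mul_mem hu (h.inv u hu)) G.one_mem) (by simp [h0])
  simp [k] at this

theorem GalGr.ext {K : Type} [Field K] {G : Subring (ℝ × K)} (h : GalGr G) {w : ℝ × K}
    (hd : w * w ∈ G) (hx : ∀ u ∈ G, u.1 ≠ w.1) : ∃ G', GalGr G' ∧ G ≤ G' ∧ w ∈ G' := by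
  let G' : Subring (ℝ × K) :=
    { carrier := {u | ∃ a ∈ G, ∃ b ∈ G, u = a + b * w}
      mul_mem' := by
        rintro _ _ ⟨a, ha, b, hb, rfl⟩ ⟨c, hc, d, hd', rfl⟩
        exact ⟨_, G.add_mem (G.mul_mem ha hc) (G.mul_mem (G.mul_mem hb hd') hd), _,
          G.add_mem (G.mul_mem ha hd') (G.mul_mem hb hc), by ring⟩
      one_mem' := ⟨1, G.one_mem, 0, G.zero_mem, by ring⟩
      add_mem' := by
        rintro _ _ ⟨a, ha, b, hb, rfl⟩ ⟨c, hc, d, hd', rfl⟩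
        exact ⟨_, G.add_mem ha hc, _, G.add_mem hb hd', by ring⟩
      zero_mem' := ⟨0, G.zero_mem, 0, G.zero_mem, by ring⟩
      neg_mem' := by
        rintro _ ⟨a, ha, b, hb, rfl⟩
        exact ⟨_, G.neg_mem ha, _, G.neg_mem hb, by ring⟩ }
  have z : ∀ a ∈ G, ∀ b ∈ G, a.1 + b.1 * w.1 = 0 → a = 0 ∧ b = 0 := fun a ha b hb k => by
    have hb0 : b.1 = 0 := by_contra fun k0 => hx _ (G.neg_mem (G.mul_mem ha (h.inv b hb))) (by
      simp only [Prod.fst_neg, Prod.fst_mul, Prod.fst_inv]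
      field_simp
      linear_combination -k)
    have ha0 : a.1 = 0 := by rw [← k, hb0]; ring
    exact ⟨Prod.ext ha0 (h.func a ha ha0), Prod.ext hb0 (h.func b hb hb0)⟩
  refine ⟨G', ⟨?_, ?_⟩, fun a ha => ⟨a, ha, 0, G.zero_mem, by ring⟩,
    0, G.zero_mem, 1, G.one_mem, by ring⟩
  · rintro _ ⟨a, ha, b, hb, rfl⟩ k
    obtain ⟨rfl, rfl⟩ := z a ha b hb k
    simp
  · rintro _ ⟨a, ha, b, hb, rfl⟩
    by_cases k : a.1 + b.1 * w.1 = 0
    · obtain ⟨rfl, rfl⟩ := z a ha b hb k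
      exact ⟨0, G.zero_mem, 0, G.zero_mem, by ext <;> simp⟩
    have hN := G.sub_mem (G.mul_mem ha ha) (G.mul_mem (G.mul_mem hb hb) hd)
    have e : a * a - b * b * (w * w) = (a + b * w) * (a + -b * w) := by ring
    have n1 : (a * a - b * b * (w * w)).1 ≠ 0 := by
      rw [e]
      refine mul_ne_zero k fun k' => k ?_
      obtain ⟨rfl, k2⟩ := z a ha _ (G.neg_mem hb) k'
      obtain rfl := neg_eq_zero.1 k2
      simp
    have n2 := h.ne hN n1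
    refine ⟨_, G.mul_mem ha (h.inv _ hN), _, G.mul_mem (G.neg_mem hb) (h.inv _ hN), ?_⟩
    have e2 : (a * a - b * b * (w * w)) * (a * a - b * b * (w * w))⁻¹ = 1 :=
      Prod.ext (mul_inv_cancel₀ n1) (mul_inv_cancel₀ n2)
    have e3 : (a + b * w) * (a * (a * a - b * b * (w * w))⁻¹ +
        -b * (a * a - b * b * (w * w))⁻¹ * w) = 1 := by linear_combination e2
    exact Prod.ext (inv_eq_of_mul_eq_one_right (congrArg Prod.fst e3))
      (inv_eq_of_mul_eq_one_right (congrArg Prod.snd e3))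

open Polynomial in
theorem galois_base {K : Type} [Field K] [Algebra ℚ K] {f : ℚ[X]} (hf : Irreducible f)
    {w : ℝ × K} (hw : aeval w f = 0) : ∃ G, GalGr G ∧ w ∈ G := by
  have key : ∀ p : ℚ[X], aeval w p = 0 ∨ ∃ v : ℚ[X], aeval w p * aeval w v = 1 := fun p => by
    by_cases k : f ∣ p
    · exact Or.inl (aeval_eq_zero_of_dvd_aeval_eq_zero k hw)
    · obtain ⟨u, v, e⟩ := hf.coprime_iff_not_dvd.2 k
      refine Or.inr ⟨v, ?_⟩
      have := congrArg (aeval w) e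
      rw [map_add, map_mul, map_mul, hw, map_one] at this
      linear_combination this
  refine ⟨(aeval w : ℚ[X] →ₐ[ℚ] ℝ × K).range.toSubring, ⟨?_, ?_⟩, X, aeval_X w⟩
  · rintro _ ⟨p, rfl⟩ k
    rcases key p with h | ⟨v, h⟩
    · exact congrArg Prod.snd h
    · exact absurd k (left_ne_zero_of_mul_eq_one (congrArg Prod.fst h))
  · rintro _ ⟨p, rfl⟩
    rcases key p with h | ⟨v, h⟩
    · refine ⟨0, ?_⟩
      change aeval w 0 = (aeval w p)⁻¹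
      rw [h, map_zero]
      ext <;> simp
    · exact ⟨v, Prod.ext (eq_inv_of_mul_eq_one_right (congrArg Prod.fst h))
        (eq_inv_of_mul_eq_one_right (congrArg Prod.snd h))⟩

instance galois_prime : Fact (Nat.Prime 37) := ⟨by norm_num⟩

theorem galois_norm (z : ℤ_[37]) : ‖z‖ < 1 ↔ PadicInt.toZMod z = 0 := by
  rw [← PadicInt.mem_nonunits, ← IsLocalRing.mem_maximalIdeal, ← PadicInt.ker_toZMod,
    RingHom.mem_ker]

theorem galois_hensel {R : Type} [CommSemiring R] [Algebra R ℤ_[37]] {F : Polynomial R}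
    {a : ℤ_[37]} (h0 : PadicInt.toZMod (F.aeval a) = 0)
    (h1 : PadicInt.toZMod (F.derivative.aeval a) ≠ 0) :
    ∃ z : ℤ_[37], F.aeval z = 0 ∧ PadicInt.toZMod z = PadicInt.toZMod a := by
  have e : ‖F.derivative.aeval a‖ = 1 :=
    le_antisymm (PadicInt.norm_le_one _) (not_lt.1 fun k => h1 ((galois_norm _).1 k))
  obtain ⟨z, k1, k2, -⟩ := hensels_lemma (F := F) (a := a)
    (by rw [e, one_pow]; exact (galois_norm _).2 h0)
  rw [e, galois_norm, map_sub, sub_eq_zero] at k2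
  exact ⟨z, k1, k2⟩

/-- residues of integral values -/
noncomputable def galRes (G : Subring (ℝ × ℚ_[37])) : Subring (ℝ × ZMod 37) :=
  (G.comap ((RingHom.id ℝ).prodMap PadicInt.Coe.ringHom)).map
    ((RingHom.id ℝ).prodMap PadicInt.toZMod)

theorem galRes_mem {G : Subring (ℝ × ℚ_[37])} {x : ℝ} {c : ZMod 37} :
    (x, c) ∈ galRes G ↔ ∃ z : ℤ_[37], (x, (z : ℚ_[37])) ∈ G ∧ PadicInt.toZMod z = c := by
  constructor
  · rintro ⟨⟨y, z⟩, h, e⟩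
    obtain ⟨rfl, rfl⟩ := Prod.ext_iff.1 e
    exact ⟨z, h, rfl⟩
  · rintro ⟨z, h, rfl⟩
    exact ⟨(x, z), h, rfl⟩

theorem galRes_num (G : Subring (ℝ × ℚ_[37])) (n : ℕ) [n.AtLeastTwo] :
    ((no_index (OfNat.ofNat n) : galRes G) : ℝ × ZMod 37) = (OfNat.ofNat n, OfNat.ofNat n) :=
  map_ofNat (galRes G).subtype n

theorem galRes_div {G : Subring (ℝ × ℚ_[37])} (h : GalGr G) (u v : galRes G) {x : ℝ}
    {k : ZMod 37} (e1 : u.1.1 * x = v.1.1) (e2 : u.1.2 * k = v.1.2 ∧ u.1.2 ≠ 0) :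
    (x, k) ∈ galRes G := by
  obtain ⟨⟨u, c⟩, hu⟩ := u
  obtain ⟨⟨v, e⟩, hv⟩ := v
  obtain ⟨y, hy, rfl⟩ := galRes_mem.1 hu
  obtain ⟨z, hz, rfl⟩ := galRes_mem.1 hv
  obtain ⟨w, hw⟩ : ∃ w, y * w = 1 := isUnit_iff_exists_inv.1 (PadicInt.isUnit_iff.2
    (le_antisymm (PadicInt.norm_le_one _) (not_lt.1 fun k => e2.2 ((galois_norm _).1 k))))
  have u0 : u ≠ 0 := fun k => e2.2 ((congrArg PadicInt.toZMod
    (PadicInt.coe_eq_zero.1 (h.func _ hy k))).trans (map_zero _))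
  have hw' : (y : ℚ_[37])⁻¹ = w := inv_eq_of_mul_eq_one_right (congrArg Subtype.val hw)
  refine galRes_mem.2 ⟨z * w, ?_, ?_⟩
  · have := G.mul_mem hz (h.inv _ hy)
    rw [Prod.inv_mk, Prod.mk_mul_mk, hw', ← show u * x = v from e1, mul_comm u,
      mul_inv_cancel_right₀ u0] at this
    exact this
  · have := congrArg PadicInt.toZMod hw
    rw [map_mul, map_one] at this
    rw [map_mul]
    linear_combination k * this - PadicInt.toZMod w * e2.1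

open Polynomial in
theorem galRes_sqrt {G G₁ : Subring (ℝ × ℚ_[37])} (h : GalGr G₁) (hG : G ≤ G₁) {x : ℝ} (c : ℕ)
    (hc : (c : ZMod 37) ≠ 0) (hx : (x ^ 2, (c : ZMod 37) ^ 2) ∈ galRes G) :
    ∃ G', GalGr G' ∧ G₁ ≤ G' ∧ ∃ y, (x, y) ∈ G' := by
  by_cases k : ∀ u ∈ G₁, u.1 ≠ x
  · obtain ⟨z, hz, e⟩ := galRes_mem.1 hx
    obtain ⟨y, hy, -⟩ := galois_hensel (F := X ^ 2 - C z) (a := (c : ℤ_[37])) (by simp [e]) (by
      simpa [hc] using (by decide : ¬ (1 + 1 : ZMod 37) = 0))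
    have hy' : z = y ^ 2 := by simpa [sub_eq_zero, eq_comm] using hy
    obtain ⟨G', a, b, c⟩ := h.ext (w := (x, (y : ℚ_[37]))) (by
      have := hG hz
      rwa [hy', sq, sq, PadicInt.coe_mul] at this) k
    exact ⟨G', a, b, _, c⟩
  · push Not at k
    obtain ⟨u, hu, rfl⟩ := k
    exact ⟨G₁, h, le_rfl, u.2, hu⟩

theorem galois_om : (2 * (3 + 2 * s3 * r5 + r5) ^ 2 * hM ^ 2 - 6 * (hM ^ 2 + s3 * r5) ^ 2) *
    om ^ 2 = (s3 + 7) * (hM ^ 2 + s3 * r5) ^ 2 := by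
  have h1 := spec.h_lo
  have h2 := spec.r5_lo
  have h3 := spec.s_pos
  have h4 : 0 < hM := by linarith
  have h5 : 0 < r5 := by linarith
  have e : yS * (hM ^ 2 + s3 * r5) = (3 + 2 * s3 * r5 + r5) / 2 * hM := by
    rw [yS, y5]
    field_simp
    ring
  linear_combination (hM ^ 2 + s3 * r5) ^ 2 * om_sq - 8 * om ^ 2 *
    (yS * (hM ^ 2 + s3 * r5) + (3 + 2 * s3 * r5 + r5) / 2 * hM) * e

/-- a subfield that contains all parameters except the height -/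
theorem exists_field : ∃ F : Subfield ℝ, s3 ∈ F ∧ r5 ∈ F ∧ r6 ∈ F ∧ hN ∈ F ∧ om ∈ F ∧
    hM ^ 2 ∈ F ∧ hM ∉ F := by
  obtain ⟨ρ, hρ, eρ⟩ := galois_hensel (F := fH) (a := ((20 : ℕ) : ℤ_[37]))
    (by simp [fH, map_ofNat]; decide +kernel) (by simp [fH, map_ofNat]; decide +kernel)
  have fr : Polynomial.aeval (hM ^ 2) fH = 0 := by
    simp only [fH, map_add, map_sub, map_mul, map_pow, Polynomial.aeval_X, map_ofNat]
    generalize hH : hM ^ 2 = H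
    have g := spec_g spec
    rw [hH] at g
    linear_combination (4 * H ^ 8 + (-72 - 4 * s3) * H ^ 7 + (520 + 50 * s3) * H ^ 6 +
      (-1927 - 230 * s3) * H ^ 5 + (3921 + 470 * s3) * H ^ 4 + (-4429 - 342 * s3) * H ^ 3 +
      (2682 - 100 * s3) * H ^ 2 + (-372 - 36 * s3) * H + 9) * g + (4 * H ^ 7 - 50 * H ^ 6 +
      230 * H ^ 5 - 470 * H ^ 4 + 342 * H ^ 3 + 100 * H ^ 2 + 36 * H) ^ 2 * spec.s_sq
  obtain ⟨G, hG, hw⟩ := galois_base fH_irreducible (w := (hM ^ 2, (ρ : ℚ_[37]))) (by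
    rw [← algebraMap_int_eq, Polynomial.aeval_map_algebraMap, Polynomial.aeval_prod_apply, fr]
    have := congrArg PadicInt.Coe.ringHom.toIntAlgHom hρ
    rw [← Polynomial.aeval_algHom_apply, map_zero] at this
    exact Prod.ext rfl this)
  rw [map_natCast] at eρ
  let H : galRes G := ⟨(hM ^ 2, 20), galRes_mem.2 ⟨ρ, hw, eρ⟩⟩
  let s : galRes G := ⟨(s3, 22), galRes_div hG (4 * H ^ 7 - 50 * H ^ 6 + 230 * H ^ 5 -
    470 * H ^ 4 + 342 * H ^ 3 + 100 * H ^ 2 + 36 * H) (-(4 * H ^ 8 - 72 * H ^ 7 + 520 * H ^ 6 -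
    1927 * H ^ 5 + 3921 * H ^ 4 - 4429 * H ^ 3 + 2682 * H ^ 2 - 372 * H + 9))
    (by simp [H, galRes_num]; linear_combination spec_g spec) (by simp [H, galRes_num]; decide +kernel)⟩
  let a : galRes G := ⟨(r5, 32), galRes_div hG (-24 + 24 * s - 124 * s * H +
    (-32 + 84 * s) * H ^ 2 + (8 - 16 * s) * H ^ 3) (-12 + (168 + 24 * s) * H +
    (-192 - 20 * s) * H ^ 2 + (68 + 4 * s) * H ^ 3 - 8 * H ^ 4)
    (by simp [H, s, galRes_num]; linear_combination spec_r5 spec) (by simp [H, s, galRes_num]; decide +kernel)⟩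
  have hb : (r6, 25) ∈ galRes G := galRes_div hG ((s + H) * a) (H ^ 2 - 4 * H - s * H * a)
    (by simp [H, s, a, galRes_num]; linear_combination spec.e56) (by simp [H, s, a, galRes_num]; decide +kernel)
  obtain ⟨G1, hG1, l1, yN, hN1⟩ := galRes_sqrt hG le_rfl (x := hN) 14 (by decide)
    (galRes_div hG 4 7 (by simpa [galRes_num] using hN_sq) (by simp [galRes_num]; decide +kernel))
  obtain ⟨G2, hG2, l2, yo, ho⟩ := galRes_sqrt hG1 l1 (x := om) 10 (by decide)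
    (galRes_div hG (2 * (3 + 2 * s * a + a) ^ 2 * H - 6 * (H + s * a) ^ 2)
      ((s + 7) * (H + s * a) ^ 2) (by simpa [H, s, a, galRes_num] using galois_om)
      (by simp [H, s, a, galRes_num]; decide +kernel))
  let F : Subfield ℝ := { G2.map (RingHom.fst _ _) with
    inv_mem' := by
      rintro _ ⟨u, hu, rfl⟩
      exact ⟨u⁻¹, hG2.inv u hu, rfl⟩ }
  have m : ∀ {x c}, (x, c) ∈ galRes G → x ∈ F := fun h => by
    obtain ⟨z, hz, -⟩ := galRes_mem.1 h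
    exact ⟨_, l2 (l1 hz), rfl⟩
  refine ⟨F, m s.2, m a.2, m hb, ⟨_, l2 hN1, rfl⟩, ⟨_, ho, rfl⟩, m H.2, ?_⟩
  rintro ⟨⟨x, y⟩, hu, e⟩
  obtain rfl : x = hM := e
  have k : y ^ 2 - ρ = 0 :=
    hG2.func _ (G2.sub_mem (G2.pow_mem hu 2) (l2 (l1 hw))) (sub_self _)
  have k1 : ‖y‖ ≤ 1 := by
    have := ρ.2
    rw [← sub_eq_zero.1 k, norm_pow] at this
    exact (pow_le_one_iff_of_nonneg (norm_nonneg y) two_ne_zero).1 this
  obtain ⟨y, rfl⟩ : ∃ z : ℤ_[37], (z : ℚ_[37]) = y := ⟨⟨y, k1⟩, rfl⟩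
  have k2 : y ^ 2 = ρ := Subtype.ext (sub_eq_zero.1 k)
  rw [← k2, map_pow] at eρ
  exact (by decide : ∀ c : ZMod 37, c ^ 2 ≠ ((20 : ℕ) : ZMod 37)) _ eρ

theorem exists_rel : ∃ Rel, IsRel Rel := by
  obtain ⟨F, h1, h2, h3, h4, h5, h6, h7⟩ := exists_field
  let G : Subring (ℝ × ℝ) := F.toSubring.map ((RingHom.id ℝ).prod (RingHom.id ℝ))
  have m : ∀ x ∈ F, (x, x) ∈ G := fun x hx => ⟨x, hx, rfl⟩
  obtain ⟨G', hG, l, hw⟩ := GalGr.ext (G := G) (w := (hM, -hM))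
    ⟨by rintro _ ⟨x, -, rfl⟩ k; exact k, by rintro _ ⟨x, hx, rfl⟩; exact m _ (F.inv_mem hx)⟩
    (by simpa [sq] using m _ h6) (by rintro _ ⟨x, hx, rfl⟩ k; exact h7 ((show x = hM from k) ▸ hx))
  exact ⟨fun x y => (x, y) ∈ G', fun q => l (m _ (SubfieldClass.ratCast_mem F q)),
    fun a b => G'.add_mem a b, fun a b => G'.mul_mem a b, fun a => hG.inv _ a,
    fun a b => sub_eq_zero.1 (hG.func _ (G'.sub_mem a b) (sub_self _)),
    l (m _ h1), l (m _ h2), l (m _ h3), l (m _ h4), l (m _ h5), hw⟩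

end Pool.Agent.Lib.MP_36248f_gt
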