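import Pool.Agent.Lib.MP_36248f_gt.Flags
import Pool.Agent.Lib.MP_36248f_gt.Galois
import Pool.Agent.Lib.MP_36248f_gt.ExEq

open Set

namespace Pool.Agent.Lib.MP_36248f_gt

/-- the relation on vectors -/
def RelV (Rel : ℝ → ℝ → Prop) (v v' : V) : Prop := ∀ i, Rel (v i) (v' i)

/-- the relation on linear maps -/
def RelG (Rel : ℝ → ℝ → Prop) (g g' : GV) : Prop :=
  ∀ v v', RelV Rel v v' → RelV Rel (g v) (g' v')

/-- `g'` is the conjugate of `g` -/
def Sg (Rel : ℝ → ℝ → Prop) (g g' : GV) : Prop :=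
  RelG Rel g g' ∧ RelG Rel g⁻¹ g'⁻¹ ∧ g' ∈ OO

variable {Rel : ℝ → ℝ → Prop}

theorem Sg.mul {g g' h h' : GV} (H : Sg Rel g g') (H' : Sg Rel h h') :
    Sg Rel (g * h) (g' * h') := by
  refine ⟨fun v v' hv => H.1 _ _ (H'.1 _ _ hv), fun v v' hv => ?_, OO.mul_mem H.2.2 H'.2.2⟩
  rw [mul_inv_rev, mul_inv_rev]
  exact H'.2.1 _ _ (H.2.1 _ _ hv)

theorem Sg.inv {g g' : GV} (H : Sg Rel g g') : Sg Rel g⁻¹ g'⁻¹ :=
  ⟨H.2.1, by rw [inv_inv, inv_inv]; exact H.1, OO.inv_mem H.2.2⟩

theorem Sg.one : Sg Rel 1 1 :=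
  ⟨fun _ _ h => h, by rw [inv_one]; exact fun _ _ h => h, OO.one_mem⟩

theorem sigma_zero (hR : IsRel Rel) : Rel 0 0 := by simpa using hR.rat 0

theorem sigma_one (hR : IsRel Rel) : Rel 1 1 := by simpa using hR.rat 1

theorem sigma_two (hR : IsRel Rel) : Rel 2 2 := by simpa using hR.rat 2

theorem sigma_neg (hR : IsRel Rel) {x y : ℝ} (h : Rel x y) : Rel (-x) (-y) := by
  simpa using hR.mul (hR.rat (-1)) h

theorem sigma_sub (hR : IsRel Rel) {x y x' y' : ℝ} (h : Rel x y) (h' : Rel x' y') :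
    Rel (x - x') (y - y') := by
  rw [sub_eq_add_neg, sub_eq_add_neg]
  exact hR.add h (sigma_neg hR h')

theorem sigma_div (hR : IsRel Rel) {x y x' y' : ℝ} (h : Rel x y) (h' : Rel x' y') :
    Rel (x / x') (y / y') := by
  rw [div_eq_mul_inv, div_eq_mul_inv]
  exact hR.mul h (hR.inv h')

theorem sigma_sq (hR : IsRel Rel) {x y : ℝ} (h : Rel x y) : Rel (x ^ 2) (y ^ 2) := by
  rw [sq, sq]
  exact hR.mul h h

theorem Sg.func (hR : IsRel Rel) {g g' g'' : GV} (H : Sg Rel g g') (H' : Sg Rel g g'') :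
    g' = g'' := by
  refine (Pi.basisFun ℝ (Fin 4)).ext' fun i => funext fun j => ?_
  have h : RelV Rel (Pi.basisFun ℝ (Fin 4) i) (Pi.basisFun ℝ (Fin 4) i) := fun k => by
    rw [Pi.basisFun_apply, Pi.single_apply]
    split_ifs
    exacts [sigma_one hR, sigma_zero hR]
  exact hR.func (H.1 _ _ h j) (H'.1 _ _ h j)

theorem psi_mem (k : ℕ) : psi k ∈ OO := by
  induction k with
  | zero => exact OO.one_mem
  | succ k ih => exact OO.mul_mem ih (R_mem _)

theorem sigma_vec {a b c d a' b' c' d' : ℝ} (h0 : Rel a a') (h1 : Rel b b') (h2 : Rel c c')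
    (h3 : Rel d d') : RelV Rel ![a, b, c, d] ![a', b', c', d'] := by
  intro i
  fin_cases i
  exacts [h0, h1, h2, h3]

theorem sigma_add (hR : IsRel Rel) {v v' w w' : V} (h : RelV Rel v v') (h' : RelV Rel w w') :
    RelV Rel (v + w) (v' + w') := fun i => hR.add (h i) (h' i)

theorem sigma_smul (hR : IsRel Rel) {a a' : ℝ} {w w' : V} (h : Rel a a') (h' : RelV Rel w w') :
    RelV Rel (a • w) (a' • w') := fun i => hR.mul h (h' i)

theorem sigma_B (hR : IsRel Rel) {v v' w w' : V} (h : RelV Rel v v') (h' : RelV Rel w w') :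
    Rel (B v w) (B v' w') :=
  sigma_sub hR (sigma_sub hR (sigma_div hR (hR.add (hR.mul (h 2) (h' 3)) (hR.mul (h 3) (h' 2)))
    (sigma_two hR)) (hR.mul (h 0) (h' 0))) (hR.mul (h 1) (h' 1))

theorem sigma_R (hR : IsRel Rel) {n n' : V} (h : RelV Rel n n') (hn : B n n = -1) :
    Sg Rel (R n) (R n') := by
  have hn' : B n' n' = -1 := hR.func (hn ▸ sigma_B hR h h) (sigma_neg hR (sigma_one hR))
  have h1 : RelG Rel (R n) (R n') := fun v v' hv => by
    rw [R_apply hn, R_apply hn']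
    exact sigma_add hR hv (sigma_smul hR (hR.mul (sigma_two hR) (sigma_B hR hv h)) h)
  refine ⟨h1, ?_, R_mem _⟩
  rwa [inv_eq_of_mul_eq_one_right (R_mul_self n), inv_eq_of_mul_eq_one_right (R_mul_self n')]

theorem sigma_tr (hR : IsRel Rel) {a a' b b' : ℝ} (ha : Rel a a') (hb : Rel b b') :
    Sg Rel (tr a b) (tr a' b') := by
  have o := sigma_one hR
  have h1 : ∀ {a a' b b' : ℝ}, Rel a a' → Rel b b' → RelG Rel (tr a b) (tr a' b') :=
    fun ha hb v v' hv => sigma_vec
      (hR.add (hR.mul o (hv 0)) (hR.mul (sigma_div hR ha o) (hv 3)))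
      (hR.add (hR.mul o (hv 1)) (hR.mul (sigma_div hR hb o) (hv 3)))
      (hR.add (hR.add (hR.mul o (hv 2)) (hR.mul (sigma_two hR)
        (hR.add (hR.mul (hR.mul ha o) (hv 0)) (hR.mul (hR.mul hb o) (hv 1)))))
        (hR.mul (sigma_div hR (hR.add (sigma_sq hR ha) (sigma_sq hR hb)) o) (hv 3)))
      (sigma_div hR (hv 3) o)
  have h2 : ∀ a b : ℝ, (tr a b)⁻¹ = tr (-a) (-b) := fun a b =>
    inv_eq_of_mul_eq_one_right (by rw [tr_mul, add_neg_cancel, add_neg_cancel, tr_zero])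
  refine ⟨h1 ha hb, ?_, (isAf_tr _ _).mem⟩
  rw [h2, h2]
  exact h1 (sigma_neg hR ha) (sigma_neg hR hb)

/-- the conjugation attached to a kind of piece -/
noncomputable def sigma_eps : Ty → GV
  | .M => cj
  | _ => 1

theorem sigma_eps_sq (t : Ty) : sigma_eps t * sigma_eps t = 1 := by
  cases t
  exacts [one_mul _, one_mul _, R_mul_self _]

theorem sigma_eps_mem (t : Ty) : sigma_eps t ∈ OO := by
  cases t
  exacts [OO.one_mem, OO.one_mem, R_mem _]

theorem sigma_cj {a b c d : ℝ} (h0 : Rel a a) (h1 : Rel b (-b)) (h2 : Rel c c) (h3 : Rel d d) :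
    RelV Rel ![a, b, c, d] (cj ![a, b, c, d]) := by
  rw [cj_apply]
  exact sigma_vec h0 h1 h2 h3

theorem sigma_nm (hR : IsRel Rel) (t : Ty) (i : ℕ) :
    RelV Rel (nm t i) (sigma_eps t (nm t i)) := by
  have z := sigma_zero hR
  have z' : Rel 0 (-0) := by rwa [neg_zero]
  have o := sigma_one hR
  have o' := sigma_neg hR o
  have w := sigma_two hR
  have hf := sigma_div hR o w
  have h2 : Rel (hM ^ 2) (hM ^ 2) := by simpa using sigma_sq hR hR.hM
  have h5 : Rel y5 (-y5) := by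
    have := sigma_div hR (hR.add h2 (hR.mul hR.s3 hR.r5)) (hR.mul w hR.hM)
    rwa [mul_neg, div_neg] at this
  have h6 : Rel y6 (-y6) := by
    have := sigma_div hR (sigma_sub hR h2 hR.r6) (hR.mul w hR.hM)
    rwa [mul_neg, div_neg] at this
  have hS : Rel yS (-yS) := by
    have := sigma_div hR (sigma_sub hR (hR.add w (hR.mul hR.s3 hR.r5))
      (sigma_div hR (sigma_sub hR o hR.r5) w)) (hR.mul w h5)
    rwa [mul_neg, div_neg] at this
  have n5' : RelV Rel n5 (cj n5) :=
    sigma_cj (sigma_div hR (sigma_div hR (sigma_sub hR o hR.r5) w) hR.r5)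
      (by simpa only [neg_div] using sigma_div hR h5 hR.r5)
      (sigma_div hR (hR.add o (hR.mul hR.s3 hR.r5)) hR.r5) (sigma_div hR o hR.r5)
  have h4 : Rel 4 4 := by simpa using hR.rat 4
  cases t
  · have := sigma_vec z o o z
    rcases i with _ | _ | _ | _ | _ | _ | i
    exacts [sigma_vec o z o z, sigma_vec o' z z z, sigma_vec z z o' o, this, this, this, this]
  · have := sigma_vec hf hR.hN o o
    rcases i with _ | _ | _ | _ | _ | _ | i
    exacts [sigma_vec o z o z, sigma_vec o' z z z, sigma_vec z z o' o, this, this, this, this]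
  · rcases i with _ | _ | _ | _ | _ | _ | i
    · exact sigma_cj o z' o z
    · exact sigma_cj o' z' z z
    · exact sigma_cj z z' o' o
    · exact sigma_cj z hR.hM (sigma_sub hR h2 o) o
    · change RelV Rel _ (cj (_ + _ + _))
      rw [map_add, map_add, map_smul, map_smul, map_smul, map_add]
      exact sigma_add hR (sigma_add hR
        (sigma_smul hR (sigma_div hR (sigma_sub hR hR.s3 o) h4) (sigma_cj o z' o z))
        (sigma_smul hR (sigma_div hR (hR.add hR.s3 o) h4)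
          (sigma_add hR (sigma_cj z z' o' o) n5'))) (sigma_smul hR hR.om (sigma_cj hf hS o o))
    · exact n5'
    · exact sigma_cj hf (by simpa only [neg_div] using sigma_div hR h6 hR.r6)
        (sigma_div hR o hR.r6) (sigma_div hR o hR.r6)

theorem sigma_W (hR : IsRel Rel) {t : Ty} {w : GV × Equiv.Perm (Fin 120)} (hw : w ∈ WW t) :
    Sg Rel w.1 (sigma_eps t * w.1 * (sigma_eps t)⁻¹) := by
  induction hw using Subgroup.closure_induction with
  | mem x hx =>
    obtain ⟨i, rfl⟩ := hx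
    change Sg Rel (R _) (_ * R _ * _)
    rw [← R_conj (sigma_eps_mem t)]
    exact sigma_R hR (sigma_nm hR t i) (nm_unit t i)
  | one => simpa using Sg.one
  | mul x y _ _ hx hy => simpa [mul_assoc] using hx.mul hy
  | inv x _ hx => simpa [mul_assoc] using hx.inv

theorem sigma_cj_tr (a b : ℝ) : cj * tr a b = tr a (-b) * cj := by
  ext1 v
  rw [LinearEquiv.mul_apply, LinearEquiv.mul_apply, cj_apply, cj_apply, tr_apply, tr_apply]
  ext i
  fin_cases i <;> simp [afv]
  ring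

theorem sigma_tau (hR : IsRel Rel) (t : Ty) :
    Sg Rel (tau t) (sigma_eps t * tau t * (sigma_eps t)⁻¹) := by
  have z := sigma_zero hR
  have o := sigma_one hR
  cases t
  · change Sg Rel _ (1 * _ * 1⁻¹)
    rw [one_mul, inv_one, mul_one]
    exact sigma_R hR (sigma_vec z (sigma_neg hR o) z z) (by simp [B, nT])
  · change Sg Rel _ (1 * _ * 1⁻¹)
    rw [one_mul, inv_one, mul_one]
    exact (sigma_tr hR z hR.hN).mul
      (sigma_R hR (sigma_vec o z (sigma_div hR o (sigma_two hR)) z) (by simp [B]))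
  · change Sg Rel (tr 0 hM) (cj * tr 0 hM * cj⁻¹)
    rw [sigma_cj_tr, mul_inv_cancel_right]
    exact sigma_tr hR z hR.hM

theorem sigma_pos (hR : IsRel Rel) (k : ℕ) (hk : k ≤ 6) :
    Sg Rel (pos k) (psi k * pos k * sigma_eps (ty k)) := by
  induction k with
  | zero => simpa [pos, psi, ty, sigma_eps] using Sg.one
  | succ k ih =>
    have h1 : Rel (nu k) (nu k) := by
      have : k ≤ 5 := by omega
      interval_cases k
      · exact sigma_zero hR
      · exact sigma_zero hR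
      · simpa [nu] using hR.rat (-2 / 5)
      · exact sigma_zero hR
      · simpa [nu] using hR.rat (-1 / 5)
      · exact sigma_zero hR
    have h2 := ((ih (by omega)).mul (sigma_tau hR (ty k))).mul (sigma_tr hR h1 (sigma_zero hR))
    have h3 : (sigma_eps (ty k))⁻¹ * tr (nu k) 0 = tr (nu k) 0 * (cj * sigma_eps (ty (k + 1))) := by
      have h4 : cj * cj = 1 := R_mul_self _
      have h5 : ∀ a, cj⁻¹ * tr a 0 = tr a 0 * (cj * 1) := fun a => by
        rw [inv_eq_of_mul_eq_one_right h4, sigma_cj_tr, neg_zero, mul_one]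
      have h6 : ∀ a, (1 : GV)⁻¹ * tr a 0 = tr a 0 * (cj * cj) := fun a => by
        rw [h4, inv_one, one_mul, mul_one]
      have : k ≤ 5 := by omega
      interval_cases k
      exacts [h6 _, h5 _, h6 _, h5 _, h6 _, h5 _]
    have h4 : psi (k + 1) * pos (k + 1) * sigma_eps (ty (k + 1)) =
        psi k * pos k * sigma_eps (ty k) * (sigma_eps (ty k) * tau (ty k) * (sigma_eps (ty k))⁻¹) *
          tr (nu k) 0 := by
      rw [psi, R_conj (pos_mem _)]
      simp only [mul_assoc, inv_mul_cancel_left]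
      rw [pos]
      simp only [mul_assoc, h3]
      rw [← mul_assoc (sigma_eps (ty k)), sigma_eps_sq, one_mul]
      rfl
    rw [h4]
    exact h2

theorem sg_gp (hR : IsRel Rel) (i : Fin 7) {a : GV} (ha : a ∈ Gp i) :
    Sg Rel a (psi i * a * (psi i)⁻¹) := by
  obtain ⟨p, hp, -⟩ := mem_Lam.1 (mem_Gp.1 ha)
  have h1 := sigma_pos hR i (by omega)
  have h2 := (h1.mul (sigma_W hR hp)).mul h1.inv
  have h3 : (sigma_eps (ty i))⁻¹ = sigma_eps (ty i) := inv_eq_of_mul_eq_one_right (sigma_eps_sq _)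
  have h4 : ∀ g, sigma_eps (ty i) * (sigma_eps (ty i) * g) = g := fun g => by
    rw [← mul_assoc, sigma_eps_sq, one_mul]
  simpa only [mul_assoc, mul_inv_rev, h3, h4, mul_inv_cancel_left, mul_inv_cancel, mul_one] using h2

theorem sg_exists (hR : IsRel Rel) {γ : GV} (hγ : γ ∈ Gam) : ∃ γ', Sg Rel γ γ' := by
  refine Subgroup.iSup_induction _ (C := fun γ => ∃ γ', Sg Rel γ γ') hγ
    (fun i a ha => ⟨_, sg_gp hR i ha⟩) ⟨1, Sg.one⟩ ?_
  rintro x y ⟨x', hx⟩ ⟨y', hy⟩
  exact ⟨_, hx.mul hy⟩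

end Pool.Agent.Lib.MP_36248f_gt
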