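import Pool.Agent.Lib.MP_36248f_gt.Cover
import Pool.Agent.Lib.MP_36248f_gt.Sigma

open Set

namespace Pool.Agent.Lib.MP_36248f_gt

variable {Rel : ℝ → ℝ → Prop}

theorem psi_adj {i j : Fin 7} (h : adj i j) : psi j = psi i * R (mw i j) := by
  rcases h with h | h
  · rw [mw, if_pos h, R_neg, h]
    rfl
  · rw [mw, if_neg (by omega), h]
    change _ = psi j * R _ * R _
    rw [mul_assoc, R_mul_self, mul_one]

theorem fold_adj_symm {i j : Fin 7} (h : adj i j) : adj j i := Or.symm h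

theorem fold_step {i j j₀ : Fin 7} {γ γ' : GV} (h : Red i γ j j₀) (hγ' : γ' ∈ OO) {v u : V}
    (hv : v ∈ Om i) (hu : u ∈ Om j)
    (prev : ∀ z ∈ Om j₀, B (psi i v) (γ' (psi j₀ z)) ≤ B v (γ z)) :
    B (psi i v) (γ' (psi j u)) ≤ B v (γ u) := by
  have hγ := Gam_le_OO h.adj.2
  have hv' : γ⁻¹ v ∈ HH := ((inv_mem hγ).2 v).1 hv.1
  have e1 : γ (γ⁻¹ v) = v := by simp
  obtain ⟨α, β, hα, hβ, hz, h0⟩ := exists_cross hu.1 hv' (m := mw j j₀)
    (by simpa using hu.2 1 (one_mem _) j₀ h.adj.1) (by rw [← hγ.1, e1]; exact (h.side hv).1)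
  have h1 : B (α • u + β • γ⁻¹ v) (mw j₀ j) = 0 := by rw [mw_anti h.adj.1, B_neg', h0, neg_zero]
  have h2 := prev _ (wall_sub_Om (fold_adj_symm h.adj.1) hz h1)
  have h3 : psi j₀ (α • u + β • γ⁻¹ v) = psi j (α • u + β • γ⁻¹ v) := by
    rw [psi_adj h.adj.1, LinearEquiv.mul_apply, R_apply (mw_unit _ _), h0]
    simp
  have hφ : γ' * psi j ∈ OO := mul_mem hγ' (psi_mem j)
  have hw : psi i v ∈ HH := ((psi_mem i).2 v).1 hv.1
  have hx : γ' (psi j (γ⁻¹ v)) ∈ HH := (hφ.2 _).1 hv'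
  have h4 := one_le_B hw hx
  simp only [h3, map_add, map_smul, B_add', B_smul', e1, hv.1.1] at h2
  rcases hα.eq_or_lt with rfl | hα
  · have h5 := hz.1
    rw [zero_smul, zero_add, B_smul, B_smul', hv'.1] at h5
    have h6 : β = 1 := by nlinarith
    rw [eq_of_B_le_one hw hx (by nlinarith)]
    exact ((hφ.1 _ u).trans (by rw [← hγ.1, e1])).le
  · nlinarith

theorem fold_red (hR : IsRel Rel) {i j j₀ : Fin 7} {γ : GV} (h : Red i γ j j₀) {v : V}
    (hv : v ∈ Om i) : ∀ γ' b, b ∈ Gp j → Sg Rel (γ * b) γ' → ∀ u ∈ Om j,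
      B (psi i v) (γ' (psi j u)) ≤ B v ((γ * b) u) := by
  have key : ∀ {j j₀ : Fin 7} {γ : GV}, Red i γ j j₀ → (∀ γ', Sg Rel γ γ' → ∀ z ∈ Om j₀,
      B (psi i v) (γ' (psi j₀ z)) ≤ B v (γ z)) → ∀ γ' b, b ∈ Gp j → Sg Rel (γ * b) γ' →
      ∀ u ∈ Om j, B (psi i v) (γ' (psi j u)) ≤ B v ((γ * b) u) := by
    intro j j₀ γ h prev γ' b hb H u hu
    obtain ⟨δ, hδ⟩ := sg_exists hR h.adj.2
    rw [H.func hR (hδ.mul (sg_gp hR j hb))]
    simpa using fold_step h hδ.2.2 hv (Om_inv hu hb) (prev δ hδ)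
  induction h with
  | first ha hj =>
    refine key (Red.first ha hj) fun γ' H z _ => ?_
    rw [H.func hR (sg_gp hR i ha)]
    simp [(psi_mem i).1]
  | next h hb hj hn ih => exact key (Red.next h hb hj hn) fun γ' H => ih γ' _ hb H

/-- folding does not increase distances -/
theorem lip (hR : IsRel Rel) {γ γ' : GV} (hγ : γ ∈ Gam) (H : Sg Rel γ γ') {i j : Fin 7} {v u : V}
    (hv : v ∈ Om i) (hu : u ∈ Om j) : B (psi i v) (γ' (psi j u)) ≤ B v (γ u) := by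
  rcases reach hγ i j with ⟨rfl, ha⟩ | ⟨δ, b, j₀, h, hb, rfl⟩
  · rw [H.func hR (sg_gp hR i ha)]
    simp [(psi_mem i).1]
  · exact fold_red hR h hv γ' b hb H u hu

theorem fold_high {t : ℝ} (ht : 1 ≤ t) : t • pinf + t⁻¹ • (![0, 0, 0, 1] : V) ∈ Om 0 := by
  have h0 : 0 < t⁻¹ := by positivity
  have e : t • pinf + t⁻¹ • (![0, 0, 0, 1] : V) = ![0, 0, t, t⁻¹] := by simp [pinf]
  rw [e]
  refine Om_iff.2 ⟨1, one_mem _, 0, ![0, 0, t, t⁻¹], high_mem .S ⟨?_, h0⟩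
    (inv_le_one_of_one_le₀ ht) le_rfl (half_pos h0).le le_rfl (mul_pos one_half_pos h0).le,
    by simp [rp_zero, pos]⟩
  simp [B]
  field_simp
  norm_num

theorem fold_lim {a a' c c' : ℝ} (h : ∀ t : ℝ, 1 ≤ t → t * a' + t⁻¹ * c' ≤ t * a + t⁻¹ * c) :
    a' ≤ a := by
  by_contra hc
  have hd : 0 < a' - a := by linarith
  have h1 : 0 ≤ |c - c'| / (a' - a) := by positivity
  have h2 := h (1 + |c - c'| / (a' - a)) (by linarith)
  have h3 : (1 + |c - c'| / (a' - a))⁻¹ * (c - c') ≤ |c - c'| :=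
    (mul_le_mul_of_nonneg_left (le_abs_self _) (by positivity)).trans
      (mul_le_of_le_one_left (abs_nonneg _) (inv_le_one_of_one_le₀ (by linarith)))
  have h4 : |c - c'| / (a' - a) * (a' - a) = |c - c'| := div_mul_cancel₀ _ hd.ne'
  nlinarith

theorem lip_null (hR : IsRel Rel) {γ γ' : GV} (hγ : γ ∈ Gam) (H : Sg Rel γ γ') {i : Fin 7} {v : V}
    (hv : v ∈ Om i) : B (psi i v) (γ' pinf) ≤ B v (γ pinf) :=
  fold_lim fun t ht => by
    simpa only [Fin.val_zero, psi, LinearEquiv.coe_one, id, map_add, map_smul, B_add', B_smul']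
      using lip hR hγ H hv (fold_high ht)

theorem lip_cusp (hR : IsRel Rel) {γ γ' : GV} (hγ : γ ∈ Gam) (H : Sg Rel γ γ') :
    B pinf (γ' pinf) ≤ B pinf (γ pinf) :=
  fold_lim fun t ht => by
    simpa only [Fin.val_zero, psi, LinearEquiv.coe_one, id, B_add, B_smul]
      using lip_null hR hγ H (fold_high ht)

theorem fold_three {p : V} (hp : p ∈ NN) : 0 ≤ p 3 := by
  obtain ⟨h1, h2⟩ := hp
  by_contra h
  unfold B at h1
  nlinarith [sq_nonneg (p 0), sq_nonneg (p 1)]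

/-- a test point near `z` in the direction of `p` determines a null vector -/
theorem fold_test {z p q P : V} {g : GV} (hg : g ∈ OO) (hz : z ∈ HH) (gz : g z = z) (hp : p ∈ NN)
    (hP : P ∈ NN) (he : B z P = B z p) (h0 : B z q = 0) (h1 : 0 < B p q) {U : Set V}
    (hU : U ∈ nhds z) (h : ∀ v ∈ U, v ∈ HH → 0 ≤ B v q → B (g v) P ≤ B v p) : P = g p := by
  have hzp : 0 < B z p := B_pos_causal hz hp.1.ge hp.2
  have hq : ∀ ε : ℝ, B (z + ε • p) (z + ε • p) = 1 + 2 * ε * B z p := fun ε => by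
    rw [B_add, B_add', B_add', B_smul, B_smul, B_smul', B_smul', hz.1, hp.1, B_symm p z]
    ring
  have hc : ContinuousAt (fun ε : ℝ => (√(1 + 2 * ε * B z p))⁻¹ • (z + ε • p)) 0 := by
    fun_prop (disch := simp)
  obtain ⟨ε, h2, h3⟩ := ((hc.eventually (show ∀ᶠ y in nhds _, y ∈ U by simpa using hU)).filter_mono
    (nhdsWithin_le_nhds (s := Ioi 0))).and self_mem_nhdsWithin |>.exists
  have h3 : 0 < ε := h3
  have h4 : 0 < 1 + 2 * ε * B z p := by positivity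
  have h5 : 0 < (√(1 + 2 * ε * B z p))⁻¹ := by positivity
  have h6 := h _ h2 (hq ε ▸ smul_mem_HH (by rwa [hq]) (by
    have := mul_nonneg h3.le (fold_three hp)
    simpa using add_pos_of_pos_of_nonneg hz.2 this)) (by
    rw [B_smul, B_add, B_smul, h0]
    positivity)
  simp only [map_smul, map_add, B_smul, B_add, gz, he, hp.1] at h6
  have h7 : B (g p) P ≤ 0 := by
    by_contra h7
    nlinarith [mul_pos h5 (mul_pos h3 (not_le.1 h7))]
  obtain ⟨κ, -, rfl⟩ := NN_prop (OO_NN hg hp) hP (h7.antisymm (NN_nonneg (OO_NN hg hp) hP))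
  rw [B_smul', ← gz, hg.1, gz] at he
  rw [mul_left_eq_self₀.1 he |>.resolve_right hzp.ne', one_smul]

theorem fold_strict {p q P Q n : V} (hp : p ∈ NN) (hq : q ∈ NN) (hP : P ∈ NN) (hQ : Q ∈ NN)
    (hn : B n n = -1) (h1 : 0 < B p n) (h2 : B q n < 0)
    (h : ∀ z ∈ HH, B z n = 0 → ∃ U ∈ nhds z, ∀ v ∈ U, v ∈ HH →
      (0 ≤ B v n → B v P ≤ B v p) ∧ (0 ≤ B v (-n) → B (R n v) Q ≤ B v q)) : B P Q < B p q := by
  have h3 : 0 < B p q := (NN_nonneg hp hq).lt_of_ne' fun h3 => by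
    obtain ⟨κ, h4, rfl⟩ := NN_prop hp hq h3
    rw [B_smul] at h2
    nlinarith
  obtain ⟨α, β, hα, hβ, hz, h0⟩ : ∃ α β : ℝ, 0 < α ∧ 0 < β ∧ α • p + β • q ∈ HH ∧
      B (α • p + β • q) n = 0 := by
    have h4 : 0 < B ((-B q n) • p + B p n • q) ((-B q n) • p + B p n • q) := by
      simp only [B_add, B_add', B_smul, B_smul', hp.1, hq.1, B_symm q p]
      nlinarith [mul_pos (mul_pos h1 (neg_pos.2 h2)) h3]
    have h5 : 0 < ((-B q n) • p + B p n • q) 3 := by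
      refine lt_of_le_of_ne (add_nonneg (mul_nonneg (neg_pos.2 h2).le (fold_three hp))
        (mul_nonneg h1.le (fold_three hq))) fun h5 => ?_
      generalize (-B q n) • p + B p n • q = y at h4 h5
      rw [B, ← h5] at h4
      nlinarith [sq_nonneg (y 0), sq_nonneg (y 1)]
    have h6 := smul_mem_HH h4 h5
    have h7 := inv_pos.2 (Real.sqrt_pos.2 h4)
    rw [smul_add, smul_smul, smul_smul] at h6
    refine ⟨_, _, mul_pos h7 (neg_pos.2 h2), mul_pos h7 h1, h6, ?_⟩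
    rw [B_add, B_smul, B_smul]
    ring
  have e1 : B (α • p + β • q) p = β * B p q := by
    rw [B_add, B_smul, B_smul, hp.1, B_symm q p, mul_zero, zero_add]
  have e2 : B (α • p + β • q) q = α * B p q := by
    rw [B_add, B_smul, B_smul, hq.1, mul_zero, add_zero]
  have e3 := hz.1
  rw [B_add', B_smul', B_smul', e1, e2] at e3
  generalize α • p + β • q = z at hz h0 e1 e2
  obtain ⟨U, hU, h⟩ := h z hz h0
  have rz : R n z = z := by rw [R_apply hn, h0]; simp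
  obtain ⟨a1, a2⟩ := h z (mem_of_mem_nhds hU) hz
  have a1 := a1 h0.ge
  have a2 := a2 (by rw [B_neg', h0, neg_zero])
  rw [rz] at a2
  by_contra hc
  have a3 := B_tri (Or.inr hP) hz (Or.inr hQ)
  rw [B_symm P z] at a3
  have b1 : 0 < B z P := B_pos_causal hz hP.1.ge hP.2
  have b2 : 0 < B z Q := B_pos_causal hz hQ.1.ge hQ.2
  have a4 : B z p * B z q ≤ B z P * B z Q := by
    rw [e1, e2]
    nlinarith
  have a5 : B z P = B z p := a1.antisymm (by nlinarith)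
  have a6 : B z Q = B z q := a2.antisymm (by nlinarith)
  have c1 := fold_test (one_mem OO) hz rfl hp hP a5 h0 h1 hU fun v hv hv' => (h v hv hv').1
  have c2 := fold_test (R_mem n) hz rz hq hQ a6 (q := -n) (by rw [B_neg', h0, neg_zero])
    (by rw [B_neg']; linarith) hU fun v hv hv' => (h v hv hv').2
  rw [c1, c2, R_apply hn, LinearEquiv.coe_one, id, B_add', B_smul'] at hc
  nlinarith

theorem fold_WN {m : V} (hm : m ∈ WN) : ∃ δ ∈ Gam, ∃ i j : Fin 7, adj i j ∧ m = δ (mw i j) := by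
  obtain ⟨δ, hδ, k, h1, h2, h | h⟩ := hm
  · exact ⟨δ, hδ, ⟨k, by omega⟩, ⟨k - 1, by omega⟩, Or.inr (by simp; omega), by
      rw [h, mw, if_neg (by simp)]⟩
  · exact ⟨δ, hδ, ⟨k - 1, by omega⟩, ⟨k, by omega⟩, Or.inl (by simp; omega), by
      rw [h, mw, if_pos (by simp; omega), map_neg]⟩

/-- folding strictly decreases the distance between cusps separated by a wall -/
theorem lip_strict (hR : IsRel Rel) {γ γ' : GV} (hγ : γ ∈ Gam) (H : Sg Rel γ γ') {m : V}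
    (hm : m ∈ WN) (h1 : 0 < B pinf m) (h2 : B (γ pinf) m < 0) :
    B pinf (γ' pinf) < B pinf (γ pinf) := by
  obtain ⟨δ, hδ, i, j, hij, rfl⟩ := fold_WN hm
  obtain ⟨δ', H'⟩ := sg_exists hR (inv_mem hδ)
  have o1 := Gam_le_OO (inv_mem hδ)
  have o2 := Gam_le_OO (mul_mem (inv_mem hδ) hγ)
  have o3 := mul_mem (inv_mem (psi_mem i)) H'.2.2
  have e : ∀ v w, B v ((psi i)⁻¹ w) = B (psi i v) w := fun v w => by
    rw [← (psi_mem i).1]
    simp
  rw [← o1.1 pinf (γ pinf), ← o3.1 pinf (γ' pinf)]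
  refine fold_strict (OO_NN o1 pinf_mem) (OO_NN o2 pinf_mem) (OO_NN o3 pinf_mem)
    (OO_NN (mul_mem o3 H.2.2) pinf_mem) (mw_unit i j) (by simpa [← o1.1 pinf] using h1)
    (by simpa [← o1.1 (γ pinf)] using h2) fun z hz h0 => ?_
  obtain ⟨U, hU, h3⟩ := near_wall hij hz h0
  obtain ⟨U', hU', h4⟩ := near_wall (fold_adj_symm hij) hz (by
    rw [mw_anti hij, B_neg', h0, neg_zero])
  refine ⟨_, Filter.inter_mem hU hU', fun v hv hv' => ⟨fun h5 => ?_, fun h5 => ?_⟩⟩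
  · rw [LinearEquiv.mul_apply, e]
    exact lip_null hR (inv_mem hδ) H' (h3 v hv.1 hv' h5)
  · rw [LinearEquiv.mul_apply, e, ← LinearEquiv.mul_apply, ← psi_adj hij]
    exact lip_null hR (mul_mem (inv_mem hδ) hγ) (H'.mul H) (h4 v hv.2 hv' (mw_anti hij ▸ h5))

theorem fold_rel_tr (hR : IsRel Rel) {a b a' b' : ℝ} (ha : Rel a a') (hb : Rel b b') :
    RelG Rel (tr a b) (tr a' b') := by
  intro v v' h i
  have h2 : Rel 2 2 := by simpa using hR.rat 2
  fin_cases i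
  · simpa [tr_apply, afv] using hR.add (h 0) (hR.mul ha (h 3))
  · simpa [tr_apply, afv] using hR.add (h 1) (hR.mul hb (h 3))
  · simpa [tr_apply, afv, pow_two] using hR.add (hR.add (h 2) (hR.mul h2 (hR.add (hR.mul ha (h 0))
      (hR.mul hb (h 1))))) (hR.mul (hR.add (hR.mul ha ha) (hR.mul hb hb)) (h 3))
  · simpa [tr_apply, afv] using h 3

theorem sg_tr (hR : IsRel Rel) {a b : ℝ} (h : tr a b ∈ Gam) {γ' : GV} (H : Sg Rel (tr a b) γ') :
    ∃ a' b', γ' = tr a' b' ∧ a' ^ 2 + b' ^ 2 ≤ a ^ 2 + b ^ 2 := by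
  have h0 := H.1 ![0, 0, 0, 1] ![0, 0, 0, 1] fun i => by
    fin_cases i
    exacts [by simpa using hR.rat 0, by simpa using hR.rat 0, by simpa using hR.rat 0,
      by simpa using hR.rat 1]
  have ha : Rel a (γ' ![0, 0, 0, 1] 0) := by simpa [tr_apply, afv] using h0 0
  have hb : Rel b (γ' ![0, 0, 0, 1] 1) := by simpa [tr_apply, afv] using h0 1
  have hi : ∀ a b : ℝ, (tr a b)⁻¹ = tr (-a) (-b) := fun a b =>
    inv_eq_of_mul_eq_one_right (by simp [tr_mul, tr_zero])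
  have hn : ∀ {x y}, Rel x y → Rel (-x) (-y) := fun h => by simpa using hR.mul (hR.rat (-1)) h
  have e := H.func hR ⟨fold_rel_tr hR ha hb, by
    rw [hi, hi]
    exact fold_rel_tr hR (hn ha) (hn hb), (isAf_tr _ _).mem⟩
  refine ⟨_, _, e, ?_⟩
  have h1 := lip hR h H (fold_high le_rfl) (fold_high le_rfl)
  simp only [psi, LinearEquiv.coe_one, id] at h1
  rw [e, B_tr (fold_high le_rfl).1, B_tr (fold_high le_rfl).1] at h1
  simp [pinf] at h1
  linarith

end Pool.Agent.Lib.MP_36248f_gt
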