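import Pool.Agent.Lib.MP_36248f_gt.Cover

open Set

namespace Pool.Agent.Lib.MP_36248f_gt

/-- one rewriting step -/
def free_rw (rules : List (List (Fin 3) × List (Fin 3))) : List (Fin 3) → List (Fin 3)
  | [] => []
  | a :: l =>
    match rules.find? fun r => (a :: l).take r.1.length = r.1 with
    | some r => r.2 ++ (a :: l).drop r.1.length
    | none => a :: free_rw rules l

/-- rules common to all vertex groups -/
def free_r0 : List (List (Fin 3) × List (Fin 3)) :=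
  [([0, 0], []), ([1, 1], []), ([2, 2], []), ([2, 0], [0, 2])]

/-- rules of the three kinds of vertex groups -/
def free_rules : Fin 3 → List (List (Fin 3) × List (Fin 3))
  | 0 => free_r0 ++ [([1, 0, 1], [0, 1, 0]), ([2, 1, 2], [1, 2, 1]), ([2, 1, 0, 2], [1, 2, 1, 0])]
  | 1 => free_r0 ++ [([1, 0, 1], [0, 1, 0]), ([2, 1], [1, 2])]
  | 2 => free_r0 ++ [([1, 0, 1, 0, 1, 0], [0, 1, 0, 1, 0, 1]), ([2, 1], [1, 2])]

/-- normal forms -/
def free_nf : Fin 3 → List (List (Fin 3))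
  | 0 => [[], [0], [1], [0, 1], [1, 0], [0, 1, 0]].flatMap fun d =>
      [d, d ++ [2], d ++ [2, 1], d ++ [2, 1, 0]]
  | 1 => [[], [0], [1], [0, 1], [1, 0], [0, 1, 0]].flatMap fun d => [d, d ++ [2]]
  | 2 => [[], [0], [1], [0, 1], [1, 0], [0, 1, 0], [1, 0, 1], [0, 1, 0, 1], [1, 0, 1, 0],
      [0, 1, 0, 1, 0], [1, 0, 1, 0, 1], [0, 1, 0, 1, 0, 1]].flatMap fun d => [d, d ++ [2]]

theorem free_nf_closed : ∀ κ : Fin 3, [] ∈ free_nf κ ∧ ∀ l ∈ free_nf κ, ∀ u : Fin 3,
    (free_rw (free_rules κ))^[5] (l ++ [u]) ∈ free_nf κ := by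
  decide +kernel

section group

variable {G : Type} [Group G] {s : Fin 3 → G}

theorem free_rw_wd {rules : List (List (Fin 3) × List (Fin 3))}
    (h : ∀ r ∈ rules, wd s r.1 = wd s r.2) (l : List (Fin 3)) :
    wd s (free_rw rules l) = wd s l := by
  induction l with
  | nil => rfl
  | cons a l ih =>
    rw [free_rw]
    split
    · rename_i r hr
      have h1 : (a :: l).take r.1.length = r.1 := by simpa using List.find?_some hr
      rw [wd_append, ← h r (List.mem_of_find?_eq_some hr)]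
      conv_rhs => rw [← List.take_append_drop r.1.length (a :: l), wd_append, h1]
    · rw [wd_cons, wd_cons, ih]

theorem free_exists_nf (κ : Fin 3) (h : ∀ r ∈ free_rules κ, wd s r.1 = wd s r.2)
    (hs : ∀ i, s i * s i = 1) {w : G} (hw : w ∈ Subgroup.closure (range s)) :
    ∃ l ∈ free_nf κ, wd s l = w := by
  obtain ⟨l, rfl⟩ := exists_wd hs hw
  induction l using List.reverseRecOn with
  | nil => exact ⟨[], (free_nf_closed κ).1, rfl⟩
  | append_singleton l u ih =>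
    obtain ⟨l', h1, h2⟩ := ih (wd_mem s l)
    refine ⟨_, (free_nf_closed κ).2 l' h1 u, ?_⟩
    simp only [Function.iterate_succ, Function.iterate_zero, Function.comp_apply, id,
      free_rw_wd h, wd_append, h2]

theorem free_two {a b : G} (ha : a * a = 1) (hb : b * b = 1) (h : (a * b) ^ 2 = 1) :
    b * a = a * b := by
  calc b * a = (a * a) * b * a * (b * b) := by rw [ha, hb, one_mul, mul_one]
    _ = a * (a * b) ^ 2 * b := by simp only [pow_succ, pow_zero, one_mul, mul_assoc]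
    _ = a * b := by rw [h, mul_one]

theorem free_three {a b : G} (ha : a * a = 1) (hb : b * b = 1) (h : (a * b) ^ 3 = 1) :
    b * (a * b) = a * (b * a) := by
  calc b * (a * b) = (a * a) * b * a * b * (a * (b * b) * a) := by
        rw [hb, mul_one, ha, one_mul, mul_one, mul_assoc]
    _ = a * (a * b) ^ 3 * (b * a) := by simp only [pow_succ, pow_zero, one_mul, mul_assoc]
    _ = a * (b * a) := by rw [h, mul_one]

theorem free_six {a b : G} (ha : a * a = 1) (hb : b * b = 1) (h : (a * b) ^ 6 = 1) :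
    (b * a) ^ 3 = (a * b) ^ 3 := by
  have h1 : b * a = (a * b)⁻¹ := by
    rw [mul_inv_rev, inv_eq_of_mul_eq_one_right ha, inv_eq_of_mul_eq_one_right hb]
  rw [h1, inv_pow, inv_eq_iff_mul_eq_one, ← pow_add, h]

theorem free_rules_ok (κ : Fin 3) (hs : ∀ i, s i * s i = 1) (h02 : (s 0 * s 2) ^ 2 = 1)
    (h01 : (s 0 * s 1) ^ (![3, 3, 6] κ : ℕ) = 1) (h12 : (s 1 * s 2) ^ (![3, 2, 2] κ : ℕ) = 1) :
    ∀ r ∈ free_rules κ, wd s r.1 = wd s r.2 := by
  have e02 := free_two (hs 0) (hs 2) h02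
  have h0 : ∀ r ∈ free_r0, wd s r.1 = wd s r.2 := by
    simp [free_r0, wd, hs, e02]
  fin_cases κ
  · have e01 := free_three (hs 0) (hs 1) h01
    have e12 := free_three (hs 1) (hs 2) h12
    have e : s 2 * (s 1 * (s 0 * s 2)) = s 1 * (s 2 * (s 1 * s 0)) := by
      rw [← e02, ← mul_assoc (s 1), ← mul_assoc (s 2), e12]
      simp only [mul_assoc]
    simpa [free_rules, wd, or_imp, forall_and, e01, e12, e] using h0
  · have e01 := free_three (hs 0) (hs 1) h01
    have e12 := free_two (hs 1) (hs 2) h12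
    simpa [free_rules, wd, or_imp, forall_and, e01, e12] using h0
  · have e01 := free_six (hs 0) (hs 1) h01
    have e12 := free_two (hs 1) (hs 2) h12
    simp only [pow_succ, pow_zero, one_mul, mul_assoc] at e01
    simpa [free_rules, wd, or_imp, forall_and, e01, e12] using h0

end group

/-- the three mirrors form a vertex of kind `κ` -/
def free_kind (t : Ty) (κ : Fin 3) (i j k : Fin (ng t)) : Prop :=
  cox t i k = 2 ∧ cox t i j = ![3, 3, 6] κ ∧ cox t j k = ![3, 2, 2] κ ∧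
    (if κ = 0 then i < k else i < j)

instance (t : Ty) (κ : Fin 3) (i j k : Fin (ng t)) : Decidable (free_kind t κ i j k) := by
  unfold free_kind
  infer_instance

theorem free_vert : ∀ t : Ty, ∀ J : Finset (Fin (ng t)), (∀ i ∈ J, ∀ j ∈ J, cox t i j ≠ 0) →
    (t = .M ∧ (∃ i ∈ J, i.1 = 0) ∧ (∃ i ∈ J, i.1 = 2) ∧ ∃ i ∈ J, i.1 = 5) ∨
      ∃ κ i j k, free_kind t κ i j k ∧ ∀ u ∈ J, u = i ∨ u = j ∨ u = k := by
  intro t
  cases t <;> decide +kernel

theorem free_moves : ∀ t : Ty, ∀ κ i j k, free_kind t κ i j k → ∀ l ∈ free_nf κ, ∀ a : Fin 120,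
    l.foldr (fun u y => pf t (![i, j, k] u : Fin (ng t)) y) a = a → l = [] := by
  intro t
  cases t <;> decide +kernel

theorem free_cox_self : ∀ t : Ty, ∀ i : Fin (ng t), cox t i i = 1 := by
  intro t
  cases t <;> decide

theorem free_cox_12 : ∀ t : Ty, ∀ i j : Fin (ng t), cox t i j = 0 →
    (i.1 ≠ 1 ∧ i.1 ≠ 2) ∨ (j.1 ≠ 1 ∧ j.1 ≠ 2) := by
  intro t
  cases t <;> decide

theorem free_rel (t : Ty) {i j : Fin (ng t)} {m : ℕ} (hm : 2 ≤ m) (h : cox t i j = m) :
    (gen t i * gen t j) ^ m = 1 := by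
  have hij : i ≠ j := by
    rintro rfl
    rw [free_cox_self] at h
    omega
  have hB : B (nm t i) (nm t j) = Real.cos (Real.pi / m) := by
    rcases gram t i j hij with h1 | h1
    · omega
    · rw [h1.2, h]
  have hI : ∀ n : ℕ, 2 ≤ n → 0 < Real.pi / n ∧ Real.pi / n ≤ Real.pi := fun n hn => by
    have h2 : (2 : ℝ) ≤ n := by exact_mod_cast hn
    exact ⟨div_pos Real.pi_pos (by linarith), div_le_self Real.pi_pos.le (by linarith)⟩
  rcases (refl t).cox i j hij with h1 | ⟨n, hn, h1, h2⟩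
  · rw [Bm_apply, hB] at h1
    have := Real.cos_lt_cos_of_nonneg_of_le_pi le_rfl (hI m hm).2 (hI m hm).1
    rw [Real.cos_zero] at this
    linarith
  · rw [Bm_apply, hB, neg_inj] at h1
    have h3 := Real.injOn_cos ⟨(hI m hm).1.le, (hI m hm).2⟩ ⟨(hI n hn).1.le, (hI n hn).2⟩ h1
    have h4 : (m : ℝ) = n := by
      rwa [div_eq_mul_inv, div_eq_mul_inv, mul_right_inj' Real.pi_ne_zero, inv_inj] at h3
    rwa [Nat.cast_injective h4]

theorem free_snd (t : Ty) (f : Fin 3 → Fin (ng t)) (l : List (Fin 3)) (a : Fin 120) :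
    (wd (fun u => gen t (f u)) l).2 a = l.foldr (fun u y => pf t (f u) y) a := by
  induction l with
  | nil => rfl
  | cons u l ih =>
    rw [wd_cons, List.foldr_cons, ← ih]
    rfl

theorem free_clique {t : Ty} {x : V} (hx : x ∈ HH) {i j : Fin (ng t)} (hi : B x (nm t i) = 0)
    (hj : B x (nm t j) = 0) : cox t i j ≠ 0 := by
  intro h
  have hij : i ≠ j := by
    rintro rfl
    rw [free_cox_self] at h
    omega
  have hB : 1 ≤ B (nm t i) (nm t j) := by
    rcases gram t i j hij with h1 | h1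
    · exact h1.2
    · omega
  have h1 : 0 < B x (nm t i + nm t j) := by
    refine B_pos_causal hx ?_ ?_
    · rw [B_add, B_add', B_add', nm_unit, nm_unit, B_symm (nm t j)]
      linarith
    · have h2 := nm_future t i
      have h3 := nm_future t j
      rw [Pi.add_apply, Pi.add_apply]
      rcases free_cox_12 t i j h with h4 | h4
      · linarith [nm_future' t i h4.1 h4.2]
      · linarith [nm_future' t j h4.1 h4.2]
  rw [B_add', hi, hj, add_zero] at h1
  exact lt_irrefl _ h1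

theorem free_025 {x : V} (hx : x ∈ HH) (h0 : B x (nm .M 0) = 0) (h2 : B x (nm .M 2) = 0)
    (h5 : B x (nm .M 5) = 0) : False := by
  have g : ∀ i j : Fin (ng .M), 2 ≤ cox .M i j →
      B (nm .M i) (nm .M j) = Real.cos (Real.pi / cox .M i j) := fun i j h => by
    rcases gram .M i j (by rintro rfl; rw [free_cox_self] at h; omega) with h1 | h1
    · omega
    · exact h1.2
  have e02 : B (nm .M 0) (nm .M 2) = Real.cos (Real.pi / (3 : ℕ)) :=
    g ⟨0, by decide⟩ ⟨2, by decide⟩ (by decide)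
  have e05 : B (nm .M 0) (nm .M 5) = Real.cos (Real.pi / (3 : ℕ)) :=
    g ⟨0, by decide⟩ ⟨5, by decide⟩ (by decide)
  have e25 : B (nm .M 2) (nm .M 5) = Real.cos (Real.pi / (6 : ℕ)) :=
    g ⟨2, by decide⟩ ⟨5, by decide⟩ (by decide)
  have u0 : B (nm .M 0) (nm .M 0) = -1 := nm_unit .M ⟨0, by decide⟩
  have u2 : B (nm .M 2) (nm .M 2) = -1 := nm_unit .M ⟨2, by decide⟩
  have u5 : B (nm .M 5) (nm .M 5) = -1 := nm_unit .M ⟨5, by decide⟩
  have f0 : 0 < nm .M 0 2 + nm .M 0 3 := nm_future' .M ⟨0, by decide⟩ (by decide) (by decide)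
  have f2 : 0 ≤ nm .M 2 2 + nm .M 2 3 := nm_future .M ⟨2, by decide⟩
  have f5 : 0 ≤ nm .M 5 2 + nm .M 5 3 := nm_future .M ⟨5, by decide⟩
  rw [Nat.cast_ofNat, Real.cos_pi_div_three] at e02 e05
  rw [Nat.cast_ofNat, Real.cos_pi_div_six] at e25
  have h3 : 1 ≤ √3 := Real.one_le_sqrt.2 (by norm_num)
  have h1 : 0 < B x (nm .M 0 + nm .M 2 + nm .M 5) := by
    refine B_pos_causal hx ?_ ?_
    · simp only [B_add, B_add', u0, u2, u5, B_symm (nm .M 2) (nm .M 0), B_symm (nm .M 5) (nm .M 0),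
        B_symm (nm .M 5) (nm .M 2), e02, e05, e25]
      linarith
    · simp only [Pi.add_apply]
      linarith
  rw [B_add', B_add', h0, h2, h5] at h1
  simp at h1

/-- the mirrors through a point of the chamber generate a group that acts freely on the flags -/
theorem vertex_free {t : Ty} {x : V} (hx : x ∈ HH) (hx' : x ∈ Ch t)
    {w : GV × Equiv.Perm (Fin 120)}
    (hw : w ∈ Subgroup.closure (gen t '' {i | B x (nm t i) = 0})) {a : Fin 120}
    (h : w.2 a = a) : w = 1 := by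
  classical
  have _ := hx'
  rcases free_vert t (Finset.univ.filter fun i => B x (nm t i) = 0) (fun i hi j hj =>
    free_clique hx (Finset.mem_filter.1 hi).2 (Finset.mem_filter.1 hj).2) with
    ⟨rfl, ⟨i, hi, e⟩, ⟨j, hj, e'⟩, k, hk, e''⟩ | ⟨κ, i, j, k, hκ, hJ⟩
  · exact (free_025 hx (e ▸ (Finset.mem_filter.1 hi).2) (e' ▸ (Finset.mem_filter.1 hj).2)
      (e'' ▸ (Finset.mem_filter.1 hk).2)).elim
  have hw' : w ∈ Subgroup.closure (range fun u : Fin 3 => gen t (![i, j, k] u)) := by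
    refine Subgroup.closure_mono ?_ hw
    rintro _ ⟨u, hu, rfl⟩
    rcases hJ u (Finset.mem_filter.2 ⟨Finset.mem_univ _, hu⟩) with rfl | rfl | rfl
    · exact ⟨0, rfl⟩
    · exact ⟨1, rfl⟩
    · exact ⟨2, rfl⟩
  have hs : ∀ u : Fin 3, gen t (![i, j, k] u) * gen t (![i, j, k] u) = 1 := fun u => (refl t).sq _
  obtain ⟨l, hl, rfl⟩ := free_exists_nf κ (free_rules_ok κ hs (free_rel t le_rfl hκ.1)
    (free_rel t (by fin_cases κ <;> decide) hκ.2.1)
    (free_rel t (by fin_cases κ <;> decide) hκ.2.2.1)) hs hw'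
  rw [free_snd] at h
  rw [free_moves t κ i j k hκ l hl a h]
  rfl

theorem free {γ : GV} (hγ : γ ∈ Gam) {v : V} (hv : v ∈ HH) (h : γ v = v) : γ = 1 := by
  obtain ⟨δ, hδ, i, hu⟩ := cover_Om hv
  have h1 : δ * γ * δ⁻¹ ∈ Gam := mul_mem (mul_mem hδ hγ) (inv_mem hδ)
  have h2 : (δ * γ * δ⁻¹) (δ v) = δ v := by
    rw [← LinearEquiv.mul_apply, inv_mul_cancel_right, LinearEquiv.mul_apply, h]
  have h3 : δ * γ * δ⁻¹ ∈ Gp i := by
    rcases Om_meet h1 hu (h2.symm ▸ hu) with h3 | h3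
    · exact h3.2
    · have := h3.1
      unfold adj at this
      omega
  obtain ⟨g, hg, a, x, hx, hxv⟩ := Om_iff.1 hu
  obtain ⟨p, hp, hp0⟩ := mem_Lam.1 (mem_Gp.1 (mul_mem (mul_mem (inv_mem hg) h3) hg))
  obtain ⟨q, hq, hq0⟩ := rp_mem (ty i) a
  have hq' : (rp a, q) ∈ WW (ty i) := Subgroup.closure_mono (image_subset_range _ _) hq
  have hw := mul_mem (mul_mem (inv_mem hq') hp) hq'
  have e1 : ((rp a, q)⁻¹ * ((pos i)⁻¹ * (g⁻¹ * (δ * γ * δ⁻¹) * g) * pos i, p) * (rp a, q)).1 =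
      (g * pos i * rp a)⁻¹ * (δ * γ * δ⁻¹) * (g * pos i * rp a) := by
    simp only [Prod.fst_mul, Prod.fst_inv, mul_inv_rev, mul_assoc]
  have e2 : ((g * pos i * rp a)⁻¹ * (δ * γ * δ⁻¹) * (g * pos i * rp a)) x = x := by
    rw [LinearEquiv.mul_apply, LinearEquiv.mul_apply, ← hxv, h2, hxv, ← LinearEquiv.mul_apply,
      inv_mul_cancel]
    rfl
  have h4 := vertex_free hx.1 hx.2.1
    (chamber_W hw hx.2.1 (by rw [e1, e2]; exact hx.2.1)).2 (a := a) (by
      simp only [Prod.snd_mul, Prod.snd_inv, Equiv.Perm.mul_apply, hq0, hp0]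
      exact Equiv.Perm.inv_eq_iff_eq.2 hq0.symm)
  rw [h4] at e1
  have h5 : δ * γ * δ⁻¹ = 1 := conj_eq_one_iff.1 (by
    rw [inv_inv]; exact e1.symm : (g * pos i * rp a)⁻¹ * _ * (g * pos i * rp a)⁻¹⁻¹ = 1)
  exact conj_eq_one_iff.1 h5

theorem torsion_free {g : SL2C} (hg : g ∈ GamC) {n : ℕ} (hn : 0 < n) (h : g ^ n = 1) :
    g = 1 ∨ g = -1 := by
  have h1 : L g ∈ Gam := hg
  obtain ⟨v, hv, h2⟩ := exists_fixed (Gam_le_OO h1) hn (by rw [← map_pow, h, map_one])
  exact L_eq_one.1 (free h1 hv h2)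

end Pool.Agent.Lib.MP_36248f_gt
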