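import Pool.Agent.Lib.MP_36248f_gt.Pong

/-!
Finite covers of Coxeter pieces glued along walls.
-/

set_option autoImplicit false

namespace Pool.Agent.Lib.MP_36248f_gt

open Set

variable {V : Type} [AddCommGroup V] [Module ℝ V] [TopologicalSpace V]

/-- Pieces `k`, with mirrors `a k i`, reflections `r k i` that act on the flags by `π k i`, a base
flag, positions `g k`, and oriented walls `e` of the piece `o e` with normal `T e`. -/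
structure GD (V : Type) [AddCommGroup V] [Module ℝ V] (K E F : Type) (ι : K → Type) where
  o : E → K
  rev : E → E
  a : ∀ k, ι k → V
  r : ∀ k, ι k → V ≃ₗ[ℝ] V
  π : ∀ k, ι k → Equiv.Perm F
  T : E → V
  g : K → V ≃ₗ[ℝ] V
  x0 : F

namespace GD

variable {K E F : Type} {ι : K → Type} (D : GD V K E F ι)

/-- The generators. -/
def s (k : K) (i : ι k) : (V ≃ₗ[ℝ] V) × Equiv.Perm F := (D.r k i, D.π k i)

/-- The reflection group of a piece together with its action on the flags. -/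
def W (k : K) : Subgroup ((V ≃ₗ[ℝ] V) × Equiv.Perm F) := Subgroup.closure (range (D.s k))

/-- The walls of a piece. -/
def Tk (k : K) (t : {e // D.o e = k}) : V := D.T t.1

/-- The stabiliser of the base flag, in position. -/
def G (k : K) : Subgroup (V ≃ₗ[ℝ] V) where
  carrier := {γ | ∃ w ∈ D.W k, w.2 D.x0 = D.x0 ∧ γ = D.g k * w.1 * (D.g k)⁻¹}
  one_mem' := ⟨1, one_mem _, rfl, by simp⟩
  mul_mem' := by
    rintro _ _ ⟨w, hw, h, rfl⟩ ⟨w', hw', h', rfl⟩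
    exact ⟨w * w', mul_mem hw hw', by simp [h, h'], by simp [mul_assoc]⟩
  inv_mem' := by
    rintro _ ⟨w, hw, h, rfl⟩
    exact ⟨w⁻¹, inv_mem hw, by simpa using Equiv.Perm.inv_eq_iff_eq.2 h.symm, by simp [mul_assoc]⟩

/-- The group of the glued manifold. -/
def Gam : Subgroup (V ≃ₗ[ℝ] V) := ⨆ k, D.G k

/-- The normal of a wall in position. -/
def n (e : E) : V := D.g (D.o e) (D.T e)

variable (B : V →ₗ[ℝ] V →ₗ[ℝ] ℝ) (S : Set V)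

/-- The tile of a piece. -/
def tile (k : K) : Set V := Tile B S (D.a k) (D.Tk k)

/-- The group generated by the reflections of the piece `k` in mirrors perpendicular to `v`. -/
def Wv (k : K) (v : V) : Subgroup ((V ≃ₗ[ℝ] V) × Equiv.Perm F) :=
  MP_36248f_gt.Wv B (D.s k) (D.a k) v

structure OK : Prop where
  lor : Lor B S
  cont : ∀ g : V ≃ₗ[ℝ] V, Continuous g
  piece : ∀ k, ∃ p, Piece B S (MonoidHom.fst _ _) (D.s k) (D.a k) (D.Tk k) p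
  iso : ∀ k, Iso B S (D.g k)
  rr : ∀ e, D.rev (D.rev e) = e
  neg : ∀ e, D.n (D.rev e) = -D.n e
  trans : ∀ e x, ∃ v ∈ D.Wv B (D.o e) (D.T e), v.2 x = D.x0
  glue : ∀ e, ∀ v ∈ D.Wv B (D.o e) (D.T e), v.2 D.x0 = D.x0 →
    D.g (D.o e) * v.1 * (D.g (D.o e))⁻¹ ∈ D.G (D.o (D.rev e))
  conn : ∀ p : K → Prop, (∀ e, p (D.o (D.rev e)) → p (D.o e)) → ∀ j k, p j → p k
  cusp : ∀ k, ∃ u ∈ D.W k, u.2 = 1 ∧ (∀ y ∈ S, u.1 y ≠ y) ∧ ∀ ε : ℝ, 0 < ε →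
    ∃ Q, IsCompact Q ∧ Q ⊆ S ∧ ∀ z ∈ D.tile B S k, z ∈ Q ∨ B z (u.1 z) < 1 + ε

variable {D B S}

omit [TopologicalSpace V] in
theorem Wv_le (k : K) (v : V) : D.Wv B k v ≤ D.W k := closure_le_W _ _

omit [TopologicalSpace V] in
theorem G_le (k : K) : D.G k ≤ D.Gam := le_iSup D.G k

namespace OK

theorem isoW (H : D.OK B S) {k : K} {w : (V ≃ₗ[ℝ] V) × Equiv.Perm F} (hw : w ∈ D.W k) :
    Iso B S w.1 := by
  obtain ⟨p, P⟩ := H.piece k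
  exact P.iso H.lor hw

theorem isog (H : D.OK B S) (k : K) : D.g k ∈ isoG H.lor := H.iso k

theorem fix (H : D.OK B S) {k : K} {v : V} {w : (V ≃ₗ[ℝ] V) × Equiv.Perm F}
    (hw : w ∈ D.Wv B k v) : w.1 v = v := by
  obtain ⟨p, P⟩ := H.piece k
  exact P.fix hw

theorem adj (H : D.OK B S) (k : K) (v y : V) : B (D.g k v) y = B v ((D.g k)⁻¹ y) := by
  rw [← (H.iso k).1 v, ← LinearEquiv.mul_apply, mul_inv_cancel]
  rfl

variable [∀ k, Finite (ι k)]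

theorem chain (H : D.OK B S) : Chain B S (MonoidHom.id _) D.G D.o D.rev D.n where
  iso := by
    rintro k _ ⟨w, hw, -, rfl⟩
    exact mul_mem (mul_mem (H.isog k) (H.isoW hw : w.1 ∈ isoG H.lor)) (inv_mem (H.isog k))
  rr := H.rr
  neg := H.neg
  pre := by
    rintro e e' he _ ⟨w, hw, h0, rfl⟩ x hx h1 h2
    obtain ⟨p, P⟩ := H.piece (D.o e)
    rw [n, H.adj] at h1 h2
    obtain ⟨h3, h4⟩ := P.pre H.lor (t := ⟨e, rfl⟩) (t' := ⟨e', he.symm⟩) hw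
      ((inv_mem (H.isog (D.o e)) : _ ∈ isoG H.lor).2 x hx) h1 (by
        rw [← he] at h2
        simpa [Tk] using h2)
    refine ⟨congrArg Subtype.val h3, H.glue e w h4 h0, ?_⟩
    simp [n, H.fix (k := D.o e) (v := D.T e) h4]
  conn := H.conn

theorem iso_gam (H : D.OK B S) {γ : V ≃ₗ[ℝ] V} (hγ : γ ∈ D.Gam) : Iso B S γ :=
  H.chain.iso_sup H.lor hγ

/-- The translates of the tile lie in the region. -/
theorem tile_reg (H : D.OK B S) {k : K} {w : (V ≃ₗ[ℝ] V) × Equiv.Perm F} (hw : w ∈ D.W k) {x : V}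
    (hx : x ∈ D.tile B S k) : D.g k (w.1 x) ∈ Reg B S (MonoidHom.id _) D.G D.o D.n k := by
  obtain ⟨p, P⟩ := H.piece k
  refine ⟨(H.iso k).2 _ ((H.isoW hw).2 x hx.1), ?_⟩
  rintro e rfl _ ⟨w', hw', -, rfl⟩
  have h := P.tile_in H.lor hx (mul_mem hw' hw) ⟨e, rfl⟩
  rw [n, H.adj]
  simpa [Tk] using h

/-- The region is the union of the translates of the tile. -/
theorem reg_tile (H : D.OK B S) {k : K} {x : V}
    (hx : x ∈ Reg B S (MonoidHom.id _) D.G D.o D.n k) :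
    ∃ w ∈ D.W k, ∃ y ∈ D.tile B S k, x = D.g k (w.1 y) := by
  obtain ⟨p, P⟩ := H.piece k
  obtain ⟨w, hw, h⟩ := P.to_tile H.lor ((inv_mem (H.isog k) : _ ∈ isoG H.lor).2 x hx.1) (by
    rintro w hw ⟨e, rfl⟩
    obtain ⟨v, hv, h0⟩ := H.trans e (w.2 D.x0)
    have h1 := hx.2 e rfl _ ⟨v * w, mul_mem (Wv_le _ _ hv) hw, by simpa using h0, rfl⟩
    rw [n, H.adj, ← H.fix hv] at h1
    have h2 := (H.isoW (Wv_le _ _ hv)).1 (D.T e) (w.1 ((D.g (D.o e))⁻¹ x))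
    simp only [Tk, MonoidHom.coe_fst]
    rw [← h2]
    simpa using h1)
  exact ⟨w⁻¹, inv_mem hw, _, h, by simp⟩

/-- A point of a translate of the tile on a wall comes from the face on that wall. -/
theorem on_wall (H : D.OK B S) {e : E} {w : (V ≃ₗ[ℝ] V) × Equiv.Perm F} (hw : w ∈ D.W (D.o e))
    {x : V} (hx : x ∈ D.tile B S (D.o e)) (h : B (D.T e) (w.1 x) = 0) : B (D.T e) x = 0 := by
  obtain ⟨p, P⟩ := H.piece (D.o e)
  obtain ⟨u, hu, h1, h2⟩ := P.wall_tile H.lor ⟨e, rfl⟩ ((H.isoW hw).2 x hx.1) h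
  have h3 := (P.chamber H.lor (mul_mem (closure_le_W _ _ hu) hw) hx.2.1 h1.2.1).1
  rw [← h3]
  exact h2

/-- Points of tiles of one piece in one orbit. -/
theorem inj_self (H : D.OK B S) {γ : V ≃ₗ[ℝ] V} (hγ : γ ∈ D.Gam) {k : K}
    {w w' : (V ≃ₗ[ℝ] V) × Equiv.Perm F} (hw : w ∈ D.W k) (hw' : w' ∈ D.W k) {x x' : V}
    (hx : x ∈ D.tile B S k) (hx' : x' ∈ D.tile B S k)
    (h : γ (D.g k (w.1 x)) = D.g k (w'.1 x')) :
    x' = x ∧ ∃ v ∈ D.Wv B k x, v.2 (w.2⁻¹ D.x0) = w'.2⁻¹ D.x0 ∧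
      γ = D.g k * (w' * v * w⁻¹).1 * (D.g k)⁻¹ := by
  obtain ⟨p, P⟩ := H.piece k
  obtain ⟨l, hl, h0, rfl⟩ := H.chain.inj_self H.lor (H.tile_reg hw hx) hγ
    (by rw [MonoidHom.id_apply, h]; exact H.tile_reg hw' hx')
  have e : (w'⁻¹ * l * w).1 x = x' := by
    have h1 : l.1 (w.1 x) = w'.1 x' := by simpa using h
    simp [h1]
  obtain ⟨h1, h2⟩ := P.chamber H.lor (mul_mem (mul_mem (inv_mem hw') hl) hw) hx.2.1
    (by rw [MonoidHom.coe_fst, e]; exact hx'.2.1)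
  exact ⟨e.symm.trans h1, _, h2, by simp [h0], by simp [mul_assoc]⟩

/-- Points of one wall in one orbit. -/
theorem wall_inj (H : D.OK B S) {γ : V ≃ₗ[ℝ] V} (hγ : γ ∈ D.Gam) {e : E} {x : V} (hx : x ∈ S)
    (h : B (D.n e) x = 0) (h' : B (D.n e) (γ x) = 0) :
    ∃ v ∈ D.Wv B (D.o e) (D.T e), v.2 D.x0 = D.x0 ∧
      γ = D.g (D.o e) * v.1 * (D.g (D.o e))⁻¹ := by
  obtain ⟨p, P⟩ := H.piece (D.o e)
  obtain ⟨w, hw, h0, rfl⟩ := (H.chain.wall_inj H.lor hx hγ h h').1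
  rw [n, H.adj] at h h'
  exact ⟨w, (P.pre H.lor (t := ⟨e, rfl⟩) (t' := ⟨e, rfl⟩) hw
    ((inv_mem (H.isog (D.o e)) : _ ∈ isoG H.lor).2 x hx) h.le
    (by simpa [Tk] using h'.le)).2, h0, rfl⟩

/-- Points of tiles in one orbit: the same piece, or two faces on a common wall. -/
theorem inj (H : D.OK B S) {γ : V ≃ₗ[ℝ] V} (hγ : γ ∈ D.Gam) {k j : K}
    {w w' : (V ≃ₗ[ℝ] V) × Equiv.Perm F} (hw : w ∈ D.W k) (hw' : w' ∈ D.W j) {x x' : V}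
    (hx : x ∈ D.tile B S k) (hx' : x' ∈ D.tile B S j)
    (h : γ (D.g k (w.1 x)) = D.g j (w'.1 x')) :
    j = k ∨ ∃ e, D.o e = j ∧ D.o (D.rev e) = k ∧ B (D.T e) x' = 0 ∧ B (D.T (D.rev e)) x = 0 ∧
      ∀ v ∈ D.Wv B k (D.T (D.rev e)), ∀ v' ∈ D.Wv B j (D.T e),
        v.2⁻¹ D.x0 = w.2⁻¹ D.x0 → v'.2⁻¹ D.x0 = w'.2⁻¹ D.x0 →
        ∃ u ∈ D.Wv B j (D.T e), u.2 D.x0 = D.x0 ∧
          u.1 ((D.g j)⁻¹ (D.g k (v.1 x))) = v'.1 x' := by
  rcases H.chain.inj H.lor (H.tile_reg hw hx) hγ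
    (by rw [MonoidHom.id_apply, h]; exact H.tile_reg hw' hx') with h1 | h1
  · exact Or.inl h1.1
  obtain ⟨e, rfl, hk, _, ⟨l, hl, l0, rfl⟩, _, ⟨l', hl', l0', rfl⟩, rfl, h2⟩ := h1
  subst hk
  have h3 : B (D.T (D.rev e)) x = 0 := by
    refine H.on_wall (mul_mem hl' hw) hx ?_
    have h4 := H.adj (D.o (D.rev e)) (D.T (D.rev e)) (D.g (D.o (D.rev e)) ((l' * w).1 x))
    rw [← n, H.neg] at h4
    simp only [MonoidHom.id_apply, LinearEquiv.mul_apply, LinearEquiv.coe_inv,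
      LinearEquiv.symm_apply_apply, Prod.fst_mul, map_neg, LinearMap.neg_apply] at h2 h4 ⊢
    linarith
  have h5 : B (D.T e) x' = 0 := by
    refine H.on_wall (mul_mem (inv_mem hl) hw') hx' ?_
    rw [n, H.adj] at h2
    rw [← h2]
    congr 1
    have h6 := congrArg (fun y => l.1⁻¹ ((D.g (D.o e))⁻¹ y)) h
    simpa using h6.symm
  refine Or.inr ⟨e, rfl, rfl, h5, h3, fun v hv v' hv' f f' => ?_⟩
  have m1 : D.g (D.o (D.rev e)) * (w * v⁻¹).1 * (D.g (D.o (D.rev e)))⁻¹ ∈ D.Gam := G_le _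
    ⟨w * v⁻¹, mul_mem hw (inv_mem (Wv_le _ _ hv)), by
      rw [Prod.snd_mul, Prod.snd_inv, Equiv.Perm.mul_apply, f]
      simp, rfl⟩
  have m2 : D.g (D.o e) * (v' * w'⁻¹).1 * (D.g (D.o e))⁻¹ ∈ D.Gam := G_le _
    ⟨v' * w'⁻¹, mul_mem (Wv_le _ _ hv') (inv_mem hw'), by
      rw [Prod.snd_mul, Prod.snd_inv, Equiv.Perm.mul_apply, ← f']
      simp, rfl⟩
  have e1 : (D.g (D.o e) * (v' * w'⁻¹).1 * (D.g (D.o e))⁻¹ *
      (D.g (D.o e) * l.1 * (D.g (D.o e))⁻¹ *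
        (D.g (D.o (D.rev e)) * l'.1 * (D.g (D.o (D.rev e)))⁻¹)) *
      (D.g (D.o (D.rev e)) * (w * v⁻¹).1 * (D.g (D.o (D.rev e)))⁻¹))
      (D.g (D.o (D.rev e)) (v.1 x)) = D.g (D.o e) (v'.1 x') := by
    rw [LinearEquiv.mul_apply, LinearEquiv.mul_apply]
    have h6 : (D.g (D.o (D.rev e)) * (w * v⁻¹).1 * (D.g (D.o (D.rev e)))⁻¹)
        (D.g (D.o (D.rev e)) (v.1 x)) = D.g (D.o (D.rev e)) (w.1 x) := by simp
    rw [h6, h]
    simp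
  obtain ⟨u, hu, u0, hu2⟩ := H.wall_inj (mul_mem (mul_mem m2 hγ) m1) (e := e)
    ((H.iso _).2 _ ((H.isoW (Wv_le _ _ hv)).2 x hx.1)) (by
      have h6 : B (D.n (D.rev e)) (D.g (D.o (D.rev e)) (v.1 x)) = 0 := by
        rw [n, (H.iso _).1, ← H.fix hv, (H.isoW (Wv_le _ _ hv)).1, h3]
      rw [H.neg] at h6
      simpa using h6) (by
      rw [e1, n, (H.iso _).1, ← H.fix hv', (H.isoW (Wv_le _ _ hv')).1, h5])
  rw [hu2] at e1
  exact ⟨u, hu, u0, by simpa using e1⟩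

variable [Finite E]

theorem pd [Nonempty K] (H : D.OK B S) : PD S (MonoidHom.id _) D.Gam := by
  obtain ⟨k⟩ := ‹Nonempty K›
  obtain ⟨p, P⟩ := H.piece k
  have pt : p ∈ D.tile B S k := ⟨P.mem, fun i => (P.pa i).le, fun t => (P.pT t).le⟩
  refine H.lor.pd (fun γ hγ => H.iso_gam hγ) ((H.iso k).2 p P.mem)
    (U := (⋂ i, {y | 0 < B (D.g k (D.a k i)) y}) ∩ ⋂ t, {y | 0 < B (D.g k (D.Tk k t)) y})
    ((isOpen_iInter_of_finite fun i => isOpen_lt continuous_const (H.lor.cont_right _)).inter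
      (isOpen_iInter_of_finite fun i => isOpen_lt continuous_const (H.lor.cont_right _)))
    ⟨mem_iInter.2 fun i => by simpa [(H.iso k).1] using P.pa i,
      mem_iInter.2 fun t => by simpa [(H.iso k).1] using P.pT t⟩ fun γ hγ h => ?_
  obtain ⟨-, v, hv, -, h1⟩ := H.inj_self hγ (one_mem (D.W k)) (one_mem _) pt
    (x' := (D.g k)⁻¹ (γ (D.g k p)))
    ⟨(inv_mem (H.isog k) : _ ∈ isoG H.lor).2 _
      ((H.iso_gam hγ).2 _ ((H.iso k).2 p P.mem)),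
      fun i => H.adj k _ _ ▸ (mem_iInter.1 h.1 i).le,
      fun t => H.adj k _ _ ▸ (mem_iInter.1 h.2 t).le⟩ (by simp)
  have h2 : {i | B (D.a k i) p = 0} = ∅ := eq_empty_of_forall_notMem fun i hi => (P.pa i).ne' hi
  have h3 : v = 1 := by simpa [GD.Wv, MP_36248f_gt.Wv, h2] using hv
  simpa [h3] using h1

/-- The tiles are locally finite. -/
theorem lf (H : D.OK B S) {k : K} {w : (V ≃ₗ[ℝ] V) × Equiv.Perm F} (hw : w ∈ D.W k) {Q : Set V}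
    (hQ : IsCompact Q) (hQS : Q ⊆ S) :
    {γ | γ ∈ D.Gam ∧ ∃ z ∈ D.tile B S k, γ (D.g k (w.1 z)) ∈ Q}.Finite := by
  have : Nonempty K := ⟨k⟩
  obtain ⟨u, hu, u1, uf, uε⟩ := H.cusp k
  have hi : D.g k * w.1 ∈ isoG H.lor := mul_mem (H.isog k) (H.isoW hw)
  refine (H.lor.lf (fun γ hγ => H.iso_gam hγ) (fun γ _ => H.cont _) H.pd
    (Z := (D.g k * w.1) '' D.tile B S k) (fun ε hε => ?_) hQ hQS).subset ?_
  · obtain ⟨Q', h1, h2, h3⟩ := uε ε hε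
    refine ⟨_, h1.image (H.cont (D.g k * w.1)), ?_, ?_⟩
    · rintro _ ⟨z, hz, rfl⟩
      exact hi.2 z (h2 hz)
    rintro _ ⟨z, hz, rfl⟩
    refine (h3 z hz).imp (fun h => ⟨z, h, rfl⟩) fun h => ⟨D.g k * (w * u * w⁻¹).1 * (D.g k)⁻¹,
      G_le k ⟨_, mul_mem (mul_mem hw hu) (inv_mem hw), by simp [u1], rfl⟩, fun y hy e => ?_, ?_⟩
    · refine uf _ ((inv_mem hi).2 y hy) ?_
      have h4 := congrArg (fun y => (D.g k * w.1)⁻¹ y) e
      simpa using h4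
    · rw [← hi.1] at h
      simpa using h
  · rintro γ ⟨hγ, z, hz, h⟩
    exact ⟨hγ, _, ⟨z, hz, rfl⟩, h⟩

variable [Finite F]

/-- The walls are locally finite. -/
theorem lf_wall (H : D.OK B S) {Q : Set V} (hQ : IsCompact Q) (hQS : Q ⊆ S) :
    {m | (∃ γ ∈ D.Gam, ∃ e, m = γ (D.n e)) ∧ ∃ z ∈ Q, B m z = 0}.Finite := by
  choose R hR hR0 using H.trans
  refine (finite_iUnion fun e => finite_iUnion fun x =>
    (H.lf (Wv_le _ _ (hR e x)) hQ hQS).image fun γ => γ (D.n e)).subset ?_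
  rintro _ ⟨⟨γ, hγ, e, rfl⟩, z, hz, h⟩
  obtain ⟨p, P⟩ := H.piece (D.o e)
  have hi : γ * D.g (D.o e) ∈ isoG H.lor := mul_mem (H.iso_gam hγ) (H.isog _)
  obtain ⟨u, hu, h1, -⟩ := P.wall_tile H.lor ⟨e, rfl⟩ ((inv_mem hi).2 z (hQS hz)) (by
    rw [← hi.1]
    simpa [n, Tk] using h)
  have hl : u⁻¹ * (R e (u.2 D.x0))⁻¹ ∈ D.Wv B (D.o e) (D.T e) :=
    mul_mem (inv_mem hu) (inv_mem (hR _ _))
  refine mem_iUnion₂.2 ⟨e, u.2 D.x0,
    γ * (D.g (D.o e) * (u⁻¹ * (R e (u.2 D.x0))⁻¹).1 * (D.g (D.o e))⁻¹),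
    ⟨mul_mem hγ (G_le _ ⟨_, Wv_le _ _ hl, ?_, rfl⟩), _, h1, by simpa using hz⟩, ?_⟩
  · have h2 : (R e (u.2 D.x0)).2⁻¹ D.x0 = u.2 D.x0 := Equiv.Perm.inv_eq_iff_eq.2 (hR0 _ _).symm
    simp only [Prod.snd_mul, Prod.snd_inv, Equiv.Perm.mul_apply, h2]
    simp
  · have h2 := H.fix hl
    simp only [n, LinearEquiv.mul_apply, LinearEquiv.coe_inv, LinearEquiv.symm_apply_apply, h2]

/-- The tiles cover the space. -/
theorem cover [Nonempty K] (H : D.OK B S) {x : V} (hx : x ∈ S) :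
    ∃ γ ∈ D.Gam, ∃ k, ∃ w ∈ D.W k, ∃ y ∈ D.tile B S k, γ x = D.g k (w.1 y) := by
  obtain ⟨k⟩ := ‹Nonempty K›
  obtain ⟨p, P⟩ := H.piece k
  obtain ⟨γ, hγ, j, h⟩ := H.chain.cover H.lor (fun Q hQ hQS => H.lf_wall hQ hQS)
    (H.tile_reg (one_mem (D.W k)) ⟨P.mem, fun i => (P.pa i).le, fun t => (P.pT t).le⟩) hx
  exact ⟨γ, hγ, j, H.reg_tile h⟩

/-- If the point stabilisers act freely on the flags, the group acts freely. -/
theorem free [Nonempty K] (H : D.OK B S)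
    (hf : ∀ k, ∀ x ∈ D.tile B S k, ∀ v ∈ D.Wv B k x, ∀ f, v.2 f = f → v.1 = 1)
    {γ : V ≃ₗ[ℝ] V} (hγ : γ ∈ D.Gam) {x : V} (hx : x ∈ S) (h : γ x = x) : γ = 1 := by
  obtain ⟨δ, hδ, k, w, hw, y, hy, e⟩ := H.cover hx
  obtain ⟨-, v, hv, h1, h2⟩ := H.inj_self (mul_mem (mul_mem hδ hγ) (inv_mem hδ)) hw hw hy hy
    (by rw [← e]; simp [h])
  simpa [hf k y hy v hv _ h1] using h2

end OK

end GD

end Pool.Agent.Lib.MP_36248f_gt
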