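import Pool.Agent.Lib.MP_36248f_gt.WallGp
import Pool.Agent.Lib.MP_36248f_gt.Box
import Pool.Agent.Lib.MP_36248f_gt.Glue

/-!
The chain of seven pieces as glued Coxeter pieces.
-/

open Set

namespace Pool.Agent.Lib.MP_36248f_gt

/-- the form as a bilinear map -/
noncomputable def BL : V →ₗ[ℝ] V →ₗ[ℝ] ℝ := -Bm

theorem BL_apply (a b : V) : BL a b = B a b := by simp [BL, Bm_apply]

theorem BL_swap (a b : V) : BL a b = B b a := by rw [BL_apply, B_symm]

theorem lorB : Lor BL HH :=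
  lor_coord (fun p q => by rw [BL_apply, B]) fun v => by rw [BL_apply]; rfl

theorem iso_of_OO {g : GV} (hg : g ∈ OO) : Iso BL HH g :=
  ⟨fun x y => by rw [BL_apply, BL_apply, hg.1], fun x hx => (hg.2 x).1 hx⟩

theorem OO_adj {g : GV} (hg : g ∈ OO) (v m : V) : B v (g m) = B (g⁻¹ v) m := by
  rw [← hg.1 (g⁻¹ v)]
  simp

theorem nT_unit : B nT nT = -1 := by simp [B, nT]

theorem nU_unit (t : Ty) : B (nU t) (nU t) = -1 := by simp [B, nU]

theorem B_nU (t : Ty) (v : V) : B v (nU t) = ht t * v 3 - v 1 := by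
  simp [B, nU]
  ring

theorem tr_nT (a : ℝ) : tr a 0 nT = nT := by
  ext i
  fin_cases i <;> simp [tr_apply, afv, nT]

theorem tr_inv (a b : ℝ) : (tr a b)⁻¹ = tr (-a) (-b) :=
  inv_eq_of_mul_eq_one_right (by rw [tr_mul, add_neg_cancel, add_neg_cancel, tr_zero])

theorem piece (t : Ty) {τ : Type} {T : τ → V} (hT : ∀ x, T x = nT ∨ (t ≠ .S ∧ T x = nU t))
    (inj : ∀ x x', x ≠ x' → T x ≠ T x') : ∃ p, Piece BL HH
      (MonoidHom.fst GV (Equiv.Perm (Fin 120))) (gen t) (fun i => nm t i) T p := by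
  obtain ⟨o, ho, h1, h2, h3⟩ := exists_inner t
  refine ⟨o, fun i => by rw [BL_apply, nm_unit], (refl t).sq, fun i v => ?_, fun i j h => ?_,
    fun x => ?_, fun i x => ?_, fun x x' h => ?_, ho, fun i => by rw [BL_swap]; exact h1 i,
    fun x => ?_⟩
  · rw [BL_swap]
    exact R_apply (nm_unit t i) v
  · rw [BL_apply]
    rcases (refl t).cox i j h with h | ⟨m, a, b, c⟩
    · exact Or.inl (by rw [Bm_apply] at h; linarith)
    · exact Or.inr ⟨m, a, by rw [Bm_apply] at b; linarith, c⟩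
  · rw [BL_apply]
    rcases hT x with e | ⟨-, e⟩ <;> rw [e]
    exacts [nT_unit, nU_unit t]
  · rw [BL_swap]
    rcases hT x with e | ⟨hS, e⟩ <;> rw [e]
    · exact (gram_nT t i).imp (·.2) (·.2)
    · exact (gram_nU t hS i).imp (·.2.2) (·.2.le)
  · have h4 := inj x x' h
    rw [BL_apply]
    rcases hT x with e | ⟨-, e⟩ <;> rcases hT x' with e' | ⟨-, e'⟩ <;> rw [e, e'] at h4 ⊢
    · exact absurd rfl h4
    · simp [B, nT, nU]
    · simp [B, nT, nU]
    · exact absurd rfl h4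
  · rw [BL_swap]
    rcases hT x with e | ⟨-, e⟩ <;> rw [e]
    · rwa [B_nT]
    · rw [B_nU]
      linarith

theorem adj.symm {i j : Fin 7} (h : adj i j) : adj j i := Or.symm h

/-- oriented walls -/
abbrev Ed : Type := {p : Fin 7 × Fin 7 // adj p.1 p.2}

/-- the data -/
noncomputable def DD : GD V (Fin 7) Ed (Fin 120) fun k => Fin (ng (ty k)) where
  o e := e.1.1
  rev e := ⟨(e.1.2, e.1.1), e.2.symm⟩
  a k i := nm (ty k) i
  r k i := R (nm (ty k) i)
  π k i := pm (ty k) i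
  T e := (pos e.1.1)⁻¹ (mw e.1.1 e.1.2)
  g k := pos k
  x0 := 0

theorem DD_n (e : Ed) : DD.n e = mw e.1.1 e.1.2 := by simp [GD.n, DD]

theorem DD_G (k : Fin 7) : DD.G k = Gp k := by
  ext γ
  rw [mem_Gp, mem_Lam]
  constructor
  · rintro ⟨w, hw, h, rfl⟩
    have hw' : w ∈ WW (ty k) := hw
    exact ⟨w.2, by simpa [DD, mul_assoc] using hw', h⟩
  · rintro ⟨p, hw, h⟩
    exact ⟨_, hw, h, by simp [DD, mul_assoc]⟩

theorem DD_Gam : DD.Gam = Gam := iSup_congr DD_G

/-- normal of the upper wall -/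
noncomputable def nV (t : Ty) : V := if t = .S then nT else nU t

theorem pos_nT (k : ℕ) : pos (k + 1) nT = -pos k (nV (ty k)) := by
  rw [pos, LinearEquiv.mul_apply, LinearEquiv.mul_apply, tr_nT, tau_nT, map_neg, nV]

theorem T_up {e : Ed} (h : e.1.2.1 = e.1.1.1 + 1) : DD.T e = nV (ty e.1.1) := by
  simp [DD, mw, h, pos_nT]

theorem T_dn {e : Ed} (h : e.1.1.1 = e.1.2.1 + 1) : DD.T e = nT := by
  have h1 : e.1.2.1 ≠ e.1.1.1 + 1 := by omega
  simp [DD, mw, h1]

theorem ty_S {k : Fin 7} : ty k = .S ↔ k.1 = 0 ∨ k.1 = 6 := by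
  revert k
  decide

theorem set_dn (t : Ty) : {i : Fin (ng t) | BL (nm t i) nT = 0} = {i | i.1 < 3} := by
  ext i
  rw [mem_ofPred_eq, BL_swap, mem_ofPred_eq]
  rcases gram_nT t i with h | h
  · simp [h.1, h.2]
  · exact iff_of_false (by linarith [h.2]) (not_lt.2 h.1)

theorem set_up (t : Ty) :
    {i : Fin (ng t) | BL (nm t i) (nV t) = 0} = {i | ∃ j, i.1 = up t j} := by
  by_cases hS : t = .S
  · subst hS
    rw [nV, if_pos rfl, set_dn]
    ext i
    simp only [mem_ofPred_eq]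
    revert i
    decide
  · ext i
    have h1 : (∃ j, i.1 = up t j) ↔ i.1 ≠ 2 ∧ i.1 ≤ 3 := by
      revert i
      cases t
      · exact absurd rfl hS
      · decide
      · decide
    rw [mem_ofPred_eq, BL_swap, mem_ofPred_eq, nV, if_neg hS, h1]
    rcases gram_nU t hS i with h | h
    · simp [h.1, h.2.1, h.2.2]
    · exact iff_of_false (by linarith [h.2]) (by omega)

theorem Wv_dn (k : Fin 7) :
    DD.Wv BL k nT = Subgroup.closure (gen (ty k) '' {i | i.1 < 3}) := by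
  rw [← set_dn]
  rfl

theorem Wv_up (k : Fin 7) : DD.Wv BL k (nV (ty k)) =
    Subgroup.closure (gen (ty k) '' {i | ∃ j, i.1 = up (ty k) j}) := by
  rw [← set_up]
  rfl

theorem Wv_pt (k : Fin 7) (x : V) :
    DD.Wv BL k x = Subgroup.closure (gen (ty k) '' {i | B x (nm (ty k) i) = 0}) := by
  simp only [← BL_swap]
  rfl

theorem DD_tile (k : Fin 7) : DD.tile BL HH k = P (ty k) := by
  ext v
  simp only [GD.tile, Tile, P, Ch, mem_ofPred_eq, BL_swap, GD.Tk]
  refine and_congr_right fun hv => and_congr_right fun hc => ⟨fun h => ?_, fun h => ?_⟩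
  · by_cases hS : ty k = .S
    · refine ⟨?_, ?_⟩
      · rcases ty_S.1 hS with h0 | h0
        · have h1 := h ⟨⟨(k, 1), Or.inl (by simp [h0])⟩, rfl⟩
          rwa [T_up (by simp [h0]), nV, if_pos hS, B_nT] at h1
        · have h1 := h ⟨⟨(k, 5), Or.inr (by simp [h0])⟩, rfl⟩
          rwa [T_dn (by simp [h0]), B_nT] at h1
      · have h1 := hc ⟨3, three_le_ng _⟩
        simp only [DD] at h1
        rw [hS] at h1 ⊢
        simp [B, nm, ht] at h1 ⊢
        linarith
    · have h0 := mt ty_S.2 hS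
      have h1 := h ⟨⟨(k, ⟨k.1 - 1, by omega⟩), Or.inr (by simp only; omega)⟩, rfl⟩
      have h2 := h ⟨⟨(k, ⟨k.1 + 1, by omega⟩), Or.inl rfl⟩, rfl⟩
      rw [T_dn (by simp only; omega), B_nT] at h1
      rw [T_up rfl, nV, if_neg hS, B_nU] at h2
      exact ⟨h1, by linarith⟩
  · rintro ⟨e, rfl⟩
    rcases e.2 with h1 | h1
    · rw [T_up h1, nV]
      split_ifs
      · rw [B_nT]
        exact h.1
      · rw [B_nU]
        exact sub_nonneg.2 h.2
    · rw [T_dn h1, B_nT]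
      exact h.1

/-- the stabiliser of the base flag in a wall group -/
theorem wall_form {e : Ed} {v : GV × Equiv.Perm (Fin 120)} (hv : v ∈ DD.Wv BL e.1.1 (DD.T e))
    (h0 : v.2 0 = 0) : ∃ m ∈ LamZ, pos e.1.1 * v.1 * (pos e.1.1)⁻¹ =
      pos (max e.1.1 e.1.2) * EZ m * (pos (max e.1.1 e.1.2))⁻¹ := by
  rcases e.2 with h | h
  · rw [T_up h, Wv_up] at hv
    obtain ⟨m, hm, h1⟩ := lam_top hv h0
    obtain ⟨j, hj⟩ := nu_eq e.1.1
    obtain ⟨m', hm', h2⟩ := nu_norm (-j) hm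
    refine ⟨m', hm', ?_⟩
    have h3 : tr ((-j : ℤ) / 5) 0 = (tr (nu e.1.1) 0)⁻¹ := by
      rw [tr_inv, hj, neg_zero, Int.cast_neg, neg_div]
    rw [show max (e.1.1 : ℕ) e.1.2 = e.1.1 + 1 by omega, pos, h1, ← h2, h3]
    simp [mul_assoc]
  · rw [T_dn h, Wv_dn] at hv
    obtain ⟨m, hm, h1⟩ := lam_bot hv h0
    exact ⟨m, hm, by rw [show max (e.1.1 : ℕ) e.1.2 = e.1.1 by omega, h1]⟩

theorem wall_mem' {i j : Fin 7} (hj : adj i j) {m : Matrix.SpecialLinearGroup (Fin 2) ℤ}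
    (hm : m ∈ LamZ) : pos (max i j) * EZ m * (pos (max i j))⁻¹ ∈ Gp j := by
  rcases hj with h | h
  · rw [show max (i : ℕ) j = i + 1 by omega, h]
    exact (wall_mem i hm).2
  · rw [show max (i : ℕ) j = j + 1 by omega]
    exact (wall_mem j hm).1

theorem mw_neg {i j : Fin 7} (h : adj i j) : mw j i = -mw i j := by
  rcases h with h | h
  · rw [mw, mw, if_neg (by omega), if_pos h, neg_neg]
  · rw [mw, mw, if_pos h, if_neg (by omega)]

theorem adj_conn {p : Fin 7 → Prop} (h : ∀ i j, adj i j → p j → p i) (j k : Fin 7) (hj : p j) :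
    p k := by
  have h1 : ∀ n : ℕ, ∀ hn : n < 7, p ⟨n, hn⟩ ↔ p 0 := by
    intro n
    induction n with
    | zero => exact fun _ => Iff.rfl
    | succ n ih =>
      exact fun hn => Iff.trans ⟨h ⟨n, by omega⟩ _ (Or.inl rfl), h _ ⟨n, by omega⟩ (Or.inr rfl)⟩
        (ih (by omega))
  exact (h1 k k.2).2 ((h1 j j.2).1 hj)

theorem R_R (t : Ty) : R (nm t 0) * R (nm t 1) = tr 1 0 := by
  have h0 : nm t 0 = ![1, 0, 1, 0] := by cases t <;> rfl
  have h1 : nm t 1 = -![1, 0, 0, 0] := by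
    have : nm t 1 = ![-1, 0, 0, 0] := by cases t <;> rfl
    rw [this]
    ext i
    fin_cases i <;> simp
  rw [h0, h1, R_neg]
  refine IsAf.ext ?_ (isAf_tr 1 0)
  simpa using (isAf_Rx 1).mul (isAf_Rx 0)

theorem pf_25 : ∀ t : Ty, ∀ x : Fin 120, (fun y => pf t 0 (pf t 1 y))^[25] x = x := by
  intro t
  cases t <;> decide +kernel

theorem tr_mem_WW (t : Ty) : (tr 25 0, (1 : Equiv.Perm (Fin 120))) ∈ WW t := by
  have h0 : 0 < ng t := by linarith [three_le_ng t]
  have h1 : 1 < ng t := by linarith [three_le_ng t]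
  have h2 : (gen t ⟨0, h0⟩ * gen t ⟨1, h1⟩) ^ 25 ∈ WW t :=
    pow_mem (mul_mem (Subgroup.subset_closure (mem_range_self _))
      (Subgroup.subset_closure (mem_range_self _))) _
  convert h2 using 1
  refine Prod.ext ?_ ?_
  · have h3 := tr_zpow 1 0 (25 : ℕ)
    rw [zpow_natCast] at h3
    simp [gen, R_R, h3]
  · ext x
    rw [Prod.pow_snd, ← Equiv.Perm.iterate_eq_pow]
    exact congrArg Fin.val (pf_25 t x).symm

theorem DD_ok : DD.OK BL HH where
  lor := lorB
  cont := continuous_GV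
  piece k := by
    refine piece (ty k) ?_ ?_
    · rintro ⟨e, rfl⟩
      rcases e.2 with h | h
      · rw [GD.Tk, T_up h, nV]
        split_ifs with hS
        · exact Or.inl rfl
        · exact Or.inr ⟨hS, rfl⟩
      · exact Or.inl (T_dn h)
    · have key : ∀ e e' : Ed, e.1.1 = e'.1.1 → e.1.2.1 = e.1.1.1 + 1 → e'.1.1.1 = e'.1.2.1 + 1 →
          DD.T e ≠ DD.T e' := fun e e' h0 h1 h2 => by
        have h3 : (e.1.1 : ℕ) = e'.1.1 := congrArg Fin.val h0
        have hS : ty e.1.1 ≠ .S := mt ty_S.1 (by omega)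
        rw [T_up h1, T_dn h2, nV, if_neg hS]
        intro h4
        have h5 := congrFun h4 1
        norm_num [nU, nT] at h5
      rintro ⟨e, he⟩ ⟨e', he'⟩ hne
      have h0 : e.1.1 = e'.1.1 := he.trans he'.symm
      have h3 : (e.1.1 : ℕ) = e'.1.1 := congrArg Fin.val h0
      have h4 : (e.1.2 : ℕ) ≠ e'.1.2 := fun h => hne
        (Subtype.ext (Subtype.ext (Prod.ext h0 (Fin.ext h))))
      rcases e.2 with h | h <;> rcases e'.2 with h' | h'
      · omega
      · exact key e e' h0 h h'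
      · exact (key e' e h0.symm h' h).symm
      · omega
  iso k := iso_of_OO (pos_mem k)
  rr _ := rfl
  neg e := by
    rw [DD_n, DD_n]
    exact mw_neg e.2
  trans e x := by
    rcases e.2 with h | h
    · obtain ⟨p, h1, h2⟩ := rp_mem_up (ty e.1.1) x
      exact ⟨_, by rw [T_up h]; exact (Wv_up e.1.1).ge h1, h2⟩
    · obtain ⟨p, h1, h2⟩ := rp_mem (ty e.1.1) x
      exact ⟨_, by rw [T_dn h]; exact (Wv_dn e.1.1).ge h1, h2⟩
  glue e v hv h0 := by
    obtain ⟨m, hm, h1⟩ := wall_form hv h0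
    rw [DD_G]
    exact h1 ▸ wall_mem' e.2 hm
  conn p h := adj_conn fun i j hij => h ⟨(i, j), hij⟩
  cusp k := by
    refine ⟨_, tr_mem_WW (ty k), rfl, fun y hy h => ?_, fun ε hε => ?_⟩
    · have h1 := B_tr hy 25 0
      rw [show tr 25 0 y = y from h, hy.1] at h1
      nlinarith [hy.2, pow_pos hy.2 2]
    · refine ⟨_, isCompact_thick (ty k) (lt_min one_pos (by positivity) : 0 < min 1 (ε / 625)),
        fun v hv => hv.1.1, fun z hz => ?_⟩
      rw [DD_tile] at hz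
      by_cases h : min 1 (ε / 625) ≤ z 3
      · exact Or.inl ⟨hz, h⟩
      · obtain ⟨h1, h2⟩ := lt_min_iff.1 (not_le.1 h)
        rw [BL_apply, B_tr hz.1]
        have h3 := hz.1.2
        exact Or.inr (by nlinarith)

end Pool.Agent.Lib.MP_36248f_gt
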