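import Pool.Agent.Lib.MP_36248f_gt.Hyp

open Set

namespace Pool.Agent.Lib.MP_36248f_gt

/-- proper discontinuity -/
def IsPD (Γ : Subgroup GV) : Prop := ∀ v ∈ HH, ∀ ρ : ℝ, {γ | γ ∈ Γ ∧ B v (γ v) ≤ ρ}.Finite

theorem pd_mem {g : GV} (hg : g ∈ OO) {v : V} (hv : v ∈ HH) : g v ∈ HH := (hg.2 v).1 hv

theorem pd_inv_apply (g : GV) (v : V) : g⁻¹ (g v) = v := by
  rw [← LinearEquiv.mul_apply, inv_mul_cancel]
  rfl

theorem pd_apply_inv (g : GV) (v : V) : g (g⁻¹ v) = v := by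
  rw [← LinearEquiv.mul_apply, mul_inv_cancel]
  rfl

theorem pd_cont (a : V) : Continuous fun v => B a v :=
  continuous_B.comp (continuous_const.prodMk continuous_id)

/-- the displacement at `o` is bounded by the displacement at `v` -/
theorem pd_move {g : GV} (hg : g ∈ OO) {o v : V} (ho : o ∈ HH) (hv : v ∈ HH) {C ρ : ℝ}
    (h1 : B o v ≤ C) (h2 : B v (g v) ≤ ρ) : B o (g o) ≤ 4 * C ^ 2 * ρ := by
  have a1 := B_tri (Or.inl ho) hv (Or.inl (pd_mem hg ho))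
  have a2 := B_tri (Or.inl hv) (pd_mem hg hv) (Or.inl (pd_mem hg ho))
  rw [hg.1, B_symm v o] at a2
  have a3 := one_le_B ho hv
  have a4 := one_le_B hv (pd_mem hg hv)
  have a5 : B v (g o) ≤ 2 * ρ * C := a2.trans (by
    have := mul_le_mul h2 h1 (by linarith) (by linarith)
    linarith)
  have a6 := mul_le_mul h1 a5 (by linarith [one_le_B hv (pd_mem hg ho)]) (by linarith)
  nlinarith

theorem isPD_of_sep {Γ : Subgroup GV} (hΓ : Γ ≤ OO) {o : V} (ho : o ∈ HH) {U : Set V}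
    (hU : U ∈ nhds o) (h : ∀ γ ∈ Γ, γ o ∈ U → γ = 1) : IsPD Γ := by
  intro v hv ρ
  obtain ⟨δ, hδ, hb⟩ := near_of_B ho hU
  have hK := isCompact_ball ho (4 * B o v ^ 2 * ρ)
  have loc : ∀ q ∈ {w | w ∈ HH ∧ B o w ≤ 4 * B o v ^ 2 * ρ},
      ∃ N ∈ nhds q, ∀ y ∈ N, ∀ y' ∈ N, B y y' < 1 + δ := fun q hq => by
    have h1 : {z : V × V | B z.1 z.2 < 1 + δ} ∈ nhds (q, q) :=
      (isOpen_lt continuous_B continuous_const).mem_nhds (by
        change B q q < 1 + δ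
        rw [hq.1.1]
        linarith)
    obtain ⟨N, hN, N', hN', h2⟩ := mem_nhds_prod_iff.1 h1
    exact ⟨N ∩ N', Filter.inter_mem hN hN', fun y hy y' hy' =>
      h2 (mk_mem_prod hy.1 hy'.2 : (y, y') ∈ N ×ˢ N')⟩
  choose! N hN hN2 using loc
  obtain ⟨t, ht, hcov⟩ := hK.elim_nhds_subcover N hN
  refine (t.finite_toSet.biUnion (t := fun q => {γ | γ ∈ Γ ∧ γ o ∈ N q}) fun q hq => ?_).subset ?_
  · refine Set.Subsingleton.finite fun γ hγ γ' hγ' => ?_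
    have h1 := hN2 q (ht q hq) _ hγ.2 _ hγ'.2
    have hm := mul_mem (inv_mem hγ.1) hγ'.1
    rw [← (hΓ (inv_mem hγ.1)).1, pd_inv_apply, ← LinearEquiv.mul_apply] at h1
    exact inv_mul_eq_one.1 (h _ hm (hb _ (pd_mem (hΓ hm) ho) h1))
  · rintro γ ⟨hγ, hρ⟩
    obtain ⟨q, hq, h2⟩ := mem_iUnion₂.1
      (hcov ⟨pd_mem (hΓ hγ) ho, pd_move (hΓ hγ) ho hv le_rfl hρ⟩)
    exact mem_iUnion₂.2 ⟨q, hq, hγ, h2⟩

theorem IsPD.compact {Γ : Subgroup GV} (h : IsPD Γ) (hΓ : Γ ≤ OO) {K K' : Set V}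
    (hK : IsCompact K) (hK' : IsCompact K') (h1 : K ⊆ HH) (h2 : K' ⊆ HH) :
    {γ | γ ∈ Γ ∧ ∃ v ∈ K, γ v ∈ K'}.Finite := by
  rcases K.eq_empty_or_nonempty with rfl | ⟨o, ho⟩
  · simp
  obtain ⟨C, hC⟩ := ((hK.union hK').image (pd_cont o)).bddAbove
  refine (h o (h1 ho) (2 * C * C)).subset ?_
  rintro γ ⟨hγ, v, hv, hv'⟩
  refine ⟨hγ, ?_⟩
  have a1 := B_tri (Or.inl (h1 ho)) (h2 hv') (Or.inl (pd_mem (hΓ hγ) (h1 ho)))
  rw [(hΓ hγ).1, B_symm v o] at a1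
  have a2 : B o v ≤ C := hC ⟨v, Or.inl hv, rfl⟩
  have a3 : B o (γ v) ≤ C := hC ⟨γ v, Or.inr hv', rfl⟩
  have a4 := one_le_B (h1 ho) (h1 hv)
  have a5 := mul_le_mul a3 a2 (by linarith) (by linarith)
  linarith

theorem IsPD.conj {Γ : Subgroup GV} (h : IsPD Γ) {g : GV} (hg : g ∈ OO) :
    IsPD (Γ.map (MulAut.conj g).toMonoidHom) := by
  intro v hv ρ
  refine ((h (g⁻¹ v) (pd_mem (inv_mem hg) hv) ρ).image fun γ => g * γ * g⁻¹).subset ?_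
  rintro _ ⟨⟨γ, hγ, rfl⟩, hρ⟩
  refine ⟨γ, ⟨hγ, ?_⟩, rfl⟩
  rw [← hg.1, pd_apply_inv]
  exact hρ

/-- descent: some translate of `v` is on the good side of all mirrors of the group -/
theorem IsPD.descent {Γ : Subgroup GV} (h : IsPD Γ) (hΓ : Γ ≤ OO) {ι : Type} {n : ι → V}
    (hn : ∀ i, B (n i) (n i) = -1) (hR : ∀ i, R (n i) ∈ Γ) {o : V} (ho : o ∈ HH)
    (hpos : ∀ i, 0 < B o (n i)) {v : V} (hv : v ∈ HH) :
    ∃ γ ∈ Γ, ∀ i, 0 ≤ B (γ v) (n i) := by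
  have hF := h.compact hΓ (isCompact_singleton (x := v)) (isCompact_ball ho (B o v))
    (singleton_subset_iff.2 hv) fun _ hw => hw.1
  obtain ⟨γ, ⟨hγ, w, hw, hle⟩, hmin⟩ := Set.exists_min_image _ (fun γ : GV => B o (γ v)) hF
    ⟨1, one_mem _, v, rfl, hv, le_rfl⟩
  obtain rfl : w = v := hw
  refine ⟨γ, hγ, fun i => not_lt.1 fun hlt => ?_⟩
  have hm := mul_mem (hR i) hγ
  have e : B o ((R (n i) * γ) w) < B o (γ w) := by
    rw [LinearEquiv.mul_apply, R_apply (hn i), B_add', B_smul']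
    nlinarith [mul_pos (neg_pos.2 hlt) (hpos i)]
  exact absurd (hmin _ ⟨hm, w, rfl, pd_mem (hΓ hm) hv, e.le.trans hle.2⟩) (not_le.2 e)

/-- elements without fixed points move the points of a compact set by a definite amount -/
theorem IsPD.inj_radius {Γ : Subgroup GV} (h : IsPD Γ) (hΓ : Γ ≤ OO) {K : Set V}
    (hK : IsCompact K) (h1 : K ⊆ HH) :
    ∃ δ : ℝ, 0 < δ ∧ ∀ γ ∈ Γ, (∀ v ∈ HH, γ v ≠ v) → ∀ v ∈ K, 1 + δ ≤ B v (γ v) := by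
  rcases K.eq_empty_or_nonempty with rfl | ⟨o, ho⟩
  · exact ⟨1, one_pos, fun _ _ _ _ hv => hv.elim⟩
  obtain ⟨C, hC⟩ := (hK.image (pd_cont o)).bddAbove
  have each : ∀ γ ∈ {γ | γ ∈ Γ ∧ B o (γ o) ≤ 4 * C ^ 2 * 2}, ∀ᶠ δ in nhds (0 : ℝ),
      (∀ v ∈ HH, γ v ≠ v) → ∀ v ∈ K, 1 + δ ≤ B v (γ v) := fun γ hγ => by
    by_cases hf : ∀ v ∈ HH, γ v ≠ v
    swap
    · exact Filter.Eventually.of_forall fun _ hf' => absurd hf' hf
    obtain ⟨y, hy, hmin⟩ := hK.exists_isMinOn ⟨o, ho⟩ (f := fun y => B y (γ y))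
      (continuous_B.comp (continuous_id.prodMk (continuous_GV γ))).continuousOn
    have a1 : 0 < B y (γ y) - 1 := by
      by_contra a1
      exact hf y (h1 hy) (eq_of_B_le_one (h1 hy) (pd_mem (hΓ hγ.1) (h1 hy)) (by linarith)).symm
    filter_upwards [Iio_mem_nhds a1] with δ hδ _ v hv
    have a2 : B y (γ y) ≤ B v (γ v) := hmin hv
    have a3 : δ < B y (γ y) - 1 := hδ
    linarith
  have all := ((Filter.eventually_all_finite (h o (h1 ho) _)).2 each).and (Iio_mem_nhds one_pos)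
  obtain ⟨δ, ⟨hδ, hδ1⟩, hδ0⟩ :=
    ((all.filter_mono (nhdsWithin_le_nhds (s := Ioi 0))).and self_mem_nhdsWithin).exists
  refine ⟨δ, hδ0, fun γ hγ hf v hv => ?_⟩
  rcases le_or_gt (B v (γ v)) 2 with h2 | h2
  · exact hδ γ ⟨hγ, pd_move (hΓ hγ) (h1 ho) (h1 hv) (hC ⟨v, hv, rfl⟩) h2⟩ hf v hv
  · have a3 : δ < 1 := hδ1
    linarith

/-- translates of a compact set have bounded height in a cusp -/
theorem IsPD.depth {Γ : Subgroup GV} (h : IsPD Γ) (hΓ : Γ ≤ OO) {φ : GV} (hφ : φ ∈ OO) {b : ℝ}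
    (hb : b ≠ 0) (hp : φ * tr b 0 * φ⁻¹ ∈ Γ) {K : Set V} (hK : IsCompact K) (h1 : K ⊆ HH) :
    ∃ ε : ℝ, 0 < ε ∧ ∀ γ ∈ Γ, ∀ v ∈ K, ε ≤ (φ⁻¹ (γ v)) 3 := by
  obtain ⟨δ, hδ, hm⟩ := h.inj_radius hΓ hK h1
  have hb2 : 0 < b ^ 2 := by positivity
  refine ⟨√(2 * δ / b ^ 2), Real.sqrt_pos.2 (by positivity), fun γ hγ v hv => ?_⟩
  have key : ∀ u ∈ HH, B u ((γ⁻¹ * (φ * tr b 0 * φ⁻¹) * γ) u) =
      1 + b ^ 2 * (φ⁻¹ (γ u)) 3 ^ 2 / 2 := fun u hu => by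
    have e := B_tr (pd_mem (inv_mem hφ) (pd_mem (hΓ hγ) hu)) b 0
    rw [← hφ.1, pd_apply_inv, ← (hΓ (inv_mem hγ)).1, pd_inv_apply] at e
    refine e.trans ?_
    ring
  have pos : ∀ u ∈ HH, 0 < (φ⁻¹ (γ u)) 3 := fun u hu =>
    (pd_mem (inv_mem hφ) (pd_mem (hΓ hγ) hu)).2
  have a1 := hm _ (mul_mem (mul_mem (inv_mem hγ) hp) hγ) (fun u hu e => by
    have a2 := key u hu
    rw [e, hu.1] at a2
    have a3 := mul_pos hb2 (pow_pos (pos u hu) 2)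
    linarith) v hv
  rw [key v (h1 hv)] at a1
  refine Real.sqrt_le_iff.2 ⟨(pos v (h1 hv)).le, ?_⟩
  rw [div_le_iff₀ hb2]
  linarith

theorem pd_sum {f : ℕ → V} (hf : ∀ k, f k ∈ HH) (n : ℕ) :
    0 < (∑ k ∈ Finset.range (n + 1), f k) 3 ∧
      (∀ v ∈ HH, 0 < B v (∑ k ∈ Finset.range (n + 1), f k)) ∧
      0 < B (∑ k ∈ Finset.range (n + 1), f k) (∑ k ∈ Finset.range (n + 1), f k) := by
  induction n with
  | zero =>
    rw [zero_add, Finset.sum_range_one]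
    exact ⟨(hf 0).2, fun v hv => one_pos.trans_le (one_le_B hv (hf 0)), by
      rw [(hf 0).1]
      exact one_pos⟩
  | succ n ih =>
    rw [Finset.sum_range_succ]
    obtain ⟨a1, a2, a3⟩ := ih
    refine ⟨add_pos a1 (hf _).2, fun v hv => ?_, ?_⟩
    · rw [B_add']
      exact add_pos (a2 v hv) (one_pos.trans_le (one_le_B hv (hf _)))
    · rw [B_add, B_add', B_add', (hf _).1, B_symm _ (f (n + 1))]
      linarith [a2 _ (hf (n + 1))]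

/-- an element of finite order has a fixed point -/
theorem exists_fixed {γ : GV} (hγ : γ ∈ OO) {n : ℕ} (hn : 0 < n) (h : γ ^ n = 1) :
    ∃ v ∈ HH, γ v = v := by
  obtain ⟨n, rfl⟩ := Nat.exists_eq_succ_of_ne_zero hn.ne'
  have ho : (![0, 0, 1, 1] : V) ∈ HH := ⟨by simp [B], by simp⟩
  generalize (![0, 0, 1, 1] : V) = o at ho
  obtain ⟨a1, -, a3⟩ := pd_sum (f := fun k => (γ ^ k) o) (fun k => pd_mem (pow_mem hγ k) ho) n
  refine ⟨_, smul_mem_HH a3 a1, ?_⟩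
  rw [map_smul, map_sum]
  congr 1
  have e := (Finset.sum_range_succ' (fun k => (γ ^ k) o) (n + 1)).symm.trans
    (Finset.sum_range_succ (fun k => (γ ^ k) o) (n + 1))
  rw [h, pow_zero] at e
  refine Eq.trans (Finset.sum_congr rfl fun k _ => ?_) (add_right_cancel e)
  rw [pow_succ', LinearEquiv.mul_apply]

end Pool.Agent.Lib.MP_36248f_gt
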