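import Pool.Agent.Lib.MP_36248f_gt.Bridge
import Pool.Agent.Lib.MP_36248f_gt.PD

open Set

namespace Pool.Agent.Lib.MP_36248f_gt

/-- the base point -/
def shimizu_o : V := ![0, 0, 1, 1]

theorem shimizu_o_mem : shimizu_o ∈ HH := by
  constructor
  · simp [B, shimizu_o]
  · simp [shimizu_o]

/-- the sum of the squares of the entries -/
noncomputable def shimizu_N (g : SL2C) : ℝ :=
  ‖g 0 0‖ ^ 2 + ‖g 0 1‖ ^ 2 + ‖g 1 0‖ ^ 2 + ‖g 1 1‖ ^ 2

theorem shimizu_B (g : SL2C) : B shimizu_o (L g shimizu_o) = shimizu_N g / 2 := by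
  simp only [shimizu_N, Complex.sq_norm, Complex.normSq_apply]
  simp [B, shimizu_o, L_apply, Ll]
  ring

theorem shimizu_o2 (g : SL2C) : L g shimizu_o 2 = ‖g 0 0‖ ^ 2 + ‖g 0 1‖ ^ 2 := by
  simp only [Complex.sq_norm, Complex.normSq_apply]
  simp [shimizu_o, L_apply, Ll]

theorem shimizu_p3 (g : SL2C) : L g pinf 3 = ‖g 1 0‖ ^ 2 := by
  simp only [Complex.sq_norm, Complex.normSq_apply]
  simp [pinf, L_apply, Ll]

theorem shimizu_fix {g : SL2C} (hc : g 1 0 = 0) (ha : ‖g 0 0‖ = 1) : L g pinf = pinf := by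
  have h2 : ‖g 0 0‖ ^ 2 = 1 := by rw [ha]; norm_num
  rw [Complex.sq_norm, Complex.normSq_apply] at h2
  ext i
  fin_cases i <;> simp [pinf, L_apply, Ll, hc, h2]

theorem shimizu_Bp (v : V) : B pinf v = v 3 / 2 := by simp [B, pinf]

/-- the unipotent matrix with corner `z` -/
noncomputable def shimizu_U (z : ℂ) : SL2C := ⟨!![1, z; 0, 1], by simp [Matrix.det_fin_two]⟩

theorem shimizu_U_coe (z : ℂ) : (shimizu_U z).1 = !![1, z; 0, 1] := rfl

theorem shimizu_LU : L (shimizu_U 1) = tr 1 0 := by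
  ext v i
  rw [L_apply, shimizu_U_coe, tr_apply]
  fin_cases i <;> simp [Ll, afv]
  ring

theorem shimizu_conj (g : SL2C) (z : ℂ) :
    (g * shimizu_U z * g⁻¹) 0 0 = 1 - g 0 0 * g 1 0 * z ∧
    (g * shimizu_U z * g⁻¹) 0 1 = g 0 0 ^ 2 * z ∧
    (g * shimizu_U z * g⁻¹) 1 0 = -(g 1 0 ^ 2 * z) ∧
    (g * shimizu_U z * g⁻¹) 1 1 = 1 + g 0 0 * g 1 0 * z := by
  have hd := det_entries g
  have e : (g * shimizu_U z * g⁻¹).1 =
      g.1 * !![1, z; 0, 1] * !![g 1 1, -g 0 1; -g 1 0, g 0 0] := by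
    rw [Matrix.SpecialLinearGroup.SL2_inv_expl]
    rfl
  refine ⟨?_, ?_, ?_, ?_⟩ <;> rw [e] <;> simp [Matrix.mul_apply, Fin.sum_univ_two]
  · linear_combination hd
  · ring
  · ring
  · linear_combination hd

theorem shimizu_inf {Γ : Subgroup GV} (h : IsPD Γ) (f : ℕ → SL2C) (hf : ∀ n, L (f n) ∈ Γ)
    {ρ : ℝ} (hρ : ∀ n, shimizu_N (f n) ≤ ρ) (φ : GV → ℝ) (hφ : StrictAnti fun n => φ (L (f n))) :
    False := by
  refine Set.infinite_of_injective_forall_mem (f := fun n => L (f n)) ?_ ?_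
    (h shimizu_o shimizu_o_mem (ρ / 2))
  · intro m n hmn
    exact hφ.injective (congrArg φ hmn)
  · intro n
    refine ⟨hf n, ?_⟩
    rw [shimizu_B]
    linarith [hρ n]

theorem shimizu_zero {Γ : Subgroup GV} (h : IsPD Γ) (ht : tr 1 0 ∈ Γ) {g : SL2C} (hg : L g ∈ Γ)
    (hc : g 1 0 = 0) : 1 ≤ ‖g 0 0‖ := by
  by_contra hlt
  rw [not_le] at hlt
  have ha : g 0 0 ≠ 0 := by
    intro ha
    have hd := det_entries g
    rw [ha, hc] at hd
    simp at hd
  have ha0 : 0 < ‖g 0 0‖ := norm_pos_iff.2 ha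
  have hm : ∀ n : ℕ, L (shimizu_U ((g 0 0 ^ 2) ^ n)) ∈ Γ := by
    intro n
    induction n with
    | zero => rw [pow_zero, shimizu_LU]; exact ht
    | succ n ih =>
      have e : shimizu_U ((g 0 0 ^ 2) ^ (n + 1)) = g * shimizu_U ((g 0 0 ^ 2) ^ n) * g⁻¹ := by
        obtain ⟨h1, h2, h3, h4⟩ := shimizu_conj g ((g 0 0 ^ 2) ^ n)
        ext i j
        fin_cases i <;> fin_cases j
        · exact (h1.trans (by simp [hc, shimizu_U])).symm
        · exact (h2.trans (by simp [shimizu_U, pow_succ'])).symm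
        · exact (h3.trans (by simp [hc, shimizu_U])).symm
        · exact (h4.trans (by simp [hc, shimizu_U])).symm
      rw [e, map_mul, map_mul, map_inv]
      exact Γ.mul_mem (Γ.mul_mem hg ih) (Γ.inv_mem hg)
  have hr0 : 0 < (‖g 0 0‖ ^ 2) ^ 2 := by positivity
  have hr1 : (‖g 0 0‖ ^ 2) ^ 2 < 1 :=
    pow_lt_one₀ (by positivity) (pow_lt_one₀ ha0.le hlt two_ne_zero) two_ne_zero
  have hn : ∀ n : ℕ, ‖(g 0 0 ^ 2) ^ n‖ ^ 2 = ((‖g 0 0‖ ^ 2) ^ 2) ^ n := by
    intro n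
    rw [norm_pow, norm_pow, ← pow_mul, ← pow_mul, ← pow_mul, ← pow_mul, mul_comm n 2]
  refine shimizu_inf h (fun n => shimizu_U ((g 0 0 ^ 2) ^ n)) hm (ρ := 3) (fun n => ?_)
    (fun γ => γ shimizu_o 2) ?_
  · have e : shimizu_N (shimizu_U ((g 0 0 ^ 2) ^ n)) = 2 + ‖(g 0 0 ^ 2) ^ n‖ ^ 2 := by
      simp only [shimizu_N, shimizu_U]
      simp
      ring
    rw [e, hn]
    linarith [pow_le_one₀ (n := n) hr0.le hr1.le]
  · intro m n hmn
    have e : ∀ k : ℕ, L (shimizu_U ((g 0 0 ^ 2) ^ k)) shimizu_o 2 =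
        1 + ((‖g 0 0‖ ^ 2) ^ 2) ^ k := by
      intro k
      rw [shimizu_o2, ← hn]
      simp only [shimizu_U]
      simp
    simp only [e]
    linarith [pow_lt_pow_right_of_lt_one₀ hr0 hr1 hmn]

/-- the sequence of conjugates -/
noncomputable def shimizu_seq (g : SL2C) : ℕ → SL2C
  | 0 => g
  | n + 1 => shimizu_seq g n * shimizu_U 1 * (shimizu_seq g n)⁻¹

theorem shimizu_small {Γ : Subgroup GV} (h : IsPD Γ) (ht : tr 1 0 ∈ Γ) {g : SL2C} (hg : L g ∈ Γ)
    (hc : g 1 0 ≠ 0) : 1 ≤ ‖g 1 0‖ := by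
  by_contra hlt
  rw [not_le] at hlt
  have hc0 : 0 < ‖g 1 0‖ := norm_pos_iff.2 hc
  set r := ‖g 1 0‖ with hr
  set A := max ‖g 0 0‖ (1 / (1 - r)) with hA
  have h1r : 0 < 1 - r := by linarith
  have hA1 : 1 + A * r ≤ A := by
    have : 1 / (1 - r) ≤ A := le_max_right _ _
    rw [div_le_iff₀ h1r] at this
    linarith
  have hA0 : 0 ≤ A := (norm_nonneg _).trans (le_max_left _ _)
  have hm : ∀ n, L (shimizu_seq g n) ∈ Γ := by
    intro n
    induction n with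
    | zero => exact hg
    | succ n ih =>
      rw [shimizu_seq, map_mul, map_mul, map_inv, shimizu_LU]
      exact Γ.mul_mem (Γ.mul_mem ih ht) (Γ.inv_mem ih)
  have hcs : ∀ n, ‖shimizu_seq g (n + 1) 1 0‖ = ‖shimizu_seq g n 1 0‖ ^ 2 := by
    intro n
    rw [shimizu_seq, (shimizu_conj _ _).2.2.1, norm_neg, mul_one, norm_pow]
  have hb : ∀ n, ‖shimizu_seq g n 0 0‖ ≤ A ∧ 0 < ‖shimizu_seq g n 1 0‖ ∧
      ‖shimizu_seq g n 1 0‖ ≤ r := by
    intro n
    induction n with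
    | zero => exact ⟨le_max_left _ _, hc0, le_rfl⟩
    | succ n ih =>
      obtain ⟨i1, i2, i3⟩ := ih
      refine ⟨?_, ?_, ?_⟩
      · rw [shimizu_seq, (shimizu_conj _ _).1, mul_one]
        refine (norm_sub_le _ _).trans ?_
        rw [norm_one, norm_mul]
        have := mul_le_mul i1 i3 i2.le hA0
        linarith
      · rw [hcs]; positivity
      · rw [hcs]; nlinarith
  refine shimizu_inf h (fun n => shimizu_seq g (n + 1)) (fun n => hm _)
    (ρ := A ^ 2 + (A ^ 2) ^ 2 + r ^ 2 + A ^ 2) (fun n => ?_) (fun γ => γ pinf 3) ?_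
  · obtain ⟨i1, i2, i3⟩ := hb n
    obtain ⟨j1, j2, j3⟩ := hb (n + 1)
    have k1 : ‖shimizu_seq g (n + 1) 0 1‖ ≤ A ^ 2 := by
      rw [shimizu_seq, (shimizu_conj _ _).2.1, mul_one, norm_pow]
      exact pow_le_pow_left₀ (norm_nonneg _) i1 2
    have k2 : ‖shimizu_seq g (n + 1) 1 1‖ ≤ A := by
      rw [shimizu_seq, (shimizu_conj _ _).2.2.2, mul_one]
      refine (norm_add_le _ _).trans ?_
      rw [norm_one, norm_mul]
      have := mul_le_mul i1 i3 i2.le hA0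
      linarith
    unfold shimizu_N
    gcongr
  · refine strictAnti_nat_of_succ_lt fun n => ?_
    obtain ⟨-, j2, j3⟩ := hb (n + 1)
    simp only [shimizu_p3]
    rw [hcs (n + 1)]
    have j4 : ‖shimizu_seq g (n + 1) 1 0‖ < 1 := lt_of_le_of_lt j3 hlt
    refine pow_lt_pow_left₀ ?_ (by positivity) two_ne_zero
    nlinarith

theorem shimizu {Γ : Subgroup GV} (h : IsPD Γ) (hΓ : Γ ≤ L.range) (ht : tr 1 0 ∈ Γ) {γ : GV}
    (hγ : γ ∈ Γ) : γ pinf = pinf ∨ 1 / 2 ≤ B pinf (γ pinf) := by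
  obtain ⟨g, rfl⟩ := hΓ hγ
  by_cases hc : g 1 0 = 0
  · left
    have h1 := shimizu_zero h ht hγ hc
    have hi : L g⁻¹ ∈ Γ := by rw [map_inv]; exact Γ.inv_mem hγ
    have h2 := shimizu_zero h ht hi (by simp [Matrix.SpecialLinearGroup.SL2_inv_expl, hc])
    have e : g⁻¹ 0 0 = g 1 1 := by simp [Matrix.SpecialLinearGroup.SL2_inv_expl]
    rw [e] at h2
    have hd := det_entries g
    rw [hc, mul_zero, sub_zero] at hd
    have h3 : ‖g 0 0‖ * ‖g 1 1‖ = 1 := by rw [← norm_mul, hd, norm_one]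
    exact shimizu_fix hc (by nlinarith)
  · right
    have h1 := shimizu_small h ht hγ hc
    rw [shimizu_Bp, shimizu_p3]
    nlinarith

/-- the horoball of height one is precisely invariant -/
theorem horo {Γ : Subgroup GV} (h : IsPD Γ) (hΓ : Γ ≤ L.range) (ht : tr 1 0 ∈ Γ) {γ : GV}
    (hγ : γ ∈ Γ) {v : V} (hv : v ∈ HH) (h1 : v 3 < 1) (h2 : γ v 3 < 1) : γ pinf = pinf := by
  refine (shimizu h hΓ ht hγ).resolve_right fun h3 => ?_
  have hO : γ ∈ OO := by
    obtain ⟨g, rfl⟩ := hΓ hγ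
    exact L_mem g
  have hv' : γ v ∈ HH := (hO.2 v).1 hv
  have h4 := B_tri (Or.inr pinf_mem) hv' (Or.inr (OO_NN hO pinf_mem))
  rw [hO.1, B_symm v, shimizu_Bp v, shimizu_Bp (γ v)] at h4
  have h5 := hv.2
  have h6 := hv'.2
  nlinarith

theorem shimizu_fin {Γ : Subgroup GV} (h : IsPD Γ) (ρ : ℝ) :
    {g : SL2C | L g ∈ Γ ∧ shimizu_N g ≤ ρ}.Finite := by
  have h1 := (h shimizu_o shimizu_o_mem (ρ / 2)).preimage' (f := L) fun b _ => by
    rcases (L ⁻¹' {b}).eq_empty_or_nonempty with h0 | ⟨g, hg⟩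
    · rw [h0]; exact finite_empty
    · refine (toFinite ({g, -g} : Set SL2C)).subset fun k hk => ?_
      have e : L (g⁻¹ * k) = 1 := by
        rw [map_mul, map_inv, show L g = b from hg, show L k = b from hk, inv_mul_cancel]
      rcases L_eq_one.1 e with h2 | h2
      · exact Or.inl (inv_mul_eq_one.1 h2).symm
      · right
        rw [inv_mul_eq_iff_eq_mul] at h2
        rw [h2, mul_neg, mul_one]
        rfl
  refine h1.subset fun g hg => ⟨hg.1, ?_⟩
  rw [shimizu_B]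
  linarith [hg.2]

theorem shimizu_cont : Continuous shimizu_N := by
  have he : ∀ i j, Continuous fun x : SL2C => x i j := fun i j =>
    (continuous_apply_apply i j).comp continuous_subtype_val
  have h00 := he 0 0
  have h01 := he 0 1
  have h10 := he 1 0
  have h11 := he 1 1
  unfold shimizu_N
  fun_prop

theorem discrete_comap {Γ : Subgroup GV} (h : IsPD Γ) : DiscreteTopology (Γ.comap L) := by
  have : T1Space SL2C := inferInstanceAs (T1Space {A : Matrix (Fin 2) (Fin 2) ℂ // A.det = 1})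
  refine discreteTopology_iff_isOpen_singleton.2 fun x => ?_
  refine isOpen_singleton_of_finite_mem_nhds x
    (s := {y : Γ.comap L | shimizu_N y < shimizu_N x + 1}) ?_ ?_
  · refine IsOpen.mem_nhds ?_ (lt_add_one (shimizu_N x))
    exact isOpen_lt (shimizu_cont.comp continuous_subtype_val) continuous_const
  · refine ((shimizu_fin h (shimizu_N x + 1)).preimage
      (Subtype.val_injective.injOn (f := fun y : Γ.comap L => (y : SL2C)))).subset fun y hy => ?_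
    exact ⟨y.2, le_of_lt hy⟩

end Pool.Agent.Lib.MP_36248f_gt
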