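import Pool.Agent.Lib.MP_36248f_gt.Cover
import Pool.Agent.Lib.MP_36248f_gt.Cusp

open Set MeasureTheory

namespace Pool.Agent.Lib.MP_36248f_gt

theorem vol_box (ρ ε : ℝ) (hε : 0 < ε) :
    vol {p : H3 | |p.1.1.re| ≤ ρ ∧ |p.1.1.im| ≤ ρ ∧ ε ≤ p.1.2} < ⊤ := by
  have hs : (Subtype.val '' {p : H3 | |p.1.1.re| ≤ ρ ∧ |p.1.1.im| ≤ ρ ∧ ε ≤ p.1.2} :
      Set (ℂ × ℝ)) ⊆ Metric.closedBall 0 (ρ + ρ) ×ˢ Ioi (ε / 2) := by
    rintro _ ⟨p, ⟨h1, h2, h3⟩, rfl⟩
    refine ⟨?_, (half_lt_self hε).trans_le h3⟩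
    rw [mem_closedBall_zero_iff]
    linarith [Complex.norm_le_abs_re_add_abs_im p.1.1]
  refine (lintegral_mono_set hs).trans_lt ?_
  rw [Measure.volume_eq_prod, ← Measure.prod_restrict,
    lintegral_prod _ (Measurable.aemeasurable (by fun_prop))]
  dsimp only
  rw [lintegral_const, Measure.restrict_apply_univ]
  refine ENNReal.mul_lt_top (Integrable.lintegral_lt_top ?_) measure_closedBall_lt_top
  refine (integrableOn_Ioi_rpow_of_lt (a := -3) (by norm_num) (half_pos hε)).congr_fun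
    (fun t ht => ?_) measurableSet_Ioi
  have h : 0 < t := (half_pos hε).trans ht
  change t ^ (-3 : ℝ) = 1 / t ^ 3
  rw [Real.rpow_neg h.le, one_div]
  norm_cast

theorem exists_box : ∃ ρ ε : ℝ, 0 < ε ∧ ∀ p : H3, ∃ γ ∈ GamC,
    |(act γ p).1.1.re| ≤ ρ ∧ |(act γ p).1.1.im| ≤ ρ ∧ ε ≤ (act γ p).1.2 := by
  choose δ hδ e f s x y h hs using cusp_af
  obtain ⟨ρ, hρ⟩ := (finite_range fun q : Fin 7 × Fin 120 => |x q.1 q.2| + |y q.1 q.2|).bddAbove
  refine ⟨ρ + 3, 1 / 625, by norm_num, fun p => ?_⟩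
  obtain ⟨γ, hγ, i, a, v, hv, h1⟩ := cover (iota_mem p)
  have hm := mul_mem (hδ i a) (inv_mem hγ)
  obtain ⟨g, hg⟩ := Gam_le_range hm
  refine ⟨g, by rwa [GamC, Subgroup.mem_comap, hg], ?_⟩
  obtain ⟨he, hf, s0, h2⟩ := h i a
  have h3 : iota (act g p) = afv (e i a) (f i a) (s i a) (x i a) (y i a) v := by
    rw [iota_act, hg, h1, ← h2, ← LinearEquiv.mul_apply]
    simp [mul_assoc]
  have hb : |x i a| + |y i a| ≤ ρ := hρ ⟨(i, a), rfl⟩
  obtain ⟨x0, x1, y0, y1, w1⟩ := P_box _ hv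
  have w0 := hv.1.2
  have s1 : 1 / 25 ≤ s i a ∧ s i a ≤ 1 := by
    rcases hs i a with h | h <;> rw [h] <;> norm_num
  generalize act g p = q at h3
  generalize s i a = s at *
  generalize x i a = x at *
  generalize y i a = y at *
  have t0 := q.2
  have c0 : q.1.1.re / q.1.2 = e i a * v 0 + x / s * v 3 := congrFun h3 0
  have c1 : q.1.1.im / q.1.2 = f i a * v 1 + y / s * v 3 := congrFun h3 1
  have c3 : 1 / q.1.2 = v 3 / s := congrFun h3 3
  have ht : q.1.2 = s / v 3 := by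
    field_simp at c3 ⊢
    linarith
  have d0 : q.1.1.re = e i a * (s * (v 0 / v 3)) + x := by
    rw [ht] at c0
    field_simp at c0 ⊢
    linarith
  have d1 : q.1.1.im = f i a * (s * (v 1 / v 3)) + y := by
    rw [ht] at c1
    field_simp at c1 ⊢
    linarith
  have b0 := Imul s1 ⟨div_nonneg x0 w0.le, (div_le_iff₀ w0).2 (show v 0 ≤ 3 * v 3 by linarith)⟩
    (by norm_num) le_rfl
  have b1 := Imul s1 ⟨div_nonneg y0 w0.le, (div_le_iff₀ w0).2 y1⟩ (by norm_num) le_rfl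
  refine ⟨?_, ?_, ?_⟩
  · rw [d0, abs_le]
    rcases he with he | he <;> rw [he] <;> constructor <;>
      linarith [b0.1, b0.2, le_abs_self x, neg_abs_le x, abs_nonneg y]
  · rw [d1, abs_le]
    rcases hf with hf | hf <;> rw [hf] <;> constructor <;>
      linarith [b1.1, b1.2, le_abs_self y, neg_abs_le y, abs_nonneg x]
  · rw [ht, le_div_iff₀ w0]
    linarith [s1.1]

theorem vol_fin : ∃ D : Set H3, MeasurableSet D ∧ vol D < ⊤ ∧ ∀ p, ∃ γ ∈ GamC, act γ p ∈ D := by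
  obtain ⟨ρ, ε, hε, h⟩ := exists_box
  refine ⟨_, IsClosed.measurableSet ?_, vol_box ρ ε hε, h⟩
  simp only [ofPred_and]
  refine IsClosed.inter ?_ (IsClosed.inter ?_ ?_) <;> exact isClosed_le (by fun_prop) (by fun_prop)

end Pool.Agent.Lib.MP_36248f_gt
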