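import Pool.Agent.Lib.MP_36248f_gt.Top
import Pool.Agent.Lib.MP_36248f_gt.Free
import Pool.Agent.Lib.MP_36248f_gt.Vol
import Pool.Agent.Lib.MP_36248f_gt.Shimizu

open Set

namespace Pool.Agent.Lib.MP_36248f_gt

theorem HH_sub_CC : HH ⊆ CC := fun _ hv => ⟨by rw [hv.1]; exact one_pos, hv.2⟩

theorem isHyp : ∃ (K : Set S3) (π : H3 → S3), IsKnot K ∧ IsHyp K GamC π := by
  obtain ⟨K, hK, π₀, hc, hr, hf, ho⟩ := top
  obtain ⟨φ, hφ⟩ := exists_homeo
  have ci : Continuous iota := (continuous_subtype_val.comp φ.continuous).congr hφ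
  have sur : ∀ v ∈ HH, ∃ p, iota p = v := fun v hv =>
    ⟨φ.symm ⟨v, hv⟩, by rw [← hφ, φ.apply_symm_apply]⟩
  have inj : ∀ p q, iota p = iota q → p = q := fun p q h =>
    φ.injective (Subtype.ext (by rw [hφ, hφ, h]))
  have mem : ∀ p, iota p ∈ CC := fun p => HH_sub_CC (iota_mem p)
  have sc : ∀ v ∈ CC, π₀ ((√(B v v))⁻¹ • v) = π₀ v := fun v hv =>
    (hf _ (HH_sub_CC (smul_mem_HH hv.1 hv.2)) v hv).2
      ⟨1, one_mem _, _, inv_pos.2 (Real.sqrt_pos.2 hv.1), rfl⟩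
  have oc : IsOpen CC :=
    (isOpen_lt (g := fun v : V => B v v) continuous_const (by unfold B; fun_prop)).inter
      (isOpen_lt (g := fun v : V => v 3) continuous_const (continuous_apply 3))
  refine ⟨K, π₀ ∘ iota, hK, ?_, discrete_comap isPD_Gam, fun γ hγ n hn h => torsion_free hγ hn h,
    vol_fin, hc.comp_continuous ci mem, fun U hU => ?_, ?_, fun p q => ?_⟩
  · rw [GamC, Subgroup.mem_comap, L_eq_one.2 (Or.inr rfl)]
    exact one_mem _
  · obtain ⟨W, hW, e⟩ := isOpen_induced_iff.1 (φ.isOpenMap U hU)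
    have cn : ContinuousOn (fun v : V => (√(B v v))⁻¹ • v) CC := by
      refine ContinuousOn.smul (ContinuousOn.inv₀ (Continuous.continuousOn ?_)
        fun v hv => (Real.sqrt_pos.2 hv.1).ne') continuousOn_id
      unfold B
      fun_prop
    convert ho _ inter_subset_left (cn.isOpen_inter_preimage oc hW) using 1
    ext z
    constructor
    · rintro ⟨p, hp, rfl⟩
      refine ⟨iota p, ⟨mem p, ?_⟩, rfl⟩
      have h : φ p ∈ Subtype.val ⁻¹' W := e ▸ mem_image_of_mem φ hp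
      simpa [(iota_mem p).1, hφ] using h
    · rintro ⟨v, ⟨hv, h⟩, rfl⟩
      have h1 : (⟨_, smul_mem_HH hv.1 hv.2⟩ : HH) ∈ φ '' U := e ▸ h
      obtain ⟨p, hp, h2⟩ := h1
      refine ⟨p, hp, ?_⟩
      rw [Function.comp_apply, ← hφ, h2]
      exact sc v hv
  · rw [← hr]
    ext z
    constructor
    · rintro ⟨p, rfl⟩
      exact ⟨iota p, mem p, rfl⟩
    · rintro ⟨v, hv, rfl⟩
      obtain ⟨p, hp⟩ := sur _ (smul_mem_HH hv.1 hv.2)
      exact ⟨p, by rw [Function.comp_apply, hp, sc v hv]⟩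
  · rw [Function.comp_apply, Function.comp_apply, hf _ (mem p) _ (mem q)]
    constructor
    · rintro ⟨γ, hγ, c, hc0, h⟩
      obtain ⟨g, rfl⟩ := Gam_le_range hγ
      have h1 := (iota_mem (act g p)).1
      rw [iota_act, h, B_smul, B_smul', (iota_mem q).1] at h1
      have h2 : c = 1 := by nlinarith
      exact ⟨g, hγ, inj _ _ (by rw [iota_act, h, h2, one_smul])⟩
    · rintro ⟨g, hg, rfl⟩
      exact ⟨L g, hg, 1, one_pos, by rw [iota_act, one_smul]⟩

end Pool.Agent.Lib.MP_36248f_gt
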