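import Pool.Agent.Lib.MP_36248f_gt.Defs

/-!
The linear model: `V` is the space of Hermitian matrices `[[u, x + i y], [x - i y, w]]` with
coordinates `(x, y, u, w) = (v 0, v 1, v 2, v 3)`.
-/

open Set

namespace Pool.Agent.Lib.MP_36248f_gt

abbrev V : Type := Fin 4 → ℝ

abbrev GV : Type := V ≃ₗ[ℝ] V

/-- the polar form of the determinant -/
noncomputable def B (v v' : V) : ℝ := (v 2 * v' 3 + v 3 * v' 2) / 2 - v 0 * v' 0 - v 1 * v' 1

/-- the hyperboloid -/
def HH : Set V := {v | B v v = 1 ∧ 0 < v 3}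

/-- future pointing nonzero null vectors -/
def NN : Set V := {v | B v v = 0 ∧ 0 < v 2 + v 3}

theorem B_symm (v v' : V) : B v v' = B v' v := by unfold B; ring

theorem B_add (a b v : V) : B (a + b) v = B a v + B b v := by simp [B]; ring

theorem B_smul (t : ℝ) (a v : V) : B (t • a) v = t * B a v := by simp [B]; ring

theorem B_add' (a b v : V) : B v (a + b) = B v a + B v b := by simp [B]; ring

theorem B_smul' (t : ℝ) (a v : V) : B v (t • a) = t * B v a := by simp [B]; ring

theorem B_neg (a v : V) : B (-a) v = -B a v := by simp [B]; ring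

theorem B_neg' (a v : V) : B v (-a) = -B v a := by simp [B]; ring

theorem B_sub (a b v : V) : B (a - b) v = B a v - B b v := by simp [B]; ring

theorem B_sub' (a b v : V) : B v (a - b) = B v a - B v b := by simp [B]; ring

/-- minus the form, as a bilinear map: the sign convention of the file `Tits` -/
noncomputable def Bm : V →ₗ[ℝ] V →ₗ[ℝ] ℝ :=
  LinearMap.mk₂ ℝ (fun a b => -B a b) (fun a b v => by rw [B_add]; ring)
    (fun t a v => by rw [B_smul]; simp) (fun v a b => by rw [B_add']; ring)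
    (fun t v a => by rw [B_smul']; simp)

theorem Bm_apply (a b : V) : Bm a b = -B a b := rfl

/-- the isometry group of the hyperboloid -/
def OO : Subgroup GV where
  carrier := {g | (∀ a b, B (g a) (g b) = B a b) ∧ ∀ v, v ∈ HH ↔ g v ∈ HH}
  one_mem' := ⟨fun _ _ => rfl, fun _ => Iff.rfl⟩
  mul_mem' := fun {g h} hg hh => ⟨fun a b => (hg.1 _ _).trans (hh.1 a b),
    fun v => (hh.2 v).trans (hg.2 _)⟩
  inv_mem' := fun {g} hg => ⟨fun a b => by
      rw [← hg.1]; simp [LinearEquiv.coe_inv], fun v => by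
      rw [hg.2 (g⁻¹ v)]; simp [LinearEquiv.coe_inv]⟩

/-- the map `v ↦ v + 2 B(v, n) n` -/
noncomputable def Rl (n : V) : V →ₗ[ℝ] V where
  toFun v := v + (2 * B v n) • n
  map_add' a b := by rw [B_add, mul_add, add_smul]; abel
  map_smul' t a := by rw [B_smul, smul_add, smul_smul]; simp [mul_left_comm]

open Classical in
/-- the reflection in the plane with unit normal `n` (the identity if `n` is not a unit normal) -/
noncomputable def R (n : V) : GV :=
  if h : B n n = -1 then LinearEquiv.ofInvolutive (Rl n) (fun v => by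
    change (v + (2 * B v n) • n) + (2 * B (v + (2 * B v n) • n) n) • n = v
    rw [B_add, B_smul, h, add_assoc, ← add_smul]; simp; left; ring) else 1

theorem R_apply {n : V} (h : B n n = -1) (v : V) : R n v = v + (2 * B v n) • n := by
  rw [R, dif_pos h]; rfl

theorem R_mul_self (n : V) : R n * R n = 1 := by
  by_cases h : B n n = -1
  · ext1 v
    rw [LinearEquiv.mul_apply, R_apply h, R_apply h, B_add, B_smul, h, add_assoc, ← add_smul]
    simp; left; ring
  · simp [R, h]

/-- normal of the half space `y ≥ 0` -/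
def nT : V := ![0, -1, 0, 0]

/-- complex conjugation `y ↦ -y` -/
noncomputable def cj : GV := R nT

/-- the similarity `(x, y, t) ↦ (e s x + a, f s y + b, s t)` for signs `e`, `f` and `s > 0` -/
noncomputable def afv (e f s a b : ℝ) (v : V) : V :=
  ![e * v 0 + a / s * v 3, f * v 1 + b / s * v 3,
    s * v 2 + 2 * (a * e * v 0 + b * f * v 1) + (a ^ 2 + b ^ 2) / s * v 3, v 3 / s]

/-- `g` is the similarity `afv e f s a b` -/
def IsAf (g : GV) (e f s a b : ℝ) : Prop :=
  (e = 1 ∨ e = -1) ∧ (f = 1 ∨ f = -1) ∧ 0 < s ∧ ∀ v, g v = afv e f s a b v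

/-- the translation by `a + i b` -/
noncomputable def tr (a b : ℝ) : GV where
  toFun := afv 1 1 1 a b
  invFun := afv 1 1 1 (-a) (-b)
  map_add' v v' := by ext i; fin_cases i <;> simp [afv] <;> ring
  map_smul' t v := by ext i; fin_cases i <;> simp [afv] <;> ring
  left_inv v := by ext i; fin_cases i <;> simp [afv]; ring
  right_inv v := by ext i; fin_cases i <;> simp [afv]; ring

theorem tr_apply (a b : ℝ) (v : V) : tr a b v = afv 1 1 1 a b v := rfl

/-- the action `X ↦ m X mᵀ / |det m|` of a real matrix, fixing `y` -/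
noncomputable def El (m : Matrix (Fin 2) (Fin 2) ℝ) : V →ₗ[ℝ] V where
  toFun v :=
    ![(m 0 0 * m 1 0 * v 2 + (m 0 0 * m 1 1 + m 0 1 * m 1 0) * v 0 + m 0 1 * m 1 1 * v 3) / |m.det|,
      v 1, (m 0 0 ^ 2 * v 2 + 2 * m 0 0 * m 0 1 * v 0 + m 0 1 ^ 2 * v 3) / |m.det|,
      (m 1 0 ^ 2 * v 2 + 2 * m 1 0 * m 1 1 * v 0 + m 1 1 ^ 2 * v 3) / |m.det|]
  map_add' v v' := by ext i; fin_cases i <;> simp <;> ring
  map_smul' t v := by ext i; fin_cases i <;> simp <;> ring

theorem El_mul (m m' : Matrix (Fin 2) (Fin 2) ℝ) : El (m * m') = El m * El m' := by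
  ext1 v; ext i
  fin_cases i <;> simp [El, Matrix.mul_apply, Fin.sum_univ_two, abs_mul] <;> ring

theorem El_one : El 1 = 1 := by
  ext1 v; ext i
  fin_cases i <;> simp [El]

/-- real matrices acting on the model, preserving the half space `y ≥ 0` -/
noncomputable def E : GL (Fin 2) ℝ →* GV :=
  (LinearMap.GeneralLinearGroup.generalLinearEquiv ℝ V).toMonoidHom.comp
    (Units.map ⟨⟨El, El_one⟩, El_mul⟩)

theorem E_apply (m : GL (Fin 2) ℝ) (v : V) : E m v = El m v := rfl

/-- integral matrices of determinant one acting on the model -/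
noncomputable def EZ : Matrix.SpecialLinearGroup (Fin 2) ℤ →* GV :=
  E.comp (Matrix.SpecialLinearGroup.mapGL ℝ)

/-- the action `X ↦ g X gᴴ` of a complex matrix -/
noncomputable def Ll (g : Matrix (Fin 2) (Fin 2) ℂ) : V →ₗ[ℝ] V where
  toFun v :=
    ![((g 0 0 * v 2 + g 0 1 * (v 0 - v 1 * Complex.I)) * (starRingEnd ℂ) (g 1 0) +
        (g 0 0 * (v 0 + v 1 * Complex.I) + g 0 1 * v 3) * (starRingEnd ℂ) (g 1 1)).re,
      ((g 0 0 * v 2 + g 0 1 * (v 0 - v 1 * Complex.I)) * (starRingEnd ℂ) (g 1 0) +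
        (g 0 0 * (v 0 + v 1 * Complex.I) + g 0 1 * v 3) * (starRingEnd ℂ) (g 1 1)).im,
      ((g 0 0 * v 2 + g 0 1 * (v 0 - v 1 * Complex.I)) * (starRingEnd ℂ) (g 0 0) +
        (g 0 0 * (v 0 + v 1 * Complex.I) + g 0 1 * v 3) * (starRingEnd ℂ) (g 0 1)).re,
      ((g 1 0 * v 2 + g 1 1 * (v 0 - v 1 * Complex.I)) * (starRingEnd ℂ) (g 1 0) +
        (g 1 0 * (v 0 + v 1 * Complex.I) + g 1 1 * v 3) * (starRingEnd ℂ) (g 1 1)).re]
  map_add' v v' := by ext i; fin_cases i <;> simp <;> ring
  map_smul' t v := by ext i; fin_cases i <;> simp <;> ring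

theorem Ll_mul (m m' : Matrix (Fin 2) (Fin 2) ℂ) : Ll (m * m') = Ll m * Ll m' := by
  ext1 v; ext i
  fin_cases i <;> simp [Ll, Matrix.mul_apply, Fin.sum_univ_two] <;> ring

theorem Ll_one : Ll 1 = 1 := by
  ext1 v; ext i
  fin_cases i <;> simp [Ll]

/-- `SL(2, ℂ)` acting on the model -/
noncomputable def L : SL2C →* GV :=
  (LinearMap.GeneralLinearGroup.generalLinearEquiv ℝ V).toMonoidHom.comp
    ((Units.map ⟨⟨Ll, Ll_one⟩, Ll_mul⟩).comp Matrix.SpecialLinearGroup.toGL)

theorem L_apply (g : SL2C) (v : V) : L g v = Ll g v := rfl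

/-- the point of the hyperboloid attached to `(z, t)` -/
noncomputable def iota (p : H3) : V :=
  ![p.1.1.re / p.1.2, p.1.1.im / p.1.2, (p.1.1.re ^ 2 + p.1.1.im ^ 2 + p.1.2 ^ 2) / p.1.2,
    1 / p.1.2]

/-- the null vector of the point at infinity -/
def pinf : V := ![0, 0, 1, 0]

/-- the null vector of the point `x + i y` -/
def pt (x y : ℝ) : V := ![x, y, x ^ 2 + y ^ 2, 1]

end Pool.Agent.Lib.MP_36248f_gt
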