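import Pool.Agent.Lib.MP_36248f_gt.Fold
import Pool.Agent.Lib.MP_36248f_gt.Free
import Pool.Agent.Lib.MP_36248f_gt.Cusp
import Pool.Agent.Lib.MP_36248f_gt.Shimizu

open Set

namespace Pool.Agent.Lib.MP_36248f_gt

theorem nc_pow {g γ : GV} {n : ℕ} (h : g * γ ^ n * g⁻¹ ∈ Gam) (k : ℕ) :
    g * γ ^ (n * k) * g⁻¹ ∈ Gam := by
  rw [pow_mul, ← conj_pow]; exact pow_mem h k

/-- elements that conjugate a power of every element of the group into the group -/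
noncomputable def CL : Subgroup GV where
  carrier := {g | g ∈ L.range ∧ ∀ γ ∈ Gam, ∃ n : ℕ, 0 < n ∧ g * γ ^ n * g⁻¹ ∈ Gam ∧
    g⁻¹ * γ ^ n * g ∈ Gam}
  one_mem' := ⟨one_mem _, fun γ hγ => ⟨1, one_pos, by simpa using hγ, by simpa using hγ⟩⟩
  mul_mem' := by
    rintro g h ⟨g0, hg⟩ ⟨h0, hh⟩
    refine ⟨mul_mem g0 h0, fun γ hγ => ?_⟩
    obtain ⟨n1, p1, a1, -⟩ := hh γ hγ
    obtain ⟨n2, p2, a2, -⟩ := hg _ a1
    obtain ⟨n3, p3, -, a3⟩ := hg γ hγ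
    obtain ⟨n4, p4, -, a4⟩ := hh _ a3
    have b2 : (g * h) * γ ^ (n1 * n2) * (g * h)⁻¹ ∈ Gam := by
      rw [conj_pow, ← pow_mul] at a2
      simpa [mul_assoc] using a2
    have b4 : (g * h)⁻¹ * γ ^ (n3 * n4) * (g * h)⁻¹⁻¹ ∈ Gam := by
      have e : g⁻¹ * γ ^ n3 * g = g⁻¹ * γ ^ n3 * g⁻¹⁻¹ := by rw [inv_inv]
      rw [e, conj_pow, ← pow_mul] at a4
      simpa [mul_assoc] using a4
    refine ⟨n1 * n2 * (n3 * n4), by positivity, nc_pow b2 _, ?_⟩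
    have := nc_pow b4 (n1 * n2)
    rwa [inv_inv, mul_comm (n3 * n4)] at this
  inv_mem' := by
    rintro g ⟨g0, hg⟩
    refine ⟨inv_mem g0, fun γ hγ => ?_⟩
    obtain ⟨n, p, a, b⟩ := hg γ hγ
    exact ⟨n, p, by rwa [inv_inv], by rwa [inv_inv]⟩

theorem Gam_le_CL : Gam ≤ CL := fun _ hg => ⟨Gam_le_range hg, fun _ hγ => ⟨1, one_pos,
  mul_mem (mul_mem hg (pow_mem hγ 1)) (inv_mem hg),
  mul_mem (mul_mem (inv_mem hg) (pow_mem hγ 1)) hg⟩⟩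

theorem CL_le_OO : CL ≤ OO := by
  rintro g ⟨⟨m, rfl⟩, -⟩; exact L_mem m

theorem B_pinf (v : V) : B v pinf = v 3 / 2 := by simp [B, pinf]

theorem B_pinf' (v : V) : B pinf v = v 3 / 2 := by simp [B, pinf]

theorem nc_inv_apply (g : GV) (v : V) : g⁻¹ (g v) = v := by simp [LinearEquiv.coe_inv]

theorem nc_apply_inv (g : GV) (v : V) : g (g⁻¹ v) = v := by simp [LinearEquiv.coe_inv]

theorem nc_tr_ne {a b : ℝ} (h : tr a b = 1) : a = 0 ∧ b = 0 := by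
  have h0 := congrArg (fun g : GV => g ![0, 0, 0, 1] 0) h
  have h1 := congrArg (fun g : GV => g ![0, 0, 0, 1] 1) h
  simp [tr_apply, afv] at h0 h1
  exact ⟨h0, h1⟩

theorem nc_tr_pinf (a b : ℝ) : tr a b pinf = pinf := by
  rw [(isAf_tr a b).pinf, one_smul]

/-- every parabolic element of the group is conjugate to a translation -/
theorem para {h : GV} (hh : h ∈ OO) {b : ℝ} (hb : b ≠ 0) (H : h * tr b 0 * h⁻¹ ∈ Gam) :
    ∃ γ ∈ Gam, ∃ κ a' b' : ℝ, 0 < κ ∧ h pinf = κ • γ pinf ∧ tr a' b' ∈ Gam ∧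
      h * tr b 0 * h⁻¹ = γ * tr a' b' * γ⁻¹ := by
  set Q := h * tr b 0 * h⁻¹ with hQ
  have Qne : ∀ γ : GV, γ * Q * γ⁻¹ ≠ 1 := fun γ e => by
    rw [conj_eq_one_iff, hQ, conj_eq_one_iff] at e
    exact hb (nc_tr_ne e).1
  set K : Set V := ⋃ q : Fin 7 × Fin 120,
    (pos q.1 * rp q.2 : GV) '' {v | v ∈ P (ty q.1) ∧ 1 / 200 ≤ v 3} with hK
  have Kc : IsCompact K := isCompact_iUnion fun q =>
    (isCompact_thick _ (by norm_num)).image (continuous_GV _)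
  have KH : K ⊆ HH := by
    rintro _ ⟨_, ⟨q, rfl⟩, x, hx, rfl⟩
    exact ((mul_mem (pos_mem _) (rp_mem_OO _) : _ ∈ OO).2 x).1 hx.1.1
  obtain ⟨δ, δ0, hδ⟩ := isPD_Gam.inj_radius Gam_le_OO Kc KH
  obtain ⟨s, s0, s1, s2⟩ : ∃ s : ℝ, 0 < s ∧ b ^ 2 * s ^ 2 / 2 < δ ∧ b ^ 2 * s ^ 2 / 2 ≤ 1 := by
    have hb2 : 0 < b ^ 2 := by positivity
    refine ⟨√(min δ 1 / b ^ 2), Real.sqrt_pos.2 (by positivity), ?_, ?_⟩ <;>
      rw [Real.sq_sqrt (by positivity), mul_div_cancel₀ _ hb2.ne']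
    · linarith [min_le_left δ 1]
    · linarith [min_le_right δ 1]
  have u0 : (![0, 0, s⁻¹, s] : V) ∈ HH := ⟨by simp [B]; field_simp; norm_num, by simpa using s0⟩
  set u : V := ![0, 0, s⁻¹, s] with hu
  have v0 : h u ∈ HH := (hh.2 u).1 u0
  have dv : B (h u) (Q (h u)) = 1 + b ^ 2 * s ^ 2 / 2 := by
    rw [hQ, LinearEquiv.mul_apply, LinearEquiv.mul_apply, nc_inv_apply, hh.1, B_tr u0]
    simp [hu]
  obtain ⟨γ0, g0, i, a, x, hx, e⟩ := cover v0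
  have x3 : x 3 < 1 / 200 := by
    by_contra hc
    have hk : (pos i * rp a : GV) x ∈ K := mem_iUnion.2 ⟨(i, a), x, ⟨hx, not_lt.1 hc⟩, rfl⟩
    have hq : γ0⁻¹ * Q * γ0⁻¹⁻¹ ∈ Gam := mul_mem (mul_mem (inv_mem g0) H) (inv_mem (inv_mem g0))
    have := hδ _ hq (fun v hv e => Qne _ (free hq hv e)) _ hk
    rw [← (Gam_le_OO g0).1, inv_inv, LinearEquiv.mul_apply (γ0⁻¹ * Q), LinearEquiv.mul_apply γ0⁻¹,
      nc_apply_inv, ← LinearEquiv.mul_apply γ0, ← mul_assoc, ← e, dv] at this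
    linarith
  obtain ⟨γ1, g1, e', f, σ, a0, b0, hA, hσ⟩ := cusp_af i a
  set γ := γ1 * γ0⁻¹ with hγ
  have g2 : γ ∈ Gam := mul_mem g1 (inv_mem g0)
  have y0 : γ (h u) ∈ HH := ((Gam_le_OO g2).2 _).1 v0
  have y3 : γ (h u) 3 < 1 / 8 := by
    have : γ (h u) = (γ1 * pos i * rp a) x := by
      rw [e, ← LinearEquiv.mul_apply, hγ]; congr 1; group
    rw [this, hA.2.2.2]
    simp only [afv, Matrix.cons_val]
    rcases hσ with rfl | rfl <;> linarith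
  have hq : γ * Q * γ⁻¹ ∈ Gam := mul_mem (mul_mem g2 H) (inv_mem g2)
  have y' : (γ * Q * γ⁻¹) (γ (h u)) ∈ HH := ((Gam_le_OO hq).2 _).1 y0
  have fixp : (γ * Q * γ⁻¹) pinf = pinf := by
    refine horo isPD_Gam Gam_le_range tr_one_mem hq y0 (by linarith) ?_
    have t := B_tri (Or.inl y') y0 (Or.inr pinf_mem)
    rw [B_pinf, B_pinf, B_symm, LinearEquiv.mul_apply, nc_inv_apply, LinearEquiv.mul_apply,
      (Gam_le_OO g2).1, dv] at t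
    rw [LinearEquiv.mul_apply, nc_inv_apply, LinearEquiv.mul_apply]
    nlinarith [y0.2]
  obtain ⟨α, β, -, -, -, h4, h5⟩ := stab_pinf (Gam_le_range hq) (κ := 1) (by rw [fixp, one_smul])
  have α1 : α = 1 := by
    by_contra hc
    obtain ⟨v, hv, e⟩ := h5 rfl hc
    exact Qne _ (free hq hv e)
  obtain ⟨ε, hε, hAf⟩ := h4 (by simp [α1])
  have ε1 : ε = 1 := by simpa [α1] using hε.symm
  rw [ε1] at hAf
  have et : γ * Q * γ⁻¹ = tr β.re β.im := hAf.ext (isAf_tr _ _)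
  have p0 : γ (h pinf) ∈ NN := OO_NN (Gam_le_OO g2) (OO_NN hh pinf_mem)
  have p1 : tr β.re β.im (γ (h pinf)) = γ (h pinf) := by
    rw [← et, LinearEquiv.mul_apply, nc_inv_apply, LinearEquiv.mul_apply γ Q, hQ,
      LinearEquiv.mul_apply _ h⁻¹, nc_inv_apply, LinearEquiv.mul_apply h, nc_tr_pinf]
  have p3 : γ (h pinf) 3 = 0 := by
    by_contra hc
    have c0 := congrFun p1 0
    have c1 := congrFun p1 1
    simp [tr_apply, afv, hc] at c0 c1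
    exact Qne γ (by rw [et, c0, c1, tr_zero])
  obtain ⟨κ, κ0, hκ⟩ := NN_prop pinf_mem p0 (by rw [B_pinf', p3]; simp)
  refine ⟨γ⁻¹, inv_mem g2, κ, β.re, β.im, κ0, ?_, et ▸ hq, ?_⟩
  · rw [← map_smul, ← hκ, nc_inv_apply]
  · rw [← et]; group

theorem nc_len {k : GV} (hk : k ∈ OO) {κ b a' b' : ℝ} (h1 : k pinf = κ • pinf)
    (h2 : k * tr b 0 * k⁻¹ = tr a' b') : a' ^ 2 + b' ^ 2 = (κ * b) ^ 2 := by
  have u0 : (![0, 0, 1, 1] : V) ∈ HH := ⟨by simp [B], by simp⟩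
  have u1 := ((inv_mem hk : k⁻¹ ∈ OO).2 _).1 u0
  have e1 := B_tr u0 a' b'
  have e2 := B_tr u1 b 0
  rw [← hk.1, nc_apply_inv, ← LinearEquiv.mul_apply, ← LinearEquiv.mul_apply, h2, e1] at e2
  have e3 : k⁻¹ ![0, 0, 1, 1] 3 = κ := by
    have := B_pinf (k⁻¹ ![0, 0, 1, 1])
    rw [← hk.1, nc_apply_inv, h1, B_smul', B_pinf] at this
    simp only [Matrix.cons_val] at this
    linarith
  rw [e3] at e2
  simp at e2
  linarith

theorem nc_rel_tr {Rel : ℝ → ℝ → Prop} (hR : IsRel Rel) {a b a' b' : ℝ}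
    (H : Sg Rel (tr a b) (tr a' b')) : Rel (a ^ 2 + b ^ 2) (a' ^ 2 + b' ^ 2) := by
  have r0 : Rel 0 0 := by simpa using hR.rat 0
  have r1 : Rel 1 1 := by simpa using hR.rat 1
  have := H.1 ![0, 0, 0, 1] ![0, 0, 0, 1] (fun i => by fin_cases i <;> simpa) 2
  simpa [tr_apply, afv] using this

/-- two parabolic elements with a rational invariant have fixed points on one side of each wall -/
theorem nc_core {h₁ h₂ : GV} (hh₁ : h₁ ∈ OO) (hh₂ : h₂ ∈ OO) {b₁ b₂ : ℝ} (hb₁ : b₁ ≠ 0)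
    (hb₂ : b₂ ≠ 0) (H₁ : h₁ * tr b₁ 0 * h₁⁻¹ ∈ Gam) (H₂ : h₂ * tr b₂ 0 * h₂⁻¹ ∈ Gam) (c : ℚ)
    (hc : (b₁ * b₂ * B (h₁ pinf) (h₂ pinf)) ^ 2 = c) {m : V} (hm : m ∈ WN) :
    0 ≤ B (h₁ pinf) m * B (h₂ pinf) m := by
  obtain ⟨Rel, hR⟩ := exists_rel
  obtain ⟨γ1, g1, κ1, a1, c1, k1, e1, t1, f1⟩ := para hh₁ hb₁ H₁
  obtain ⟨γ2, g2, κ2, a2, c2, k2, e2, t2, f2⟩ := para hh₂ hb₂ H₂
  have o1 := Gam_le_OO g1
  have o2 := Gam_le_OO g2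
  have l1 := nc_len (k := γ1⁻¹ * h₁) (mul_mem (inv_mem o1) hh₁) (κ := κ1) (b := b₁) (a' := a1)
    (b' := c1) (by rw [LinearEquiv.mul_apply, e1, map_smul, nc_inv_apply])
    (by rw [mul_inv_rev, inv_inv, mul_assoc, mul_assoc, ← mul_assoc (tr _ _), ← mul_assoc h₁,
      ← mul_assoc h₁, f1]; group)
  have l2 := nc_len (k := γ2⁻¹ * h₂) (mul_mem (inv_mem o2) hh₂) (κ := κ2) (b := b₂) (a' := a2)
    (b' := c2) (by rw [LinearEquiv.mul_apply, e2, map_smul, nc_inv_apply])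
    (by rw [mul_inv_rev, inv_inv, mul_assoc, mul_assoc, ← mul_assoc (tr _ _), ← mul_assoc h₂,
      ← mul_assoc h₂, f2]; group)
  set γ := γ1⁻¹ * γ2 with hγ
  have g : γ ∈ Gam := mul_mem (inv_mem g1) g2
  have eB : ∀ v, B (γ2 pinf) (γ1 v) = B (γ pinf) v := fun v => by
    rw [← (inv_mem o1 : γ1⁻¹ ∈ OO).1, nc_inv_apply, hγ, LinearEquiv.mul_apply]
  obtain ⟨γ', s⟩ := sg_exists hR g
  obtain ⟨τ1, s1⟩ := sg_exists hR t1
  obtain ⟨τ2, s2⟩ := sg_exists hR t2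
  obtain ⟨a1', c1', rfl, i1⟩ := sg_tr hR t1 s1
  obtain ⟨a2', c2', rfl, i2⟩ := sg_tr hR t2 s2
  have r0 : Rel 0 0 := by simpa using hR.rat 0
  have r1 : Rel 1 1 := by simpa using hR.rat 1
  have rB : Rel (B pinf (γ pinf)) (B pinf (γ' pinf)) := by
    have h2 : Rel (1 / 2) (1 / 2) := by simpa using hR.rat (1 / 2)
    have := hR.mul (s.1 pinf pinf (fun i => by fin_cases i <;> simpa [pinf]) 3) h2
    rwa [B_pinf', B_pinf', div_eq_mul_one_div (γ pinf 3), div_eq_mul_one_div (γ' pinf 3)]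
  have hc' : (a1 ^ 2 + c1 ^ 2) * (a2 ^ 2 + c2 ^ 2) * (B pinf (γ pinf) * B pinf (γ pinf)) = c := by
    rw [l1, l2, ← hc, e1, e2, B_smul, B_smul', B_symm (γ1 pinf), eB, B_symm (γ pinf)]; ring
  have hc'' := hR.func (hc' ▸ hR.mul (hR.mul (nc_rel_tr hR s1) (nc_rel_tr hR s2)) (hR.mul rB rB))
    (hR.rat c)
  have n' := NN_nonneg pinf_mem (OO_NN s.2.2 pinf_mem)
  have key : ∀ m ∈ WN, 0 < B pinf m → B (γ pinf) m < 0 → False := fun m hm h1 h2 => by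
    have lt := lip_strict hR g s hm h1 h2
    have p1 : 0 < a1 ^ 2 + c1 ^ 2 := by rw [l1]; positivity
    have p2 : 0 < a2 ^ 2 + c2 ^ 2 := by rw [l2]; positivity
    have q1 : (a1' ^ 2 + c1' ^ 2) * (a2' ^ 2 + c2' ^ 2) ≤ (a1 ^ 2 + c1 ^ 2) * (a2 ^ 2 + c2 ^ 2) :=
      mul_le_mul i1 i2 (by positivity) p1.le
    have q2 : B pinf (γ' pinf) * B pinf (γ' pinf) < B pinf (γ pinf) * B pinf (γ pinf) :=
      mul_self_lt_mul_self n' lt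
    have q3 := mul_le_mul_of_nonneg_right q1 (mul_self_nonneg (B pinf (γ' pinf)))
    have q4 := mul_lt_mul_of_pos_left q2 (mul_pos p1 p2)
    linarith
  have m1 : γ1⁻¹ m ∈ WN ∧ -γ1⁻¹ m ∈ WN := by
    obtain ⟨δ, hδ, k, k1, k2, rfl | rfl⟩ := hm
    · exact ⟨⟨_, mul_mem (inv_mem g1) hδ, k, k1, k2, Or.inl rfl⟩,
        ⟨_, mul_mem (inv_mem g1) hδ, k, k1, k2, Or.inr rfl⟩⟩
    · exact ⟨⟨_, mul_mem (inv_mem g1) hδ, k, k1, k2, Or.inr (map_neg _ _)⟩,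
        ⟨_, mul_mem (inv_mem g1) hδ, k, k1, k2, Or.inl (by rw [map_neg, neg_neg]; rfl)⟩⟩
  have b1 : B (h₁ pinf) m = κ1 * B pinf (γ1⁻¹ m) := by
    rw [e1, B_smul, ← o1.1 pinf, nc_apply_inv]
  have b2 : B (h₂ pinf) m = κ2 * B (γ pinf) (γ1⁻¹ m) := by rw [e2, B_smul, ← eB, nc_apply_inv]
  by_contra hneg
  rw [b1, b2, not_le, mul_mul_mul_comm] at hneg
  rcases mul_neg_iff.1 (neg_of_mul_neg_right hneg (mul_pos k1 k2).le) with ⟨x, y⟩ | ⟨x, y⟩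
  · exact key _ m1.1 x y
  · exact key _ m1.2 (by rw [B_neg']; linarith) (by rw [B_neg']; linarith)

theorem nc_tr_W (t : Ty) {w : GV × Equiv.Perm (Fin 120)} (hw : w ∈ WW t) :
    w.1 * tr 25 0 * w.1⁻¹ ∈ Lam t := by
  have h := eq_lam_rp hw (a := w.2⁻¹ 0) (by simp)
  obtain ⟨m, hm, e⟩ := rp_tr_mem (w.2⁻¹ 0)
  have := mul_mem (mul_mem h (e ▸ EZ_mem_bot t hm)) (inv_mem h)
  convert this using 1
  group

theorem nc_EZ_W (t : Ty) (m : Matrix.SpecialLinearGroup (Fin 2) ℤ) :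
    ∃ p, (EZ m, p) ∈ WW t := by
  obtain ⟨m', hm', a, e⟩ := EZ_eq_rp m
  obtain ⟨p, hp, -⟩ := mem_Lam.1 (EZ_mem_bot t hm')
  obtain ⟨q, hq, -⟩ := rp_mem t a
  have hle : Subgroup.closure (gen t '' {i | i.1 < 3}) ≤ WW t :=
    Subgroup.closure_mono (image_subset_range _ _)
  have hq' := hle hq
  have := mul_mem hp hq'
  rw [Prod.mk_mul_mk, ← e] at this
  exact ⟨_, this⟩

theorem nc_EZ_pinf (m : Matrix.SpecialLinearGroup (Fin 2) ℤ) :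
    EZ m pinf = ![(m 0 0 : ℝ) * m 1 0, 0, (m 0 0 : ℝ) ^ 2, (m 1 0 : ℝ) ^ 2] := by
  have hd : ((Matrix.SpecialLinearGroup.mapGL ℝ m : GL (Fin 2) ℝ) :
      Matrix (Fin 2) (Fin 2) ℝ).det = 1 := (Matrix.SpecialLinearGroup.map (algebraMap ℤ ℝ) m).2
  ext i
  change El _ pinf i = _
  simp only [El, LinearMap.coe_mk, AddHom.coe_mk, hd]
  fin_cases i <;> simp [pinf]

theorem nc_rat (r : ℚ) : ∃ m : Matrix.SpecialLinearGroup (Fin 2) ℤ, ∃ c : ℝ, 0 < c ∧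
    EZ m pinf = c • pt r 0 := by
  obtain ⟨u, v, h⟩ : IsCoprime r.num (r.den : ℤ) := by
    rw [Int.isCoprime_iff_gcd_eq_one]; exact r.reduced
  let m : Matrix.SpecialLinearGroup (Fin 2) ℤ :=
    ⟨!![r.num, -v; r.den, u], by rw [Matrix.det_fin_two_of]; linarith⟩
  have m0 : m 0 0 = r.num := rfl
  have m1 : m 1 0 = r.den := rfl
  refine ⟨m, (r.den : ℝ) ^ 2, by have := r.den_pos; positivity, ?_⟩
  have hn : (r.num : ℝ) = r * r.den := by exact_mod_cast (Rat.mul_den_eq_num r).symm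
  rw [nc_EZ_pinf, m0, m1]
  ext i
  fin_cases i <;> simp [pt, hn] <;> ring

theorem nc_pair {g : GV} (hg : g ∈ CL) {γ : GV} (hγ : γ ∈ Gam) (i : Fin 7)
    {w : GV × Equiv.Perm (Fin 120)} (hw : w ∈ WW (ty i))
    (m₁ m₂ : Matrix.SpecialLinearGroup (Fin 2) ℤ) {m : V} (hm : m ∈ WN) :
    0 ≤ B ((g * γ * pos i * w.1) (EZ m₁ pinf)) m * B ((g * γ * pos i * w.1) (EZ m₂ pinf)) m := by
  have o : g * γ * pos i * w.1 ∈ OO :=
    mul_mem (mul_mem (mul_mem (CL_le_OO hg) (Gam_le_OO hγ)) (pos_mem _)) (WW_mem_OO hw)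
  have key : ∀ m₀ : Matrix.SpecialLinearGroup (Fin 2) ℤ, ∃ n : ℕ, 0 < n ∧
      (g * γ * pos i * w.1 * EZ m₀) * tr (n * 25) 0 * (g * γ * pos i * w.1 * EZ m₀)⁻¹ ∈ Gam := by
    intro m₀
    obtain ⟨p, hp⟩ := nc_EZ_W (ty i) m₀
    have h1 := nc_tr_W _ (mul_mem hw hp)
    have h2 : pos i * ((w.1 * EZ m₀) * tr 25 0 * (w.1 * EZ m₀)⁻¹) * (pos i)⁻¹ ∈ Gp i := by
      rw [mem_Gp]; convert h1 using 1; simp only [Prod.fst_mul]; group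
    obtain ⟨n, n0, h3, -⟩ := hg.2 _ (mul_mem (mul_mem hγ (Gp_le_Gam i h2)) (inv_mem hγ))
    refine ⟨n, n0, ?_⟩
    have e := tr_zpow 25 0 n
    rw [mul_zero, zpow_natCast, Int.cast_natCast] at e
    rw [conj_pow, conj_pow, conj_pow, e] at h3
    convert h3 using 1
    group
  obtain ⟨n1, p1, h1⟩ := key m₁
  obtain ⟨n2, p2, h2⟩ := key m₂
  have oZ : ∀ m₀, EZ m₀ ∈ OO := fun m₀ => E_mem _
  refine nc_core (mul_mem o (oZ m₁)) (mul_mem o (oZ m₂)) (by positivity) (by positivity) h1 h2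
    ((n1 * 25 * (n2 * 25) * (((m₁ 0 0 * m₂ 1 0 - m₁ 1 0 * m₂ 0 0 : ℤ) : ℚ) ^ 2 / 2)) ^ 2) ?_ hm
  rw [LinearEquiv.mul_apply _ (EZ m₁), LinearEquiv.mul_apply _ (EZ m₂), o.1, nc_EZ_pinf,
    nc_EZ_pinf]
  simp only [B, Matrix.cons_val]
  push_cast
  ring

/-- the image of a wall under an element of `CL` does not cross a wall -/
theorem non_cross {g : GV} (hg : g ∈ CL) {γ : GV} (hγ : γ ∈ Gam) (i : Fin 7)
    {w : GV × Equiv.Perm (Fin 120)} (hw : w ∈ WW (ty i)) (r r' : ℚ) {m : V} (hm : m ∈ WN) :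
    0 ≤ B ((g * γ * pos i * w.1) pinf) m * B ((g * γ * pos i * w.1) (pt r 0)) m ∧
    0 ≤ B ((g * γ * pos i * w.1) (pt r' 0)) m * B ((g * γ * pos i * w.1) (pt r 0)) m := by
  obtain ⟨m₁, c, c0, e⟩ := nc_rat r
  obtain ⟨m₂, c', c0', e'⟩ := nc_rat r'
  have h1 := nc_pair hg hγ i hw 1 m₁ hm
  have h2 := nc_pair hg hγ i hw m₂ m₁ hm
  rw [map_one, LinearEquiv.coe_one, id, e, map_smul, B_smul, mul_left_comm] at h1
  rw [e, e', map_smul, map_smul, B_smul, B_smul, mul_mul_mul_comm] at h2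
  exact ⟨nonneg_of_mul_nonneg_right h1 c0 |> fun h => h,
    nonneg_of_mul_nonneg_right h2 (mul_pos c0' c0) |> fun h => h⟩

end Pool.Agent.Lib.MP_36248f_gt
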