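import Mathlib

/-!
The real numbers that describe the middle polyhedron.
-/

set_option autoImplicit false

namespace Pool.Agent.Lib.MP_36248f_gt

open Real

theorem Imul {x y a b c d : ℝ} (hx : a ≤ x ∧ x ≤ b) (hy : c ≤ y ∧ y ≤ d) (ha : 0 ≤ a)
    (hc : 0 ≤ c) : a * c ≤ x * y ∧ x * y ≤ b * d :=
  ⟨mul_le_mul hx.1 hy.1 hc (ha.trans hx.1),
    mul_le_mul hx.2 hy.2 (hc.trans hy.1) ((ha.trans hx.1).trans hx.2)⟩

theorem Idiv {x y z c d e f a b : ℝ} (h : x * y = z) (hy : c ≤ y ∧ y ≤ d) (hz : e ≤ z ∧ z ≤ f)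
    (hc : 0 < c) (ha : 0 ≤ a) (hb : 0 ≤ b) (h1 : a * d ≤ e) (h2 : f ≤ b * c) : a ≤ x ∧ x ≤ b := by
  have hy0 : 0 < y := hc.trans_le hy.1
  constructor
  · refine le_of_mul_le_mul_right ?_ hy0
    nlinarith [mul_le_mul_of_nonneg_left hy.2 ha]
  · refine le_of_mul_le_mul_right ?_ hy0
    nlinarith [mul_le_mul_of_nonneg_left hy.1 hb]

theorem Isqrt {z e f a b : ℝ} (hz : e ≤ z ∧ z ≤ f) (hb : 0 ≤ b) (h1 : a ^ 2 ≤ e)
    (h2 : f ≤ b ^ 2) : a ≤ √z ∧ √z ≤ b :=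
  ⟨Real.le_sqrt_of_sq_le (h1.trans hz.1), Real.sqrt_le_iff.2 ⟨hb, hz.2.trans h2⟩⟩

/-- The polynomial of degree eight over `ℚ(√3)`. -/
def g4 (s H : ℝ) : ℝ :=
  9 + (-372 + 36 * s) * H + (2682 + 100 * s) * H ^ 2 + (-4429 + 342 * s) * H ^ 3 +
    (3921 - 470 * s) * H ^ 4 + (-1927 + 230 * s) * H ^ 5 + (520 - 50 * s) * H ^ 6 +
    (-72 + 4 * s) * H ^ 7 + 4 * H ^ 8

/-- Numerator of `r5`. -/
def N5 (s H : ℝ) : ℝ :=
  -12 + (168 + 24 * s) * H + (-192 - 20 * s) * H ^ 2 + (68 + 4 * s) * H ^ 3 - 8 * H ^ 4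

/-- Denominator of `r5`. -/
def D5 (s H : ℝ) : ℝ :=
  -24 + 24 * s - 124 * s * H + (-32 + 84 * s) * H ^ 2 + (8 - 16 * s) * H ^ 3

theorem s3_sq : √3 ^ 2 = (3 : ℝ) := Real.sq_sqrt (by norm_num)

theorem s3_bd : (1.7320508075688 : ℝ) ≤ √3 ∧ √3 ≤ (1.7320508075689 : ℝ) :=
  Isqrt ⟨le_rfl, le_rfl⟩ (by norm_num) (by norm_num) (by norm_num)

theorem exists_H : ∃ H : ℝ, (4.495670052 ≤ H ∧ H ≤ 4.495670053) ∧ g4 √3 H = 0 := by
  have hc : ContinuousOn (g4 √3) (Set.Icc 4.495670052 4.495670053) := by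
    unfold g4
    fun_prop
  have h : (0 : ℝ) ∈ Set.Icc (g4 √3 4.495670052) (g4 √3 4.495670053) := by
    unfold g4
    constructor <;> linarith [s3_bd.1, s3_bd.2]
  obtain ⟨H, h1, h2⟩ := intermediate_value_Icc (by norm_num) hc h
  exact ⟨H, h1, h2⟩

/-- The numbers: `s = √3`, `h = √H` the height, `a = 1 / r5`, `b = 1 / r6`, `Y5 = y5 / r5`,
`Y6 = y6 / r6`. -/
structure Num (s H h a b Y5 Y6 A om : ℝ) : Prop where
  s2 : s ^ 2 = 3
  g : g4 s H = 0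
  h2 : h ^ 2 = H
  ea : a * N5 s H = D5 s H
  eb : b * (H * ((H - 4) * a - s)) = H + s
  e5 : Y5 * (2 * h) = H * a + s
  e6 : Y6 * (2 * h) = H * b - 1
  eA : A * (4 * Y5) = 3 * a + 2 * s + 1
  eo : om ^ 2 * (8 * (A ^ 2 - 3 / 4)) = s + 7
  q5 : (s + a) * a - (a - 1) ^ 2 / 4 - Y5 ^ 2 = -1
  q6 : b ^ 2 - 1 / 4 - Y6 ^ 2 = -1
  q56 : ((s + a) * b + a * b) / 2 - (a - 1) / 4 - Y5 * Y6 = 0
  bs : 1.7320508075688 ≤ s ∧ s ≤ 1.7320508075689
  bH : 4.495670052 ≤ H ∧ H ≤ 4.495670053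
  bh : 2.120299519 ≤ h ∧ h ≤ 2.12029952
  ba : 4.039385 ≤ a ∧ a ≤ 4.039387
  bb : 5.12772 ≤ b ∧ b ≤ 5.12778
  b5 : 4.690797 ≤ Y5 ∧ Y5 ≤ 4.690801
  b6 : 5.2003 ≤ Y6 ∧ Y6 ≤ 5.2004
  bA : 0.883764 ≤ A ∧ A ≤ 0.883767
  bo : 5.9293 ≤ om ∧ om ≤ 5.9303

noncomputable section

/-- The square of the height. -/
def cH : ℝ := exists_H.choose
/-- The height. -/
def ch0 : ℝ := √cH
/-- `1 / r5`. -/
def ca : ℝ := D5 √3 cH / N5 √3 cH
/-- `1 / r6`. -/
def cb : ℝ := (cH + √3) / (cH * ((cH - 4) * ca - √3))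
/-- `y5 / r5`. -/
def cY5 : ℝ := (cH * ca + √3) / (2 * ch0)
/-- `y6 / r6`. -/
def cY6 : ℝ := (cH * cb - 1) / (2 * ch0)
/-- The second coordinate of the centre of the closed surface. -/
def cA : ℝ := (3 * ca + 2 * √3 + 1) / (4 * cY5)
/-- The coefficient in the fourth normal. -/
def com : ℝ := √((√3 + 7) / (8 * (cA ^ 2 - 3 / 4)))

end

theorem num : Num √3 cH ch0 ca cb cY5 cY6 cA com := by
  have s2 := s3_sq
  have bs := s3_bd
  obtain ⟨bH, g⟩ : (4.495670052 ≤ cH ∧ cH ≤ 4.495670053) ∧ g4 √3 cH = 0 := exists_H.choose_spec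
  have h2 : ch0 ^ 2 = cH := Real.sq_sqrt (by linarith [bH.1])
  have bh : 2.120299519 ≤ ch0 ∧ ch0 ≤ 2.12029952 :=
    Isqrt bH (by norm_num) (by norm_num) (by norm_num)
  have da : ca = D5 √3 cH / N5 √3 cH := rfl
  have db : cb = (cH + √3) / (cH * ((cH - 4) * ca - √3)) := rfl
  have d5 : cY5 = (cH * ca + √3) / (2 * ch0) := rfl
  have d6 : cY6 = (cH * cb - 1) / (2 * ch0) := rfl
  have dA : cA = (3 * ca + 2 * √3 + 1) / (4 * cY5) := rfl
  have dm : com = √((√3 + 7) / (8 * (cA ^ 2 - 3 / 4))) := rfl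
  generalize √3 = s at *
  generalize cH = H at *
  generalize ch0 = h at *
  generalize ca = a at *
  generalize cb = b at *
  generalize cY5 = Y5 at *
  generalize cY6 = Y6 at *
  generalize cA = A at *
  generalize com = om at *
  have m2 := Imul bH bH (by norm_num) (by norm_num)
  have m3 := Imul m2 bH (by norm_num) (by norm_num)
  have m4 := Imul m3 bH (by norm_num) (by norm_num)
  have n1 := Imul bs bH (by norm_num) (by norm_num)
  have n2 := Imul bs m2 (by norm_num) (by norm_num)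
  have n3 := Imul bs m3 (by norm_num) (by norm_num)
  have bN : 110.24870 ≤ -N5 s H ∧ -N5 s H ≤ 110.24873 := by
    unfold N5
    constructor <;> linarith [m2.1, m2.2, m3.1, m3.2, m4.1, m4.2, n1.1, n1.2, n2.1, n2.2, n3.1, n3.2]
  have bD : 445.33707 ≤ -D5 s H ∧ -D5 s H ≤ 445.33709 := by
    unfold D5
    constructor <;> linarith [m2.1, m2.2, m3.1, m3.2, m4.1, m4.2, n1.1, n1.2, n2.1, n2.2, n3.1, n3.2]
  have hN : N5 s H ≠ 0 := by linarith [bN.1]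
  have ea : a * N5 s H = D5 s H := by
    rw [da]
    field_simp
  have ba : 4.039385 ≤ a ∧ a ≤ 4.039387 :=
    Idiv (by linarith) bN bD (by norm_num) (by norm_num) (by norm_num) (by norm_num) (by norm_num)
  have Ha := Imul bH ba (by norm_num) (by norm_num)
  have b4 : 0.495670052 ≤ H - 4 ∧ H - 4 ≤ 0.495670053 := by constructor <;> linarith [bH.1, bH.2]
  have p1 := Imul b4 ba (by norm_num) (by norm_num)
  have bQ : 0.270151 ≤ (H - 4) * a - s ∧ (H - 4) * a - s ≤ 0.270153 := by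
    constructor <;> linarith [p1.1, p1.2, bs.1, bs.2]
  have p2 := Imul bH bQ (by norm_num) (by norm_num)
  have hQ : H * ((H - 4) * a - s) ≠ 0 := by linarith [p2.1]
  have eb : b * (H * ((H - 4) * a - s)) = H + s := by
    rw [db]
    exact div_mul_cancel₀ _ hQ
  have bb : 5.12772 ≤ b ∧ b ≤ 5.12778 :=
    Idiv (e := 6.2277208) (f := 6.2277209) eb p2 (by constructor <;> linarith [bH.1, bH.2, bs.1, bs.2])
      (by norm_num) (by norm_num) (by norm_num) (by norm_num) (by norm_num)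
  have Hb := Imul bH bb (by norm_num) (by norm_num)
  have b2 : 4.240599038 ≤ 2 * h ∧ 2 * h ≤ 4.24059904 := by constructor <;> linarith [bh.1, bh.2]
  have hh : 2 * h ≠ 0 := by linarith [b2.1]
  have e5 : Y5 * (2 * h) = H * a + s := by
    rw [d5]
    exact div_mul_cancel₀ _ hh
  have e6 : Y6 * (2 * h) = H * b - 1 := by
    rw [d6]
    exact div_mul_cancel₀ _ hh
  have b5 : 4.690797 ≤ Y5 ∧ Y5 ≤ 4.690801 :=
    Idiv (e := 19.89179) (f := 19.891803) e5 b2 (by constructor <;> linarith [Ha.1, Ha.2, bs.1, bs.2])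
      (by norm_num) (by norm_num) (by norm_num) (by norm_num) (by norm_num)
  have b6 : 5.2003 ≤ Y6 ∧ Y6 ≤ 5.2004 :=
    Idiv (e := 22.0525) (f := 22.05281) e6 b2 (by constructor <;> linarith [Hb.1, Hb.2])
      (by norm_num) (by norm_num) (by norm_num) (by norm_num) (by norm_num)
  have eA : A * (4 * Y5) = 3 * a + 2 * s + 1 := by
    rw [dA]
    exact div_mul_cancel₀ _ (by linarith [b5.1])
  have bA : 0.883764 ≤ A ∧ A ≤ 0.883767 :=
    Idiv (c := 18.763188) (d := 18.763204) (e := 16.582256) (f := 16.582263) eA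
      (by constructor <;> linarith [b5.1, b5.2])
      (by constructor <;> linarith [ba.1, ba.2, bs.1, bs.2])
      (by norm_num) (by norm_num) (by norm_num) (by norm_num) (by norm_num)
  have AA := Imul bA bA (by norm_num) (by norm_num)
  have b8 : 0.24831 ≤ 8 * (A ^ 2 - 3 / 4) ∧ 8 * (A ^ 2 - 3 / 4) ≤ 0.24836 := by
    constructor <;> linarith [AA.1, AA.2]
  have h8 : 8 * (A ^ 2 - 3 / 4) ≠ 0 := by linarith [b8.1]
  have b9 : 35.158 ≤ (s + 7) / (8 * (A ^ 2 - 3 / 4)) ∧ (s + 7) / (8 * (A ^ 2 - 3 / 4)) ≤ 35.166 :=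
    Idiv (e := 8.73205) (f := 8.73206) (div_mul_cancel₀ _ h8) b8
      (by constructor <;> linarith [bs.1, bs.2])
      (by norm_num) (by norm_num) (by norm_num) (by norm_num) (by norm_num)
  have bo : 5.9293 ≤ om ∧ om ≤ 5.9303 := by
    rw [dm]
    exact Isqrt b9 (by norm_num) (by norm_num) (by norm_num)
  have eo : om ^ 2 * (8 * (A ^ 2 - 3 / 4)) = s + 7 := by
    rw [dm, Real.sq_sqrt (by linarith [b9.1])]
    exact div_mul_cancel₀ _ h8
  have H0 : 4 * H ≠ 0 := by linarith [bH.1]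
  have G1 : 4 * H * ((s * N5 s H + D5 s H) * D5 s H) - H * (D5 s H - N5 s H) ^ 2 -
      (H * D5 s H + s * N5 s H) ^ 2 + 4 * H * N5 s H ^ 2 = 0 := by
    unfold g4 at g
    unfold N5 D5
    linear_combination ((-48) + 48*H) * g + ((-144) + 5184*H + 576*s*H + (-41952)*H^2 +
      (-7392)*s*H^2 + (-576)*s^2*H^2 + 76080*H^3 + 9120*s*H^3 + 960*s^2*H^3 + (-61824)*H^4 +
      (-3104)*s*H^4 + (-592)*s^2*H^4 + 27392*H^5 + (-480)*s*H^5 + 160*s^2*H^5 + (-7024)*H^6 +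
      448*s*H^6 + (-16)*s^2*H^6 + 1008*H^7 + (-64)*s*H^7 + (-64)*H^8) * s2
  have G3 : 4 * H * ((H + s) * N5 s H) ^ 2 + 3 * H * (H * ((H - 4) * D5 s H - s * N5 s H)) ^ 2 -
      (H * ((H + s) * N5 s H) - H * ((H - 4) * D5 s H - s * N5 s H)) ^ 2 = 0 := by
    unfold g4 at g
    unfold N5 D5
    linear_combination (192*H + (-192)*H^2 + 128*s*H^2 + 208*H^3 + (-64)*s*H^3 + (-16)*H^4) * g +
      (576*H + (-21312)*H^2 + (-2304)*s*H^2 + 185904*H^3 + 27264*s*H^3 + 2304*s^2*H^3 +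
      (-473472)*H^4 + (-24000)*s*H^4 + (-6144)*s^2*H^4 + 661920*H^5 + (-44768)*s*H^5 +
      7936*s^2*H^5 + (-593360)*H^6 + 83040*s*H^6 + (-5888)*s^2*H^6 + 348800*H^7 +
      (-54496)*s*H^7 + 2480*s^2*H^7 + (-130240)*H^8 + 17888*s*H^8 + (-544)*s^2*H^8 + 29456*H^9 +
      (-2944)*s*H^9 + 48*s^2*H^9 + (-3664)*H^10 + 192*s*H^10 + 192*H^11) * s2
  rw [← ea] at G1 G3
  have keep : a * N5 s H = D5 s H := ea
  generalize N5 s H = N at G1 G3 hN
  have F1 : 4 * H * ((s + a) * a) - H * (a - 1) ^ 2 - (H * a + s) ^ 2 + 4 * H = 0 :=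
    mul_left_cancel₀ (pow_ne_zero 2 hN) (by linear_combination G1)
  have F3 : 4 * H * (H + s) ^ 2 + 3 * H * (H * ((H - 4) * a - s)) ^ 2 -
      (H * (H + s) - H * ((H - 4) * a - s)) ^ 2 = 0 :=
    mul_left_cancel₀ (pow_ne_zero 2 hN) (by linear_combination G3)
  have q56 : ((s + a) * b + a * b) / 2 - (a - 1) / 4 - Y5 * Y6 = 0 := by
    refine mul_left_cancel₀ H0 ?_
    have e : 4 * H * (Y5 * Y6) = (H * a + s) * (H * b - 1) := by
      rw [← e5, ← e6, ← h2]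
      ring
    linear_combination -e - eb
  rw [← eb] at F3
  generalize H * ((H - 4) * a - s) = Q at F3 hQ
  have F4 : 4 * H * b ^ 2 + 3 * H - (H * b - 1) ^ 2 = 0 :=
    mul_left_cancel₀ (pow_ne_zero 2 hQ) (by linear_combination F3)
  refine ⟨s2, g, h2, keep, eb, e5, e6, eA, eo, mul_left_cancel₀ H0 ?_, mul_left_cancel₀ H0 ?_, q56,
    bs, bH, bh, ba, bb, b5, b6, bA, bo⟩
  · have e : 4 * H * Y5 ^ 2 = (H * a + s) ^ 2 := by
      rw [← e5, ← h2]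
      ring
    linear_combination F1 - e
  · have e : 4 * H * Y6 ^ 2 = (H * b - 1) ^ 2 := by
      rw [← e6, ← h2]
      ring
    linear_combination F4 - e

end Pool.Agent.Lib.MP_36248f_gt
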