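import Pool.Agent.Lib.MP_36248f_gt.Inst
import Pool.Agent.Lib.MP_36248f_gt.PD

open Set

namespace Pool.Agent.Lib.MP_36248f_gt

/-- Induction along reduced words. -/
theorem Refl.induct {G V ι : Type} [Group G] [AddCommGroup V] [Module ℝ V]
    {B : V →ₗ[ℝ] V →ₗ[ℝ] ℝ} {ρ : G →* V ≃ₗ[ℝ] V} {s : ι → G} {a : ι → V} (H : Refl B ρ s a)
    {p : G → Prop} (h1 : p 1) (h2 : ∀ w ∈ Subgroup.closure (range s), ∀ i,
      (∀ x, (∀ j, B (a j) x ≤ 0) → B (ρ w (a i)) x ≤ 0) → p w → p (w * s i))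
    {w : G} (hw : w ∈ Subgroup.closure (range s)) : p w := by
  have main : ∀ n : ℕ, ∀ l : List ι, l.length = n → p (wd s l) := by
    intro n
    induction n using Nat.strong_induction_on with
    | _ n ih =>
      intro l hn
      by_cases hred : ∃ l' : List ι, wd s l' = wd s l ∧ l'.length < n
      · obtain ⟨l', e, h⟩ := hred
        exact e ▸ ih _ h l' rfl
      rcases List.eq_nil_or_concat l with rfl | ⟨l0, j, rfl⟩
      · exact h1
      rw [List.concat_eq_append] at hn hred ⊢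
      rw [wd_append, wd_one] at hred ⊢
      have hn' : l0.length + 1 = n := by simpa using hn
      refine h2 _ (wd_mem s l0) j (fun x hx => H.pos hx _ l0 j rfl fun l' h' => ?_)
        (ih _ (by omega) l0 rfl)
      by_contra hc
      exact hred ⟨l', h', by omega⟩
  obtain ⟨l, rfl⟩ := exists_wd H.sq hw
  exact main _ l rfl

theorem piece0 (t : Ty) : ∃ p, Piece BL HH (MonoidHom.fst GV (Equiv.Perm (Fin 120))) (gen t)
    (fun i => nm t i) (Empty.elim : Empty → V) p :=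
  piece t (fun x => x.elim) fun x => x.elim

theorem WW_induct {t : Ty} {p : GV × Equiv.Perm (Fin 120) → Prop} (h1 : p 1)
    (h2 : ∀ w ∈ WW t, ∀ i : Fin (ng t), (∀ x ∈ Ch t, 0 ≤ B x (w.1 (nm t i))) → p w →
      p (w * gen t i)) {w : GV × Equiv.Perm (Fin 120)} (hw : w ∈ WW t) : p w := by
  refine (refl t).induct h1 (fun w hw i h => h2 w hw i fun x hx => ?_) hw
  have h3 := h x fun j => by
    rw [Bm_apply, B_symm]
    exact neg_nonpos.2 (hx j)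
  rw [Bm_apply, B_symm] at h3
  exact neg_nonpos.1 h3

theorem gen_apply {t : Ty} (w : GV × Equiv.Perm (Fin 120)) (i : Fin (ng t)) (m : V) :
    (w * gen t i).1 m = w.1 m + (2 * B m (nm t i)) • w.1 (nm t i) := by
  rw [Prod.fst_mul, LinearEquiv.mul_apply, gen, R_apply (nm_unit t i), map_add, map_smul]

theorem isPD_W (t : Ty) : IsPD ((WW t).map (MonoidHom.fst _ _)) := by
  obtain ⟨p, P⟩ := piece0 t
  intro v hv ρ
  refine ((P.pd lorB {v} _ isCompact_singleton (by simpa using hv) (isCompact_ball hv ρ)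
    fun _ h => h.1).image Prod.fst).subset ?_
  rintro _ ⟨⟨w, hw, rfl⟩, h⟩
  exact ⟨w, ⟨hw, v, rfl, ((WW_mem_OO hw).2 v).1 hv, h⟩, rfl⟩

theorem cover_W (t : Ty) {v : V} (hv : v ∈ HH) : ∃ w ∈ WW t, w.1 v ∈ Ch t := by
  obtain ⟨p, P⟩ := piece0 t
  obtain ⟨w, hw, h⟩ := P.cover lorB univ hv
  exact ⟨w, closure_le_W _ _ hw, fun i => BL_swap _ _ ▸ h i trivial⟩

theorem chamber_W {t : Ty} {w : GV × Equiv.Perm (Fin 120)} (hw : w ∈ WW t) {x : V}
    (hx : x ∈ Ch t) (hwx : w.1 x ∈ Ch t) :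
    w.1 x = x ∧ w ∈ Subgroup.closure (gen t '' {i | B x (nm t i) = 0}) := by
  obtain ⟨p, P⟩ := piece0 t
  have h := P.chamber lorB hw (x := x) (fun i => BL_swap _ _ ▸ hx i) fun i => BL_swap _ _ ▸ hwx i
  simpa only [Wv, BL_swap, MonoidHom.coe_fst] using h

theorem wall_le {t : Ty} {m : V} (hm : m ∈ Ch t) {w : GV × Equiv.Perm (Fin 120)} (hw : w ∈ WW t)
    {x : V} (hx : x ∈ Ch t) : B x m ≤ B x (w.1 m) := by
  refine WW_induct (p := fun w => B x m ≤ B x (w.1 m)) le_rfl (fun w _ i h1 h2 => ?_) hw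
  rw [gen_apply, B_add', B_smul']
  nlinarith [mul_nonneg (hm i) (h1 x hx)]

theorem wall_dich {t : Ty} {m : V} (hm : B m m = -1)
    (h : ∀ i : Fin (ng t), B m (nm t i) = 0 ∨
      (1 ≤ B m (nm t i) ∧ 0 < (m + nm t i) 2 + (m + nm t i) 3))
    {w : GV × Equiv.Perm (Fin 120)} (hw : w ∈ WW t) :
    w ∈ Subgroup.closure (gen t '' {i | B m (nm t i) = 0}) ∨
      ∀ x ∈ HH, x ∈ Ch t → 0 < B x (w.1 m) := by
  refine WW_induct (p := fun w => w ∈ Subgroup.closure (gen t '' {i | B m (nm t i) = 0}) ∨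
    ∀ x ∈ HH, x ∈ Ch t → 0 < B x (w.1 m)) (Or.inl (one_mem _)) (fun w hw i h1 h2 => ?_) hw
  rcases h i with h0 | ⟨h3, h4⟩
  · refine h2.imp (fun h2 => mul_mem h2 (Subgroup.subset_closure ⟨i, h0, rfl⟩)) fun h2 => ?_
    simpa [gen_apply, h0, -Prod.fst_mul] using h2
  · refine Or.inr fun x hx hc => ?_
    have hO := WW_mem_OO hw
    have h5 := B_pos_causal (((inv_mem hO).2 x).1 hx) (c := m + nm t i) (by
      rw [B_add, B_add', B_add', hm, nm_unit, B_symm (nm t i)]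
      linarith) h4
    rw [← OO_adj hO, map_add, B_add'] at h5
    rw [gen_apply, B_add', B_smul']
    nlinarith [h1 x hc]

theorem mw_anti {i j : Fin 7} (h : adj i j) : mw j i = -mw i j := mw_neg h

theorem mw_unit (i j : ℕ) : B (mw i j) (mw i j) = -1 := by
  rw [mw]
  split_ifs
  · rw [B_neg, B_neg', neg_neg, (pos_mem j).1, nT_unit]
  · rw [(pos_mem i).1, nT_unit]

theorem Gp_OO {i : Fin 7} {a : GV} (ha : a ∈ Gp i) : a ∈ OO := Gam_le_OO (Gp_le_Gam i ha)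

theorem Om_eq (i : Fin 7) : Om i = Reg BL HH (MonoidHom.id GV) DD.G DD.o DD.n i := by
  ext v
  refine and_congr_right fun _ => ⟨?_, fun h a ha j hj => ?_⟩
  · rintro h e rfl g hg
    rw [DD_G] at hg
    have h1 := h _ (inv_mem hg) e.1.2 e.2
    rw [OO_adj (Gp_OO (inv_mem hg)), inv_inv] at h1
    rwa [DD_n, BL_swap]
  · have h1 := h ⟨(i, j), hj⟩ rfl a⁻¹ (by rw [DD_G]; exact inv_mem ha)
    rw [DD_n, BL_swap] at h1
    rwa [OO_adj (Gp_OO ha)]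

theorem rp_WW (t : Ty) (a : Fin 120) : ∃ p : Equiv.Perm (Fin 120), (rp a, p) ∈ WW t ∧ p a = 0 :=
  (rp_mem t a).imp fun _ h => ⟨closure_le_W _ _ h.1, h.2⟩

theorem conj_mem_Gp {i : ℕ} {l : GV} (hl : l ∈ Lam (ty i)) : pos i * l * (pos i)⁻¹ ∈ Gp i :=
  mem_Gp.2 (by simpa [mul_assoc] using hl)

theorem WW_eq {i : ℕ} {w : GV × Equiv.Perm (Fin 120)} (hw : w ∈ WW (ty i)) :
    ∃ γ ∈ Gp i, pos i * w.1 = γ * pos i * rp (w.2⁻¹ 0) :=
  ⟨_, conj_mem_Gp (eq_lam_rp hw (a := w.2⁻¹ 0) (by simp)), by simp [mul_assoc]⟩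

theorem Om_inv {i : Fin 7} {v : V} (hv : v ∈ Om i) {a : GV} (ha : a ∈ Gp i) : a v ∈ Om i := by
  rw [Om_eq] at hv ⊢
  exact DD_ok.chain.reg_smul hv (g := a) (by rwa [DD_G])

theorem Om_iff {i : Fin 7} {v : V} :
    v ∈ Om i ↔ ∃ γ ∈ Gp i, ∃ a, ∃ x ∈ P (ty i), v = (γ * pos i * rp a) x := by
  constructor
  · intro h
    rw [Om_eq] at h
    obtain ⟨w, hw, y, hy, rfl⟩ := DD_ok.reg_tile h
    obtain ⟨γ, hγ, e⟩ := WW_eq (i := i) hw
    exact ⟨γ, hγ, _, y, DD_tile i ▸ hy, by rw [← e]; rfl⟩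
  · rintro ⟨γ, hγ, a, x, hx, rfl⟩
    obtain ⟨p, hp, -⟩ := rp_WW (ty i) a
    have h := DD_ok.tile_reg (k := i) hp ((DD_tile i).symm ▸ hx)
    rw [← Om_eq] at h
    exact Om_inv h hγ

/-- the closed half spaces beyond the walls of a piece are disjoint -/
theorem wall_disj {i j j' : Fin 7} (hj : adj i j) (hj' : adj i j') {a : GV} (ha : a ∈ Gp i)
    {v : V} (hv : v ∈ HH) (h1 : B v (a (mw i j)) ≤ 0) (h2 : B v (mw i j') ≤ 0) :
    j = j' ∧ ∃ m ∈ LamZ, a = pos (max i j) * EZ m * (pos (max i j))⁻¹ := by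
  have hO := Gp_OO ha
  rw [← DD_G] at ha
  obtain ⟨w, hw, h0, rfl⟩ := ha
  obtain ⟨p, P⟩ := DD_ok.piece i
  have hp := pos_mem i
  obtain ⟨h3, h4⟩ := P.pre lorB (t := ⟨⟨(i, j), hj⟩, rfl⟩) (t' := ⟨⟨(i, j'), hj'⟩, rfl⟩) hw
    (((inv_mem hp).2 _).1 (((inv_mem hO).2 v).1 hv)) (by
      rw [OO_adj hO] at h1
      rw [BL_apply]
      exact ((inv_mem hp).1 _ _).trans_le (B_symm _ _ ▸ h1)) (by
      rw [BL_apply, ← hp.1, B_symm]
      simpa [GD.Tk, DD] using h2)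
  exact ⟨congrArg (fun t => t.1.1.2) h3, wall_form (e := ⟨(i, j), hj⟩) h4 h0⟩

theorem wall_gp {i j : Fin 7} (hj : adj i j) {m : Matrix.SpecialLinearGroup (Fin 2) ℤ}
    (hm : m ∈ LamZ) : pos (max i j) * EZ m * (pos (max i j))⁻¹ ∈ Gp i ∧
      pos (max i j) * EZ m * (pos (max i j))⁻¹ ∈ Gp j ∧
      (pos (max i j) * EZ m * (pos (max i j))⁻¹) (mw i j) = mw i j := by
  refine ⟨max_comm (j : ℕ) i ▸ wall_mem' hj.symm hm, wall_mem' hj hm, ?_⟩
  have h0 : EZ m nT = nT := E_nT _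
  rcases hj with h | h
  · rw [show max (i : ℕ) j = j by omega, mw, if_pos h]
    simp [h0]
  · rw [show max (i : ℕ) j = i by omega, mw, if_neg (by omega)]
    simp [h0]

theorem wall_sub_Om {i j : Fin 7} (hj : adj i j) {v : V} (hv : v ∈ HH) (h : B v (mw i j) = 0) :
    v ∈ Om i := by
  rw [Om_eq]
  exact DD_ok.chain.wall_reg (e := ⟨(i, j), hj⟩) hv (by rwa [DD_n, BL_swap])

theorem W_nT_mem (i : Fin 7) {γ : GV} (hγ : γ ∈ Gam) {w : GV × Equiv.Perm (Fin 120)}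
    (hw : w ∈ WW (ty i)) : (γ * pos i * w.1) nT ∈ WN := by
  obtain ⟨δ, hδ, e⟩ := WW_eq (i := i) hw
  have h1 : (γ * pos i * w.1) nT = (γ * δ) (pos i nT) := by
    rw [mul_assoc, e]
    simp [rp_nT]
  refine ⟨γ * δ, mul_mem hγ (Gp_le_Gam i hδ), ?_⟩
  by_cases h0 : i.1 = 0
  · refine ⟨1, le_rfl, by norm_num, Or.inr ?_⟩
    rw [h1, h0, pos_nT 0, map_neg, neg_neg]
    rfl
  · exact ⟨i, by omega, by omega, Or.inl h1⟩

theorem W_nU_mem (i : Fin 7) (hi : ty i ≠ .S) {γ : GV} (hγ : γ ∈ Gam)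
    {w : GV × Equiv.Perm (Fin 120)} (hw : w ∈ WW (ty i)) :
    (γ * pos i * w.1) (nU (ty i)) ∈ WN := by
  obtain ⟨δ, hδ, e⟩ := WW_eq (i := i) hw
  have h0 := mt ty_S.2 hi
  have h2 : tau (ty i) nT = -nU (ty i) := by rw [tau_nT, if_neg hi]
  have h3 : (tau (ty i))⁻¹ (nU (ty i)) = -nT := by
    rw [← neg_neg (nU (ty i)), ← h2]
    simp
  have hl := conj_mem_Gp (inv_mem (rp_up (ty i) (w.2⁻¹ 0)))
  refine ⟨_, mul_mem hγ (Gp_le_Gam i (mul_mem hδ hl)), i + 1, by omega, by omega, Or.inr ?_⟩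
  rw [pos_nT, nV, if_neg hi, map_neg, neg_neg, mul_assoc, e]
  have h4 : (tau (ty i) * rp (ph (ty i) (w.2⁻¹ 0)) * (tau (ty i))⁻¹)⁻¹ (nU (ty i)) =
      nU (ty i) := by
    rw [LinearEquiv.coe_inv, LinearEquiv.symm_apply_eq, LinearEquiv.mul_apply,
      LinearEquiv.mul_apply, h3, map_neg, rp_nT, map_neg, h2, neg_neg]
  rw [mul_inv_rev, inv_inv]
  simp only [LinearEquiv.mul_apply, h4, LinearEquiv.coe_inv (pos _), LinearEquiv.symm_apply_apply]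

end Pool.Agent.Lib.MP_36248f_gt
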