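import Pool.Agent.Lib.MP_36248f_gt.Omega

open Set

namespace Pool.Agent.Lib.MP_36248f_gt

/-- reduced paths from piece `i` that have just crossed the wall from `j₀` to `j` -/
inductive Red (i : Fin 7) : GV → Fin 7 → Fin 7 → Prop
  | first {a : GV} {j : Fin 7} : a ∈ Gp i → adj i j → Red i a j i
  | next {γ b : GV} {j j₀ j' : Fin 7} : Red i γ j j₀ → b ∈ Gp j → adj j j' →
      ¬(j' = j₀ ∧ b ∈ Gp j₀) → Red i (γ * b) j' j

/-- reduced paths from piece `i` to piece `j` -/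
def Reach (i : Fin 7) (γ : GV) (j : Fin 7) : Prop :=
  (i = j ∧ γ ∈ Gp i) ∨ ∃ γ' b j₀, Red i γ' j j₀ ∧ b ∈ Gp j ∧ γ = γ' * b

theorem Reach.mul {i j : Fin 7} {γ b : GV} (h : Reach i γ j) (hb : b ∈ Gp j) :
    Reach i (γ * b) j := by
  rcases h with ⟨rfl, h⟩ | ⟨γ', b', j₀, h1, h2, rfl⟩
  · exact Or.inl ⟨rfl, mul_mem h hb⟩
  · exact Or.inr ⟨γ', b' * b, j₀, h1, mul_mem h2 hb, mul_assoc _ _ _⟩

theorem Reach.move {i j j' : Fin 7} {γ : GV} (h : Reach i γ j) (hj : adj j j') :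
    Reach i γ j' := by
  rcases h with ⟨rfl, h⟩ | ⟨γ', b, j₀, h1, h2, rfl⟩
  · exact Or.inr ⟨γ, 1, i, Red.first h hj, one_mem _, (mul_one _).symm⟩
  by_cases h3 : j' = j₀ ∧ b ∈ Gp j₀
  · obtain ⟨rfl, h3⟩ := h3
    cases h1 with
    | first h4 _ => exact Or.inl ⟨rfl, mul_mem h4 h3⟩
    | next h4 h5 _ _ => exact Or.inr ⟨_, _, _, h4, mul_mem h5 h3, mul_assoc _ _ _⟩
  · exact Or.inr ⟨_, 1, j, Red.next h1 h2 hj h3, one_mem _, (mul_one _).symm⟩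

theorem reach {γ : GV} (hγ : γ ∈ Gam) (i j : Fin 7) : Reach i γ j := by
  have all : ∀ γ j, Reach i γ j → ∀ j', Reach i γ j' := fun γ j h j' =>
    adj_conn (p := fun j => Reach i γ j) (fun _ _ hab h => h.move hab.symm) j j' h
  have key : ∀ γ', Reach i γ' i → Reach i (γ' * γ) i := by
    refine Subgroup.iSup_induction (fun i : Fin 7 => Gp i) (C := fun γ => ∀ γ', Reach i γ' i →
      Reach i (γ' * γ) i) hγ (fun k g hg γ' h => all _ _ ((all _ _ h k).mul hg) i)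
      (fun γ' h => by simpa using h) fun a b ha hb γ' h => ?_
    rw [← mul_assoc]
    exact hb _ (ha _ h)
  simpa using all _ _ (key 1 (Or.inl ⟨rfl, one_mem _⟩)) j

theorem Red.adj {i j j₀ : Fin 7} {γ : GV} (h : Red i γ j j₀) : adj j j₀ ∧ γ ∈ Gam := by
  induction h with
  | first h1 h2 => exact ⟨h2.symm, Gp_le_Gam _ h1⟩
  | next _ h1 h2 _ ih => exact ⟨h2.symm, mul_mem ih.2 (Gp_le_Gam _ h1)⟩

theorem Red.side {i j j₀ : Fin 7} {γ : GV} (h : Red i γ j j₀) {v : V} (hv : v ∈ Om i) :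
    B v (γ (mw j j₀)) ≤ 0 ∧ ((j₀ = i ∧ γ ∈ Gp i) ∨ B v (γ (mw j j₀)) < 0) := by
  induction h with
  | first h1 h2 =>
    refine ⟨?_, Or.inl ⟨rfl, h1⟩⟩
    rw [mw_anti h2, map_neg, B_neg']
    exact neg_nonpos.2 (hv.2 _ h1 _ h2)
  | @next γ b j j₀ j' h0 h1 h2 h3 ih =>
    have hO := Gam_le_OO h0.adj.2
    have h4 : B v ((γ * b) (mw j' j)) < 0 := by
      rw [mw_anti h2, map_neg, B_neg', LinearEquiv.mul_apply, OO_adj hO]
      by_contra hc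
      obtain ⟨rfl, m, hm, rfl⟩ := wall_disj h2 h0.adj.1 h1 (((inv_mem hO).2 v).1 hv.1)
        (by linarith) (OO_adj hO _ _ ▸ ih.1)
      exact h3 ⟨rfl, (wall_gp h2 hm).2.1⟩
    exact ⟨h4.le, Or.inr h4⟩

/-- two translates of regions meet only along a wall -/
theorem Om_meet {i j : Fin 7} {γ : GV} (hγ : γ ∈ Gam) {u : V} (hu : u ∈ Om j)
    (hv : γ u ∈ Om i) : (i = j ∧ γ ∈ Gp i) ∨
      (adj i j ∧ ∃ a ∈ Gp i, ∃ b ∈ Gp j, γ = a * b ∧ B (b u) (mw i j) = 0) := by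
  rcases reach hγ i j with h | ⟨γ', b, j₀, h1, h2, rfl⟩
  · exact Or.inl h
  obtain ⟨h3, h4⟩ := h1.side hv
  have h5 := (Om_inv hu h2).2 1 (one_mem _) j₀ h1.adj.1
  rw [LinearEquiv.mul_apply, (Gam_le_OO h1.adj.2).1] at h3 h4
  obtain ⟨rfl, h6⟩ := h4.resolve_right (not_lt.2 h5)
  refine Or.inr ⟨h1.adj.1.symm, γ', h6, b, h2, rfl, ?_⟩
  rw [mw_anti h1.adj.1, B_neg', neg_eq_zero]
  exact le_antisymm h3 h5

theorem exists_on_wall (i j : Fin 7) : ∃ z ∈ HH, B z (mw i j) = 0 := by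
  have h1 : ∀ k, ∃ z ∈ HH, B z (pos k nT) = 0 := fun k =>
    ⟨pos k ![0, 0, 1, 1], ((pos_mem k).2 _).1 ⟨by simp [B], by simp⟩, by
      rw [(pos_mem k).1, B_nT]
      rfl⟩
  rw [mw]
  split_ifs
  · simpa [B_neg'] using h1 j
  · exact h1 i

theorem both_fix {i j : Fin 7} (h : adj i j) {b : GV} (h1 : b ∈ Gp i) (h2 : b ∈ Gp j) :
    b (mw i j) = mw i j := by
  obtain ⟨z, hz, h0⟩ := exists_on_wall i j
  have h3 := (wall_sub_Om h.symm hz (by rw [mw_anti h, B_neg', h0, neg_zero])).2 b h2 i h.symm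
  rw [mw_anti h, map_neg, B_neg'] at h3
  obtain ⟨-, m, hm, rfl⟩ := wall_disj h h h1 hz (by linarith) h0.le
  exact (wall_gp h hm).2.2

theorem WN_iff {m : V} : m ∈ WN ↔ ∃ γ ∈ Gam, ∃ i j : Fin 7, adj i j ∧ m = γ (mw i j) := by
  constructor
  · rintro ⟨γ, hγ, k, h1, h2, h⟩
    have ha : adj ⟨k, by omega⟩ ⟨k - 1, by omega⟩ := Or.inr (by simp only; omega)
    have e : mw k (k - 1) = pos k nT := by rw [mw, if_neg (by omega)]
    rcases h with rfl | rfl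
    · exact ⟨γ, hγ, _, _, ha, by rw [← e]⟩
    · exact ⟨γ, hγ, _, _, ha.symm, by rw [mw_anti ha, map_neg, ← e]⟩
  · rintro ⟨γ, hγ, i, j, h, rfl⟩
    rcases h with h | h
    · exact ⟨γ, hγ, j, by omega, by omega, Or.inr (by rw [mw, if_pos h, map_neg])⟩
    · exact ⟨γ, hγ, i, by omega, by omega, Or.inl (by rw [mw, if_neg (by omega)])⟩

/-- no wall enters a region -/
theorem Om_side {i : Fin 7} {m : V} (hm : m ∈ WN) :
    (∀ v ∈ Om i, 0 ≤ B v m) ∨ ∀ v ∈ Om i, B v m ≤ 0 := by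
  obtain ⟨γ, hγ, j, j', h, rfl⟩ := WN_iff.1 hm
  rcases reach hγ i j with ⟨rfl, h1⟩ | ⟨γ', b, j₀, h1, h2, rfl⟩
  · exact Or.inl fun v hv => hv.2 γ h1 j' h
  by_cases h3 : j' = j₀ ∧ b ∈ Gp j₀
  · obtain ⟨rfl, h3⟩ := h3
    refine Or.inr fun v hv => ?_
    rw [LinearEquiv.mul_apply, both_fix h h2 h3]
    exact (h1.side hv).1
  · refine Or.inl fun v hv => ?_
    have h4 := ((Red.next h1 h2 h h3).side hv).1
    rw [mw_anti h, map_neg, B_neg'] at h4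
    linarith

theorem pd_Gam : PD HH (MonoidHom.id GV) Gam := DD_Gam ▸ DD_ok.pd

theorem isPD_Gam : IsPD Gam := fun v hv ρ =>
  (pd_Gam {v} _ isCompact_singleton (by simpa using hv) (isCompact_ball hv ρ)
    fun _ h => h.1).subset fun _ h => ⟨h.1, v, rfl, ((Gam_le_OO h.1).2 v).1 hv, h.2⟩

/-- the wall `y = 0` is precisely invariant -/
theorem wall_inv {γ : GV} (hγ : γ ∈ Gam) {v : V} (hv : v ∈ HH) (h1 : v 1 = 0) (h2 : γ v 1 = 0) :
    ∃ m ∈ LamZ, γ = EZ m := by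
  let e : Ed := ⟨(0, 1), Or.inl rfl⟩
  have hT : DD.T e = nV (ty (0 : Fin 7)) := T_up rfl
  have hn : DD.n e = nT := by
    rw [GD.n, hT]
    rfl
  obtain ⟨w, hw, h0, rfl⟩ := DD_ok.wall_inj (DD_Gam ▸ hγ) (e := e) hv
    (by rw [hn, BL_swap, B_nT, h1]) (by rw [hn, BL_swap, B_nT, h2])
  rw [hT] at hw
  obtain ⟨m, hm, h3⟩ := lam_bot ((Wv_dn 0).le hw) h0
  exact ⟨m, hm, by rw [← h3]; simp [DD, e, pos]⟩

theorem EZ_mem_Gam {m : Matrix.SpecialLinearGroup (Fin 2) ℤ} (hm : m ∈ LamZ) : EZ m ∈ Gam :=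
  Gp_le_Gam 0 (mem_Gp.2 (by simpa [pos] using EZ_mem_bot _ hm))

end Pool.Agent.Lib.MP_36248f_gt
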