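import Pool.Agent.Lib.MP_36248f_gt.Lor
import Pool.Agent.Lib.MP_36248f_gt.Tits

/-!
Groups glued along walls.
-/

set_option autoImplicit false

namespace Pool.Agent.Lib.MP_36248f_gt

open Set Real

variable {V : Type} [AddCommGroup V] [Module ℝ V] [TopologicalSpace V]
  {G : Type} [Group G]

section Chain

variable {K E : Type}

/-- Groups `Γ k`, and for each oriented edge `e` with origin `o e` a wall with normal `n e` whose
outer side `B (n e) x ≤ 0` is precisely invariant. -/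
structure Chain (B : V →ₗ[ℝ] V →ₗ[ℝ] ℝ) (S : Set V) (ρ : G →* V ≃ₗ[ℝ] V) (Γ : K → Subgroup G)
    (o : E → K) (rev : E → E) (n : E → V) : Prop where
  iso : ∀ k, ∀ g ∈ Γ k, Iso B S (ρ g)
  rr : ∀ e, rev (rev e) = e
  neg : ∀ e, n (rev e) = -n e
  pre : ∀ e e', o e = o e' → ∀ g ∈ Γ (o e), ∀ x ∈ S, B (n e) x ≤ 0 → B (n e') (ρ g x) ≤ 0 →
    e = e' ∧ g ∈ Γ (o (rev e)) ∧ ρ g (n e) = n e
  conn : ∀ p : K → Prop, (∀ e, p (o (rev e)) → p (o e)) → ∀ j k, p j → p k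

/-- The region of the piece `k`. -/
def Reg (B : V →ₗ[ℝ] V →ₗ[ℝ] ℝ) (S : Set V) (ρ : G →* V ≃ₗ[ℝ] V) (Γ : K → Subgroup G)
    (o : E → K) (n : E → V) (k : K) : Set V :=
  {x | x ∈ S ∧ ∀ e, o e = k → ∀ g ∈ Γ k, 0 ≤ B (n e) (ρ g x)}

/-- Reduced paths. -/
inductive Pth (B : V →ₗ[ℝ] V →ₗ[ℝ] ℝ) (ρ : G →* V ≃ₗ[ℝ] V) (Γ : K → Subgroup G)
    (o : E → K) (rev : E → E) (n : E → V) (x : V) (k : K) : K → G → Prop
  | base (g : G) : g ∈ Γ k → Pth B ρ Γ o rev n x k k g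
  | step (e : E) (g γ : G) : Pth B ρ Γ o rev n x k (o (rev e)) γ → g ∈ Γ (o e) →
      B (n e) (ρ γ x) ≤ 0 → (B (n e) (ρ γ x) < 0 ∨ (o (rev e) = k ∧ γ ∈ Γ k)) →
      Pth B ρ Γ o rev n x k (o e) (g * γ)

variable {B : V →ₗ[ℝ] V →ₗ[ℝ] ℝ} {S : Set V} {ρ : G →* V ≃ₗ[ℝ] V} {Γ : K → Subgroup G}
  {o : E → K} {rev : E → E} {n : E → V}

theorem Chain.iso_sup (L : Lor B S) (C : Chain B S ρ Γ o rev n) {γ : G} (hγ : γ ∈ ⨆ k, Γ k) :
    Iso B S (ρ γ) :=
  (iSup_le fun k g hg => C.iso k g hg : (⨆ k, Γ k) ≤ (isoG L).comap ρ) hγ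

omit [TopologicalSpace V] in
theorem Chain.reg_smul (C : Chain B S ρ Γ o rev n) {k : K} {x : V} (hx : x ∈ Reg B S ρ Γ o n k)
    {g : G} (hg : g ∈ Γ k) : ρ g x ∈ Reg B S ρ Γ o n k :=
  ⟨(C.iso k g hg).2 x hx.1, fun e he g' hg' => by
    rw [← rho_mul_apply]
    exact hx.2 e he _ (mul_mem hg' hg)⟩

omit [TopologicalSpace V] in
/-- A wall lies in the region. -/
theorem Chain.wall_reg (C : Chain B S ρ Γ o rev n) {e : E} {x : V} (hx : x ∈ S)
    (h : B (n e) x = 0) : x ∈ Reg B S ρ Γ o n (o e) := by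
  refine ⟨hx, fun e' he g hg => ?_⟩
  by_contra hc
  obtain ⟨rfl, -, h1⟩ := C.pre e e' he.symm g hg x hx h.le (not_le.1 hc).le
  rw [← h1, (C.iso _ g hg).1, h] at hc
  exact hc le_rfl

omit [TopologicalSpace V] in
theorem Pth.mem {x : V} {k j : K} {γ : G} (h : Pth B ρ Γ o rev n x k j γ) : γ ∈ ⨆ k, Γ k := by
  induction h with
  | base g hg => exact Subgroup.mem_iSup_of_mem _ hg
  | step e g γ _ hg _ _ ih => exact mul_mem (Subgroup.mem_iSup_of_mem _ hg) ih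

omit [TopologicalSpace V] in
theorem Pth.mul {x : V} {k j : K} {γ g : G} (h : Pth B ρ Γ o rev n x k j γ) (hg : g ∈ Γ j) :
    Pth B ρ Γ o rev n x k j (g * γ) := by
  cases h with
  | base _ h => exact Pth.base _ (mul_mem hg h)
  | step e g' γ h1 h2 h3 h4 =>
    rw [← mul_assoc]
    exact Pth.step e _ γ h1 (mul_mem hg h2) h3 h4

theorem Pth.move (L : Lor B S) (C : Chain B S ρ Γ o rev n) {x : V} {k j : K} {γ : G}
    (hx : x ∈ Reg B S ρ Γ o n k) (h : Pth B ρ Γ o rev n x k j γ) (e : E) (he : o (rev e) = j) :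
    Pth B ρ Γ o rev n x k (o e) γ := by
  by_cases hlt : B (n e) (ρ γ x) < 0
  · simpa using Pth.step e 1 γ (he ▸ h) (one_mem _) hlt.le (Or.inl hlt)
  cases h with
  | base _ hg =>
    have h1 := hx.2 (rev e) he γ hg
    rw [C.neg, map_neg, LinearMap.neg_apply] at h1
    simpa using Pth.step e 1 γ (by rw [he]; exact Pth.base γ hg) (one_mem _) (by linarith)
      (Or.inr ⟨he, hg⟩)
  | step e' g γ h1 h2 h3 h4 =>
    obtain ⟨rfl, h5, -⟩ := C.pre e' (rev e) he.symm g h2 _ ((C.iso_sup L h1.mem).2 x hx.1) h3 (by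
      rw [C.neg, map_neg, LinearMap.neg_apply, ← rho_mul_apply]
      linarith)
    rw [C.rr] at h1 h5
    exact h1.mul h5

/-- Two points of regions in one orbit. -/
theorem Chain.inj (L : Lor B S) (C : Chain B S ρ Γ o rev n) {x : V} {k j : K} {γ : G}
    (hx : x ∈ Reg B S ρ Γ o n k) (hγ : γ ∈ ⨆ k, Γ k) (hy : ρ γ x ∈ Reg B S ρ Γ o n j) :
    (j = k ∧ γ ∈ Γ k) ∨ ∃ e, o e = j ∧ o (rev e) = k ∧ ∃ g ∈ Γ j, ∃ g' ∈ Γ k,
      γ = g * g' ∧ B (n e) (ρ g' x) = 0 := by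
  have all : ∀ γ j, Pth B ρ Γ o rev n x k j γ → ∀ j', Pth B ρ Γ o rev n x k j' γ :=
    fun γ j h j' => C.conn (fun j => Pth B ρ Γ o rev n x k j γ)
      (fun e h => h.move L C hx e rfl) j j' h
  have key : ∀ γ', Pth B ρ Γ o rev n x k k γ' → Pth B ρ Γ o rev n x k k (γ * γ') := by
    refine Subgroup.iSup_induction Γ (C := fun γ => ∀ γ', Pth B ρ Γ o rev n x k k γ' →
      Pth B ρ Γ o rev n x k k (γ * γ')) hγ (fun i g hg γ' h => ?_) (fun γ' h => by simpa using h)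
      fun a b ha hb γ' h => ?_
    · exact all _ _ ((all _ _ h i).mul hg) k
    · rw [mul_assoc]
      exact ha _ (hb _ h)
  have h := all _ _ (key 1 (Pth.base 1 (one_mem _))) j
  rw [mul_one] at h
  cases h with
  | base _ hg => exact Or.inl ⟨rfl, hg⟩
  | step e g γ h1 h2 h3 h4 =>
    have h5 := hy.2 e rfl _ (inv_mem h2)
    rw [rho_mul_apply, rho_inv_apply] at h5
    obtain ⟨h6, h7⟩ := h4.resolve_left (not_lt.2 h5)
    exact Or.inr ⟨e, rfl, h6, g, h2, γ, h7, rfl, le_antisymm h3 h5⟩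

/-- A region is precisely invariant under its group. -/
theorem Chain.inj_self (L : Lor B S) (C : Chain B S ρ Γ o rev n) {x : V} {k : K} {γ : G}
    (hx : x ∈ Reg B S ρ Γ o n k) (hγ : γ ∈ ⨆ k, Γ k) (hy : ρ γ x ∈ Reg B S ρ Γ o n k) :
    γ ∈ Γ k := by
  rcases C.inj L hx hγ hy with h | ⟨e, -, -, g, hg, g', hg', rfl, -⟩
  · exact h.2
  · exact mul_mem hg hg'

/-- A wall is precisely invariant under the edge group. -/
theorem Chain.wall_inj (L : Lor B S) (C : Chain B S ρ Γ o rev n) {x : V} {e : E} {γ : G}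
    (hx : x ∈ S) (hγ : γ ∈ ⨆ k, Γ k) (h : B (n e) x = 0) (h' : B (n e) (ρ γ x) = 0) :
    γ ∈ Γ (o e) ∧ γ ∈ Γ (o (rev e)) ∧ ρ γ (n e) = n e := by
  have h1 := C.inj_self L (C.wall_reg hx h) hγ (C.wall_reg ((C.iso_sup L hγ).2 x hx) h')
  exact ⟨h1, (C.pre e e rfl γ h1 x hx h.le h'.le).2⟩

/-- If the walls are locally finite, the regions cover the space. -/
theorem Chain.cover (L : Lor B S) (C : Chain B S ρ Γ o rev n)
    (lf : ∀ Q, IsCompact Q → Q ⊆ S →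
      {m | (∃ γ ∈ ⨆ k, Γ k, ∃ e, m = ρ γ (n e)) ∧ ∃ z ∈ Q, B m z = 0}.Finite)
    {k : K} {p : V} (hp : p ∈ Reg B S ρ Γ o n k) {x : V} (hx : x ∈ S) :
    ∃ γ ∈ ⨆ k, Γ k, ∃ j, ρ γ x ∈ Reg B S ρ Γ o n j := by
  have adj : ∀ γ ∈ ⨆ k, Γ k, ∀ v y, B (ρ γ v) y = B v (ρ γ⁻¹ y) := fun γ hγ v y => by
    rw [← (C.iso_sup L (inv_mem hγ)).1, rho_inv_apply]
  obtain ⟨Q, hQ, hQS, hQ2⟩ := L.prop {p} isCompact_singleton (by simpa using hp.1) (B p x)
  set F := {m | (∃ γ ∈ ⨆ k, Γ k, ∃ e, m = ρ γ (n e)) ∧ B m x < 0 ∧ 0 ≤ B m p} with hF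
  have fin : F.Finite := (lf Q hQ hQS).subset fun m hm => by
    obtain ⟨z, hz, h1, h2⟩ := L.cross hp.1 hx hm.2.1 hm.2.2
    exact ⟨hm.1, z, hQ2 p rfl z hz h2, h1⟩
  rcases F.eq_empty_or_nonempty with h | h
  · refine ⟨1, one_mem _, k, by simpa using hx, fun e he g hg => ?_⟩
    have hg' : g ∈ ⨆ k, Γ k := Subgroup.mem_iSup_of_mem _ hg
    by_contra hc
    have h1 : ρ g⁻¹ (n e) ∈ F := ⟨⟨_, inv_mem hg', e, rfl⟩, by
      rw [adj _ (inv_mem hg'), inv_inv]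
      simpa using hc, by
      rw [adj _ (inv_mem hg'), inv_inv]
      exact hp.2 e he g hg⟩
    simp [h] at h1
  obtain ⟨m, hmin⟩ := fin.exists_minimalFor (fun m => {y | y ∈ S ∧ B m y < 0}) F h
  obtain ⟨⟨γ, hγ, e, rfl⟩, h1, h2⟩ := hmin.prop
  refine ⟨γ⁻¹, inv_mem hγ, o (rev e), (C.iso_sup L (inv_mem hγ)).2 x hx, fun e' he g hg => ?_⟩
  have hg' : g ∈ ⨆ k, Γ k := Subgroup.mem_iSup_of_mem _ hg
  have hγ' := mul_mem hγ (inv_mem hg')
  have adj' : ∀ y, B (ρ (γ * g⁻¹) (n e')) y = B (n e') (ρ g (ρ γ⁻¹ y)) := fun y => by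
    rw [adj _ hγ', mul_inv_rev, inv_inv, rho_mul_apply]
  by_contra hc
  have nest : ∀ z ∈ S, B (ρ (γ * g⁻¹) (n e')) z ≤ 0 → B (ρ γ (n e)) z < 0 := fun z hz h3 => by
    by_contra h4
    rw [adj _ hγ] at h1 h4
    rw [adj'] at h3
    obtain ⟨rfl, -, h5⟩ := C.pre (rev e) e' he.symm g hg _ ((C.iso_sup L (inv_mem hγ)).2 z hz) (by
      rw [C.neg, map_neg, LinearMap.neg_apply]
      linarith) h3
    rw [← h5, (C.iso _ g hg).1, C.neg, map_neg, LinearMap.neg_apply] at hc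
    linarith
  have h3 : B (ρ (γ * g⁻¹) (n e')) x < 0 := by
    rw [adj']
    exact not_le.1 hc
  have h4 : 0 ≤ B (ρ (γ * g⁻¹) (n e')) p := by
    by_contra h4
    linarith [nest p hp.1 (not_le.1 h4).le]
  obtain ⟨z, hz, h5, -⟩ := L.cross hp.1 hx h3 h4
  have h6 := hmin.le_of_le (j := ρ (γ * g⁻¹) (n e')) ⟨⟨_, hγ', e', rfl⟩, h3, h4⟩
    (fun y hy => ⟨hy.1, nest y hy.1 hy.2.le⟩)
  linarith [(h6 (a := z) ⟨hz, nest z hz h5.le⟩).2]

end Chain

section Piece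

variable {ι τ : Type}

/-- Mirrors `a i` with Coxeter angles, walls `T t` that are perpendicular to or disjoint from
each mirror, and a point `p` inside. -/
structure Piece (B : V →ₗ[ℝ] V →ₗ[ℝ] ℝ) (S : Set V) (ρ : G →* V ≃ₗ[ℝ] V) (s : ι → G) (a : ι → V)
    (T : τ → V) (p : V) : Prop where
  unit : ∀ i, B (a i) (a i) = -1
  sq : ∀ i, s i * s i = 1
  act : ∀ i v, ρ (s i) v = v + (2 * B (a i) v) • a i
  cox : ∀ i j, i ≠ j → 1 ≤ B (a i) (a j) ∨
    ∃ m : ℕ, 2 ≤ m ∧ B (a i) (a j) = cos (π / m) ∧ (s i * s j) ^ m = 1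
  wall : ∀ t, B (T t) (T t) = -1
  perp : ∀ i t, B (a i) (T t) = 0 ∨ 1 ≤ B (a i) (T t)
  par : ∀ t t', t ≠ t' → 1 ≤ B (T t) (T t')
  mem : p ∈ S
  pa : ∀ i, 0 < B (a i) p
  pT : ∀ t, 0 < B (T t) p

/-- The tile cut out by mirrors and walls. -/
def Tile (B : V →ₗ[ℝ] V →ₗ[ℝ] ℝ) (S : Set V) (a : ι → V) (T : τ → V) : Set V :=
  {x | x ∈ S ∧ (∀ i, 0 ≤ B (a i) x) ∧ ∀ t, 0 ≤ B (T t) x}

/-- The group generated by the reflections in the mirrors perpendicular to `v`. -/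
def Wv (B : V →ₗ[ℝ] V →ₗ[ℝ] ℝ) (s : ι → G) (a : ι → V) (v : V) : Subgroup G :=
  Subgroup.closure (s '' {i | B (a i) v = 0})

variable {B : V →ₗ[ℝ] V →ₗ[ℝ] ℝ} {S : Set V} {ρ : G →* V ≃ₗ[ℝ] V} {s : ι → G} {a : ι → V}
  {T : τ → V} {p : V}

omit [TopologicalSpace V] in
theorem closure_le_W (s : ι → G) (J : Set ι) :
    Subgroup.closure (s '' J) ≤ Subgroup.closure (range s) :=
  Subgroup.closure_mono (image_subset_range s J)

theorem Piece.refl (L : Lor B S) (P : Piece B S ρ s a T p) : Refl (-B) ρ s a where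
  symm x y := by simp [L.symm x y]
  one i := by simp [P.unit]
  sq := P.sq
  act i v := by simp [P.act]
  cox i j h := by
    rcases P.cox i j h with h | ⟨m, h1, h2, h3⟩
    · exact Or.inl (by simpa using h)
    · exact Or.inr ⟨m, h1, by simp [h2], h3⟩

theorem Piece.iso (L : Lor B S) (P : Piece B S ρ s a T p) {w : G}
    (hw : w ∈ Subgroup.closure (range s)) : Iso B S (ρ w) :=
  ((Subgroup.closure_le ((isoG L).comap ρ)).2 (by
    rintro _ ⟨i, rfl⟩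
    exact L.iso_refl (P.unit i) (P.act i)) : _ ≤ _) hw

/-- The chamber theorem. -/
theorem Piece.chamber (L : Lor B S) (P : Piece B S ρ s a T p) {w : G}
    (hw : w ∈ Subgroup.closure (range s)) {x : V} (hx : ∀ i, 0 ≤ B (a i) x)
    (hwx : ∀ i, 0 ≤ B (a i) (ρ w x)) : ρ w x = x ∧ w ∈ Wv B s a x := by
  have h := (P.refl L).chamber hw (x := x) (by simpa using hx) (by simpa using hwx)
  simpa [Wv] using h

omit [TopologicalSpace V] in
theorem Piece.fix (P : Piece B S ρ s a T p) {v : V} {w : G} (hw : w ∈ Wv B s a v) :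
    ρ w v = v := by
  induction hw using Subgroup.closure_induction with
  | mem x hx =>
    obtain ⟨i, hi, rfl⟩ := hx
    rw [P.act, hi]
    simp
  | one => simp
  | mul x y _ _ hx hy => rw [rho_mul_apply, hy, hx]
  | inv x _ hx => rw [← hx, rho_inv_apply, hx]

theorem Piece.pd [Finite ι] (L : Lor B S) (P : Piece B S ρ s a T p) :
    PD S ρ (Subgroup.closure (range s)) := by
  refine L.pd (fun w hw => P.iso L hw) P.mem (U := ⋂ i, {y | 0 < B (a i) y})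
    (isOpen_iInter_of_finite fun i => isOpen_lt continuous_const (L.cont_right _))
    (mem_iInter.2 P.pa) fun w hw h => ?_
  have h1 := (P.chamber L hw (fun i => (P.pa i).le) fun i => (mem_iInter.1 h i).le).2
  have h2 : {i | B (a i) p = 0} = ∅ := eq_empty_of_forall_notMem fun i hi => (P.pa i).ne' hi
  simpa [Wv, h2] using h1

/-- The chambers of any set of mirrors cover the space. -/
theorem Piece.cover [Finite ι] (L : Lor B S) (P : Piece B S ρ s a T p) (J : Set ι) {x : V}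
    (hx : x ∈ S) : ∃ w ∈ Subgroup.closure (s '' J), ∀ i ∈ J, 0 ≤ B (a i) (ρ w x) := by
  obtain ⟨Q, hQ, hQS, hQ2⟩ := L.prop {p} isCompact_singleton (by simpa using P.mem) (B p x)
  have fin : {w | w ∈ Subgroup.closure (s '' J) ∧ B p (ρ w x) ≤ B p x}.Finite :=
    (P.pd L {x} Q isCompact_singleton (by simpa using hx) hQ hQS).subset fun w hw =>
      ⟨closure_le_W s J hw.1, x, rfl,
        hQ2 p rfl _ ((P.iso L (closure_le_W s J hw.1)).2 x hx) hw.2⟩
  obtain ⟨w, hw, hmin⟩ := Set.exists_min_image _ (fun w => B p (ρ w x)) fin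
    ⟨1, one_mem _, by simp⟩
  refine ⟨w, hw.1, fun i hi => ?_⟩
  by_contra hc
  have h1 : B p (ρ (s i * w) x) < B p (ρ w x) := by
    rw [rho_mul_apply, P.act, map_add, map_smul, smul_eq_mul, L.symm p (a i)]
    nlinarith [P.pa i]
  linarith [hmin (s i * w) ⟨mul_mem (Subgroup.subset_closure ⟨i, hi, rfl⟩) hw.1,
    h1.le.trans hw.2⟩]

/-- The outer side of a wall is covered by the wall group. -/
theorem Piece.out [Finite ι] (L : Lor B S) (P : Piece B S ρ s a T p) (t : τ) {z : V} (hz : z ∈ S)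
    (h : B (T t) z ≤ 0) : ∃ u ∈ Wv B s a (T t), (∀ i, 0 ≤ B (a i) (ρ u z)) ∧
      Wv B s a (ρ u z) ≤ Wv B s a (T t) ∧ B (T t) (ρ u z) = B (T t) z := by
  obtain ⟨u, hu, h1⟩ := P.cover L {i | B (a i) (T t) = 0} hz
  have hi := P.iso L (closure_le_W s _ hu)
  have h2 : B (T t) (ρ u z) = B (T t) z := by
    conv_lhs => rw [← P.fix (v := T t) hu]
    exact hi.1 _ _
  have h3 : ∀ i, B (a i) (T t) ≠ 0 → 0 < B (a i) (ρ u z) := fun i hi' =>
    L.apart (P.wall t) (P.unit i) (L.symm _ _ ▸ (P.perp i t).resolve_left hi') P.mem (P.pT t)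
      (P.pa i) (hi.2 z hz) (h2 ▸ h)
  refine ⟨u, hu, fun i => ?_, Subgroup.closure_mono (image_mono fun i hi' => ?_), h2⟩
  · by_cases h4 : B (a i) (T t) = 0
    · exact h1 i h4
    · exact (h3 i h4).le
  · by_contra h4
    exact (h3 i h4).ne' hi'

/-- The outer sides of the walls are precisely invariant. -/
theorem Piece.pre [Finite ι] (L : Lor B S) (P : Piece B S ρ s a T p) {t t' : τ} {w : G}
    (hw : w ∈ Subgroup.closure (range s)) {z : V} (hz : z ∈ S) (h : B (T t) z ≤ 0)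
    (h' : B (T t') (ρ w z) ≤ 0) : t = t' ∧ w ∈ Wv B s a (T t) := by
  obtain ⟨u, hu, a1, a2, a3⟩ := P.out L t hz h
  obtain ⟨u', hu', b1, -, b3⟩ := P.out L t' ((P.iso L hw).2 z hz) h'
  have hm : u' * w * u⁻¹ ∈ Subgroup.closure (range s) :=
    mul_mem (mul_mem (closure_le_W s _ hu') hw) (inv_mem (closure_le_W s _ hu))
  have e : ρ (u' * w * u⁻¹) (ρ u z) = ρ u' (ρ w z) := by
    rw [rho_mul_apply, rho_mul_apply, rho_inv_apply]
  obtain ⟨c1, c2⟩ := P.chamber L hm a1 (by rw [e]; exact b1)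
  have ht : t = t' := by
    by_contra hne
    have h1 := L.apart (P.wall t) (P.wall t') (P.par t t' hne) P.mem (P.pT t) (P.pT t')
      ((P.iso L (closure_le_W s _ hu)).2 z hz) (a3 ▸ h)
    rw [← c1, e, b3] at h1
    linarith
  subst ht
  refine ⟨rfl, ?_⟩
  have h2 := mul_mem (mul_mem (inv_mem hu') (a2 c2)) hu
  simpa [mul_assoc] using h2

/-- The translates of the tile lie inside all walls. -/
theorem Piece.tile_in [Finite ι] (L : Lor B S) (P : Piece B S ρ s a T p) {x : V}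
    (hx : x ∈ Tile B S a T) {w : G} (hw : w ∈ Subgroup.closure (range s)) (t : τ) :
    0 ≤ B (T t) (ρ w x) := by
  by_contra hc
  obtain ⟨u, hu, a1, -, a3⟩ := P.out L t ((P.iso L hw).2 x hx.1) (not_le.1 hc).le
  have h1 := (P.chamber L (mul_mem (closure_le_W s _ hu) hw) hx.2.1 (by
    simpa only [rho_mul_apply] using a1)).1
  rw [rho_mul_apply] at h1
  rw [← a3, h1] at hc
  exact hc (hx.2.2 t)

/-- A point inside all translates of the walls lies in a translate of the tile. -/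
theorem Piece.to_tile [Finite ι] (L : Lor B S) (P : Piece B S ρ s a T p) {x : V} (hx : x ∈ S)
    (h : ∀ w ∈ Subgroup.closure (range s), ∀ t, 0 ≤ B (T t) (ρ w x)) :
    ∃ w ∈ Subgroup.closure (range s), ρ w x ∈ Tile B S a T := by
  obtain ⟨w, hw, h1⟩ := P.cover L univ hx
  have hw' := closure_le_W s _ hw
  exact ⟨w, hw', (P.iso L hw').2 x hx, fun i => h1 i trivial, h w hw'⟩

/-- A wall is covered by the translates of its face under the wall group. -/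
theorem Piece.wall_tile [Finite ι] (L : Lor B S) (P : Piece B S ρ s a T p) (t : τ) {z : V}
    (hz : z ∈ S) (h : B (T t) z = 0) :
    ∃ u ∈ Wv B s a (T t), ρ u z ∈ Tile B S a T ∧ B (T t) (ρ u z) = 0 := by
  obtain ⟨u, hu, a1, -, a3⟩ := P.out L t hz h.le
  have hS := (P.iso L (closure_le_W s _ hu)).2 z hz
  refine ⟨u, hu, ⟨hS, a1, fun t' => ?_⟩, a3.trans h⟩
  by_cases e : t = t'
  · exact e ▸ (a3.trans h).ge
  · exact (L.apart (P.wall t) (P.wall t') (P.par t t' e) P.mem (P.pT t) (P.pT t') hS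
      (a3.trans h).le).le

end Piece

end Pool.Agent.Lib.MP_36248f_gt
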