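import Pool.Agent.Lib.MP_36248f_gt.Ex

/-!
The chain of tiles around the cusp.
-/

namespace Pool.Agent.Lib.MP_36248f_gt

/-- a tile at the cusp: piece `i`, flag `a`, signs `e`, `f`, scale `1 / d`, shift `x / 50` in the
`x` direction and `(q0 + q1 hN + q2 hM) / 25` in the `y` direction -/
structure Strip where
  i : Fin 7
  a : Fin 120
  e : ℤ
  f : ℤ
  d : ℕ
  x : ℤ
  q0 : ℤ
  q1 : ℤ
  q2 : ℤ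
  deriving DecidableEq

/-- the height of the lower wall of the tile -/
noncomputable def Strip.y (c : Strip) : ℝ := (c.q0 + c.q1 * hN + c.q2 * hM) / 25

/-- the tile is placed by an element of the group as the data say -/
def Strip.Ok (c : Strip) : Prop :=
  ∃ γ ∈ Gam, IsAf (γ * pos c.i * rp c.a) c.e c.f (1 / c.d) (c.x / 50) c.y

/-- the 84 tiles in their order along the knot -/
def strips : List Strip :=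
  [⟨0, 0, 1, 1, 1, 0, 0, 0, 0⟩,
  ⟨1, 0, 1, -1, 1, 0, 0, 0, 0⟩,
  ⟨2, 0, 1, -1, 1, 0, 0, 0, -25⟩,
  ⟨3, 0, -1, -1, 1, 45, 0, -25, -25⟩,
  ⟨4, 0, -1, -1, 1, 45, 0, -25, -50⟩,
  ⟨5, 0, 1, -1, 1, 10, 0, -50, -50⟩,
  ⟨6, 0, 1, -1, 1, 10, 0, -50, -75⟩,
  ⟨6, 119, 1, 1, 1, 10, -25, -50, -75⟩,
  ⟨5, 95, -1, 1, 1, 10, -25, -50, -100⟩,
  ⟨4, 42, 1, 1, 25, 23, -25, -51, -100⟩,
  ⟨3, 42, 1, 1, 25, 33, -25, -51, -101⟩,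
  ⟨2, 63, -1, 1, 1, 88, -25, -76, -101⟩,
  ⟨1, 47, -1, 1, 1, 38, -25, -76, -126⟩,
  ⟨0, 47, -1, -1, 1, 38, -25, -76, -126⟩,
  ⟨0, 114, -1, 1, 1, 38, -50, -76, -126⟩,
  ⟨1, 109, 1, -1, 1, 38, -50, -76, -126⟩,
  ⟨2, 109, 1, -1, 1, 38, -50, -76, -151⟩,
  ⟨3, 83, -1, -1, 1, 73, -50, -101, -151⟩,
  ⟨4, 47, -1, -1, 1, 73, -50, -101, -176⟩,
  ⟨5, 63, 1, -1, 1, 88, -50, -126, -176⟩,
  ⟨6, 95, 1, -1, 1, 88, -50, -126, -201⟩,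
  ⟨6, 55, 1, 1, 1, 88, -75, -126, -201⟩,
  ⟨5, 64, -1, 1, 1, 88, -75, -126, -226⟩,
  ⟨4, 26, 1, 1, 25, 97, -75, -127, -226⟩,
  ⟨3, 111, 1, 1, 25, 99, -75, -127, -227⟩,
  ⟨2, 112, -1, 1, 1, 152, -75, -152, -227⟩,
  ⟨1, 112, -1, 1, 1, 152, -75, -152, -252⟩,
  ⟨0, 112, -1, -1, 1, 152, -75, -152, -252⟩,
  ⟨0, 53, -1, 1, 1, 152, -100, -152, -252⟩,
  ⟨1, 63, 1, -1, 1, 152, -100, -152, -252⟩,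
  ⟨2, 95, 1, -1, 1, 152, -100, -152, -277⟩,
  ⟨3, 112, -1, -1, 1, 187, -100, -177, -277⟩,
  ⟨4, 112, -1, -1, 1, 187, -100, -177, -302⟩,
  ⟨5, 83, 1, -1, 1, 142, -100, -202, -302⟩,
  ⟨6, 47, 1, -1, 1, 142, -100, -202, -327⟩,
  ⟨6, 114, 1, 1, 1, 142, -125, -202, -327⟩,
  ⟨5, 109, -1, 1, 1, 142, -125, -202, -352⟩,
  ⟨4, 95, 1, 1, 1, 97, -125, -227, -352⟩,
  ⟨3, 63, 1, 1, 1, 97, -125, -227, -377⟩,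
  ⟨2, 64, -1, 1, 1, 162, -125, -252, -377⟩,
  ⟨1, 64, -1, 1, 1, 162, -125, -252, -402⟩,
  ⟨0, 64, -1, -1, 1, 162, -125, -252, -402⟩,
  ⟨0, 87, -1, 1, 1, 162, -150, -252, -402⟩,
  ⟨1, 95, 1, -1, 1, 162, -150, -252, -402⟩,
  ⟨2, 118, 1, -1, 1, 162, -150, -252, -427⟩,
  ⟨3, 118, -1, -1, 1, 167, -150, -277, -427⟩,
  ⟨4, 83, -1, -1, 1, 167, -150, -277, -452⟩,
  ⟨5, 15, 1, -1, 25, 158, -150, -302, -452⟩,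
  ⟨6, 79, 1, -1, 25, 158, -150, -302, -453⟩,
  ⟨6, 16, 1, 1, 25, 158, -151, -302, -453⟩,
  ⟨5, 42, -1, 1, 25, 164, -151, -302, -454⟩,
  ⟨4, 60, 1, 1, 1, 139, -151, -327, -454⟩,
  ⟨3, 60, 1, 1, 1, 139, -151, -327, -479⟩,
  ⟨2, 47, -1, 1, 1, 154, -151, -352, -479⟩,
  ⟨1, 83, -1, 1, 1, 154, -151, -352, -504⟩,
  ⟨0, 83, -1, -1, 1, 154, -151, -352, -504⟩,
  ⟨0, 68, -1, 1, 1, 154, -176, -352, -504⟩,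
  ⟨1, 60, 1, -1, 1, 154, -176, -352, -504⟩,
  ⟨2, 60, 1, -1, 1, 154, -176, -352, -529⟩,
  ⟨3, 64, -1, -1, 1, 159, -176, -377, -529⟩,
  ⟨4, 64, -1, -1, 1, 159, -176, -377, -554⟩,
  ⟨5, 47, 1, -1, 1, 104, -176, -402, -554⟩,
  ⟨6, 63, 1, -1, 1, 154, -176, -402, -579⟩,
  ⟨6, 105, 1, 1, 1, 154, -201, -402, -579⟩,
  ⟨5, 112, -1, 1, 1, 154, -201, -402, -604⟩,
  ⟨4, 109, 1, 1, 1, 139, -201, -427, -604⟩,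
  ⟨3, 109, 1, 1, 1, 139, -201, -427, -629⟩,
  ⟨2, 80, -1, 1, 25, 154, -201, -428, -629⟩,
  ⟨1, 97, -1, 1, 25, 148, -201, -428, -630⟩,
  ⟨0, 97, -1, -1, 25, 148, -201, -428, -630⟩,
  ⟨0, 34, -1, 1, 25, 148, -202, -428, -630⟩,
  ⟨1, 25, 1, -1, 25, 146, -202, -428, -630⟩,
  ⟨2, 22, 1, -1, 25, 146, -202, -428, -631⟩,
  ⟨3, 47, -1, -1, 1, 133, -202, -429, -631⟩,
  ⟨4, 63, -1, -1, 1, 83, -202, -429, -656⟩,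
  ⟨5, 60, 1, -1, 1, 78, -202, -454, -656⟩,
  ⟨6, 60, 1, -1, 1, 78, -202, -454, -681⟩,
  ⟨6, 91, 1, 1, 1, 78, -227, -454, -681⟩,
  ⟨5, 118, -1, 1, 1, 78, -227, -454, -706⟩,
  ⟨4, 118, 1, 1, 1, 63, -227, -479, -706⟩,
  ⟨3, 95, 1, 1, 1, 63, -227, -479, -731⟩,
  ⟨2, 83, -1, 1, 1, 58, -227, -504, -731⟩,
  ⟨1, 118, -1, 1, 1, 58, -227, -504, -756⟩,
  ⟨0, 118, -1, -1, 1, 58, -227, -504, -756⟩]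

end Pool.Agent.Lib.MP_36248f_gt
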