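import Pool.Agent.Lib.MP_36248f_gt.Tp.All
import Pool.Agent.Lib.MP_36248f_gt.Tp.Asm

/-!
The quotient of the positive cone is the complement of a knot.
-/

open Set

namespace Pool.Agent.Lib.MP_36248f_gt

namespace Tp

theorem top_chk {Y : List ℕ} (m : ∃ F, Mdl Y F) {KL VL X : List ℕ} {p : Prog} {X2 : List ℕ}
    {G : List (ℕ × List ℕ)} (hb : blowOk KL VL X p X2 G = true)
    (h0 : Mq (outs (prd KL) X2 (flat G)) Y) {KE : List (ℕ × ℕ)}
    (h1 : subOk KL X KE = true) {q : Prog} {b0 b1 b2 : ℕ} {D' : List ℕ}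
    (h2 : triOk KE q b0 b1 b2 D' = true) {a0 a1 a2 a3 a4 : ℕ} {D : List ℕ}
    (h3 : simOk a0 a1 a2 a3 a4 D = true) (h4 : Mq X D) :
    ∃ K : Set S3, IsKnot K ∧ ∃ π₀ : V → S3, ContinuousOn π₀ CC ∧ π₀ '' CC = Kᶜ ∧
    (∀ v ∈ CC, ∀ v' ∈ CC, π₀ v = π₀ v' ↔ ∃ γ ∈ Gam, ∃ c : ℝ, 0 < c ∧ γ v = c • v') ∧
    ∀ U ⊆ CC, IsOpen U → IsOpen (π₀ '' U) := by
  obtain ⟨F, m⟩ := m
  obtain ⟨p0, h0⟩ := h0
  obtain ⟨p1, h4⟩ := h4
  obtain ⟨K, h, g, hK, hc, P⟩ := sph h1 h2 h3 h4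
  obtain ⟨f, f', b, c1, c2, sc⟩ := blow hb
  exact ⟨K, hK, top_of m hc ((P.comp b c1 c2 cn_cone sc).comp h0.symm p0.bw_cont.continuousOn
    p0.fw_cont.continuousOn cn_cone fun w _ _ hc => p0.bw_smul hc.le w)⟩

theorem mem_bb0 (n : ℕ) : n ∈ BB 0 ↔ False := List.mem_nil_iff n

theorem mem_bb6 (n : ℕ) : n ∈ BB 6 ↔ False := List.mem_nil_iff n

theorem sphere : Mq U0 D7 := by
  have s0 : Mq U0 (rapp (CO 0) U1) := mv0.mq cop0
    (fun n => by rw [U0, mem_rapp, mem_rapp, mem_bb0, or_false]) fun n => mem_rapp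
  have s1 : Mq (rapp (CO 0) U1) (rapp (CO 1) U2) := mv1.mq cop1
    (fun n => by rw [U1, mem_rapp, mem_rapp, mem_rapp, same_mem sam1, or_left_comm,
      or_assoc]) fun n => mem_rapp
  have s2 : Mq (rapp (CO 1) U2) (rapp (CO 2) U3) := mv2.mq cop2
    (fun n => by rw [U2, mem_rapp, mem_rapp, mem_rapp, same_mem sam2, or_left_comm,
      or_assoc]) fun n => mem_rapp
  have s3 : Mq (rapp (CO 2) U3) (rapp (CO 3) U4) := mv3.mq cop3
    (fun n => by rw [U3, mem_rapp, mem_rapp, mem_rapp, same_mem sam3, or_left_comm,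
      or_assoc]) fun n => mem_rapp
  have s4 : Mq (rapp (CO 3) U4) (rapp (CO 4) U5) := mv4.mq cop4
    (fun n => by rw [U4, mem_rapp, mem_rapp, mem_rapp, same_mem sam4, or_left_comm,
      or_assoc]) fun n => mem_rapp
  have s5 : Mq (rapp (CO 4) U5) (rapp (CO 5) U6) := mv5.mq cop5
    (fun n => by rw [U5, mem_rapp, mem_rapp, mem_rapp, same_mem sam5, or_left_comm,
      or_assoc]) fun n => mem_rapp
  have s6 : Mq (rapp (CO 5) U6) (rapp (CO 6) (CO 5)) := mv6.mq cop6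
    (fun n => by rw [U6, mem_rapp, mem_rapp, mem_bb6, or_false, or_comm]) fun n => mem_rapp
  exact s0.trans (s1.trans (s2.trans (s3.trans (s4.trans (s5.trans (s6.trans (mq_of q7)))))))

theorem mem_YY {k : ℕ} (h : frcT (RR k) (fun R => eqL (trL R (XX (ty k)) []) (rapp (YY k) [])) = true)
    (n : ℕ) : n ∈ YY k ↔ n ∈ trL (RR k) (XX (ty k)) [] := by
  rw [frcT_eq] at h
  rw [eqL_eq h, mem_rapp]
  simp

theorem mdl : ∃ F, Mdl (cxY RR XX 7 []) F := by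
  have pc : ∀ t, ∃ p, Pc t (NT t) p (XX t) (WL t) (FF t) := fun t => by
    cases t
    exacts [pcS, pcN, pcM]
  choose p pc using pc
  refine model pc (T := TW) (ms := MS) (fun k hk => ?_)
    (fun j hj i hi => upTo_iff.1 (upTo_iff.1 hfar j hj) i hi) fun k hk => ⟨?_, ?_⟩
  · have := upTo_iff.1 hRR k hk
    rwa [frcT_eq, cnd_and] at this
  · have := upTo_iff.1 hnear k hk
    rwa [frcT_eq, frcT_eq, frcT_eq] at this
  · have h0 := hgl0
    have h1 := hgl1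
    have h2 := hgl2
    have h3 := hgl3
    have h4 := hgl4
    have h5 := hgl5
    rw [frcT_eq, frcL_eq, wallb_frcF] at h0 h1 h2 h3 h4 h5
    interval_cases k
    exacts [h0, h1, h2, h3, h4, h5]

end Tp

open Tp in
theorem top : ∃ K : Set S3, IsKnot K ∧ ∃ π₀ : V → S3, ContinuousOn π₀ CC ∧ π₀ '' CC = Kᶜ ∧
    (∀ v ∈ CC, ∀ v' ∈ CC, π₀ v = π₀ v' ↔ ∃ γ ∈ Gam, ∃ c : ℝ, 0 < c ∧ γ v = c • v') ∧
    ∀ U ⊆ CC, IsOpen U → IsOpen (π₀ '' U) := by
  have h8 := sub8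
  rw [frcL_eq] at h8
  refine top_chk mdl (blowOk_of b1 b2 b3 b4 b5 b6) (col.congr fun n => ?_) h8 tri3 sim7 sphere
  simp only [mem_rapp, mem_YY hY0, mem_YY hY1, mem_YY hY2, mem_YY hY3, mem_YY hY4, mem_YY hY5,
    mem_YY hY6, mem_cxY, List.not_mem_nil, false_or, Nat.exists_lt_succ_right, Nat.not_lt_zero,
    false_and, exists_false, or_assoc]

end Pool.Agent.Lib.MP_36248f_gt
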